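import Pool.Agent.Work.MP_0f6836_lc.PTO.HB

/-!
# Block HC: coding of finite sequences (Gödel's `β` function) in a model of `RCA_0`
-/

set_option linter.unusedSectionVars false
set_option synthInstance.maxSize 2000

namespace Kriz.PTO

universe u

variable {M : Type u} [CommSemiring M] [LinearOrder M] [IsStrictOrderedRing M] {S : Set (Set M)}

/-- the `i`-th entry of the sequence coded by `s` is `y`: `s = (c, d)` and `y` is the remainder of
`c` modulo `1 + (i + 1) d` -/
def Bt (s i y : M) : Prop := ∃ c, c < s + 1 ∧ ∃ d, d < s + 1 ∧ s = pr c d ∧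
  y < 1 + (i + 1) * d ∧ ∃ q, q < s + 1 ∧ c = q * (1 + (i + 1) * d) + y

instance d0_Bt [Ne S] (f g k : (ℕ → M) → M) [Tf f] [Tf g] [Tf k] :
    D0 S (fun v => Bt (f v) (g v) (k v)) := by
  unfold Bt
  infer_instance

theorem Bt_unique (S : Set (Set M)) [Fact (IsRCA0 S)] {s i y z : M} (h : Bt s i y) (h' : Bt s i z) : y = z := by
  have H : IsRCA0 S := Fact.out
  obtain ⟨c, -, d, -, hs, hy, q, -, hc⟩ := h
  obtain ⟨c', -, d', -, hs', hz, q', -, hc'⟩ := h'
  obtain ⟨rfl, rfl⟩ := H.pr_inj.1 (hs.symm.trans hs')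
  exact (H.div_unique hy hz (hc.symm.trans hc')).2

theorem Bt_le (S : Set (Set M)) [Fact (IsRCA0 S)] {s i y : M} (h : Bt s i y) : y ≤ s := by
  have H : IsRCA0 S := Fact.out
  obtain ⟨c, hc1, d, -, -, -, q, -, hc⟩ := h
  have h1 : y ≤ c := by
    rw [hc]
    exact H.le_add_left' _ _
  exact h1.trans ((H.lt_succ_iff _ _).1 hc1)

/-- common multiples -/
theorem exists_multiple (S : Set (Set M)) [Fact (IsRCA0 S)] (n : M) :
    ∃ d, 0 < d ∧ n ≤ d ∧ ∀ i, i < n → ∃ q, q < d + 1 ∧ d = q * (i + 1) := by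
  have H : IsRCA0 S := Fact.out
  revert n
  refine ind1 S (fun n => ∃ d, 0 < d ∧ n ≤ d ∧ ∀ i, i < n → ∃ q, q < d + 1 ∧ d = q * (i + 1))
    ?_ ?_
  · refine ⟨1, zero_lt_one, zero_le_one, fun i hi => absurd hi (H.not_lt_zero i)⟩
  · rintro n ⟨d, hd0, hnd, hd⟩
    have hd1 : 1 ≤ d := by
      have := (H.succ_le_iff 0 d).2 hd0
      rwa [zero_add] at this
    have hn1 : 1 ≤ n + 1 := by
      have := H.le_add_left' 1 n
      exact this
    have hdd : d ≤ d * (n + 1) := by
      calc d = d * 1 := (mul_one d).symm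
        _ ≤ d * (n + 1) := mul_le_mul_of_nonneg_left hn1 (H.zero_le d)
    refine ⟨d * (n + 1), lt_of_lt_of_le hd0 hdd, ?_, fun i hi => ?_⟩
    · calc n + 1 = 1 * (n + 1) := (one_mul _).symm
        _ ≤ d * (n + 1) := mul_le_mul_of_nonneg_right hd1 (H.zero_le _)
    · rcases ((H.lt_succ i n).1 hi) with hi | rfl
      · obtain ⟨q, hq, hq'⟩ := hd i hi
        refine ⟨q * (n + 1), ?_, ?_⟩
        · rw [H.lt_succ_iff]
          exact mul_le_mul_of_nonneg_right ((H.lt_succ_iff _ _).1 hq) (H.zero_le _)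
        · calc d * (n + 1) = (q * (i + 1)) * (n + 1) := by rw [← hq']
            _ = q * (n + 1) * (i + 1) := by ring
      · exact ⟨d, (H.lt_succ_iff _ _).2 hdd, rfl⟩

/-- the moduli are invertible modulo each other -/
theorem hc_inv (H : IsRCA0 S) {d k e q : M} (hd : 0 < d) (hq : d = q * e) :
    ∃ u w, u * (1 + (k + 1) * d) = w * (1 + (k + e + 1) * d) + 1 := by
  obtain ⟨d', hd'⟩ := H.exists_add ((H.succ_le_iff 0 d).2 hd)
  rw [zero_add] at hd'
  have h1 : (k + e + 1) * (k + e + 1) * q * (1 + (k + 1) * d) + 1 =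
      ((k + e + 1) * (k + 1) * q + 1) * (1 + (k + e + 1) * d) := by
    rw [hq]
    ring
  refine ⟨(k + e + 1) * (k + e + 1) * q * ((k + e + 1) * d),
    (k + e + 1) * (k + e + 1) * (k + 1) * q * d + (k + e) * d + d', ?_⟩
  apply add_right_cancel (b := 1 + (k + e + 1) * d)
  calc (k + e + 1) * (k + e + 1) * q * ((k + e + 1) * d) * (1 + (k + 1) * d) +
        (1 + (k + e + 1) * d)
      = ((k + e + 1) * (k + e + 1) * q * (1 + (k + 1) * d) + 1) * ((k + e + 1) * d) + 1 := by ring
    _ = ((k + e + 1) * (k + 1) * q + 1) * (1 + (k + e + 1) * d) * ((k + e + 1) * d) + 1 := by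
        rw [h1]
    _ = ((k + e + 1) * (k + e + 1) * (k + 1) * q * d + (k + e) * d + d) *
          (1 + (k + e + 1) * d) + 1 := by ring
    _ = ((k + e + 1) * (k + e + 1) * (k + 1) * q * d + (k + e) * d + (1 + d')) *
          (1 + (k + e + 1) * d) + 1 := by rw [← hd']
    _ = ((k + e + 1) * (k + e + 1) * (k + 1) * q * d + (k + e) * d + d') *
          (1 + (k + e + 1) * d) + 1 + (1 + (k + e + 1) * d) := by ring

/-- the Chinese remainder theorem for the moduli `1 + (i + 1) d` -/
theorem crt (S : Set (Set M)) [Fact (IsRCA0 S)] (R : M → M → Prop) [hR : D0 S (fun v => R (v 0) (v 1))] (n b : M)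
    (h : ∀ i, i < n → ∃ y, y < b ∧ R i y) :
    ∃ c d, b ≤ d ∧ ∀ i, i < n → ∃ y, y < b ∧ R i y ∧ ∃ q, c = q * (1 + (i + 1) * d) + y := by
  have H : IsRCA0 S := Fact.out
  have hRR : ∀ (f g : (ℕ → M) → M) [Tf f] [Tf g], D0 S (fun v => R (f v) (g v)) :=
    fun f g => D0.comp2 hR f g
  obtain ⟨d, hd0, hnd, hdm⟩ := exists_multiple S (n + b)
  have hbd : b ≤ d := (H.le_add_left' b n).trans hnd
  have key : ∀ k, n < k ∨ ∃ c P, (∀ i, i < k → ∃ p, P = p * (1 + (i + 1) * d)) ∧
      (∀ j, j < n → j < k ∨ ∃ u w, u * P = w * (1 + (j + 1) * d) + 1) ∧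
      (∀ i, i < k → ∃ y, (y < b ∧ R i y) ∧ ∃ q, c = q * (1 + (i + 1) * d) + y) := by
    refine ind1 S _ ?_ ?_
    · refine Or.inr ⟨0, 1, fun i hi => absurd hi (H.not_lt_zero i), fun j _ => Or.inr ⟨1, 0, ?_⟩,
        fun i hi => absurd hi (H.not_lt_zero i)⟩
      ring
    · intro k hk
      rcases hk with hk | ⟨c, P, hP, hInv, hc⟩
      · exact Or.inl (hk.trans (H.lt_self_succ k))
      rcases lt_or_ge k n with hkn | hkn
      · right
        obtain ⟨y, hy, hRy⟩ := h k hkn
        obtain ⟨u, w, huw⟩ := (hInv k hkn).resolve_left (lt_irrefl k)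
        refine ⟨c + u * (y + (k + 1) * d * c) * P, P * (1 + (k + 1) * d), ?_, ?_, ?_⟩
        · intro i hi
          rcases ((H.lt_succ i k).1 hi) with hi | rfl
          · obtain ⟨p, hp⟩ := hP i hi
            exact ⟨p * (1 + (k + 1) * d), by rw [hp]; ring⟩
          · exact ⟨P, rfl⟩
        · intro j hj
          rcases lt_or_ge j (k + 1) with hjk | hjk
          · exact Or.inl hjk
          right
          have hkj : k < j := (H.succ_le_iff k j).1 hjk
          obtain ⟨u', w', huw'⟩ := (hInv j hj).resolve_left (not_lt.2 hkj.le)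
          obtain ⟨e, he⟩ := H.exists_add hkj.le
          have he0 : 0 < e := by
            rcases (H.zero_le e).lt_or_eq with h0 | h0
            · exact h0
            · rw [← h0, add_zero] at he
              exact absurd he hkj.ne'
          obtain ⟨e', he'⟩ := H.exists_add ((H.succ_le_iff 0 e).2 he0)
          have he'n : e' < n + b := by
            have h1 : e' < e := by
              rw [he', zero_add, add_comm]
              exact H.lt_self_succ e'
            have h2 : e ≤ j := by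
              rw [he]
              exact H.le_add_left' _ _
            exact h1.trans_le (h2.trans (hj.le.trans (H.le_add_right' _ _)))
          obtain ⟨q, -, hq⟩ := hdm e' he'n
          have hq' : d = q * e := by
            rw [hq, he']
            ring
          obtain ⟨u2, w2, h2⟩ := hc_inv H (k := k) hd0 hq'
          rw [← he] at h2
          refine ⟨u' * u2, w' * w2 * (1 + (j + 1) * d) + w' + w2, ?_⟩
          calc u' * u2 * (P * (1 + (k + 1) * d)) = (u' * P) * (u2 * (1 + (k + 1) * d)) := by ring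
            _ = (w' * (1 + (j + 1) * d) + 1) * (w2 * (1 + (j + 1) * d) + 1) := by rw [huw', h2]
            _ = (w' * w2 * (1 + (j + 1) * d) + w' + w2) * (1 + (j + 1) * d) + 1 := by ring
        · intro i hi
          rcases ((H.lt_succ i k).1 hi) with hi | rfl
          · obtain ⟨z, hz, q, hq⟩ := hc i hi
            obtain ⟨p, hp⟩ := hP i hi
            refine ⟨z, hz, q + u * (y + (k + 1) * d * c) * p, ?_⟩
            calc c + u * (y + (k + 1) * d * c) * P
                = c + u * (y + (k + 1) * d * c) * (p * (1 + (i + 1) * d)) := by rw [← hp]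
              _ = (q * (1 + (i + 1) * d) + z) +
                    u * (y + (k + 1) * d * c) * (p * (1 + (i + 1) * d)) := by
                  nth_rewrite 1 [hq]; rfl
              _ = (q + u * (y + (k + 1) * d * c) * p) * (1 + (i + 1) * d) + z := by ring
          · refine ⟨y, ⟨hy, hRy⟩, c + w * (y + (i + 1) * d * c), ?_⟩
            calc c + u * (y + (i + 1) * d * c) * P = c + (y + (i + 1) * d * c) * (u * P) := by ring
              _ = c + (y + (i + 1) * d * c) * (w * (1 + (i + 1) * d) + 1) := by rw [huw]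
              _ = (c + w * (y + (i + 1) * d * c)) * (1 + (i + 1) * d) + y := by ring
      · exact Or.inl (lt_of_le_of_lt hkn (H.lt_self_succ k))
  rcases key n with h0 | ⟨c, P, -, -, hc⟩
  · exact absurd h0 (lt_irrefl n)
  · refine ⟨c, d, hbd, fun i hi => ?_⟩
    obtain ⟨y, ⟨hy, hRy⟩, hq⟩ := hc i hi
    exact ⟨y, hy, hRy, hq⟩

/-- a `Σ₁` relation is the projection of a bounded one -/
theorem hc_split {R : M → M → Prop} (hR : S1 S (fun v => R (v 0) (v 1))) :
    ∃ Q : M → M → M → Prop, D0 S (fun v => Q (v 0) (v 1) (v 2)) ∧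
      ∀ i y, R i y ↔ ∃ m, Q m i y := by
  obtain ⟨Q, hQ, hQR⟩ := hR.out
  refine ⟨fun m i y => Q m (push i (push y (fun _ => 0))), ?_,
    fun i y => hQR (push i (push y (fun _ => 0)))⟩
  have h := hQ.compAll
    (fun i => if i = 0 then fun v => v 0 else if i = 1 then fun v => v 1 else
      if i = 2 then fun v => v 2 else fun _ => 0)
    (fun i => if i = 0 then .var 0 else if i = 1 then .var 2 else
      if i = 2 then .var 4 else .zero) (fun _ => 0)
    (fun i v => by
      by_cases h0 : i = 0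
      · subst h0
        exact (mix_even v _ 0).symm
      · by_cases h1 : i = 1
        · subst h1
          exact (mix_even v _ 1).symm
        · by_cases h2 : i = 2
          · subst h2
            exact (mix_even v _ 2).symm
          · simp only [h0, h1, h2, if_false]
            rfl)
  refine h.congr fun v => ?_
  have : (fun i => (fun i => if i = 0 then fun v : ℕ → M => v 0 else
      if i = 1 then fun v => v 1 else if i = 2 then fun v => v 2 else fun _ => 0) (i + 1) v) =
      push (v 1) (push (v 2) (fun _ => 0)) := by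
    funext i
    rcases i with _ | _ | i
    · rfl
    · rfl
    · simp [push]
  rw [this]
  rfl

/-- coding of sequences -/
theorem coding (S : Set (Set M)) [Fact (IsRCA0 S)] (R : M → M → Prop) [hR : S1 S (fun v => R (v 0) (v 1))] (n : M)
    (h : ∀ i, i < n → ∃ y, R i y) : ∃ s, ∀ i, i < n → ∃ y, Bt s i y ∧ R i y := by
  have H : IsRCA0 S := Fact.out
  obtain ⟨Q, hQ, hQR⟩ := hc_split hR
  have hQ3 : ∀ (f g k : (ℕ → M) → M) [Tf f] [Tf g] [Tf k], D0 S (fun v => Q (f v) (g v) (k v)) :=
    fun f g k => D0.comp3 hQ f g k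
  obtain ⟨b, hb⟩ := collection S (fun i t => ∃ y, y < t + 1 ∧ ∃ m, m < t + 1 ∧ Q m i y) n
    fun i hi => by
      obtain ⟨y, hy⟩ := h i hi
      obtain ⟨m, hm⟩ := (hQR i y).1 hy
      refine ⟨y + m, y, ?_, m, ?_, hm⟩
      · rw [H.lt_succ_iff]
        exact H.le_add_right' _ _
      · rw [H.lt_succ_iff]
        exact H.le_add_left' _ _
  obtain ⟨c, d, hbd, hcd⟩ := crt S (fun i y => ∃ m, m < b ∧ Q m i y) n b fun i hi => by
    obtain ⟨t, ht, y, hy, m, hm, hQ'⟩ := hb i hi
    exact ⟨y, ((H.lt_succ_iff _ _).1 hy).trans_lt ht, m, ((H.lt_succ_iff _ _).1 hm).trans_lt ht,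
      hQ'⟩
  refine ⟨pr c d, fun i hi => ?_⟩
  obtain ⟨y, hy, ⟨m, -, hm⟩, q, hq⟩ := hcd i hi
  refine ⟨y, ⟨c, (H.lt_succ_iff _ _).2 (H.le_pr_left c d), d,
    (H.lt_succ_iff _ _).2 (H.le_pr_right c d), rfl, ?_, q, ?_, hq⟩, (hQR i y).2 ⟨m, hm⟩⟩
  · have h1 : d ≤ (i + 1) * d := by
      calc d = 1 * d := (one_mul d).symm
        _ ≤ (i + 1) * d := mul_le_mul_of_nonneg_right (H.le_add_left' 1 i) (H.zero_le d)
    calc y < b := hy
      _ ≤ d := hbd
      _ ≤ (i + 1) * d := h1
      _ ≤ 1 + (i + 1) * d := H.le_add_left' _ _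
  · rw [H.lt_succ_iff]
    have h2 : q ≤ c := by
      calc q = q * 1 := (mul_one q).symm
        _ ≤ q * (1 + (i + 1) * d) := mul_le_mul_of_nonneg_left (H.le_add_right' 1 _) (H.zero_le q)
        _ ≤ q * (1 + (i + 1) * d) + y := H.le_add_right' _ _
        _ = c := hq.symm
    exact h2.trans (H.le_pr_left c d)

end Kriz.PTO
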