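import Pool.Agent.Work.MP_0f6836_lc.PTO.DN
import Pool.Agent.Work.MP_0f6836_lc.PTO.HC
import Mathlib.Logic.Godel.GodelBetaFunction

/-!
# Block DA: the graph of a primitive recursive function is `Σ₁`

Induction on `Nat.Primrec`; for `prec` the `β` function of Mathlib is used.
-/

namespace Kriz.PTO

open Kriz

/-- the graph of the pairing function of Mathlib -/
def PairG (a b n : ℕ) : Prop := (a < b ∧ n = b * b + a) ∨ (¬ a < b ∧ n = a * a + a + b)

theorem DA_pairG {a b n : ℕ} : PairG a b n ↔ Nat.pair a b = n := by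
  unfold PairG Nat.pair
  split_ifs with h
  · simp [h, eq_comm]
  · simp [h, eq_comm]

instance DA_d0_pairG (f g k : (ℕ → ℕ) → ℕ) [Tf f] [Tf g] [Tf k] :
    D0 ({∅} : Set (Set ℕ)) (fun v => PairG (f v) (g v) (k v)) := by
  unfold PairG
  infer_instance

/-- the graph of the `β` function -/
def BetaG (c d i y : ℕ) : Prop := y < (i + 1) * d + 1 ∧
  ∃ q, q < c + 1 ∧ c = q * ((i + 1) * d + 1) + y

instance DA_d0_betaG (f g k l : (ℕ → ℕ) → ℕ) [Tf f] [Tf g] [Tf k] [Tf l] :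
    D0 ({∅} : Set (Set ℕ)) (fun v => BetaG (f v) (g v) (k v) (l v)) := by
  unfold BetaG
  infer_instance

theorem DA_betaG {c d i y : ℕ} : BetaG c d i y ↔ c % ((i + 1) * d + 1) = y := by
  unfold BetaG
  constructor
  · rintro ⟨h1, q, -, h2⟩
    rw [h2, Nat.mul_add_mod_self_right, Nat.mod_eq_of_lt h1]
  · rintro h
    have hpos : 0 < (i + 1) * d + 1 := Nat.succ_pos _
    refine ⟨by rw [← h]; exact Nat.mod_lt _ hpos, c / ((i + 1) * d + 1),
      Nat.lt_succ_of_le (Nat.div_le_self _ _), ?_⟩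
    rw [← h, Nat.mul_comm]
    exact (Nat.div_add_mod _ _).symm

/-- coding of finite sequences of natural numbers -/
theorem DA_exists_beta (n : ℕ) (s : ℕ → ℕ) : ∃ c d, ∀ i, i < n → BetaG c d i (s i) := by
  have h := Nat.beta_unbeta_coe (List.ofFn (fun i : Fin n => s i))
  refine ⟨(Nat.unbeta (List.ofFn (fun i : Fin n => s i))).unpair.1,
    (Nat.unbeta (List.ofFn (fun i : Fin n => s i))).unpair.2, fun i hi => ?_⟩
  rw [DA_betaG]
  have h1 := h ⟨i, by simpa using hi⟩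
  simpa [Nat.beta] using h1

/-- common bound for finitely many witnesses -/
theorem DA_bound {k : ℕ} {Q : ℕ → ℕ → Prop} (h : ∀ i, i < k → ∃ w, ∀ w', w ≤ w' → Q i w') :
    ∃ w, ∀ w', w ≤ w' → ∀ i, i < k → Q i w' := by
  induction k with
  | zero => exact ⟨0, fun _ _ i hi => absurd hi (Nat.not_lt_zero i)⟩
  | succ k ih =>
    obtain ⟨w, hw⟩ := ih fun i hi => h i (Nat.lt_succ_of_lt hi)
    obtain ⟨u, hu⟩ := h k (Nat.lt_succ_self k)
    refine ⟨w + u, fun w' hw' i hi => ?_⟩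
    rcases Nat.lt_succ_iff_lt_or_eq.1 hi with h1 | h1
    · exact hw w' (by omega) i h1
    · subst h1
      exact hu w' (by omega)

theorem DA_pair {a b : ℕ} : a ≤ Nat.pair a b ∧ b ≤ Nat.pair a b :=
  ⟨Nat.left_le_pair a b, Nat.right_le_pair a b⟩

theorem primrec_sigma {f : ℕ → ℕ} (hf : Nat.Primrec f) : ∃ R : ℕ → ℕ → ℕ → Prop,
    D0 ({∅} : Set (Set ℕ)) (fun v => R (v 0) (v 1) (v 2)) ∧ ∀ n m, f n = m ↔ ∃ w, R w n m := by
  induction hf with
  | zero =>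
    refine ⟨fun w n m => m = 0, by infer_instance, fun n m => ?_⟩
    simp [eq_comm]
  | succ =>
    refine ⟨fun w n m => m = n + 1, by infer_instance, fun n m => ?_⟩
    simp [eq_comm]
  | left =>
    refine ⟨fun w n m => ∃ k, k < n + 1 ∧ PairG m k n, by infer_instance, fun n m => ?_⟩
    simp only [DA_pairG, exists_const]
    constructor
    · rintro rfl
      exact ⟨n.unpair.2, Nat.lt_succ_of_le (Nat.unpair_right_le n), Nat.pair_unpair n⟩
    · rintro ⟨k, -, rfl⟩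
      simp
  | right =>
    refine ⟨fun w n m => ∃ k, k < n + 1 ∧ PairG k m n, by infer_instance, fun n m => ?_⟩
    simp only [DA_pairG, exists_const]
    constructor
    · rintro rfl
      exact ⟨n.unpair.1, Nat.lt_succ_of_le (Nat.unpair_left_le n), Nat.pair_unpair n⟩
    · rintro ⟨k, -, rfl⟩
      simp
  | @pair f g _ _ ihf ihg =>
    obtain ⟨Rf, hf1, hf2⟩ := ihf
    obtain ⟨Rg, hg1, hg2⟩ := ihg
    have If : ∀ f g k : (ℕ → ℕ) → ℕ, ∀ [Tf f] [Tf g] [Tf k],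
        D0 ({∅} : Set (Set ℕ)) (fun v => Rf (f v) (g v) (k v)) :=
      fun f g k => D0.comp3 hf1 f g k
    have Ig : ∀ f g k : (ℕ → ℕ) → ℕ, ∀ [Tf f] [Tf g] [Tf k],
        D0 ({∅} : Set (Set ℕ)) (fun v => Rg (f v) (g v) (k v)) :=
      fun f g k => D0.comp3 hg1 f g k
    refine ⟨fun w n m => ∃ w1, w1 < w + 1 ∧ ∃ w2, w2 < w + 1 ∧ ∃ a, a < m + 1 ∧ ∃ b, b < m + 1 ∧
      Rf w1 n a ∧ Rg w2 n b ∧ PairG a b m, by infer_instance, fun n m => ?_⟩
    simp only [DA_pairG]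
    constructor
    · rintro rfl
      obtain ⟨w1, h1⟩ := (hf2 n _).1 rfl
      obtain ⟨w2, h2⟩ := (hg2 n _).1 rfl
      exact ⟨w1 + w2, w1, by omega, w2, by omega, f n, Nat.lt_succ_of_le DA_pair.1, g n,
        Nat.lt_succ_of_le DA_pair.2, h1, h2, rfl⟩
    · rintro ⟨w, w1, -, w2, -, a, -, b, -, h1, h2, rfl⟩
      rw [(hf2 n a).2 ⟨w1, h1⟩, (hg2 n b).2 ⟨w2, h2⟩]
  | @comp f g _ _ ihf ihg =>
    obtain ⟨Rf, hf1, hf2⟩ := ihf
    obtain ⟨Rg, hg1, hg2⟩ := ihg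
    have If : ∀ f g k : (ℕ → ℕ) → ℕ, ∀ [Tf f] [Tf g] [Tf k],
        D0 ({∅} : Set (Set ℕ)) (fun v => Rf (f v) (g v) (k v)) :=
      fun f g k => D0.comp3 hf1 f g k
    have Ig : ∀ f g k : (ℕ → ℕ) → ℕ, ∀ [Tf f] [Tf g] [Tf k],
        D0 ({∅} : Set (Set ℕ)) (fun v => Rg (f v) (g v) (k v)) :=
      fun f g k => D0.comp3 hg1 f g k
    refine ⟨fun w n m => ∃ w1, w1 < w + 1 ∧ ∃ w2, w2 < w + 1 ∧ ∃ a, a < w + 1 ∧
      Rg w1 n a ∧ Rf w2 a m, by infer_instance, fun n m => ?_⟩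
    constructor
    · rintro rfl
      obtain ⟨w1, h1⟩ := (hg2 n _).1 rfl
      obtain ⟨w2, h2⟩ := (hf2 (g n) _).1 rfl
      exact ⟨w1 + w2 + g n, w1, by omega, w2, by omega, g n, by omega, h1, h2⟩
    · rintro ⟨w, w1, -, w2, -, a, -, h1, h2⟩
      show f (g n) = m
      rw [(hg2 n a).2 ⟨w1, h1⟩, (hf2 a m).2 ⟨w2, h2⟩]
  | @prec f g _ _ ihf ihg =>
    obtain ⟨Rf, hf1, hf2⟩ := ihf
    obtain ⟨Rg, hg1, hg2⟩ := ihg
    have If : ∀ f g k : (ℕ → ℕ) → ℕ, ∀ [Tf f] [Tf g] [Tf k],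
        D0 ({∅} : Set (Set ℕ)) (fun v => Rf (f v) (g v) (k v)) :=
      fun f g k => D0.comp3 hf1 f g k
    have Ig : ∀ f g k : (ℕ → ℕ) → ℕ, ∀ [Tf f] [Tf g] [Tf k],
        D0 ({∅} : Set (Set ℕ)) (fun v => Rg (f v) (g v) (k v)) :=
      fun f g k => D0.comp3 hg1 f g k
    refine ⟨fun w n m => ∃ z, z < n + 1 ∧ ∃ k, k < n + 1 ∧ PairG z k n ∧
      ∃ c, c < w + 1 ∧ ∃ d, d < w + 1 ∧ BetaG c d k m ∧
      (∃ y, y < w + 1 ∧ BetaG c d 0 y ∧ ∃ w1, w1 < w + 1 ∧ Rf w1 z y) ∧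
      ∀ i, i < k → ∃ y, y < w + 1 ∧ ∃ y', y' < w + 1 ∧ BetaG c d i y ∧ BetaG c d (i + 1) y' ∧
        ∃ p, p < w + 1 ∧ ∃ p', p' < w + 1 ∧ PairG i y p ∧ PairG z p p' ∧
        ∃ w2, w2 < w + 1 ∧ Rg w2 p' y', by infer_instance, fun n m => ?_⟩
    simp only [DA_pairG]
    constructor
    · rintro rfl
      set z := n.unpair.1 with hz
      set k := n.unpair.2 with hk
      set s : ℕ → ℕ := fun i => Nat.rec (f z) (fun y IH => g (Nat.pair z (Nat.pair y IH))) i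
        with hs
      obtain ⟨c, d, hcd⟩ := DA_exists_beta (k + 1) s
      obtain ⟨w1, h1⟩ := (hf2 z _).1 rfl
      obtain ⟨w, hw⟩ := DA_bound (k := k) (Q := fun i w => ∃ y, y < w + 1 ∧ ∃ y', y' < w + 1 ∧
        BetaG c d i y ∧ BetaG c d (i + 1) y' ∧
        ∃ p, p < w + 1 ∧ ∃ p', p' < w + 1 ∧ Nat.pair i y = p ∧ Nat.pair z p = p' ∧
        ∃ w2, w2 < w + 1 ∧ Rg w2 p' y') (by
          intro i hi
          obtain ⟨w2, h2⟩ := (hg2 (Nat.pair z (Nat.pair i (s i))) _).1 rfl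
          refine ⟨w2 + s i + s (i + 1) + Nat.pair i (s i) + Nat.pair z (Nat.pair i (s i)),
            fun w' hw' => ⟨s i, by omega, s (i + 1), by omega, hcd i (by omega),
              hcd (i + 1) (by omega), _, by omega, _, by omega, rfl, rfl, w2, by omega, h2⟩⟩)
      refine ⟨w + c + d + w1 + s 0, z, Nat.lt_succ_of_le (Nat.unpair_left_le n), k,
        Nat.lt_succ_of_le (Nat.unpair_right_le n), Nat.pair_unpair n, c, by omega, d, by omega,
        hcd k (by omega), ⟨s 0, by omega, hcd 0 (by omega), w1, by omega, h1⟩, ?_⟩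
      exact hw _ (by omega)
    · rintro ⟨w, z, -, k, -, rfl, c, -, d, -, h1, ⟨y0, -, h2, w1, -, h3⟩, h4⟩
      have key : ∀ i, i ≤ k → c % ((i + 1) * d + 1) =
          Nat.rec (f z) (fun y IH => g (Nat.pair z (Nat.pair y IH))) i := by
        intro i
        induction i with
        | zero =>
          intro _
          rw [DA_betaG.1 h2]
          exact ((hf2 z y0).2 ⟨w1, h3⟩).symm
        | succ i ih =>
          intro hi
          obtain ⟨y, -, y', -, e1, e2, p, -, p', -, e3, e4, w2, -, e5⟩ := h4 i (by omega)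
          rw [DA_betaG.1 e2]
          have e6 := ih (by omega)
          rw [DA_betaG.1 e1] at e6
          have e7 := (hg2 p' y').2 ⟨w2, e5⟩
          rw [← e7, ← e4, ← e3, e6]
      have := key k le_rfl
      rw [DA_betaG.1 h1] at this
      simpa using this.symm

end Kriz.PTO
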