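import Pool.Agent.Work.MP_0f6836_lc.PTO.DA

/-!
# Block DB: recursively enumerable sets are `Σ₁`
-/

namespace Kriz.PTO

open Kriz

/-- a recursively enumerable set is the projection of a primitive recursive relation -/
theorem DB_primrec {P : ℕ → Prop} (h : REPred P) : ∃ g : ℕ → ℕ, Nat.Primrec g ∧
    ∀ n, P n ↔ ∃ k, g (Nat.pair k n) = 1 := by
  have h1 : Nat.Partrec (fun n => Part.assert (P n) fun _ => Part.some 0) := by
    have h2 : Partrec (fun n => (Part.assert (P n) fun _ => Part.some ()).map fun _ => (0 : ℕ)) :=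
      h.map ((Computable.const 0).to₂)
    rw [← Partrec.nat_iff]
    refine h2.of_eq fun n => ?_
    ext x
    simp [Part.mem_map_iff, Part.mem_assert_iff, eq_comm]
  obtain ⟨c, hc⟩ := Nat.Partrec.Code.exists_code.1 h1
  refine ⟨fun m => cond (Nat.Partrec.Code.evaln m.unpair.1 c m.unpair.2).isSome 1 0, ?_, ?_⟩
  · rw [← Primrec.nat_iff]
    have h3 : Primrec (fun m : ℕ => Nat.Partrec.Code.evaln m.unpair.1 c m.unpair.2) :=
      Nat.Partrec.Code.primrec_evaln.comp
        (((Primrec.fst.comp Primrec.unpair).pair (Primrec.const c)).pair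
          (Primrec.snd.comp Primrec.unpair))
    exact Primrec.cond (Primrec.option_isSome.comp h3) (Primrec.const 1) (Primrec.const 0)
  · intro n
    have h4 : P n ↔ ∃ x, x ∈ Nat.Partrec.Code.eval c n := by
      rw [hc]
      simp [Part.mem_assert_iff]
    rw [h4]
    constructor
    · rintro ⟨x, hx⟩
      obtain ⟨k, hk⟩ := Nat.Partrec.Code.evaln_complete.1 hx
      refine ⟨k, ?_⟩
      have : Nat.Partrec.Code.evaln k c n = some x := hk
      simp [this]
    · rintro ⟨k, hk⟩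
      simp only [Nat.unpair_pair] at hk
      cases h5 : Nat.Partrec.Code.evaln k c n with
      | none => simp [h5] at hk
      | some x => exact ⟨x, Nat.Partrec.Code.evaln_sound h5⟩

/-- every recursively enumerable set of natural numbers is defined by a `Σ₁` formula -/
theorem exists_sigma {P : ℕ → Prop} (h : REPred P) : ∃ θ : Fm, θ.Bdd ∧
    ∀ (V : ℕ → Set ℕ) (v : ℕ → ℕ) (n : ℕ), P n ↔ ∃ w, θ.Sat V (push w (push n v)) := by
  obtain ⟨g, hg, hP⟩ := DB_primrec h
  obtain ⟨R, hR1, hR2⟩ := primrec_sigma hg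
  have IR : ∀ f g k : (ℕ → ℕ) → ℕ, ∀ [Tf f] [Tf g] [Tf k],
      D0 ({∅} : Set (Set ℕ)) (fun v => R (f v) (g v) (k v)) :=
    fun f g k => D0.comp3 hR1 f g k
  have hQ : D0 ({∅} : Set (Set ℕ)) (fun v => ∃ k, k < v 0 + 1 ∧ ∃ w, w < v 0 + 1 ∧
      ∃ p, p < v 0 + 1 ∧ PairG k (v 1) p ∧ R w p 1) := by infer_instance
  obtain ⟨θ, h1, h2⟩ := D0.nat hQ
  refine ⟨θ, h1, fun V v n => ?_⟩
  rw [hP n]
  constructor
  · rintro ⟨k, hk⟩
    obtain ⟨w, hw⟩ := (hR2 _ _).1 hk
    refine ⟨k + w + Nat.pair k n, (h2 V _).1 ⟨k, ?_, w, ?_, Nat.pair k n, ?_, DA_pairG.2 rfl, hw⟩⟩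
    · show k < k + w + Nat.pair k n + 1
      omega
    · show w < k + w + Nat.pair k n + 1
      omega
    · show Nat.pair k n < k + w + Nat.pair k n + 1
      omega
  · rintro ⟨w, hw⟩
    obtain ⟨k, -, w', -, p, -, hp, hw'⟩ := (h2 V _).2 hw
    have hp' : Nat.pair k n = p := DA_pairG.1 hp
    exact ⟨k, (hR2 _ _).2 ⟨w', by rw [hp']; exact hw'⟩⟩

theorem exists_sigma_set {P : Set ℕ} (h : REPred (fun n => n ∈ P)) : ∃ θ : Fm, θ.Bdd ∧
    θ.ex.set ℕ = P := by
  obtain ⟨θ, h1, h2⟩ := exists_sigma h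
  refine ⟨θ, h1, ?_⟩
  ext n
  rw [Fm.mem_set_ex, h2 (fun _ => ∅) (fun _ => n) n]
  have : push n (fun _ => n) = fun _ : ℕ => n := by
    funext i
    cases i <;> rfl
  rw [this]
  rfl

end Kriz.PTO
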