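import Pool.Agent.Work.MP_0f6836_lc.PTO.Eng

/-!
# Block DN: definability in `ℕ` without parameters

Over `ℕ` the number parameters can be replaced by numerals.
-/

namespace Kriz.PTO

open Kriz

/-- numerals -/
def dn_num : ℕ → NT
  | 0 => .zero
  | n + 1 => .add (dn_num n) .one

theorem dn_num_val (n : ℕ) (v : ℕ → ℕ) : (dn_num n).val v = n := by
  induction n with
  | zero => rfl
  | succ n ih =>
    show (dn_num n).val v + 1 = n + 1
    rw [ih]

/-- bounded predicates on `ℕ` are given by bounded formulas without parameters -/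
theorem D0.nat {R : (ℕ → ℕ) → Prop} (h : D0 ({∅} : Set (Set ℕ)) R) :
    ∃ θ : Fm, θ.Bdd ∧ ∀ (V : ℕ → Set ℕ) (v : ℕ → ℕ), R v ↔ θ.Sat V v := by
  obtain ⟨θ, h0, c, V, h1, h2⟩ := h.out
  refine ⟨θ.clean.sub (fun i => if i % 2 = 0 then .var (i / 2) else dn_num (c (i / 2))),
    (Fm.bdd_sub _ _).2 ((Fm.bdd_clean _).2 h0), fun W v => ?_⟩
  rw [h2, Fm.sat_sub, Fm.sat_clean]
  have hV : V = fun _ => (∅ : Set ℕ) := by
    funext k
    exact h1 k
  have hv : mix v c = fun i =>
      (if i % 2 = 0 then .var (i / 2) else dn_num (c (i / 2)) : NT).val v := by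
    funext i
    unfold mix
    split_ifs
    · rfl
    · rw [dn_num_val]
  rw [hV, hv]

instance ne_empty : Ne ({∅} : Set (Set ℕ)) := ⟨⟨∅, rfl⟩⟩

theorem isRCA0_nat : IsRCA0 (Set.univ : Set (Set ℕ)) where
  nonempty := ⟨∅, trivial⟩
  succ_ne_zero m := Nat.succ_ne_zero m
  succ_inj m n h := Nat.succ.inj h
  add_zero m := rfl
  add_succ m n := rfl
  mul_zero m := rfl
  mul_succ m n := rfl
  not_lt_zero m := Nat.not_lt_zero m
  lt_succ m n := by omega
  ind θ _ V v _ h0 hs m := by
    induction m with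
    | zero => exact h0
    | succ m ih => exact hs m ih
  comp _ _ _ _ _ _ _ _ := trivial

end Kriz.PTO
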