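import Pool.Agent.Work.MP_0f6836_lc.PTO.Syn

/-!
# Definability by bounded formulas, found by instance search

`D0 S R` says that the predicate `R` on assignments `ℕ → M` is given by a bounded formula with
number parameters from `M` and set parameters from `S`.
-/

set_option linter.unusedSectionVars false

namespace Kriz.PTO

open Kriz

universe u

/-! ### renaming of variables -/

/-- renaming of the variables under a quantifier -/
def liftR (ρ : ℕ → ℕ) : ℕ → ℕ
  | 0 => 0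
  | i + 1 => ρ i + 1

def NT.ren (ρ : ℕ → ℕ) : NT → NT
  | var i => var (ρ i)
  | zero => zero
  | one => one
  | add a b => add (a.ren ρ) (b.ren ρ)
  | mul a b => mul (a.ren ρ) (b.ren ρ)

/-- rename number variables by `ρ` and set variables by `σ` -/
def Fm.ren (σ : ℕ → ℕ) : (ℕ → ℕ) → Fm → Fm
  | ρ, eq a b => eq (a.ren ρ) (b.ren ρ)
  | ρ, lt a b => lt (a.ren ρ) (b.ren ρ)
  | ρ, mem a X => mem (a.ren ρ) (σ X)
  | ρ, neg φ => neg (φ.ren σ ρ)
  | ρ, and φ ψ => and (φ.ren σ ρ) (ψ.ren σ ρ)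
  | ρ, ball t φ => ball (t.ren ρ) (φ.ren σ (liftR ρ))
  | ρ, all φ => all (φ.ren σ (liftR ρ))

section

variable {M : Type u} [Zero M] [One M] [Add M] [Mul M] [LT M]

theorem push_liftR (ρ : ℕ → ℕ) (m : M) (v : ℕ → M) :
    (fun i => push m v (liftR ρ i)) = push m (fun i => v (ρ i)) := by
  funext i
  cases i <;> rfl

omit [LT M] in
theorem NT.val_ren (ρ : ℕ → ℕ) (t : NT) (v : ℕ → M) :
    (t.ren ρ).val v = t.val (fun i => v (ρ i)) := by
  induction t with
  | var i => rfl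
  | zero => rfl
  | one => rfl
  | add a b iha ihb => simp only [NT.ren, NT.val, iha, ihb]
  | mul a b iha ihb => simp only [NT.ren, NT.val, iha, ihb]

theorem Fm.sat_ren (σ : ℕ → ℕ) (V : ℕ → Set M) (φ : Fm) : ∀ (ρ : ℕ → ℕ) (v : ℕ → M),
    (φ.ren σ ρ).Sat V v ↔ φ.Sat (fun k => V (σ k)) (fun i => v (ρ i)) := by
  induction φ with
  | eq a b => intro ρ v; simp only [Fm.ren, Fm.Sat, NT.val_ren]
  | lt a b => intro ρ v; simp only [Fm.ren, Fm.Sat, NT.val_ren]
  | mem a X => intro ρ v; simp only [Fm.ren, Fm.Sat, NT.val_ren]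
  | neg φ ih => intro ρ v; simp only [Fm.ren, Fm.Sat, ih]
  | and φ ψ ih1 ih2 => intro ρ v; simp only [Fm.ren, Fm.Sat, ih1, ih2]
  | ball t φ ih => intro ρ v; simp only [Fm.ren, Fm.Sat, ih, NT.val_ren, push_liftR]
  | all φ ih => intro ρ v; simp only [Fm.ren, Fm.Sat, ih, push_liftR]

theorem Fm.bdd_ren (σ : ℕ → ℕ) (φ : Fm) : ∀ ρ : ℕ → ℕ, (φ.ren σ ρ).Bdd ↔ φ.Bdd := by
  induction φ with
  | eq a b => intro ρ; rfl
  | lt a b => intro ρ; rfl
  | mem a X => intro ρ; rfl
  | neg φ ih => intro ρ; exact ih ρ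
  | and φ ψ ih1 ih2 => intro ρ; exact and_congr (ih1 ρ) (ih2 ρ)
  | ball t φ ih => intro ρ; exact ih _
  | all φ _ => intro ρ; rfl

/-! ### substitution of terms -/

/-- substitution under a quantifier -/
def liftS (σ : ℕ → NT) : ℕ → NT
  | 0 => .var 0
  | i + 1 => (σ i).ren (fun j => j + 1)

def NT.sub (σ : ℕ → NT) : NT → NT
  | var i => σ i
  | zero => zero
  | one => one
  | add a b => add (a.sub σ) (b.sub σ)
  | mul a b => mul (a.sub σ) (b.sub σ)

/-- substitute the terms `σ i` for the number variables -/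
def Fm.sub : (ℕ → NT) → Fm → Fm
  | σ, eq a b => eq (a.sub σ) (b.sub σ)
  | σ, lt a b => lt (a.sub σ) (b.sub σ)
  | σ, mem a X => mem (a.sub σ) X
  | σ, neg φ => neg (φ.sub σ)
  | σ, and φ ψ => and (φ.sub σ) (ψ.sub σ)
  | σ, ball t φ => ball (t.sub σ) (φ.sub (liftS σ))
  | σ, all φ => all (φ.sub (liftS σ))

theorem val_liftS (σ : ℕ → NT) (m : M) (v : ℕ → M) :
    (fun i => (liftS σ i).val (push m v)) = push m (fun i => (σ i).val v) := by
  funext i
  cases i with
  | zero => rfl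
  | succ i =>
    show ((σ i).ren (fun j => j + 1)).val (push m v) = (σ i).val v
    rw [NT.val_ren]
    rfl

omit [LT M] in
theorem NT.val_sub (σ : ℕ → NT) (t : NT) (v : ℕ → M) :
    (t.sub σ).val v = t.val (fun i => (σ i).val v) := by
  induction t with
  | var i => rfl
  | zero => rfl
  | one => rfl
  | add a b iha ihb => simp only [NT.sub, NT.val, iha, ihb]
  | mul a b iha ihb => simp only [NT.sub, NT.val, iha, ihb]

theorem Fm.sat_sub (V : ℕ → Set M) (φ : Fm) : ∀ (σ : ℕ → NT) (v : ℕ → M),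
    (φ.sub σ).Sat V v ↔ φ.Sat V (fun i => (σ i).val v) := by
  induction φ with
  | eq a b => intro ρ v; simp only [Fm.sub, Fm.Sat, NT.val_sub]
  | lt a b => intro ρ v; simp only [Fm.sub, Fm.Sat, NT.val_sub]
  | mem a X => intro ρ v; simp only [Fm.sub, Fm.Sat, NT.val_sub]
  | neg φ ih => intro ρ v; simp only [Fm.sub, Fm.Sat, ih]
  | and φ ψ ih1 ih2 => intro ρ v; simp only [Fm.sub, Fm.Sat, ih1, ih2]
  | ball t φ ih => intro ρ v; simp only [Fm.sub, Fm.Sat, ih, NT.val_sub, val_liftS]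
  | all φ ih => intro ρ v; simp only [Fm.sub, Fm.Sat, ih, val_liftS]

omit [Zero M] [One M] [Add M] [Mul M] [LT M] in
theorem Fm.bdd_sub (φ : Fm) : ∀ σ : ℕ → NT, (φ.sub σ).Bdd ↔ φ.Bdd := by
  induction φ with
  | eq a b => intro ρ; rfl
  | lt a b => intro ρ; rfl
  | mem a X => intro ρ; rfl
  | neg φ ih => intro ρ; exact ih ρ
  | and φ ψ ih1 ih2 => intro ρ; exact and_congr (ih1 ρ) (ih2 ρ)
  | ball t φ ih => intro ρ; exact ih _
  | all φ _ => intro ρ; rfl

/-- replace the set variables by the empty set -/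
def Fm.clean : Fm → Fm
  | eq a b => eq a b
  | lt a b => lt a b
  | mem _ _ => neg (eq .zero .zero)
  | neg φ => neg φ.clean
  | and φ ψ => and φ.clean ψ.clean
  | ball t φ => ball t φ.clean
  | all φ => all φ.clean

theorem Fm.sat_clean (V : ℕ → Set M) (φ : Fm) : ∀ v : ℕ → M,
    φ.clean.Sat V v ↔ φ.Sat (fun _ => ∅) v := by
  induction φ with
  | eq a b => intro v; rfl
  | lt a b => intro v; rfl
  | mem a X => intro v; simp [Fm.clean, Fm.Sat, NT.val]
  | neg φ ih => intro v; simp only [Fm.clean, Fm.Sat, ih]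
  | and φ ψ ih1 ih2 => intro v; simp only [Fm.clean, Fm.Sat, ih1, ih2]
  | ball t φ ih => intro v; simp only [Fm.clean, Fm.Sat, ih]
  | all φ ih => intro v; simp only [Fm.clean, Fm.Sat, ih]

theorem Fm.bdd_clean (φ : Fm) : φ.clean.Bdd ↔ φ.Bdd := by
  induction φ with
  | eq a b => rfl
  | lt a b => rfl
  | mem a X => simp [Fm.clean, Fm.Bdd]
  | neg φ ih => exact ih
  | and φ ψ ih1 ih2 => exact and_congr ih1 ih2
  | ball t φ ih => exact ih
  | all φ _ => rfl

/-! ### assignments with parameters -/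

/-- the even places of an assignment are the real variables, the odd places the parameters -/
def mix {α : Type*} (v c : ℕ → α) (i : ℕ) : α := if i % 2 = 0 then v (i / 2) else c (i / 2)

omit [Zero M] [One M] [Add M] [Mul M] [LT M] in
theorem mix_even {α : Type*} (v c : ℕ → α) (i : ℕ) : mix v c (2 * i) = v i := by
  simp [mix]

omit [Zero M] [One M] [Add M] [Mul M] [LT M] in
theorem mix_odd {α : Type*} (v c : ℕ → α) (i : ℕ) : mix v c (2 * i + 1) = c i := by
  have h2 : (2 * i + 1) / 2 = i := by omega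
  simp [mix, h2]

/-- renaming for the parameters of the first formula -/
def rho1 (i : ℕ) : ℕ := if i % 2 = 0 then i else 2 * i - 1

/-- renaming for the parameters of the second formula -/
def rho2 (i : ℕ) : ℕ := if i % 2 = 0 then i else 2 * i + 1

omit [Zero M] [One M] [Add M] [Mul M] [LT M] in
theorem mix_rho1 {α : Type*} (v c d : ℕ → α) :
    (fun i => mix v (mix c d) (rho1 i)) = mix v c := by
  funext i
  rcases Nat.even_or_odd' i with ⟨k, rfl | rfl⟩
  · have : rho1 (2 * k) = 2 * k := by simp [rho1]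
    rw [this, mix_even, mix_even]
  · have : rho1 (2 * k + 1) = 2 * (2 * k) + 1 := by
      have h : (2 * k + 1) % 2 ≠ 0 := by omega
      simp only [rho1, h, if_false]
      omega
    rw [this, mix_odd, mix_even, mix_odd]

omit [Zero M] [One M] [Add M] [Mul M] [LT M] in
theorem mix_rho2 {α : Type*} (v c d : ℕ → α) :
    (fun i => mix v (mix c d) (rho2 i)) = mix v d := by
  funext i
  rcases Nat.even_or_odd' i with ⟨k, rfl | rfl⟩
  · have : rho2 (2 * k) = 2 * k := by simp [rho2]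
    rw [this, mix_even, mix_even]
  · have : rho2 (2 * k + 1) = 2 * (2 * k + 1) + 1 := by
      have h : (2 * k + 1) % 2 ≠ 0 := by omega
      simp only [rho2, h, if_false]
    rw [this, mix_odd, mix_odd, mix_odd]

/-- renaming for a quantifier -/
def rhoQ (i : ℕ) : ℕ := if i = 0 then 0 else if i % 2 = 0 then i - 1 else i + 1

omit [Zero M] [One M] [Add M] [Mul M] [LT M] in
theorem push_rhoQ {α : Type*} (m : α) (v c : ℕ → α) :
    (fun i => push m (mix v c) (rhoQ i)) = mix (push m v) c := by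
  funext i
  rcases Nat.even_or_odd' i with ⟨k, rfl | rfl⟩
  · rcases k with _ | k
    · rw [mix_even]
      rfl
    · have : rhoQ (2 * (k + 1)) = 2 * k + 1 := by
        have h : 2 * (k + 1) % 2 = 0 := by omega
        have h' : 2 * (k + 1) ≠ 0 := by omega
        simp only [rhoQ, h, h', if_false, if_true]
        omega
      rw [this, mix_even]
      exact mix_even v c k
  · have : rhoQ (2 * k + 1) = 2 * k + 1 + 1 := by
      have h : (2 * k + 1) % 2 ≠ 0 := by omega
      have h' : 2 * k + 1 ≠ 0 := by omega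
      simp only [rhoQ, h, h', if_false]
    rw [this, mix_odd]
    exact mix_odd v c k

/-- `f` is given by a term with parameters. -/
class Tf (f : (ℕ → M) → M) : Prop where
  out : ∃ (t : NT) (c : ℕ → M), ∀ v, f v = t.val (mix v c)

/-- `R` is given by a bounded formula with parameters. -/
class D0 (S : Set (Set M)) (R : (ℕ → M) → Prop) : Prop where
  out : ∃ θ : Fm, θ.Bdd ∧ ∃ (c : ℕ → M) (V : ℕ → Set M), (∀ k, V k ∈ S) ∧
    ∀ v, R v ↔ θ.Sat V (mix v c)

/-! ### terms -/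

omit [LT M] in
theorem Tf.merge {f g : (ℕ → M) → M} (hf : Tf f) (hg : Tf g) : ∃ (s t : NT) (c : ℕ → M),
    (∀ v, f v = s.val (mix v c)) ∧ ∀ v, g v = t.val (mix v c) := by
  obtain ⟨s, c, hs⟩ := hf.out
  obtain ⟨t, d, ht⟩ := hg.out
  refine ⟨s.ren rho1, t.ren rho2, mix c d, fun v => ?_, fun v => ?_⟩
  · rw [NT.val_ren, mix_rho1, hs]
  · rw [NT.val_ren, mix_rho2, ht]

omit [LT M] in
instance tf_var (i : ℕ) : Tf (M := M) (fun v => v i) :=
  ⟨.var (2 * i), fun _ => 0, fun v => (mix_even v _ i).symm⟩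

omit [LT M] in
instance tf_const (a : M) : Tf (M := M) (fun _ => a) :=
  ⟨.var 1, fun _ => a, fun v => (mix_odd v (fun _ => a) 0).symm⟩

omit [LT M] in
instance tf_add (f g : (ℕ → M) → M) [hf : Tf f] [hg : Tf g] :
    Tf (M := M) (fun v => f v + g v) := by
  obtain ⟨s, t, c, hs, ht⟩ := hf.merge hg
  exact ⟨.add s t, c, fun v => by rw [hs, ht]; rfl⟩

omit [LT M] in
instance tf_mul (f g : (ℕ → M) → M) [hf : Tf f] [hg : Tf g] :
    Tf (M := M) (fun v => f v * g v) := by
  obtain ⟨s, t, c, hs, ht⟩ := hf.merge hg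
  exact ⟨.mul s t, c, fun v => by rw [hs, ht]; rfl⟩

omit [LT M] in
instance tf_pr (f g : (ℕ → M) → M) [hf : Tf f] [hg : Tf g] :
    Tf (M := M) (fun v => pr (f v) (g v)) := by
  unfold pr
  infer_instance

omit [LT M] in
/-- shift all variables -/
instance (priority := low) tf_shift (f : (ℕ → M) → M) [hf : Tf f] :
    Tf (M := M) (fun v => f (fun i => v (i + 1))) := by
  obtain ⟨s, c, hs⟩ := hf.out
  refine ⟨s.ren (fun i => if i % 2 = 0 then i + 2 else i), c, fun v => ?_⟩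
  rw [hs, NT.val_ren]
  congr 1
  funext i
  rcases Nat.even_or_odd' i with ⟨k, rfl | rfl⟩
  · have h : 2 * k % 2 = 0 := by omega
    simp only [h, if_true]
    rw [mix_even, show 2 * k + 2 = 2 * (k + 1) from rfl, mix_even]
  · have h : (2 * k + 1) % 2 ≠ 0 := by omega
    simp only [h, if_false]
    rw [mix_odd, mix_odd]

omit [LT M] in
instance (priority := low) tf_shift2 (f : (ℕ → M) → M) [hf : Tf f] :
    Tf (M := M) (fun v => f (fun i => v (i + 1 + 1))) :=
  tf_shift (fun v => f (fun i => v (i + 1)))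

omit [LT M] in
instance (priority := low) tf_shift3 (f : (ℕ → M) → M) [hf : Tf f] :
    Tf (M := M) (fun v => f (fun i => v (i + 1 + 1 + 1))) :=
  tf_shift (fun v => f (fun i => v (i + 1 + 1)))

omit [LT M] in
instance (priority := low) tf_shift4 (f : (ℕ → M) → M) [hf : Tf f] :
    Tf (M := M) (fun v => f (fun i => v (i + 1 + 1 + 1 + 1))) :=
  tf_shift (fun v => f (fun i => v (i + 1 + 1 + 1)))

omit [LT M] in
instance (priority := low) tf_shift5 (f : (ℕ → M) → M) [hf : Tf f] :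
    Tf (M := M) (fun v => f (fun i => v (i + 1 + 1 + 1 + 1 + 1))) :=
  tf_shift (fun v => f (fun i => v (i + 1 + 1 + 1 + 1)))

omit [LT M] in
instance (priority := low) tf_shift6 (f : (ℕ → M) → M) [hf : Tf f] :
    Tf (M := M) (fun v => f (fun i => v (i + 1 + 1 + 1 + 1 + 1 + 1))) :=
  tf_shift (fun v => f (fun i => v (i + 1 + 1 + 1 + 1 + 1)))

omit [LT M] in
instance (priority := low) tf_shift7 (f : (ℕ → M) → M) [hf : Tf f] :
    Tf (M := M) (fun v => f (fun i => v (i + 1 + 1 + 1 + 1 + 1 + 1 + 1))) :=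
  tf_shift (fun v => f (fun i => v (i + 1 + 1 + 1 + 1 + 1 + 1)))

omit [LT M] in
instance (priority := low) tf_shift8 (f : (ℕ → M) → M) [hf : Tf f] :
    Tf (M := M) (fun v => f (fun i => v (i + 1 + 1 + 1 + 1 + 1 + 1 + 1 + 1))) :=
  tf_shift (fun v => f (fun i => v (i + 1 + 1 + 1 + 1 + 1 + 1 + 1)))

/-! ### formulas -/

variable {S : Set (Set M)}

theorem D0.congr {P Q : (ℕ → M) → Prop} (h : ∀ v, P v ↔ Q v) (hP : D0 S P) : D0 S Q := by
  obtain ⟨θ, h0, c, V, h1, h2⟩ := hP.out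
  exact ⟨θ, h0, c, V, h1, fun v => by rw [← h, h2]⟩

/-- `S` is nonempty, as an instance -/
class Ne (S : Set (Set M)) : Prop where
  out : S.Nonempty

instance ne_of_fact [h : Fact (IsRCA0 S)] : Ne S := ⟨h.out.nonempty⟩

theorem D0.of_term [hS : Ne S] {R : (ℕ → M) → Prop} (h : ∃ θ : Fm, θ.Bdd ∧ ∃ c : ℕ → M,
    ∀ (V : ℕ → Set M) v, R v ↔ θ.Sat V (mix v c)) : D0 S R := by
  obtain ⟨X, hX⟩ := hS.out
  obtain ⟨θ, h0, c, h1⟩ := h
  exact ⟨θ, h0, c, fun _ => X, fun _ => hX, fun v => h1 _ v⟩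

instance d0_eq [Ne S] (f g : (ℕ → M) → M) [hf : Tf f] [hg : Tf g] :
    D0 S (fun v => f v = g v) := by
  obtain ⟨s, t, c, hs, ht⟩ := hf.merge hg
  exact D0.of_term ⟨.eq s t, trivial, c, fun V v => by rw [hs, ht]; rfl⟩

instance d0_lt [Ne S] (f g : (ℕ → M) → M) [hf : Tf f] [hg : Tf g] :
    D0 S (fun v => f v < g v) := by
  obtain ⟨s, t, c, hs, ht⟩ := hf.merge hg
  exact D0.of_term ⟨.lt s t, trivial, c, fun V v => by rw [hs, ht]; rfl⟩

instance d0_mem (X : ↥S) (f : (ℕ → M) → M) [hf : Tf f] : D0 S (fun v => f v ∈ X.1) := by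
  obtain ⟨s, c, hs⟩ := hf.out
  exact ⟨.mem s 0, trivial, c, fun _ => X.1, fun _ => X.2, fun v => by rw [hs]; rfl⟩

instance d0_not (P : (ℕ → M) → Prop) [hP : D0 S P] : D0 S (fun v => ¬ P v) := by
  obtain ⟨θ, h0, c, V, h1, h2⟩ := hP.out
  exact ⟨.neg θ, h0, c, V, h1, fun v => by rw [h2]; rfl⟩

theorem mix_mem {V W : ℕ → Set M} (hV : ∀ k, V k ∈ S) (hW : ∀ k, W k ∈ S) (k : ℕ) :
    mix V W k ∈ S := by
  unfold mix
  split_ifs
  · exact hV _
  · exact hW _

theorem D0.merge {P Q : (ℕ → M) → Prop} (hP : D0 S P) (hQ : D0 S Q) :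
    ∃ θ η : Fm, θ.Bdd ∧ η.Bdd ∧ ∃ (c : ℕ → M) (V : ℕ → Set M), (∀ k, V k ∈ S) ∧
      (∀ v, P v ↔ θ.Sat V (mix v c)) ∧ ∀ v, Q v ↔ η.Sat V (mix v c) := by
  obtain ⟨θ, h0, c, V, h1, h2⟩ := hP.out
  obtain ⟨η, h0', d, W, h1', h2'⟩ := hQ.out
  refine ⟨θ.ren (fun k => 2 * k) rho1, η.ren (fun k => 2 * k + 1) rho2,
    (Fm.bdd_ren _ _ _).2 h0, (Fm.bdd_ren _ _ _).2 h0', mix c d, mix V W, mix_mem h1 h1',
    fun v => ?_, fun v => ?_⟩
  · rw [Fm.sat_ren, mix_rho1, h2]
    simp only [mix_even]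
  · rw [Fm.sat_ren, mix_rho2, h2']
    simp only [mix_odd]

instance d0_and (P Q : (ℕ → M) → Prop) [hP : D0 S P] [hQ : D0 S Q] :
    D0 S (fun v => P v ∧ Q v) := by
  obtain ⟨θ, η, h0, h0', c, V, h1, h2, h3⟩ := hP.merge hQ
  exact ⟨.and θ η, ⟨h0, h0'⟩, c, V, h1, fun v => by rw [h2, h3]; rfl⟩

instance d0_true [Ne S] : D0 S (fun _ => True) :=
  D0.of_term ⟨.eq .zero .zero, trivial, fun _ => 0, fun _ _ => by simp [Fm.Sat]⟩

theorem D0.mergeT {f : (ℕ → M) → M} {Q : (ℕ → M) → Prop} (hf : Tf f) (hQ : D0 S Q) :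
    ∃ (t : NT) (η : Fm), η.Bdd ∧ ∃ (c : ℕ → M) (V : ℕ → Set M), (∀ k, V k ∈ S) ∧
      (∀ v, f v = t.val (mix v c)) ∧ ∀ v, Q v ↔ η.Sat V (mix v c) := by
  obtain ⟨t, c, h⟩ := hf.out
  obtain ⟨η, h0', d, W, h1', h2'⟩ := hQ.out
  refine ⟨t.ren rho1, η.ren id rho2, (Fm.bdd_ren _ _ _).2 h0', mix c d, W, h1',
    fun v => ?_, fun v => ?_⟩
  · rw [NT.val_ren, mix_rho1, h]
  · rw [Fm.sat_ren, mix_rho2, h2']
    rfl

/-- bounded quantifier -/
instance d0_ball (f : (ℕ → M) → M) [hf : Tf f] (R : M → (ℕ → M) → Prop)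
    [hR : D0 S (fun v => R (v 0) (fun i => v (i + 1)))] :
    D0 S (fun v => ∀ a : M, a < f v → R a v) := by
  obtain ⟨t, η, h0, c, V, h1, h2, h3⟩ := D0.mergeT (S := S) hf hR
  refine ⟨.ball t (η.ren id rhoQ), (Fm.bdd_ren _ _ _).2 h0, c, V, h1, fun v => ?_⟩
  constructor
  · intro h m hm
    rw [Fm.sat_ren, push_rhoQ]
    rw [← h2] at hm
    exact (h3 (push m v)).1 (h m hm)
  · intro h m hm
    have := h m (by rw [← h2]; exact hm)
    rw [Fm.sat_ren, push_rhoQ] at this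
    exact (h3 (push m v)).2 this

instance d0_bex (f : (ℕ → M) → M) [hf : Tf f] (R : M → (ℕ → M) → Prop)
    [hR : D0 S (fun v => R (v 0) (fun i => v (i + 1)))] :
    D0 S (fun v => ∃ a : M, a < f v ∧ R a v) := by
  have h : D0 S (fun v => ¬ ∀ a : M, a < f v → ¬ R a v) := by infer_instance
  exact h.congr fun v => by push Not; rfl

instance d0_imp (P Q : (ℕ → M) → Prop) [hP : D0 S P] [hQ : D0 S Q] :
    D0 S (fun v => P v → Q v) := by
  have h : D0 S (fun v => ¬ (P v ∧ ¬ Q v)) := by infer_instance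
  exact h.congr fun v => by tauto

instance d0_or (P Q : (ℕ → M) → Prop) [hP : D0 S P] [hQ : D0 S Q] :
    D0 S (fun v => P v ∨ Q v) := by
  have h : D0 S (fun v => ¬ (¬ P v ∧ ¬ Q v)) := by infer_instance
  exact h.congr fun v => by tauto

instance d0_iff (P Q : (ℕ → M) → Prop) [hP : D0 S P] [hQ : D0 S Q] :
    D0 S (fun v => P v ↔ Q v) := by
  have h : D0 S (fun v => (P v → Q v) ∧ (Q v → P v)) := by infer_instance
  exact h.congr fun v => by tauto

instance d0_ne [Ne S] (f g : (ℕ → M) → M) [hf : Tf f] [hg : Tf g] :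
    D0 S (fun v => f v ≠ g v) := by
  have h : D0 S (fun v => ¬ (f v = g v)) := by infer_instance
  exact h

instance d0_nmem (X : ↥S) (f : (ℕ → M) → M) [hf : Tf f] : D0 S (fun v => f v ∉ X.1) := by
  have h : D0 S (fun v => ¬ (f v ∈ X.1)) := by infer_instance
  exact h

/-! ### formulas at given places -/

/-- `θ(w, z)`: the first variable is `w`, the others are `z`, the set variables are empty -/
def Fm.W (θ : Fm) (w z : M) : Prop := θ.Sat (fun _ => ∅) (push w (fun _ => z))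

theorem Fm.mem_set_ex {θ : Fm} {m : M} : m ∈ θ.ex.set M ↔ ∃ w, θ.W w m := by
  show ¬ (∀ w, ¬ θ.Sat (fun _ => ∅) (push w (fun _ => m))) ↔ _
  push Not
  rfl

/-- the formula `θ(s, t)` -/
def Fm.ap (θ : Fm) (s t : NT) : Fm := θ.clean.sub (fun k => if k = 0 then s else t)

theorem Fm.sat_ap (θ : Fm) (s t : NT) (V : ℕ → Set M) (v : ℕ → M) :
    (θ.ap s t).Sat V v ↔ θ.W (s.val v) (t.val v) := by
  unfold Fm.ap Fm.W
  rw [Fm.sat_sub, Fm.sat_clean]
  have : (fun k => (if k = 0 then s else t : NT).val v) = push (s.val v) (fun _ => t.val v) := by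
    funext k
    cases k <;> simp [push]
  rw [this]

theorem Fm.bdd_ap {θ : Fm} (h : θ.Bdd) (s t : NT) : (θ.ap s t).Bdd :=
  (Fm.bdd_sub _ _).2 ((Fm.bdd_clean _).2 h)

/-- a bounded formula, as an instance -/
class IsBdd (θ : Fm) : Prop where
  out : θ.Bdd

instance d0_W [Ne S] (θ : Fm) [h : IsBdd θ] (f g : (ℕ → M) → M) [hf : Tf f] [hg : Tf g] :
    D0 S (fun v => θ.W (f v) (g v)) := by
  obtain ⟨s, t, c, hs, ht⟩ := hf.merge hg
  exact D0.of_term ⟨θ.ap s t, Fm.bdd_ap h.out _ _, c, fun V v => by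
    rw [Fm.sat_ap, hs, ht]⟩

/-! ### substitution in predicates -/

theorem D0.compAll {R : (ℕ → M) → Prop} (hR : D0 S R) (g : ℕ → (ℕ → M) → M) (t : ℕ → NT)
    (c : ℕ → M) (ht : ∀ i v, g i v = (t i).val (mix v c)) : D0 S (fun v => R (fun i => g i v)) := by
  obtain ⟨θ, h0, d, V, h1, h2⟩ := hR.out
  refine ⟨θ.sub (fun i => if i % 2 = 0 then (t (i / 2)).ren rho1 else .var (2 * i + 1)),
    (Fm.bdd_sub _ _).2 h0, mix c d, V, h1, fun v => ?_⟩
  rw [Fm.sat_sub, h2]
  have : mix (fun i => g i v) d = fun i =>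
      (if i % 2 = 0 then (t (i / 2)).ren rho1 else .var (2 * i + 1) : NT).val
        (mix v (mix c d)) := by
    funext i
    rcases Nat.even_or_odd' i with ⟨k, rfl | rfl⟩
    · have h : 2 * k % 2 = 0 := by omega
      have h' : 2 * k / 2 = k := by omega
      rw [mix_even]
      simp only [h, if_true, h']
      rw [NT.val_ren, mix_rho1, ht]
    · have h : (2 * k + 1) % 2 ≠ 0 := by omega
      rw [mix_odd]
      simp only [h, if_false, NT.val]
      rw [mix_odd, mix_odd]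
  rw [this]

/-- substitution of terms in bounded predicates -/
theorem D0.comp1 {R : M → Prop} (h : D0 S (fun v => R (v 0)))
    (f : (ℕ → M) → M) [hf : Tf f] : D0 S (fun v => R (f v)) := by
  obtain ⟨t, c, ht⟩ := hf.out
  exact D0.compAll h (fun _ => f) (fun _ => t) c fun _ v => ht v

theorem D0.comp2 {R : M → M → Prop} (h : D0 S (fun v => R (v 0) (v 1)))
    (f g : (ℕ → M) → M) [hf : Tf f] [hg : Tf g] : D0 S (fun v => R (f v) (g v)) := by
  obtain ⟨s, t, c, hs, ht⟩ := hf.merge hg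
  exact D0.compAll h (fun i => if i = 0 then f else g) (fun i => if i = 0 then s else t) c
    fun i v => by
      by_cases hi : i = 0
      · simp only [hi, if_true, hs]
      · simp only [hi, if_false, ht]

theorem D0.comp3 {R : M → M → M → Prop} (h : D0 S (fun v => R (v 0) (v 1) (v 2)))
    (f g k : (ℕ → M) → M) [hf : Tf f] [hg : Tf g] [hk : Tf k] :
    D0 S (fun v => R (f v) (g v) (k v)) := by
  obtain ⟨s, t, c, hs, ht⟩ := hf.merge hg
  obtain ⟨u, d, hu⟩ := hk.out
  refine D0.compAll h (fun i => if i = 0 then f else if i = 1 then g else k)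
    (fun i => if i = 0 then s.ren rho1 else if i = 1 then t.ren rho1 else u.ren rho2) (mix c d)
    fun i v => ?_
  by_cases hi : i = 0
  · simp only [hi, if_true, hs, NT.val_ren, mix_rho1]
  · by_cases hi' : i = 1
    · subst hi'
      show g v = (t.ren rho1).val (mix v (mix c d))
      rw [NT.val_ren, mix_rho1, ht]
    · simp only [hi, hi', if_false, hu, NT.val_ren, mix_rho2]

end

end Kriz.PTO
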