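import Pool.Agent.Work.MP_0f6836_lc.PTO.Eng

/-!
# Block HA: basic arithmetic in a model of `RCA_0`

Template: `Work/MP_4ee3e3_lc/Arithmetic.lean` and the first part of `Basics.lean` (the same proofs
work, every induction there is on a bounded formula).
-/

set_option linter.unusedSectionVars false

namespace Kriz.PTO

universe u

section raw

variable {M : Type u} [Zero M] [One M] [Add M] [Mul M] [LT M] {S : Set (Set M)}

/-- the renaming used for the induction -/
theorem HA_ren (x m : M) (c : ℕ → M) :
    (fun i => push x (push m c) (if i % 2 = 0 then 1 else i / 2 + 2)) =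
      mix (fun _ => m) c := by
  funext i
  rcases Nat.even_or_odd' i with ⟨k, rfl | rfl⟩
  · have h : 2 * k % 2 = 0 := by omega
    simp only [h, if_true]
    rw [mix_even]
    rfl
  · have h : (2 * k + 1) % 2 ≠ 0 := by omega
    have h' : (2 * k + 1) / 2 = k := by omega
    simp only [h, if_false, h']
    rw [mix_odd]
    rfl

/-- induction for bounded formulas -/
theorem IsRCA0.ind0 (H : IsRCA0 S) (R : M → Prop) [hR : D0 S (fun v => R (v 0))] (h0 : R 0)
    (hs : ∀ n, R n → R (n + 1)) : ∀ n, R n := by
  obtain ⟨θ, hθ, c, V, hV, h⟩ := hR.out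
  set η : Fm := θ.ren id (fun i => if i % 2 = 0 then 1 else i / 2 + 2) with hη
  have hb : η.Bdd := (Fm.bdd_ren _ _ _).2 hθ
  have key : ∀ m, η.ex.Sat V (push m c) ↔ R m := by
    intro m
    have h1 : ∀ x, η.Sat V (push x (push m c)) ↔ R m := by
      intro x
      rw [hη, Fm.sat_ren, HA_ren]
      exact (h (fun _ => m)).symm
    constructor
    · intro h2
      by_contra h3
      exact h2 fun x hx => h3 ((h1 x).1 hx)
    · intro h2 h3
      exact h3 m ((h1 m).2 h2)
  intro n
  rw [← key]
  refine H.ind η hb V c hV ((key 0).2 h0) (fun m hm => ?_) n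
  rw [key] at hm ⊢
  exact hs m hm

theorem IsRCA0.ne (H : IsRCA0 S) : Ne S := ⟨H.nonempty⟩

namespace IsRCA0

variable (H : IsRCA0 S)
include H

theorem HA_zero_add' (n : M) : 0 + n = n := by
  revert n
  have := H.ne
  apply H.ind0 (fun n => 0 + n = n)
  · exact H.add_zero 0
  · intro n ih
    rw [H.add_succ, ih]

theorem HA_succ_add' (m n : M) : (m + 1) + n = (m + n) + 1 := by
  revert n
  have := H.ne
  apply H.ind0 (fun n => (m + 1) + n = (m + n) + 1)
  · rw [H.add_zero, H.add_zero]
  · intro n ih
    rw [H.add_succ, ih, H.add_succ]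

theorem HA_add_comm' (m n : M) : m + n = n + m := by
  revert n
  have := H.ne
  apply H.ind0 (fun n => m + n = n + m)
  · rw [H.add_zero, H.HA_zero_add']
  · intro n ih
    rw [H.add_succ, ih, H.HA_succ_add']

theorem HA_add_assoc' (a b c : M) : (a + b) + c = a + (b + c) := by
  revert c
  have := H.ne
  apply H.ind0 (fun c => (a + b) + c = a + (b + c))
  · rw [H.add_zero, H.add_zero]
  · intro n ih
    rw [H.add_succ, ih, H.add_succ, H.add_succ]

theorem HA_zero_mul' (n : M) : 0 * n = 0 := by
  revert n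
  have := H.ne
  apply H.ind0 (fun n => 0 * n = 0)
  · exact H.mul_zero 0
  · intro n ih
    rw [H.mul_succ, ih, H.add_zero]

theorem HA_add_right_comm' (a b c : M) : (a + b) + c = (a + c) + b := by
  rw [H.HA_add_assoc', H.HA_add_comm' b c, ← H.HA_add_assoc']

theorem HA_succ_mul' (m n : M) : (m + 1) * n = m * n + n := by
  revert n
  have := H.ne
  apply H.ind0 (fun n => (m + 1) * n = m * n + n)
  · rw [H.mul_zero, H.mul_zero, H.add_zero]
  · intro n ih
    calc (m + 1) * (n + 1) = (m + 1) * n + (m + 1) := H.mul_succ _ _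
      _ = (m * n + n) + (m + 1) := by rw [ih]
      _ = ((m * n + n) + m) + 1 := H.add_succ _ _
      _ = ((m * n + m) + n) + 1 := by rw [H.HA_add_right_comm' (m * n) n m]
      _ = (m * n + m) + (n + 1) := (H.add_succ _ _).symm
      _ = m * (n + 1) + (n + 1) := by rw [H.mul_succ]

theorem HA_mul_comm' (m n : M) : m * n = n * m := by
  revert n
  have := H.ne
  apply H.ind0 (fun n => m * n = n * m)
  · rw [H.mul_zero, H.HA_zero_mul']
  · intro n ih
    rw [H.mul_succ, ih, H.HA_succ_mul']

theorem HA_mul_add' (a b c : M) : a * (b + c) = a * b + a * c := by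
  revert c
  have := H.ne
  apply H.ind0 (fun c => a * (b + c) = a * b + a * c)
  · rw [H.add_zero, H.mul_zero, H.add_zero]
  · intro n ih
    rw [H.add_succ, H.mul_succ, ih, H.mul_succ, H.HA_add_assoc']

theorem HA_mul_assoc' (a b c : M) : (a * b) * c = a * (b * c) := by
  revert c
  have := H.ne
  apply H.ind0 (fun c => (a * b) * c = a * (b * c))
  · rw [H.mul_zero, H.mul_zero, H.mul_zero]
  · intro n ih
    rw [H.mul_succ, ih, H.mul_succ, H.HA_mul_add']

theorem HA_mul_one' (n : M) : n * 1 = n := by
  have h : (1 : M) = 0 + 1 := (H.HA_zero_add' 1).symm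
  rw [h, H.mul_succ, H.mul_zero, H.HA_zero_add']

theorem HA_lt_trans' {a b c : M} (hab : a < b) : b < c → a < c := by
  revert c
  have := H.ne
  apply H.ind0 (fun c => b < c → a < c)
  · intro h
    exact absurd h (H.not_lt_zero b)
  · intro n ih h
    rw [H.lt_succ] at h ⊢
    rcases h with h | h
    · exact Or.inl (ih h)
    · subst h
      exact Or.inl hab

theorem HA_lt_succ_self' (n : M) : n < n + 1 := (H.lt_succ n n).2 (Or.inr rfl)

theorem HA_lt_irrefl' (n : M) : ¬ n < n := by
  revert n
  have := H.ne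
  apply H.ind0 (fun n => ¬ n < n)
  · exact H.not_lt_zero 0
  · intro n ih h
    rw [H.lt_succ] at h
    rcases h with h | h
    · exact ih (H.HA_lt_trans' (H.HA_lt_succ_self' n) h)
    · have := H.HA_lt_succ_self' n
      rw [h] at this
      exact ih this

theorem HA_zero_or_pos' (n : M) : n = 0 ∨ 0 < n := by
  revert n
  have := H.ne
  apply H.ind0 (fun n => n = 0 ∨ 0 < n)
  · exact Or.inl rfl
  · intro n ih
    right
    rw [H.lt_succ]
    rcases ih with h | h
    · exact Or.inr h.symm
    · exact Or.inl h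

theorem HA_succ_le' {b a : M} : b < a → b + 1 < a ∨ b + 1 = a := by
  revert a
  have := H.ne
  apply H.ind0 (fun a => b < a → b + 1 < a ∨ b + 1 = a)
  · intro h
    exact absurd h (H.not_lt_zero b)
  · intro n ih h
    rw [H.lt_succ] at h
    rcases h with h | h
    · rcases ih h with h | h
      · exact Or.inl (H.HA_lt_trans' h (H.HA_lt_succ_self' n))
      · left
        rw [h]
        exact H.HA_lt_succ_self' n
    · right
      rw [h]

theorem HA_trichotomy' (a b : M) : a < b ∨ a = b ∨ b < a := by
  revert b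
  have := H.ne
  apply H.ind0 (fun b => a < b ∨ a = b ∨ b < a)
  · rcases H.HA_zero_or_pos' a with h | h
    · exact Or.inr (Or.inl h)
    · exact Or.inr (Or.inr h)
  · intro n ih
    rcases ih with h | h | h
    · exact Or.inl ((H.lt_succ a n).2 (Or.inl h))
    · exact Or.inl ((H.lt_succ a n).2 (Or.inr h))
    · rcases H.HA_succ_le' h with h | h
      · exact Or.inr (Or.inr h)
      · exact Or.inr (Or.inl h.symm)

theorem HA_succ_lt_succ' {a b : M} (h : a < b) : a + 1 < b + 1 := by
  rw [H.lt_succ]
  exact H.HA_succ_le' h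

theorem HA_add_lt_add_right' {a b : M} (h : a < b) (c : M) : a + c < b + c := by
  revert c
  have := H.ne
  apply H.ind0 (fun c => a + c < b + c)
  · rw [H.add_zero, H.add_zero]
    exact h
  · intro n ih
    rw [H.add_succ, H.add_succ]
    exact H.HA_succ_lt_succ' ih

theorem HA_add_lt_add_left' {a b : M} (h : a < b) (c : M) : c + a < c + b := by
  rw [H.HA_add_comm' c a, H.HA_add_comm' c b]
  exact H.HA_add_lt_add_right' h c

theorem HA_mul_lt_mul_right' {a b : M} (h : a < b) (c : M) : 0 < c → a * c < b * c := by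
  revert c
  have := H.ne
  apply H.ind0 (fun c => 0 < c → a * c < b * c)
  · intro h0
    exact absurd h0 (H.not_lt_zero 0)
  · intro n ih _
    rw [H.mul_succ, H.mul_succ]
    rcases H.HA_zero_or_pos' n with hn | hn
    · subst hn
      rw [H.mul_zero, H.mul_zero, H.HA_zero_add', H.HA_zero_add']
      exact h
    · exact H.HA_lt_trans' (H.HA_add_lt_add_right' (ih hn) a) (H.HA_add_lt_add_left' h _)

end IsRCA0

/-- the commutative semiring structure of a model (same `0`, `1`, `+`, `·`) -/
@[reducible] def csr (H : IsRCA0 S) : CommSemiring M :=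
  { (inferInstance : Zero M), (inferInstance : One M), (inferInstance : Add M),
    (inferInstance : Mul M) with
    add_assoc := H.HA_add_assoc'
    zero_add := H.HA_zero_add'
    add_zero := H.add_zero
    add_comm := H.HA_add_comm'
    mul_assoc := H.HA_mul_assoc'
    one_mul := fun n => by rw [H.HA_mul_comm', H.HA_mul_one']
    mul_one := H.HA_mul_one'
    left_distrib := H.HA_mul_add'
    right_distrib := fun a b c => by
      rw [H.HA_mul_comm', H.HA_mul_add', H.HA_mul_comm' c a, H.HA_mul_comm' c b]
    zero_mul := H.HA_zero_mul'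
    mul_zero := H.mul_zero
    mul_comm := H.HA_mul_comm'
    nsmul := @nsmulRec M _ _
    npow := @npowRec M _ _ }

open Classical in
/-- the linear order of a model (same `<`) -/
@[reducible] noncomputable def lo (H : IsRCA0 S) : LinearOrder M :=
  { (inferInstance : LT M) with
    le := fun a b => a < b ∨ a = b
    le_refl := fun a => Or.inr rfl
    le_trans := fun a b c h1 h2 => by
      rcases h1 with h1 | h1
      · rcases h2 with h2 | h2
        · exact Or.inl (H.HA_lt_trans' h1 h2)
        · subst h2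
          exact Or.inl h1
      · subst h1
        exact h2
    lt_iff_le_not_ge := fun a b => by
      constructor
      · intro h
        refine ⟨Or.inl h, ?_⟩
        rintro (h' | h')
        · exact H.HA_lt_irrefl' a (H.HA_lt_trans' h h')
        · subst h'
          exact H.HA_lt_irrefl' _ h
      · rintro ⟨h | h, h'⟩
        · exact h
        · exact absurd (Or.inr h.symm) h'
    le_antisymm := fun a b h1 h2 => by
      rcases h1 with h1 | h1
      · rcases h2 with h2 | h2
        · exact absurd (H.HA_lt_trans' h1 h2) (H.HA_lt_irrefl' a)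
        · exact h2.symm
      · exact h1
    le_total := fun a b => by
      rcases H.HA_trichotomy' a b with h | h | h
      · exact Or.inl (Or.inl h)
      · exact Or.inl (Or.inr h)
      · exact Or.inr (Or.inl h)
    toDecidableLE := fun a b => Classical.propDecidable _
    toDecidableEq := fun a b => Classical.propDecidable _
    toDecidableLT := fun a b => Classical.propDecidable _ }

theorem isor (H : IsRCA0 S) :
    @IsStrictOrderedRing M (csr H).toSemiring (lo H).toPartialOrder := by
  let _ := csr H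
  let _ := lo H
  refine { add_le_add_left := ?_, le_of_add_le_add_left := ?_, zero_le_one := ?_,
           exists_pair_ne := ⟨0, 1, ?_⟩, mul_lt_mul_of_pos_left := ?_,
           mul_lt_mul_of_pos_right := ?_ }
  · intro a b h c
    rcases h with h | h
    · exact Or.inl (H.HA_add_lt_add_right' h c)
    · subst h
      exact Or.inr rfl
  · intro a b c h
    by_contra hcon
    rcases H.HA_trichotomy' b c with h' | h' | h'
    · exact hcon (Or.inl h')
    · exact hcon (Or.inr h')
    · have h2 : a + c < a + b := H.HA_add_lt_add_left' h' a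
      rcases h with h | h
      · exact H.HA_lt_irrefl' _ (H.HA_lt_trans' h h2)
      · have h3 : a + c < a + b := h2
        rw [h] at h3
        exact H.HA_lt_irrefl' _ h3
  · left
    have h1 : (1 : M) = 0 + 1 := (H.HA_zero_add' 1).symm
    show (0 : M) < 1
    rw [h1]
    exact H.HA_lt_succ_self' 0
  · intro h
    have h1 : (0 : M) + 1 = 0 := by
      rw [H.HA_zero_add']
      exact h.symm
    exact H.succ_ne_zero 0 h1
  · intro a ha b c hbc
    show a * b < a * c
    rw [H.HA_mul_comm' a b, H.HA_mul_comm' a c]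
    exact H.HA_mul_lt_mul_right' hbc a ha
  · intro a ha b c hbc
    exact H.HA_mul_lt_mul_right' hbc a ha

end raw

section

variable {M : Type u} [CommSemiring M] [LinearOrder M] [IsStrictOrderedRing M] {S : Set (Set M)}

instance d0_le [Ne S] (f g : (ℕ → M) → M) [hf : Tf f] [hg : Tf g] :
    D0 S (fun v => f v ≤ g v) := by
  have h : D0 S (fun v => ¬ (g v < f v)) := by infer_instance
  exact h.congr fun v => not_lt

theorem IsRCA0.zero_le (H : IsRCA0 S) (a : M) : 0 ≤ a := not_lt.1 (H.not_lt_zero a)

theorem IsRCA0.lt_succ_iff (H : IsRCA0 S) (a b : M) : a < b + 1 ↔ a ≤ b := by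
  rw [H.lt_succ, le_iff_lt_or_eq]

theorem IsRCA0.succ_le_iff (H : IsRCA0 S) (a b : M) : a + 1 ≤ b ↔ a < b := by
  rw [← not_lt, H.lt_succ_iff, not_le]

theorem IsRCA0.lt_self_succ (H : IsRCA0 S) (a : M) : a < a + 1 :=
  (H.lt_succ_iff a a).2 le_rfl

instance d0_ball_le (f : (ℕ → M) → M) [hf : Tf f] (R : M → (ℕ → M) → Prop)
    [hH : Fact (IsRCA0 S)]
    [hR : D0 S (fun v => R (v 0) (fun i => v (i + 1)))] :
    D0 S (fun v => ∀ a : M, a ≤ f v → R a v) := by
  have h : D0 S (fun v => ∀ a : M, a < f v + 1 → R a v) := by infer_instance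
  exact h.congr fun v => by simp only [hH.out.lt_succ_iff]

instance d0_bex_le (f : (ℕ → M) → M) [hf : Tf f] (R : M → (ℕ → M) → Prop)
    [hH : Fact (IsRCA0 S)]
    [hR : D0 S (fun v => R (v 0) (fun i => v (i + 1)))] :
    D0 S (fun v => ∃ a : M, a ≤ f v ∧ R a v) := by
  have h : D0 S (fun v => ∃ a : M, a < f v + 1 ∧ R a v) := by infer_instance
  exact h.congr fun v => by simp only [hH.out.lt_succ_iff]

theorem IsRCA0.zero_or_succ (H : IsRCA0 S) (a : M) : a = 0 ∨ ∃ b, a = b + 1 := by
  have := H.ne
  have : Fact (IsRCA0 S) := ⟨H⟩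
  have h : ∀ a : M, a = 0 ∨ ∃ b, b < a ∧ a = b + 1 := by
    apply H.ind0 (fun a => a = 0 ∨ ∃ b, b < a ∧ a = b + 1)
    · exact Or.inl rfl
    · intro n _
      exact Or.inr ⟨n, H.lt_self_succ n, rfl⟩
  rcases h a with h | ⟨b, -, h⟩
  · exact Or.inl h
  · exact Or.inr ⟨b, h⟩

/-- subtraction -/
theorem IsRCA0.exists_add (H : IsRCA0 S) {a b : M} (h : a ≤ b) : ∃ c, b = a + c := by
  have := H.ne
  have : Fact (IsRCA0 S) := ⟨H⟩
  have key : ∀ b : M, a ≤ b → ∃ c, c < b + 1 ∧ b = a + c := by
    apply H.ind0 (fun b => a ≤ b → ∃ c, c < b + 1 ∧ b = a + c)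
    · intro h
      have h0 : a = 0 := le_antisymm h (H.zero_le a)
      exact ⟨0, H.lt_self_succ 0, by rw [h0, _root_.add_zero]⟩
    · intro n ih h
      rcases le_iff_lt_or_eq.1 h with h | h
      · rw [H.lt_succ_iff] at h
        obtain ⟨c, h1, h2⟩ := ih h
        refine ⟨c + 1, ?_, ?_⟩
        · rw [H.lt_succ_iff, H.succ_le_iff]
          exact h1
        · rw [h2]
          ring
      · refine ⟨0, ?_, by rw [h, _root_.add_zero]⟩
        rw [H.lt_succ_iff]
        exact H.zero_le _
  obtain ⟨c, -, hc⟩ := key b h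
  exact ⟨c, hc⟩

theorem IsRCA0.le_self_mul (H : IsRCA0 S) (a : M) : a ≤ a * a := by
  rcases H.zero_or_succ a with rfl | ⟨b, rfl⟩
  · exact H.zero_le _
  · have h : (b + 1) * 1 ≤ (b + 1) * (b + 1) := by
      apply mul_le_mul_of_nonneg_left
      · have := add_le_add_left (H.zero_le b) 1
        rwa [zero_add] at this
      · exact H.zero_le _
    rwa [mul_one] at h

theorem IsRCA0.le_add_left' (H : IsRCA0 S) (a b : M) : a ≤ b + a := by
  have := add_le_add_left (H.zero_le b) a
  rwa [zero_add] at this

theorem IsRCA0.le_add_right' (H : IsRCA0 S) (a b : M) : a ≤ a + b := by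
  rw [add_comm]
  exact H.le_add_left' a b

theorem IsRCA0.le_pr_left (H : IsRCA0 S) (a b : M) : a ≤ pr a b :=
  H.le_add_left' _ _

theorem IsRCA0.le_pr_right (H : IsRCA0 S) (a b : M) : b ≤ pr a b := by
  unfold pr
  calc b ≤ a + b := H.le_add_left' _ _
    _ ≤ (a + b) * (a + b) := H.le_self_mul _
    _ ≤ _ := H.le_add_right' _ _

theorem IsRCA0.HA_pr_aux (H : IsRCA0 S) {a b c d : M} (h : a + b < c + d) :
    pr a b < pr c d := by
  unfold pr
  have h1 : a + b + 1 ≤ c + d := (H.succ_le_iff _ _).2 h
  have h2 : (a + b + 1) * (a + b + 1) ≤ (c + d) * (c + d) :=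
    mul_le_mul h1 h1 (H.zero_le _) (H.zero_le _)
  calc (a + b) * (a + b) + a ≤ (a + b) * (a + b) + (a + b) := by
        have := add_le_add_left (H.le_add_right' a b) ((a + b) * (a + b))
        rwa [add_comm a, add_comm (a + b)] at this
    _ < (a + b) * (a + b) + (a + b) + (a + b) + 1 := by
        rw [H.lt_succ_iff]
        exact H.le_add_right' _ _
    _ = (a + b + 1) * (a + b + 1) := by ring
    _ ≤ (c + d) * (c + d) := h2
    _ ≤ _ := H.le_add_right' _ _

theorem IsRCA0.pr_inj (H : IsRCA0 S) {a b c d : M} : pr a b = pr c d ↔ a = c ∧ b = d := by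
  constructor
  · intro h
    have hs : a + b = c + d := by
      rcases lt_trichotomy (a + b) (c + d) with h' | h' | h'
      · exact absurd h (ne_of_lt (H.HA_pr_aux h'))
      · exact h'
      · exact absurd h.symm (ne_of_lt (H.HA_pr_aux h'))
    unfold pr at h
    rw [hs] at h
    have hac : a = c := add_left_cancel h
    subst hac
    exact ⟨rfl, add_left_cancel hs⟩
  · rintro ⟨rfl, rfl⟩
    rfl

/-- monotonicity of the pairing function -/
theorem IsRCA0.pr_le (H : IsRCA0 S) {a b c d : M} (h1 : a ≤ c) (h2 : b ≤ d) :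
    pr a b ≤ pr c d := by
  unfold pr
  have h3 : a + b ≤ c + d := add_le_add h1 h2
  exact add_le_add (mul_le_mul h3 h3 (H.zero_le _) (H.zero_le _)) h1

/-- strong induction for bounded formulas -/
theorem IsRCA0.sind0 (H : IsRCA0 S) (R : M → Prop) [hR : D0 S (fun v => R (v 0))]
    (hs : ∀ n, (∀ m, m < n → R m) → R n) : ∀ n, R n := by
  have := H.ne
  have hR' : D0 S (fun v => R (v 0)) := hR
  have key : ∀ n, ∀ m, m < n → R m := by
    apply H.ind0 (fun n => ∀ m, m < n → R m)
    · intro m hm
      exact absurd hm (H.not_lt_zero m)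
    · intro n ih m hm
      rw [H.lt_succ] at hm
      rcases hm with hm | rfl
      · exact ih m hm
      · exact hs m ih
  intro n
  exact key (n + 1) n ((H.lt_succ_iff n n).2 le_rfl)

/-- least element principle for bounded formulas -/
theorem IsRCA0.least0 (H : IsRCA0 S) (R : M → Prop) [hR : D0 S (fun v => R (v 0))]
    (h : ∃ n, R n) : ∃ n, R n ∧ ∀ m, R m → n ≤ m := by
  by_contra hcon
  obtain ⟨n, hn⟩ := h
  have key : ∀ n, ¬ R n := by
    apply H.sind0 (fun n => ¬ R n)
    intro n ih hn
    apply hcon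
    refine ⟨n, hn, fun m hm => ?_⟩
    by_contra hlt
    exact ih m (not_le.1 hlt) hm
  exact key n hn

/-- division with remainder -/
theorem IsRCA0.exists_div (H : IsRCA0 S) (a : M) {b : M} (hb : 0 < b) :
    ∃ q r, r < b ∧ a = q * b + r := by
  have := H.ne
  have : Fact (IsRCA0 S) := ⟨H⟩
  have h1b : 1 ≤ b := by
    have := (H.succ_le_iff 0 b).2 hb
    rwa [zero_add] at this
  have key : ∀ a : M, ∃ q, q < a + 1 ∧ ∃ r, r < b ∧ a = q * b + r := by
    apply H.ind0 (fun a => ∃ q, q < a + 1 ∧ ∃ r, r < b ∧ a = q * b + r)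
    · exact ⟨0, H.lt_self_succ 0, 0, hb, by rw [zero_mul, _root_.add_zero]⟩
    · rintro n ⟨q, hq, r, hr, hn⟩
      rcases lt_or_ge (r + 1) b with h | h
      · exact ⟨q, lt_trans hq (H.lt_self_succ _), r + 1, h, by rw [hn]; ring⟩
      · have h2 : r + 1 = b := le_antisymm ((H.succ_le_iff r b).2 hr) h
        refine ⟨q + 1, ?_, 0, hb, ?_⟩
        · rw [H.lt_succ_iff, H.succ_le_iff]
          exact hq
        · rw [hn, _root_.add_zero, ← h2]
          ring
  obtain ⟨q, -, r, h1, h2⟩ := key a
  exact ⟨q, r, h1, h2⟩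

theorem IsRCA0.div_unique (H : IsRCA0 S) {b q r q' r' : M} (hr : r < b) (hr' : r' < b)
    (h : q * b + r = q' * b + r') : q = q' ∧ r = r' := by
  have key : ∀ q r q' r' : M, r < b → q < q' → q * b + r < q' * b + r' := by
    intro q r q' r' hr hq
    have h1 : q + 1 ≤ q' := (H.succ_le_iff _ _).2 hq
    calc q * b + r < q * b + b := by
          have := add_lt_add_left hr (q * b)
          rwa [add_comm r, add_comm b] at this
      _ = (q + 1) * b := by ring
      _ ≤ q' * b := mul_le_mul_of_nonneg_right h1 (H.zero_le b)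
      _ ≤ q' * b + r' := H.le_add_right' _ _
  have hq : q = q' := by
    rcases lt_trichotomy q q' with h' | h' | h'
    · exact absurd h (ne_of_lt (key q r q' r' hr h'))
    · exact h'
    · exact absurd h.symm (ne_of_lt (key q' r' q r hr' h'))
  subst hq
  exact ⟨rfl, add_left_cancel h⟩

end

end Kriz.PTO
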