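import Pool.Agent.Work.MP_0f6836_lc.PTO.HA

/-!
# Block HB: `Σ₁` predicates in a model of `RCA_0`: closure, induction, least elements,
comprehension
-/

set_option linter.unusedSectionVars false

namespace Kriz.PTO

universe u

variable {M : Type u} [CommSemiring M] [LinearOrder M] [IsStrictOrderedRing M] {S : Set (Set M)}

/-- `R` is `Σ₁` -/
class S1 (S : Set (Set M)) (R : (ℕ → M) → Prop) : Prop where
  out : ∃ Q : M → (ℕ → M) → Prop, D0 S (fun v => Q (v 0) (fun i => v (i + 1))) ∧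
    ∀ v, R v ↔ ∃ m, Q m v

theorem S1.congr {P Q : (ℕ → M) → Prop} (h : ∀ v, P v ↔ Q v) (hP : S1 S P) : S1 S Q := by
  obtain ⟨R, h1, h2⟩ := hP.out
  exact ⟨R, h1, fun v => by rw [← h, h2]⟩

/-- renaming of variables in bounded predicates -/
theorem hb_ren {R : (ℕ → M) → Prop} (hR : D0 S R) (ρ : ℕ → ℕ) :
    D0 S (fun v => R (fun i => v (ρ i))) :=
  D0.compAll hR (fun i v => v (ρ i)) (fun i => .var (2 * ρ i)) (fun _ => 0)
    fun i v => (mix_even v _ _).symm

theorem hb_shift {R : (ℕ → M) → Prop} (hR : D0 S R) :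
    D0 S (fun v => R (fun i => v (i + 1))) := hb_ren hR (fun i => i + 1)

/-- renaming for a predicate under two quantifiers -/
theorem hb_two {Q : M → (ℕ → M) → Prop} (hQ : D0 S (fun v => Q (v 0) (fun i => v (i + 1)))) :
    D0 S (fun v => Q (v 0) (push (v 1) (fun i => v (i + 1 + 1 + 1)))) := by
  have h := hb_ren hQ (fun i => if i = 0 then 0 else if i = 1 then 1 else i + 1)
  refine h.congr fun v => ?_
  have e : (fun i => v (if i + 1 = 0 then 0 else if i + 1 = 1 then 1 else i + 1 + 1)) =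
      push (v 1) (fun i => v (i + 1 + 1 + 1)) := by
    funext i
    cases i with
    | zero => rfl
    | succ i => simp [push]
  simp only [if_true]
  rw [e]

instance (priority := low) s1_of_d0 [Fact (IsRCA0 S)] (R : (ℕ → M) → Prop) [h : D0 S R] :
    S1 S R := ⟨fun _ v => R v, hb_shift h, fun v => ⟨fun h => ⟨0, h⟩, fun ⟨_, h⟩ => h⟩⟩

instance s1_and [Fact (IsRCA0 S)] (P Q : (ℕ → M) → Prop) [hP : S1 S P] [hQ : S1 S Q] :
    S1 S (fun v => P v ∧ Q v) := by
  obtain ⟨P', h1, h2⟩ := hP.out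
  obtain ⟨Q', h3, h4⟩ := hQ.out
  have H : IsRCA0 S := Fact.out
  have e1 : D0 S (fun v => P' (v 0) (fun i => v (i + 1 + 1))) := by
    refine (hb_ren h1 (fun i => if i = 0 then 0 else i + 1)).congr fun v => ?_
    have e : (fun i => v (if i + 1 = 0 then 0 else i + 1 + 1)) = (fun i => v (i + 1 + 1)) := by
      funext i
      simp
    simp only [if_true]
    rw [e]
  have e2 : D0 S (fun v => Q' (v 0) (fun i => v (i + 1 + 1))) := by
    refine (hb_ren h3 (fun i => if i = 0 then 0 else i + 1)).congr fun v => ?_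
    have e : (fun i => v (if i + 1 = 0 then 0 else i + 1 + 1)) = (fun i => v (i + 1 + 1)) := by
      funext i
      simp
    simp only [if_true]
    rw [e]
  have e3 : D0 S (fun v => ∃ a, a ≤ v 0 ∧ P' a (fun i => v (i + 1))) :=
    d0_bex_le (fun v => v 0) (fun a v => P' a (fun i => v (i + 1)))
  have e4 : D0 S (fun v => ∃ a, a ≤ v 0 ∧ Q' a (fun i => v (i + 1))) :=
    d0_bex_le (fun v => v 0) (fun a v => Q' a (fun i => v (i + 1)))
  refine ⟨fun m v => (∃ a, a ≤ m ∧ P' a v) ∧ ∃ a, a ≤ m ∧ Q' a v, ?_, fun v => ?_⟩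
  · infer_instance
  · rw [h2, h4]
    constructor
    · rintro ⟨⟨a, ha⟩, ⟨b, hb⟩⟩
      exact ⟨max a b, ⟨a, le_max_left _ _, ha⟩, ⟨b, le_max_right _ _, hb⟩⟩
    · rintro ⟨m, ⟨a, _, ha⟩, ⟨b, _, hb⟩⟩
      exact ⟨⟨a, ha⟩, ⟨b, hb⟩⟩

instance s1_or [Fact (IsRCA0 S)] (P Q : (ℕ → M) → Prop) [hP : S1 S P] [hQ : S1 S Q] :
    S1 S (fun v => P v ∨ Q v) := by
  obtain ⟨P', h1, h2⟩ := hP.out
  obtain ⟨Q', h3, h4⟩ := hQ.out
  refine ⟨fun m v => P' m v ∨ Q' m v, ?_, fun v => ?_⟩
  · infer_instance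
  · rw [h2, h4]
    constructor
    · rintro (⟨a, ha⟩ | ⟨a, ha⟩)
      · exact ⟨a, Or.inl ha⟩
      · exact ⟨a, Or.inr ha⟩
    · rintro ⟨a, ha | ha⟩
      · exact Or.inl ⟨a, ha⟩
      · exact Or.inr ⟨a, ha⟩

theorem hb_ex [Fact (IsRCA0 S)] (R : M → (ℕ → M) → Prop) (Q : M → (ℕ → M) → Prop)
    (h1 : D0 S (fun v => Q (v 0) (fun i => v (i + 1))))
    (h2 : ∀ a v, R a v ↔ ∃ m, Q m (push a v)) :
    S1 S (fun v => ∃ a : M, R a v) := by
  have H : IsRCA0 S := Fact.out
  have e1 := hb_two h1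
  have e2 : D0 S (fun v => ∃ m, m ≤ v 1 ∧ Q m (push (v 0) (fun i => v (i + 1 + 1)))) :=
    d0_bex_le (fun v => v 1) (fun m v => Q m (push (v 0) (fun i => v (i + 1 + 1))))
  have e3 : D0 S (fun v => ∃ a, a ≤ v 0 ∧ ∃ m, m ≤ v 0 ∧
      Q m (push a (fun i => v (i + 1)))) :=
    d0_bex_le (fun v => v 0) (fun a v => ∃ m, m ≤ v 0 ∧ Q m (push a (fun i => v (i + 1))))
  refine ⟨fun n v => ∃ a, a ≤ n ∧ ∃ m, m ≤ n ∧ Q m (push a v), e3, fun v => ?_⟩
  constructor
  · rintro ⟨a, ha⟩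
    obtain ⟨m, hm⟩ := (h2 a v).1 ha
    exact ⟨max a m, a, le_max_left _ _, m, le_max_right _ _, hm⟩
  · rintro ⟨n, a, _, m, _, hm⟩
    exact ⟨a, (h2 a v).2 ⟨m, hm⟩⟩

instance s1_ex [Fact (IsRCA0 S)] (R : M → (ℕ → M) → Prop)
    [hR : S1 S (fun v => R (v 0) (fun i => v (i + 1)))] :
    S1 S (fun v => ∃ a : M, R a v) := by
  obtain ⟨Q, h1, h2⟩ := hR.out
  exact hb_ex R Q h1 fun a v => h2 (push a v)

/-- the form of two `Σ₁` predicates of one variable -/
theorem hb_form {P R : M → Prop} (hP : S1 S (fun v => P (v 0))) (hR : S1 S (fun v => R (v 0))) :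
    ∃ θ η : Fm, θ.Bdd ∧ η.Bdd ∧ ∃ (V : ℕ → Set M) (c : ℕ → M), (∀ k, V k ∈ S) ∧
      (∀ a, P a ↔ θ.ex.Sat V (push a c)) ∧ ∀ a, R a ↔ η.ex.Sat V (push a c) := by
  obtain ⟨P', h1, h2⟩ := hP.out
  obtain ⟨R', h3, h4⟩ := hR.out
  obtain ⟨θ, η, b1, b2, c, V, hV, h5, h6⟩ := h1.merge h3
  let ρ : ℕ → ℕ := fun i => if i = 0 then 0 else if i % 2 = 0 then 1 else i / 2 + 2
  have key : ∀ m a : M, (fun i => push m (push a c) (ρ i)) =
      mix (push m (fun _ => a)) c := by
    intro m a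
    funext i
    rcases Nat.even_or_odd' i with ⟨k, rfl | rfl⟩
    · rw [mix_even]
      rcases k with _ | k
      · rfl
      · have : ρ (2 * (k + 1)) = 1 := by
          have h' : 2 * (k + 1) ≠ 0 := by omega
          have h : 2 * (k + 1) % 2 = 0 := by omega
          simp only [ρ, h, h', if_false, if_true]
        rw [this]
        rfl
    · have : ρ (2 * k + 1) = k + 2 := by
        have h' : 2 * k + 1 ≠ 0 := by omega
        have h : (2 * k + 1) % 2 ≠ 0 := by omega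
        have h'' : (2 * k + 1) / 2 = k := by omega
        simp only [ρ, h, h', if_false, h'']
      rw [this, mix_odd]
      rfl
  refine ⟨θ.ren id ρ, η.ren id ρ, (Fm.bdd_ren _ _ _).2 b1, (Fm.bdd_ren _ _ _).2 b2, V, c, hV,
    fun a => ?_, fun a => ?_⟩
  · have : P a ↔ ∃ m, P' m (fun _ => a) := h2 (fun _ => a)
    rw [this]
    show _ ↔ ¬ ∀ m, ¬ _
    push Not
    refine exists_congr fun m => ?_
    rw [Fm.sat_ren, key]
    exact h5 (push m (fun _ => a))
  · have : R a ↔ ∃ m, R' m (fun _ => a) := h4 (fun _ => a)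
    rw [this]
    show _ ↔ ¬ ∀ m, ¬ _
    push Not
    refine exists_congr fun m => ?_
    rw [Fm.sat_ren, key]
    exact h6 (push m (fun _ => a))

/-- `Σ₁` induction -/
theorem hb_ind (S : Set (Set M)) (H : IsRCA0 S) (R : M → Prop) (hR : S1 S (fun v => R (v 0)))
    (h0 : R 0) (hs : ∀ n, R n → R (n + 1)) : ∀ n, R n := by
  obtain ⟨θ, _, b1, _, V, c, hV, h1, _⟩ := hb_form hR hR
  intro n
  rw [h1]
  exact H.ind θ b1 V c hV ((h1 0).1 h0) (fun m hm => (h1 _).1 (hs m ((h1 m).2 hm))) n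

/-- `Σ₁` collection -/
theorem collection (S : Set (Set M)) [Fact (IsRCA0 S)] (R : M → M → Prop) [hR : D0 S (fun v => R (v 0) (v 1))]
    (n : M) (h : ∀ i, i < n → ∃ y, R i y) : ∃ b, ∀ i, i < n → ∃ y, y < b ∧ R i y := by
  have H : IsRCA0 S := Fact.out
  have e0 : D0 S (fun v => R (v 1) (v 0)) := hR.comp2 (fun v => v 1) (fun v => v 0)
  have e1 : D0 S (fun v => ∃ y, y < v 1 ∧ R (v 0) y) :=
    d0_bex (fun v => v 1) (fun y v => R (v 0) y)
  have e2 : D0 S (fun v => ∀ i, i < v 1 → ∃ y, y < v 0 ∧ R i y) :=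
    d0_ball (fun v => v 1) (fun i v => ∃ y, y < v 0 ∧ R i y)
  have e3 : S1 S (fun v => n < v 0 ∨ ∃ b, ∀ i, i < v 0 → ∃ y, y < b ∧ R i y) := by
    have e4 : S1 S (fun v => ∃ b, ∀ i, i < v 0 → ∃ y, y < b ∧ R i y) :=
      s1_ex (fun b v => ∀ i, i < v 0 → ∃ y, y < b ∧ R i y)
    infer_instance
  have key := hb_ind S H (fun k => n < k ∨ ∃ b, ∀ i, i < k → ∃ y, y < b ∧ R i y) e3
    (Or.inr ⟨0, fun i hi => absurd hi (H.not_lt_zero i)⟩) (by
      rintro k (hk | ⟨b, hb⟩)
      · exact Or.inl (hk.trans (H.lt_self_succ k))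
      · rcases lt_or_ge k n with hkn | hkn
        · obtain ⟨y, hy⟩ := h k hkn
          refine Or.inr ⟨max b (y + 1), fun i hi => ?_⟩
          rcases (H.lt_succ i k).1 hi with hi | rfl
          · obtain ⟨z, hz, hz'⟩ := hb i hi
            exact ⟨z, lt_of_lt_of_le hz (le_max_left _ _), hz'⟩
          · exact ⟨y, lt_of_lt_of_le (H.lt_self_succ y) (le_max_right _ _), hy⟩
        · exact Or.inl ((H.lt_succ_iff n k).2 hkn)) n
  rcases key with hk | hk
  · exact absurd hk (lt_irrefl n)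
  · exact hk

instance s1_ball [Fact (IsRCA0 S)] (f : (ℕ → M) → M) [hf : Tf f] (R : M → (ℕ → M) → Prop)
    [hR : S1 S (fun v => R (v 0) (fun i => v (i + 1)))] :
    S1 S (fun v => ∀ a : M, a < f v → R a v) := by
  obtain ⟨Q, h1, h2⟩ := hR.out
  have H : IsRCA0 S := Fact.out
  have h2' : ∀ a v, R a v ↔ ∃ m, Q m (push a v) := fun a v => h2 (push a v)
  have e1 := hb_two h1
  have e2 : D0 S (fun v => ∃ m, m < v 1 ∧ Q m (push (v 0) (fun i => v (i + 1 + 1)))) :=
    d0_bex (fun v => v 1) (fun m v => Q m (push (v 0) (fun i => v (i + 1 + 1))))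
  have e3 : D0 S (fun v => ∀ a, a < f (fun i => v (i + 1)) → ∃ m, m < v 0 ∧
      Q m (push a (fun i => v (i + 1)))) :=
    d0_ball (fun v => f (fun i => v (i + 1)))
      (fun a v => ∃ m, m < v 0 ∧ Q m (push a (fun i => v (i + 1))))
  refine ⟨fun n v => ∀ a, a < f v → ∃ m, m < n ∧ Q m (push a v), e3, fun v => ?_⟩
  constructor
  · intro h
    have e4 : D0 S (fun w => Q (w 1) (push (w 0) v)) := by
      have h3 := D0.compAll h1
        (fun i w => if i = 0 then w 1 else if i = 1 then w 0 else v (i - 2))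
        (fun i => if i = 0 then .var 2 else if i = 1 then .var 0 else .var (2 * (i - 2) + 1)) v
        (fun i w => by
          by_cases hi : i = 0
          · simp only [hi, if_true]
            exact (mix_even w v 1).symm
          · by_cases hi' : i = 1
            · subst hi'
              exact (mix_even w v 0).symm
            · simp only [hi, hi', if_false]
              exact (mix_odd w v (i - 2)).symm)
      refine h3.congr fun w => ?_
      have e : (fun i => if i + 1 = 0 then w 1 else if i + 1 = 1 then w 0 else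
          v (i + 1 - 2)) = push (w 0) v := by
        funext i
        cases i with
        | zero => rfl
        | succ i =>
          have h' : i + 1 + 1 ≠ 0 := by omega
          have h'' : i + 1 + 1 ≠ 1 := by omega
          simp only [h', h'', if_false]
          rfl
      simp only [if_true]
      rw [e]
    haveI : D0 S (fun w => (fun a m => Q m (push a v)) (w 0) (w 1)) := e4
    exact collection S (fun a m => Q m (push a v)) (f v) fun a ha => (h2' a v).1 (h a ha)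
  · rintro ⟨n, hn⟩ a ha
    obtain ⟨m, _, hm⟩ := hn a ha
    exact (h2' a v).2 ⟨m, hm⟩

instance s1_ball_le [Fact (IsRCA0 S)] (f : (ℕ → M) → M) [hf : Tf f] (R : M → (ℕ → M) → Prop)
    [hR : S1 S (fun v => R (v 0) (fun i => v (i + 1)))] :
    S1 S (fun v => ∀ a : M, a ≤ f v → R a v) := by
  have H : IsRCA0 S := Fact.out
  have h : S1 S (fun v => ∀ a : M, a < f v + 1 → R a v) := by infer_instance
  exact h.congr fun v => by simp only [H.lt_succ_iff]

theorem hb_compAll {R : (ℕ → M) → Prop} (hR : S1 S R) (g : ℕ → (ℕ → M) → M) (t : ℕ → NT)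
    (c : ℕ → M) (ht : ∀ i v, g i v = (t i).val (mix v c)) :
    S1 S (fun v => R (fun i => g i v)) := by
  obtain ⟨Q, h1, h2⟩ := hR.out
  refine ⟨fun m v => Q m (fun i => g i v), ?_, fun v => h2 _⟩
  have h3 := D0.compAll h1
    (fun i v => if i = 0 then v 0 else g (i - 1) (fun j => v (j + 1)))
    (fun i => if i = 0 then .var 0 else (t (i - 1)).ren (fun i => if i % 2 = 0 then i + 2 else i)) c
    (fun i v => by
      by_cases hi : i = 0
      · simp only [hi, if_true]
        exact (mix_even v c 0).symm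
      · simp only [hi, if_false]
        rw [ht, NT.val_ren]
        congr 1
        funext i
        rcases Nat.even_or_odd' i with ⟨k, rfl | rfl⟩
        · have h : 2 * k % 2 = 0 := by omega
          simp only [h, if_true]
          rw [mix_even, show 2 * k + 2 = 2 * (k + 1) from rfl, mix_even]
        · have h : (2 * k + 1) % 2 ≠ 0 := by omega
          simp only [h, if_false]
          rw [mix_odd, mix_odd])
  exact h3

theorem S1.comp1 [Fact (IsRCA0 S)] {R : M → Prop} (h : S1 S (fun v => R (v 0)))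
    (f : (ℕ → M) → M) [Tf f] : S1 S (fun v => R (f v)) := by
  obtain ⟨t, c, ht⟩ := (inferInstance : Tf f).out
  exact hb_compAll h (fun _ => f) (fun _ => t) c fun _ v => ht v

theorem S1.comp2 [Fact (IsRCA0 S)] {R : M → M → Prop} (h : S1 S (fun v => R (v 0) (v 1)))
    (f g : (ℕ → M) → M) [Tf f] [Tf g] : S1 S (fun v => R (f v) (g v)) := by
  obtain ⟨s, t, c, hs, ht⟩ := Tf.merge (inferInstance : Tf f) (inferInstance : Tf g)
  exact hb_compAll h (fun i => if i = 0 then f else g) (fun i => if i = 0 then s else t) c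
    fun i v => by
      by_cases hi : i = 0
      · simp only [hi, if_true, hs]
      · simp only [hi, if_false, ht]

theorem S1.comp3 [Fact (IsRCA0 S)] {R : M → M → M → Prop}
    (h : S1 S (fun v => R (v 0) (v 1) (v 2)))
    (f g k : (ℕ → M) → M) [Tf f] [Tf g] [Tf k] : S1 S (fun v => R (f v) (g v) (k v)) := by
  obtain ⟨s, t, c, hs, ht⟩ := Tf.merge (inferInstance : Tf f) (inferInstance : Tf g)
  obtain ⟨u, d, hu⟩ := (inferInstance : Tf k).out
  refine hb_compAll h (fun i => if i = 0 then f else if i = 1 then g else k)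
    (fun i => if i = 0 then s.ren rho1 else if i = 1 then t.ren rho1 else u.ren rho2) (mix c d)
    fun i v => ?_
  by_cases hi : i = 0
  · simp only [hi, if_true, hs, NT.val_ren, mix_rho1]
  · by_cases hi' : i = 1
    · subst hi'
      show g v = (t.ren rho1).val (mix v (mix c d))
      rw [NT.val_ren, mix_rho1, ht]
    · simp only [hi, hi', if_false, hu, NT.val_ren, mix_rho2]

/-- `Σ₁` induction -/
theorem ind1 (S : Set (Set M)) [hH : Fact (IsRCA0 S)] (R : M → Prop) [hR : S1 S (fun v => R (v 0))] (h0 : R 0)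
    (hs : ∀ n, R n → R (n + 1)) : ∀ n, R n := hb_ind S hH.out R hR h0 hs

/-- induction for predicates with `Σ₁` negation -/
theorem hb_pind (S : Set (Set M)) [hH : Fact (IsRCA0 S)] (R : M → Prop) (hR : S1 S (fun v => ¬ R (v 0))) (h0 : R 0)
    (hs : ∀ n, R n → R (n + 1)) : ∀ n, R n := by
  have H : IsRCA0 S := hH.out
  intro a
  by_contra ha
  -- downward induction from `a`
  have e1 : S1 S (fun v => ¬ R (v 1)) := S1.comp1 (R := fun x => ¬ R x) hR (fun v => v 1)
  have e0 : S1 S (fun v => ¬ R (v 0)) := hR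
  have e2 : S1 S (fun v => ∃ y, y + v 0 = a ∧ ¬ R y) := by
    have : S1 S (fun v => v 0 + v 1 = a ∧ ¬ R (v 0)) := by infer_instance
    exact s1_ex (fun y v => y + v 0 = a ∧ ¬ R y)
  have e3 : S1 S (fun v => a < v 0 ∨ ∃ y, y + v 0 = a ∧ ¬ R y) := by infer_instance
  have key := hb_ind S H (fun x => a < x ∨ ∃ y, y + x = a ∧ ¬ R y) e3
    (Or.inr ⟨a, add_zero a, ha⟩) (by
      rintro x (hx | ⟨y, hy, hRy⟩)
      · exact Or.inl (hx.trans (H.lt_self_succ x))
      · rcases H.zero_or_succ y with rfl | ⟨z, rfl⟩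
        · exact absurd h0 hRy
        · refine Or.inr ⟨z, ?_, fun hz => hRy (hs z hz)⟩
          rw [← hy]
          ring) a
  rcases key with hk | ⟨y, hy, hRy⟩
  · exact lt_irrefl a hk
  · have : y = 0 := by
      have h : y + a = 0 + a := by rw [hy, zero_add]
      exact add_right_cancel h
    rw [this] at hRy
    exact hRy h0

/-- least element principle for `Σ₁` predicates -/
theorem least1 (S : Set (Set M)) [hH : Fact (IsRCA0 S)] (R : M → Prop) [hR : S1 S (fun v => R (v 0))]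
    (h : ∃ n, R n) : ∃ n, R n ∧ ∀ m, R m → n ≤ m := by
  have H : IsRCA0 S := hH.out
  by_contra hc
  push Not at hc
  have e1 : S1 S (fun v => ∃ i, i ≤ v 0 ∧ R i) := by
    have : S1 S (fun v => v 0 ≤ v 1 ∧ R (v 0)) := by infer_instance
    exact s1_ex (fun i v => i ≤ v 0 ∧ R i)
  have key := hb_pind S (fun k => ∀ i, i ≤ k → ¬ R i)
    (e1.congr fun v => by push Not; rfl)
    (by
      intro i hi hR0
      have hi0 : i = 0 := le_antisymm hi (H.zero_le i)
      subst hi0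
      obtain ⟨m, _, hm⟩ := hc 0 hR0
      exact H.not_lt_zero m hm)
    (by
      intro k hk i hi hRi
      rcases le_iff_lt_or_eq.1 hi with hi | rfl
      · exact hk i ((H.lt_succ_iff i k).1 hi) hRi
      · obtain ⟨m, hm, hm'⟩ := hc (k + 1) hRi
        exact hk m ((H.lt_succ_iff m k).1 hm') hm)
  obtain ⟨n, hn⟩ := h
  exact key n n le_rfl hn

/-- induction for predicates with `Σ₁` negation -/
theorem pind1 (S : Set (Set M)) [hH : Fact (IsRCA0 S)] (R : M → Prop) [hR : S1 S (fun v => ¬ R (v 0))] (h0 : R 0)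
    (hs : ∀ n, R n → R (n + 1)) : ∀ n, R n := hb_pind S R hR h0 hs

/-- comprehension -/
theorem comp1 [hH : Fact (IsRCA0 S)] (R : M → Prop) [hR : S1 S (fun v => R (v 0))]
    [hR' : S1 S (fun v => ¬ R (v 0))] : {x | R x} ∈ S := by
  obtain ⟨θ, η, b1, b2, V, c, hV, h1, h2⟩ := hb_form (P := R) (R := fun x => ¬ R x) hR hR'
  have h := hH.out.comp θ η b1 b2 V c hV (fun m => by rw [← h1, ← h2, not_not])
  have e : {x | R x} = {m | θ.ex.Sat V (push m c)} := by
    ext x
    exact h1 x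
  rw [e]
  exact h

/-- a `Σ₁` function is (coded by) an element of `S` -/
theorem exists_fun [hH : Fact (IsRCA0 S)] (R : M → M → Prop) [hR : S1 S (fun v => R (v 0) (v 1))]
    (h : ∀ x, ∃! y, R x y) : ∃ F : ↥S, ∀ x y, pr x y ∈ F.1 ↔ R x y := by
  have H : IsRCA0 S := hH.out
  have e1 : S1 S (fun v => R (v 1) (v 0)) := hR.comp2 (fun v => v 1) (fun v => v 0)
  have e2 : S1 S (fun v => ∃ x y, v 0 = pr x y ∧ R x y) := by
    have : S1 S (fun v => ∃ y, v 1 = pr (v 0) y ∧ R (v 0) y) :=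
      s1_ex (fun y v => v 1 = pr (v 0) y ∧ R (v 0) y)
    exact s1_ex (fun x v => ∃ y, v 0 = pr x y ∧ R x y)
  have e3 : S1 S (fun v => (∀ x, x ≤ v 0 → ∀ y, y ≤ v 0 → v 0 ≠ pr x y) ∨
      ∃ x y z, (v 0 = pr x y ∧ y ≠ z) ∧ R x z) := by
    have f1 : S1 S (fun v => R (v 2) (v 0)) := hR.comp2 (fun v => v 2) (fun v => v 0)
    have f2 : S1 S (fun v => ∃ z, (v 2 = pr (v 1) (v 0) ∧ v 0 ≠ z) ∧ R (v 1) z) :=
      s1_ex (fun z v => (v 2 = pr (v 1) (v 0) ∧ v 0 ≠ z) ∧ R (v 1) z)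
    have f3 : S1 S (fun v => ∃ y z, (v 1 = pr (v 0) y ∧ y ≠ z) ∧ R (v 0) z) :=
      s1_ex (fun y v => ∃ z, (v 1 = pr (v 0) y ∧ y ≠ z) ∧ R (v 0) z)
    have f4 : S1 S (fun v => ∃ x y z, (v 0 = pr x y ∧ y ≠ z) ∧ R x z) :=
      s1_ex (fun x v => ∃ y z, (v 0 = pr x y ∧ y ≠ z) ∧ R x z)
    infer_instance
  have e4 : S1 S (fun v => ¬ ∃ x y, v 0 = pr x y ∧ R x y) := by
    refine e3.congr fun v => ?_
    constructor
    · rintro (h1 | ⟨x, y, z, ⟨h1, h2⟩, h3⟩)
      · rintro ⟨x, y, h2, _⟩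
        exact h1 x (by rw [h2]; exact H.le_pr_left x y) y (by rw [h2]; exact H.le_pr_right x y) h2
      · rintro ⟨x', y', h4, h5⟩
        rw [h1, H.pr_inj] at h4
        obtain ⟨rfl, rfl⟩ := h4
        exact h2 ((h x).unique h5 h3)
    · intro h1
      by_cases h2 : ∃ x y, v 0 = pr x y
      · obtain ⟨x, y, h2⟩ := h2
        obtain ⟨z, hz, _⟩ := h x
        refine Or.inr ⟨x, y, z, ⟨h2, ?_⟩, hz⟩
        rintro rfl
        exact h1 ⟨x, y, h2, hz⟩
      · push Not at h2
        exact Or.inl fun x _ y _ => h2 x y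
  haveI := e2
  haveI := e4
  have hS : {p | ∃ x y, p = pr x y ∧ R x y} ∈ S := comp1 (fun p => ∃ x y, p = pr x y ∧ R x y)
  refine ⟨⟨_, hS⟩, fun x y => ?_⟩
  constructor
  · rintro ⟨x', y', h1, h2⟩
    rw [H.pr_inj] at h1
    obtain ⟨rfl, rfl⟩ := h1
    exact h2
  · intro h1
    exact ⟨x, y, rfl, h1⟩

end Kriz.PTO
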