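import Pool.Agent.Work.MP_0f6836_lc.PTO.HC

/-!
# Block HD: primitive recursion and the pigeonhole principle in a model of `RCA_0`
-/

set_option linter.unusedSectionVars false
set_option synthInstance.maxSize 2000

namespace Kriz.PTO

universe u

variable {M : Type u} [CommSemiring M] [LinearOrder M] [IsStrictOrderedRing M] {S : Set (Set M)}

/-- coded primitive recursion -/
theorem recursion (S : Set (Set M)) [Fact (IsRCA0 S)] (T : M → M → M → Prop)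
    [hT : S1 S (fun v => T (v 0) (v 1) (v 2))] (htot : ∀ i x, ∃ y, T i x y) (a n : M) :
    ∃ s, Bt s 0 a ∧ ∀ i, i < n → ∃ x y, Bt s i x ∧ Bt s (i + 1) y ∧ T i x y := by
  have H : IsRCA0 S := Fact.out
  have hT3 : ∀ (f g k : (ℕ → M) → M) [Tf f] [Tf g] [Tf k], S1 S (fun v => T (f v) (g v) (k v)) :=
    fun f g k => S1.comp3 hT f g k
  revert n
  refine ind1 S _ ?_ ?_
  · obtain ⟨s, hs⟩ := coding S (fun _ y => y = a) 1 fun _ _ => ⟨a, rfl⟩
    obtain ⟨y, hy, rfl⟩ := hs 0 zero_lt_one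
    exact ⟨s, hy, fun i hi => absurd hi (H.not_lt_zero i)⟩
  · rintro k ⟨s, hs0, hs⟩
    have hx : ∀ i, i < k + 1 → ∃ x, Bt s i x := by
      intro i hi
      rcases H.zero_or_succ i with rfl | ⟨j, rfl⟩
      · exact ⟨a, hs0⟩
      · have hj : j < k := by
          rw [H.lt_succ_iff] at hi
          exact (H.succ_le_iff j k).1 hi
        obtain ⟨x, y, -, hy, -⟩ := hs j hj
        exact ⟨y, hy⟩
    obtain ⟨x, hkx⟩ := hx k (H.lt_self_succ k)
    obtain ⟨z, hz⟩ := htot k x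
    obtain ⟨s', hs'⟩ := coding S (fun i y => (i < k + 1 ∧ Bt s i y) ∨ (i = k + 1 ∧ y = z))
      (k + 1 + 1) fun i hi => by
        rcases (H.lt_succ _ _).1 hi with hi | rfl
        · obtain ⟨y, hy⟩ := hx i hi
          exact ⟨y, Or.inl ⟨hi, hy⟩⟩
        · exact ⟨z, Or.inr ⟨rfl, rfl⟩⟩
    have h1 : ∀ i, i < k + 1 → ∀ y, Bt s i y → Bt s' i y := by
      intro i hi y hy
      obtain ⟨y', hy', h⟩ := hs' i (hi.trans (H.lt_self_succ _))
      rcases h with ⟨-, h⟩ | ⟨h, -⟩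
      · rwa [Bt_unique S hy h]
      · exact absurd h hi.ne
    have h2 : Bt s' (k + 1) z := by
      obtain ⟨y', hy', h⟩ := hs' (k + 1) (H.lt_self_succ _)
      rcases h with ⟨h, -⟩ | ⟨-, h⟩
      · exact absurd h (lt_irrefl _)
      · rwa [← h]
    refine ⟨s', ?_, fun i hi => ?_⟩
    · refine h1 0 ?_ a hs0
      exact lt_of_le_of_lt (H.zero_le k) (H.lt_self_succ k)
    · rcases (H.lt_succ _ _).1 hi with hik | rfl
      · obtain ⟨x', y', hx', hy', ht⟩ := hs i hik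
        exact ⟨x', y', h1 i hi x' hx', h1 (i + 1) (by
          rw [H.lt_succ_iff, H.succ_le_iff]
          exact hik) y' hy', ht⟩
      · exact ⟨x, z, h1 i hi x hkx, h2, hz⟩

/-- the values of a coded recursion -/
theorem hd_val (H : IsRCA0 S) {T : M → M → M → Prop} {a n s : M} (hs0 : Bt s 0 a)
    (hs : ∀ i, i < n → ∃ x y, Bt s i x ∧ Bt s (i + 1) y ∧ T i x y) {i : M} (hi : i ≤ n) :
    ∃ x, Bt s i x := by
  rcases H.zero_or_succ i with rfl | ⟨j, rfl⟩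
  · exact ⟨a, hs0⟩
  · obtain ⟨x, y, -, hy, -⟩ := hs j ((H.succ_le_iff j n).1 hi)
    exact ⟨y, hy⟩

/-- iteration of a function -/
theorem iterate [Fact (IsRCA0 S)] (f : ↥S) (hf : IsFun f.1) (a : M) :
    ∃ h : ↥S, IsFun h.1 ∧ pr 0 a ∈ h.1 ∧
      ∀ n x y, pr n x ∈ h.1 → pr x y ∈ f.1 → pr (n + 1) y ∈ h.1 := by
  have H : IsRCA0 S := Fact.out
  -- two coded computations agree
  have agree : ∀ s s', Bt s 0 a → Bt s' 0 a → ∀ i,
      (∀ j, j < i → ∃ x, x < s + 1 ∧ ∃ y, y < s + 1 ∧ Bt s j x ∧ Bt s (j + 1) y ∧ pr x y ∈ f.1) →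
      (∀ j, j < i → ∃ x, x < s' + 1 ∧ ∃ y, y < s' + 1 ∧
        Bt s' j x ∧ Bt s' (j + 1) y ∧ pr x y ∈ f.1) →
      ∀ x, x < s + 1 → ∀ x', x' < s' + 1 → Bt s i x → Bt s' i x' → x = x' := by
    intro s s' hs0 hs0'
    refine H.ind0 _ ?_ ?_
    · intro _ _ x _ x' _ hx hx'
      rw [Bt_unique S hx hs0, Bt_unique S hx' hs0']
    · intro i ih h h' x hx1 x' hx1' hx hx'
      obtain ⟨w, hw1, y, hy1, hw, hy, hwy⟩ := h i (H.lt_self_succ i)
      obtain ⟨w', hw1', y', hy1', hw', hy', hwy'⟩ := h' i (H.lt_self_succ i)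
      have e := ih (fun j hj => h j (hj.trans (H.lt_self_succ i)))
        (fun j hj => h' j (hj.trans (H.lt_self_succ i))) w hw1 w' hw1' hw hw'
      subst e
      rw [Bt_unique S hx hy, Bt_unique S hx' hy']
      exact (hf w).unique hwy hwy'
  obtain ⟨h, hh⟩ := exists_fun (S := S) (fun n y => ∃ s, (Bt s 0 a ∧
      ∀ i, i < n → ∃ x, x < s + 1 ∧ ∃ y, y < s + 1 ∧
        Bt s i x ∧ Bt s (i + 1) y ∧ pr x y ∈ f.1) ∧ Bt s n y) (fun n => by
    obtain ⟨s, hs0, hs⟩ := recursion S (fun _ x y => pr x y ∈ f.1) (fun _ x => (hf x).exists) a n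
    obtain ⟨x, hx⟩ := hd_val H hs0 hs le_rfl
    have hs' : ∀ i, i < n → ∃ x, x < s + 1 ∧ ∃ y, y < s + 1 ∧
        Bt s i x ∧ Bt s (i + 1) y ∧ pr x y ∈ f.1 := by
      intro i hi
      obtain ⟨x, y, h1, h2, h3⟩ := hs i hi
      exact ⟨x, (H.lt_succ_iff _ _).2 (Bt_le S h1), y, (H.lt_succ_iff _ _).2 (Bt_le S h2),
        h1, h2, h3⟩
    refine ⟨x, ⟨s, ⟨hs0, hs'⟩, hx⟩, ?_⟩
    rintro x' ⟨s', ⟨hs0', hs1'⟩, hx'⟩
    exact agree s' s hs0' hs0 n hs1' hs' x' ((H.lt_succ_iff _ _).2 (Bt_le S hx')) x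
      ((H.lt_succ_iff _ _).2 (Bt_le S hx)) hx' hx)
  refine ⟨h, ?_, ?_, ?_⟩
  · intro n
    obtain ⟨s, hs0, hs⟩ := recursion S (fun _ x y => pr x y ∈ f.1) (fun _ x => (hf x).exists) a n
    obtain ⟨x, hx⟩ := hd_val H hs0 hs le_rfl
    have hs' : ∀ i, i < n → ∃ x, x < s + 1 ∧ ∃ y, y < s + 1 ∧
        Bt s i x ∧ Bt s (i + 1) y ∧ pr x y ∈ f.1 := by
      intro i hi
      obtain ⟨x, y, h1, h2, h3⟩ := hs i hi
      exact ⟨x, (H.lt_succ_iff _ _).2 (Bt_le S h1), y, (H.lt_succ_iff _ _).2 (Bt_le S h2),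
        h1, h2, h3⟩
    refine ⟨x, (hh n x).2 ⟨s, ⟨hs0, hs'⟩, hx⟩, ?_⟩
    intro x' hx'
    obtain ⟨s', ⟨hs0', hs1'⟩, hx'⟩ := (hh n x').1 hx'
    exact agree s' s hs0' hs0 n hs1' hs' x' ((H.lt_succ_iff _ _).2 (Bt_le S hx')) x
      ((H.lt_succ_iff _ _).2 (Bt_le S hx)) hx' hx
  · rw [hh]
    obtain ⟨s, hs0, -⟩ := recursion S (fun _ x y => pr x y ∈ f.1) (fun _ x => (hf x).exists) a 0
    exact ⟨s, ⟨hs0, fun i hi => absurd hi (H.not_lt_zero i)⟩, hs0⟩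
  · intro n x y hx hxy
    rw [hh] at hx ⊢
    obtain ⟨s, ⟨hs0, hs⟩, hx⟩ := hx
    obtain ⟨s', hs0', hs'⟩ := recursion S (fun _ x y => pr x y ∈ f.1) (fun _ x => (hf x).exists)
      a (n + 1)
    have hs1 : ∀ i, i < n + 1 → ∃ x, x < s' + 1 ∧ ∃ y, y < s' + 1 ∧
        Bt s' i x ∧ Bt s' (i + 1) y ∧ pr x y ∈ f.1 := by
      intro i hi
      obtain ⟨x, y, h1, h2, h3⟩ := hs' i hi
      exact ⟨x, (H.lt_succ_iff _ _).2 (Bt_le S h1), y, (H.lt_succ_iff _ _).2 (Bt_le S h2),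
        h1, h2, h3⟩
    refine ⟨s', ⟨hs0', hs1⟩, ?_⟩
    obtain ⟨w, hw1, z, hz1, hw, hz, hwz⟩ := hs1 n (H.lt_self_succ n)
    have e := agree s s' hs0 hs0' n hs (fun j hj => hs1 j (hj.trans (H.lt_self_succ n))) x
      ((H.lt_succ_iff _ _).2 (Bt_le S hx)) w hw1 hx hw
    subst e
    rwa [(hf x).unique hxy hwz]

/-- the pigeonhole principle for coded sequences -/
theorem hd_php (S : Set (Set M)) [Fact (IsRCA0 S)] : ∀ n : M, ∀ s : M,
    ¬ ((∀ i, i < n + 1 → ∃ y, y < n ∧ Bt s i y) ∧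
      ∀ i, i < n + 1 → ∀ j, j < n + 1 → ∀ y, y < n → Bt s i y → Bt s j y → i = j) := by
  have H : IsRCA0 S := Fact.out
  have hS1 : S1 S (fun v => ¬ ∀ s : M, ¬ ((∀ i, i < v 0 + 1 → ∃ y, y < v 0 ∧ Bt s i y) ∧
      ∀ i, i < v 0 + 1 → ∀ j, j < v 0 + 1 → ∀ y, y < v 0 → Bt s i y → Bt s j y → i = j)) := by
    have : S1 S (fun v => ∃ s : M, ((∀ i, i < v 0 + 1 → ∃ y, y < v 0 ∧ Bt s i y) ∧
      ∀ i, i < v 0 + 1 → ∀ j, j < v 0 + 1 → ∀ y, y < v 0 → Bt s i y → Bt s j y → i = j)) := by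
      infer_instance
    exact this.congr fun v => by
      rw [not_forall]
      simp only [not_not]
  refine pind1 S _ ?_ ?_
  · rintro s ⟨h, -⟩
    obtain ⟨y, hy, -⟩ := h 0 (H.lt_self_succ 0)
    exact H.not_lt_zero y hy
  · rintro n ih s ⟨h, hinj⟩
    -- the value at the last place
    obtain ⟨w, hw, hsw⟩ := h (n + 1) (H.lt_self_succ _)
    obtain ⟨s', hs'⟩ := coding S (fun i y => (Bt s i y ∧ y < n) ∨ (Bt s i n ∧ y = w)) (n + 1)
      fun i hi => by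
        obtain ⟨y, hy, hsy⟩ := h i (hi.trans (H.lt_self_succ _))
        rcases (H.lt_succ _ _).1 hy with hy | rfl
        · exact ⟨y, Or.inl ⟨hsy, hy⟩⟩
        · exact ⟨w, Or.inr ⟨hsy, rfl⟩⟩
    have hlast : ∀ i, i < n + 1 → ¬ Bt s i w := fun i hi hiw =>
      absurd (hinj i (hi.trans (H.lt_self_succ _)) (n + 1) (H.lt_self_succ _) w hw hiw hsw) hi.ne
    apply ih s'
    constructor
    · intro i hi
      obtain ⟨y, hy, h1 | ⟨h1, rfl⟩⟩ := hs' i hi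
      · exact ⟨y, h1.2, hy⟩
      · refine ⟨y, ?_, hy⟩
        rcases (H.lt_succ _ _).1 hw with h2 | rfl
        · exact h2
        · exact absurd h1 (hlast i hi)
    · intro i hi j hj y hy hiy hjy
      obtain ⟨y1, hy1, h1⟩ := hs' i hi
      obtain ⟨y2, hy2, h2⟩ := hs' j hj
      rw [Bt_unique S hy1 hiy] at h1
      rw [Bt_unique S hy2 hjy] at h2
      have hi' := hi.trans (H.lt_self_succ (n + 1))
      have hj' := hj.trans (H.lt_self_succ (n + 1))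
      rcases h1 with ⟨h1, -⟩ | ⟨h1, e1⟩ <;> rcases h2 with ⟨h2, -⟩ | ⟨h2, e2⟩
      · exact hinj i hi' j hj' y (hy.trans (H.lt_self_succ n)) h1 h2
      · rw [e2] at h1
        exact absurd h1 (hlast i hi)
      · rw [e1] at h2
        exact absurd h2 (hlast j hj)
      · exact hinj i hi' j hj' n (H.lt_self_succ n) h1 h2

/-- the pigeonhole principle -/
theorem php [Fact (IsRCA0 S)] (F : ↥S) (hF : IsFun F.1) (B : M)
    (hB : ∀ n y, pr n y ∈ F.1 → y < B)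
    (hinj : ∀ m n y, pr m y ∈ F.1 → pr n y ∈ F.1 → m = n) : False := by
  have H : IsRCA0 S := Fact.out
  obtain ⟨s, hs⟩ := coding S (fun i y => pr i y ∈ F.1) (B + 1) fun i _ => (hF i).exists
  apply hd_php S B s
  constructor
  · intro i hi
    obtain ⟨y, hy, h⟩ := hs i hi
    exact ⟨y, hB i y h, hy⟩
  · intro i hi j hj y hy hiy hjy
    obtain ⟨y1, hy1, h1⟩ := hs i hi
    obtain ⟨y2, hy2, h2⟩ := hs j hj
    rw [Bt_unique S hy1 hiy] at h1
    rw [Bt_unique S hy2 hjy] at h2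
    exact hinj i j y h1 h2

end Kriz.PTO
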