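import Pool.Agent.Work.MP_0f6836_lc.PTO.HD

/-!
# Block HF: products of well-orders in a model of `RCA_0`
-/

set_option linter.unusedSectionVars false

namespace Kriz.PTO

universe u

section raw

variable {M : Type u} [Zero M] [One M] [Add M] [Mul M] [LT M]

/-- no sequence in `S` in `O` is strictly descending for `L` (`L x y`: `x` is smaller) -/
def WOp (S : Set (Set M)) (O : M → Prop) (L : M → M → Prop) : Prop :=
  ¬ ∃ F ∈ S, IsFun F ∧ (∀ n y, pr n y ∈ F → O y) ∧
    ∀ n y z, pr n y ∈ F → pr (n + 1) z ∈ F → L z y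

/-- the lexicographic product (first coordinate first) -/
def ProdO (O O' : M → Prop) (x : M) : Prop := ∃ a, a < x + 1 ∧ ∃ b, b < x + 1 ∧ x = pr a b ∧
  O a ∧ O' b

def ProdL (L L' : M → M → Prop) (x y : M) : Prop := ∃ a, a < x + 1 ∧ ∃ b, b < x + 1 ∧
  ∃ a', a' < y + 1 ∧ ∃ b', b' < y + 1 ∧ x = pr a b ∧ y = pr a' b' ∧ (L a a' ∨ (a = a' ∧ L' b b'))

end raw

variable {M : Type u} [CommSemiring M] [LinearOrder M] [IsStrictOrderedRing M] {S : Set (Set M)}

/-- the first coordinate changes from `n` to `n + 1` -/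
def HF_Ch (F : Set M) (n : M) : Prop := ∃ a, ∃ b, ∃ a', ∃ b', pr n (pr a b) ∈ F ∧
  pr (n + 1) (pr a' b') ∈ F ∧ a ≠ a'

/-- the first coordinate does not change from `n` to `n + 1` -/
def HF_Eq (F : Set M) (n : M) : Prop := ∃ a, ∃ b, ∃ a', ∃ b', pr n (pr a b) ∈ F ∧
  pr (n + 1) (pr a' b') ∈ F ∧ a = a'

instance HF_s1_Ch [Fact (IsRCA0 S)] (F : ↥S) (f : (ℕ → M) → M) [Tf f] :
    S1 S (fun v => HF_Ch F.1 (f v)) := by
  unfold HF_Ch
  infer_instance

instance HF_s1_Eq [Fact (IsRCA0 S)] (F : ↥S) (f : (ℕ → M) → M) [Tf f] :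
    S1 S (fun v => HF_Eq F.1 (f v)) := by
  unfold HF_Eq
  infer_instance

/-- the next position after `x` at which the first coordinate changes is just before `y` -/
def HF_R (F : Set M) (x y : M) : Prop := x < y ∧ (∃ n, y = n + 1 ∧ HF_Ch F n) ∧
        ∀ m, m < y → (m < x ∨ m + 1 = y ∨ HF_Eq F m)

instance HF_s1_R [Fact (IsRCA0 S)] (F : ↥S) :
    S1 S (fun v => HF_R F.1 (v 0) (v 1)) := by
  unfold HF_R
  have h1 : S1 S (fun v => v 0 < v 1) := inferInstance
  have h2 : S1 S (fun v => ∃ n, v 1 = n + 1 ∧ HF_Ch F.1 n) := inferInstance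
  have h3 : S1 S (fun v => ∀ m, m < v 1 → (m < v 0 ∨ m + 1 = v 1 ∨ HF_Eq F.1 m)) := inferInstance
  have h4 : S1 S (fun v => (∃ n, v 1 = n + 1 ∧ HF_Ch F.1 n) ∧
    ∀ m, m < v 1 → (m < v 0 ∨ m + 1 = v 1 ∨ HF_Eq F.1 m)) := s1_and _ _
  exact s1_and _ _

/-- `RCA_0` proves that the product of two well-orders is a well-order -/
theorem wo_prod [Fact (IsRCA0 S)] (O O' : M → Prop) (L L' : M → M → Prop)
    (h : WOp S O L) (h' : WOp S O' L') :
    WOp S (ProdO O O') (ProdL L L') := by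
  have H : IsRCA0 S := Fact.out
  rintro ⟨F0, hF0, hfun, hO, hL⟩
  set F : ↥S := ⟨F0, hF0⟩ with hF
  have hfun : IsFun F.1 := hfun
  have hO : ∀ n y, pr n y ∈ F.1 → ProdO O O' y := hO
  have hL : ∀ n y z, pr n y ∈ F.1 → pr (n + 1) z ∈ F.1 → ProdL L L' z y := hL
  clear_value F
  -- values
  have hval : ∀ n, ∃ a b, pr n (pr a b) ∈ F.1 ∧ O a ∧ O' b := by
    intro n
    obtain ⟨y, hy, -⟩ := hfun n
    obtain ⟨a, -, b, -, rfl, h1, h2⟩ := hO n y hy
    exact ⟨a, b, hy, h1, h2⟩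
  have huniq : ∀ n a b a' b', pr n (pr a b) ∈ F.1 → pr n (pr a' b') ∈ F.1 → a = a' ∧ b = b' := by
    intro n a b a' b' h1 h2
    have := (hfun n).unique h1 h2
    exact H.pr_inj.1 this
  have hOv : ∀ n a b, pr n (pr a b) ∈ F.1 → O a ∧ O' b := by
    intro n a b h1
    obtain ⟨a', b', h2, h3, h4⟩ := hval n
    obtain ⟨rfl, rfl⟩ := huniq n a b a' b' h1 h2
    exact ⟨h3, h4⟩
  have hstep : ∀ n a b a' b', pr n (pr a b) ∈ F.1 → pr (n + 1) (pr a' b') ∈ F.1 →
      L a' a ∨ (a' = a ∧ L' b' b) := by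
    intro n a b a' b' h1 h2
    obtain ⟨c, -, d, -, c', -, d', -, e1, e2, e3⟩ := hL n _ _ h1 h2
    obtain ⟨rfl, rfl⟩ := H.pr_inj.1 e1
    obtain ⟨rfl, rfl⟩ := H.pr_inj.1 e2
    exact e3
  have hirr : ∀ a, O a → ¬ L a a := by
    intro a ha hLa
    apply h
    obtain ⟨G, hG⟩ := exists_fun (S := S) (fun _ y => y = a) (fun x => ⟨a, rfl, fun y hy => hy⟩)
    refine ⟨G.1, G.2, ?_, ?_, ?_⟩
    · intro n
      refine ⟨a, (hG n a).2 rfl, fun y hy => (hG n y).1 hy⟩
    · intro n y hy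
      rw [(hG n y).1 hy]
      exact ha
    · intro n y z hy hz
      rw [(hG n y).1 hy, (hG _ z).1 hz]
      exact hLa
  have hdich : ∀ n, HF_Ch F.1 n ∨ HF_Eq F.1 n := by
    intro n
    obtain ⟨a, b, h1, -⟩ := hval n
    obtain ⟨a', b', h2, -⟩ := hval (n + 1)
    by_cases e : a = a'
    · exact Or.inr ⟨a, b, a', b', h1, h2, e⟩
    · exact Or.inl ⟨a, b, a', b', h1, h2, e⟩
  have hnot : ∀ n, HF_Ch F.1 n → ¬ HF_Eq F.1 n := by
    rintro n ⟨a, b, a', b', h1, h2, h3⟩ ⟨c, d, c', d', k1, k2, k3⟩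
    obtain ⟨rfl, rfl⟩ := huniq _ _ _ _ _ h1 k1
    obtain ⟨rfl, rfl⟩ := huniq _ _ _ _ _ h2 k2
    exact h3 k3
  by_cases hc : ∃ N, ∀ n, N ≤ n → ¬ HF_Ch F.1 n
  · -- the first coordinate is eventually constant
    obtain ⟨N, hN⟩ := hc
    apply h'
    obtain ⟨G, hG⟩ := exists_fun (S := S) (fun x y => ∃ a, pr (N + x) (pr a y) ∈ F.1)
      (fun x => by
        obtain ⟨a, b, h1, -⟩ := hval (N + x)
        refine ⟨b, ⟨a, h1⟩, ?_⟩
        rintro y ⟨a', h2⟩
        exact (huniq _ _ _ _ _ h2 h1).2)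
    refine ⟨G.1, G.2, ?_, ?_, ?_⟩
    · intro n
      obtain ⟨a, b, h1, -⟩ := hval (N + n)
      refine ⟨b, (hG n b).2 ⟨a, h1⟩, ?_⟩
      intro y hy
      obtain ⟨a', h2⟩ := (hG n y).1 hy
      exact (huniq _ _ _ _ _ h2 h1).2
    · intro n y hy
      obtain ⟨a', h2⟩ := (hG n y).1 hy
      exact (hOv _ _ _ h2).2
    · intro n y z hy hz
      obtain ⟨a, h1⟩ := (hG n y).1 hy
      obtain ⟨a', h2⟩ := (hG _ z).1 hz
      rw [← add_assoc] at h2
      have h3 : a = a' := by
        by_contra hne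
        exact hN (N + n) (H.le_add_right' _ _) ⟨a, y, a', z, h1, h2, hne⟩
      subst h3
      rcases hstep _ _ _ _ _ h1 h2 with h4 | h4
      · exact absurd h4 (hirr a (hOv _ _ _ h1).1)
      · exact h4.2
  · -- the first coordinate changes infinitely often
    push Not at hc
    have hR : ∀ x, ∃! y, (x < y ∧ (∃ n, y = n + 1 ∧ HF_Ch F.1 n) ∧
        ∀ m, m < y → (m < x ∨ m + 1 = y ∨ HF_Eq F.1 m)) := by
      intro x
      obtain ⟨n, hn1, hn2⟩ := hc x
      obtain ⟨y, ⟨hy1, hy2⟩, hy3⟩ := least1 S (fun y => x < y ∧ ∃ n, y = n + 1 ∧ HF_Ch F.1 n)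
        ⟨n + 1, (H.lt_succ_iff x n).2 hn1, n, rfl, hn2⟩
      refine ⟨y, ⟨hy1, hy2, ?_⟩, ?_⟩
      · intro m hm
        by_cases h1 : m < x
        · exact Or.inl h1
        by_cases h2 : m + 1 = y
        · exact Or.inr (Or.inl h2)
        right; right
        rcases hdich m with h3 | h3
        · exfalso
          have h4 := hy3 (m + 1) ⟨(H.lt_succ_iff x m).2 (not_lt.1 h1), m, rfl, h3⟩
          have h5 : m + 1 ≤ y := (H.succ_le_iff m y).2 hm
          exact h2 (le_antisymm h5 h4)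
        · exact h3
      · rintro z ⟨hz1, hz2, hz3⟩
        have h4 : y ≤ z := hy3 z ⟨hz1, hz2⟩
        rcases le_iff_lt_or_eq.1 h4 with h5 | h5
        · exfalso
          obtain ⟨k, hk1, hk2⟩ := hy2
          have h6 : k < z := lt_trans (by rw [hk1]; exact H.lt_self_succ k) h5
          rcases hz3 k h6 with h7 | h7 | h7
          · have h8 : x ≤ k := by
              rw [hk1] at hy1
              exact (H.lt_succ_iff x k).1 hy1
            exact absurd h7 (not_lt.2 h8)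
          · rw [← hk1] at h7
            exact absurd h7 (ne_of_lt h5)
          · exact hnot k hk2 h7
        · exact h5.symm
    obtain ⟨f, hf⟩ := exists_fun (S := S) (HF_R F.1) hR
    have hff : IsFun f.1 := by
      intro x
      obtain ⟨y, hy1, hy2⟩ := hR x
      exact ⟨y, (hf x y).2 hy1, fun z hz => hy2 z ((hf x z).1 hz)⟩
    obtain ⟨k, hk1, hk2, hk3⟩ := iterate f hff 0
    have hkv : ∀ n, ∃ p, pr n p ∈ k.1 := fun n => (hk1 n).exists
    apply h
    have hGR : ∀ x, ∃! y, ∃ p, pr x p ∈ k.1 ∧ ∃ b, pr p (pr y b) ∈ F.1 := by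
      intro x
      obtain ⟨p, hp⟩ := hkv x
      obtain ⟨a, b, h1, -⟩ := hval p
      refine ⟨a, ⟨p, hp, b, h1⟩, ?_⟩
      rintro y ⟨p', hp', b', h2⟩
      have hpp : p' = p := (hk1 x).unique hp' hp
      subst hpp
      exact (huniq _ _ _ _ _ h2 h1).1
    obtain ⟨G, hG⟩ := exists_fun (S := S)
      (fun x y => ∃ p, pr x p ∈ k.1 ∧ ∃ b, pr p (pr y b) ∈ F.1) hGR
    refine ⟨G.1, G.2, ?_, ?_, ?_⟩
    · intro x
      obtain ⟨y, hy1, hy2⟩ := hGR x
      exact ⟨y, (hG x y).2 hy1, fun z hz => hy2 z ((hG x z).1 hz)⟩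
    · intro n y hy
      obtain ⟨p, -, b, h1⟩ := (hG n y).1 hy
      exact (hOv _ _ _ h1).1
    · intro n y z hy hz
      obtain ⟨p, hp, b, h1⟩ := (hG n y).1 hy
      obtain ⟨p', hp', b', h2⟩ := (hG _ z).1 hz
      obtain ⟨q, hq, -⟩ := hff p
      have hq2 : pr (n + 1) q ∈ k.1 := hk3 n p q hp hq
      have hqp : q = p' := (hk1 (n + 1)).unique hq2 hp'
      subst hqp
      obtain ⟨e1, ⟨m, e2, e3⟩, e4⟩ := (hf p q).1 hq
      -- the first coordinate is constant from `p` to `m`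
      have hconst : ∀ i, m < p + i ∨ ∃ b, pr (p + i) (pr y b) ∈ F.1 := by
        apply ind1 S (fun i => m < p + i ∨ ∃ b, pr (p + i) (pr y b) ∈ F.1)
        · right
          rw [add_zero]
          exact ⟨b, h1⟩
        · rintro i (hi | ⟨b1, hb1⟩)
          · left
            exact lt_trans hi (by rw [← add_assoc]; exact H.lt_self_succ _)
          · by_cases hmi : m < p + (i + 1)
            · exact Or.inl hmi
            right
            have h5 : p + i + 1 ≤ m := by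
              rw [add_assoc]; exact not_lt.1 hmi
            have h6 : p + i < m := (H.succ_le_iff _ _).1 h5
            have h7 : p + i < q := lt_trans h6 (by rw [e2]; exact H.lt_self_succ m)
            rcases e4 (p + i) h7 with h8 | h8 | h8
            · exact absurd h8 (not_lt.2 (H.le_add_right' _ _))
            · exfalso
              rw [e2] at h8
              have : p + i = m := add_right_cancel h8
              exact absurd this (ne_of_lt h6)
            · obtain ⟨c, d, c', d', k1, k2, k3⟩ := h8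
              obtain ⟨rfl, rfl⟩ := huniq _ _ _ _ _ hb1 k1
              subst k3
              refine ⟨d', ?_⟩
              rw [← add_assoc]
              exact k2
      have hpm : p ≤ m := by
        rw [e2] at e1
        exact (H.lt_succ_iff p m).1 e1
      obtain ⟨i, hi⟩ := H.exists_add hpm
      rcases hconst i with h5 | ⟨b2, h5⟩
      · rw [← hi] at h5
        exact absurd h5 (lt_irrefl _)
      · rw [← hi] at h5
        rw [e2] at h2
        obtain ⟨c, d, c', d', k1, k2, k3⟩ := e3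
        obtain ⟨rfl, rfl⟩ := huniq _ _ _ _ _ h5 k1
        obtain ⟨rfl, rfl⟩ := huniq _ _ _ _ _ h2 k2
        rcases hstep _ _ _ _ _ h5 h2 with h6 | h6
        · exact h6
        · exact absurd h6.1.symm k3

end Kriz.PTO
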