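import Pool.Agent.Work.MP_0f6836_lc.PTO.LD
import Pool.Agent.Work.MP_0f6836_lc.UB.SG

/-!
# Block LA1: comparison of collapses, closure under components

Available: `theta_lt`, `theta_inj`, `theta_spec`, `mem_C_theta`, `lt_theta_of_mem`, `C_mono`
(Ord1), `S1`, `S2`, `S3`, `Lam_digit_unique` (Ord2: `C β ζ` is closed under components),
`Tm.below_lead`, `Tm.val_lt_Lam`, `Tm.val_lt` (Trm), `valid_of_mem` (UB/VA).
-/

namespace Kriz.PTO

open Kriz Tm Ordinal

theorem valid_iff {v : ℕ} {a : Ordinal.{0}} : Valid v a ↔ a ∈ C a (Om (v + 1)) :=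
  ⟨fun h => C_mono le_rfl theta_lt_Om.le (mem_C_theta h), valid_of_mem⟩

/-- comparison of collapses at the same level -/
theorem theta_lt_iff {v : ℕ} {a b : Ordinal.{0}} (ha : Valid v a) (hb : Valid v b) (h : a < b) :
    theta a v < theta b v ↔ a ∈ C b (theta b v) :=
  ⟨fun h1 => C_mono h.le h1.le (mem_C_theta ha), fun h1 => theta_lt hb h h1⟩

theorem LA1_below {v : ℕ} {p x : Tm} (h : NF true (c v p x)) :
    Below (theta p.val v) x.val := (below_lead h.2.1).mono h.2.2.2

/-- normal forms are unique -/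
theorem val_inj {b : Bool} {x y : Tm} (hx : NF b x) (hy : NF b y) (h : x.val = y.val) :
    x = y := by
  induction x generalizing b y with
  | z =>
    cases y with
    | z => rfl
    | c w r y =>
      cases b with
      | false => exact absurd hy not_NF_false_c
      | true =>
        exfalso
        rw [val_c] at h
        have h1 : theta r.val w ≤ 0 := by
          rw [show (0 : Ordinal.{0}) = z.val from rfl, h]; exact le_self_add
        exact absurd (theta_pos hy.2.2.1) (not_lt_of_ge h1)
    | q r y =>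
      cases b with
      | true => exact absurd hy not_NF_true_q
      | false => exact absurd h.symm hy.2.2
  | c v p x ihp ihx =>
    cases b with
    | false => exact absurd hx not_NF_false_c
    | true =>
      cases y with
      | z =>
        exfalso
        rw [val_c] at h
        have h1 : theta p.val v ≤ 0 := by
          rw [show (0 : Ordinal.{0}) = z.val from rfl, ← h]; exact le_self_add
        exact absurd (theta_pos hx.2.2.1) (not_lt_of_ge h1)
      | c w r y =>
        rw [val_c, val_c] at h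
        obtain ⟨h1, h2⟩ := lead_unique theta_principal theta_principal (LA1_below hx)
          (LA1_below hy) h
        obtain ⟨h3, h4⟩ := theta_inj hx.2.2.1 hy.2.2.1 h1
        rw [h3, ihp hx.1 hy.1 h4, ihx hx.2.1 hy.2.1 h2]
      | q r y => exact absurd hy not_NF_true_q
  | q p x ihp ihx =>
    cases b with
    | true => exact absurd hx not_NF_true_q
    | false =>
      cases y with
      | z => exact absurd h hx.2.2
      | c w r y => exact absurd hy not_NF_false_c
      | q r y =>
        rw [val_q, val_q] at h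
        obtain ⟨h1, h2⟩ := Lam_digit_unique (val_lt_Lam hx.2.1) (val_lt_Lam hy.2.1) h
        rw [ihp hx.1 hy.1 h1, ihx hx.2.1 hy.2.1 h2]

theorem LA1_c_lt {v w : ℕ} {p x r y : Tm} (h : NF true (c v p x))
    (h1 : theta p.val v < theta r.val w) : (c v p x).val < (c w r y).val := by
  rw [val_c, val_c]
  exact (theta_principal h1 (LA1_below h _ theta_principal h1)).trans_le le_self_add

/-- comparison of sum terms -/
theorem c_lt_c_iff {v w : ℕ} {p x r y : Tm} (h : NF true (c v p x)) (h' : NF true (c w r y)) :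
    (c v p x).val < (c w r y).val ↔
      theta p.val v < theta r.val w ∨ (theta p.val v = theta r.val w ∧ x.val < y.val) := by
  rcases lt_trichotomy (theta p.val v) (theta r.val w) with h1 | h1 | h1
  · exact ⟨fun _ => Or.inl h1, fun _ => LA1_c_lt h h1⟩
  · rw [val_c, val_c, h1, add_lt_add_iff_left]
    constructor
    · intro h2
      exact Or.inr ⟨rfl, h2⟩
    · rintro (h2 | ⟨-, h2⟩)
      · exact absurd h2 (lt_irrefl _)
      · exact h2
  · constructor
    · intro h2
      exact absurd (h2.trans (LA1_c_lt h' h1)) (lt_irrefl _)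
    · rintro (h2 | ⟨h2, -⟩)
      · exact absurd (h2.trans h1) (lt_irrefl _)
      · exact absurd h2 h1.ne'

theorem LA1_q_lt {p x r y : Tm} (h : NF false (q p x)) (h1 : p.val < r.val) :
    (q p x).val < (q r y).val := by
  rw [val_q, val_q]
  calc Lam * p.val + x.val < Lam * p.val + Lam :=
        (add_lt_add_iff_left _).2 (val_lt_Lam h.2.1)
    _ = Lam * (p.val + 1) := by rw [mul_add_one]
    _ ≤ Lam * r.val := mul_le_mul_right (Order.add_one_le_of_lt h1) _
    _ ≤ Lam * r.val + y.val := le_self_add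

/-- comparison of polynomial terms -/
theorem q_lt_q_iff {p x r y : Tm} (h : NF false (q p x)) (h' : NF false (q r y)) :
    (q p x).val < (q r y).val ↔ p.val < r.val ∨ (p.val = r.val ∧ x.val < y.val) := by
  rcases lt_trichotomy p.val r.val with h1 | h1 | h1
  · exact ⟨fun _ => Or.inl h1, fun _ => LA1_q_lt h h1⟩
  · rw [val_q, val_q, h1, add_lt_add_iff_left]
    constructor
    · intro h2
      exact Or.inr ⟨rfl, h2⟩
    · rintro (h2 | ⟨-, h2⟩)
      · exact absurd h2 (lt_irrefl _)
      · exact h2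
  · constructor
    · intro h2
      exact absurd (h2.trans (LA1_q_lt h' h1)) (lt_irrefl _)
    · rintro (h2 | ⟨h2, -⟩)
      · exact absurd (h2.trans h1) (lt_irrefl _)
      · exact absurd h2 h1.ne'

/-- sum terms in `C β ζ` -/
theorem mem_c_iff {v : ℕ} {p x : Tm} {β ζ : Ordinal.{0}} (hζ : ζ ≤ Lam) (h : NF true (c v p x)) :
    (c v p x).val ∈ C β ζ ↔ x.val ∈ C β ζ ∧
      (theta p.val v < ζ ∨ (p.val < β ∧ p.val ∈ C β ζ)) := by
  rw [val_c]
  constructor
  · intro h1
    obtain ⟨h2, h3⟩ := S2 hζ theta_principal (theta_pos h.2.2.1) theta_lt_Lam (LA1_below h) h1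
    refine ⟨h3, ?_⟩
    rcases lt_or_ge (theta p.val v) ζ with h4 | h4
    · exact Or.inl h4
    · obtain ⟨h5, h6⟩ := S3 hζ h.2.2.1 h2 h4
      exact Or.inr ⟨h6, h5⟩
  · rintro ⟨h1, h2 | ⟨h2, h3⟩⟩
    · exact C.add (C.base h2) h1
    · exact C.add (C.coll v h2 h3) h1

/-- polynomial terms in `C β ζ` -/
theorem mem_q_iff {p x : Tm} {β ζ : Ordinal.{0}} (hζ : ζ ≤ Lam) (h : NF false (q p x)) :
    (q p x).val ∈ C β ζ ↔ p.val ∈ C β ζ ∧ x.val ∈ C β ζ := by
  rw [val_q]
  constructor
  · intro h1
    exact S1 hζ (val_lt_Lam h.2.1) h1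
  · rintro ⟨h1, h2⟩
    exact C.add (C.mul h1) h2

theorem LA1_Lam_principal : IsPrincipal (· + ·) (Lam ^ (ω : Ordinal.{0})) := by
  have h : Lam = ω ^ log ω Lam := by
    obtain ⟨e, he⟩ := (isPrincipal_add_iff_zero_or_omega0_opow.1 Lam_principal).resolve_left
      Lam_pos.ne'
    have he : ω ^ e = Lam := he
    rw [← he, log_opow one_lt_omega0]
  rw [h, ← opow_mul]
  exact isPrincipal_add_omega0_opow _

theorem LA1_one_lt_Lam : (1 : Ordinal.{0}) < Lam := by
  have := Om_lt_Lam 0
  rwa [Om_zero] at this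

theorem LA1_Lam_mul_lt {x : Ordinal.{0}} (h : x < Lam ^ (ω : Ordinal.{0})) :
    Lam * x < Lam ^ (ω : Ordinal.{0}) := by
  have h1 : Lam * Lam ^ (ω : Ordinal.{0}) = Lam ^ (ω : Ordinal.{0}) := by
    conv_rhs => rw [← one_add_omega0, opow_add, opow_one]
  calc Lam * x < Lam * Lam ^ (ω : Ordinal.{0}) := (mul_lt_mul_iff_right₀ Lam_pos).2 h
    _ = _ := h1

theorem LA1_Lam_lt : Lam < Lam ^ (ω : Ordinal.{0}) := by
  conv_lhs => rw [← opow_one Lam]
  exact (opow_lt_opow_iff_right LA1_one_lt_Lam).2 one_lt_omega0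

theorem LA1_val_lt {p : Tm} (h : NF false p) : p.val < Lam ^ (ω : Ordinal.{0}) := by
  induction p with
  | z => exact Lam_pos.trans LA1_Lam_lt
  | c v p x => exact absurd h not_NF_false_c
  | q p x ihp _ =>
    rw [val_q]
    exact LA1_Lam_principal (LA1_Lam_mul_lt (ihp h.1)) ((val_lt_Lam h.2.1).trans LA1_Lam_lt)

theorem LA1_mem_C {b : Bool} {x : Tm} (h : NF b x) : x.val ∈ C (Lam ^ (ω : Ordinal.{0})) 0 := by
  induction x generalizing b with
  | z => exact C.zero
  | c v p x ihp ihx =>
    cases b with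
    | false => exact absurd h not_NF_false_c
    | true =>
      rw [val_c]
      exact C.add (C.coll v (LA1_val_lt h.1) (ihp h.1)) (ihx h.2.1)
  | q p x ihp ihx =>
    cases b with
    | true => exact absurd h not_NF_true_q
    | false =>
      rw [val_q]
      exact C.add (C.mul (ihp h.1)) (ihx h.2.1)

/-- the values of normal forms below `Ω_1` are the ordinals below `κ` (`Kriz.lt_kappa` in UB/SG;
all values of normal forms are in `C (Lam ^ ω) 0`) -/
theorem val_lt_kappa {x : Tm} (hx : NF true x) (h : x.val < Om 1) : x.val < kappa :=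
  lt_kappa (LA1_mem_C hx) h

end Kriz.PTO
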