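import Pool.Agent.Work.MP_0f6836_lc.PTO.LA1

/-!
# Block LA2: the decision procedures for ordinal notations are correct
-/

namespace Kriz.PTO

open Kriz Tm Ordinal

theorem LA2_theta_lt {v w : ℕ} {a b : Ordinal.{0}} (hb : Valid w b) (h : v < w) :
    theta a v < theta b w :=
  (theta_lt_Om.trans_le (Om_le_Om h)).trans_le (Om_le_theta hb)

theorem LA2_NF {v : ℕ} {r : Tm} (hr : NF false r) (hv : Valid v r.val) :
    NF true (c v r z) := ⟨hr, NF_z _, hv, zero_le⟩

/-- the order part of the induction step -/
theorem LA2_lt (n : ℕ) (ih : ∀ x y : Tm, x.size + y.size < n →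
    (∀ b, NF b x → NF b y → (J false x y = true ↔ x.val < y.val)) ∧
    ∀ b v r, y = c v r z → NF b x → NF false r → Valid v r.val →
      (J true x y = true ↔ x.val ∈ C r.val (theta r.val v)))
    (x y : Tm) (hs : x.size + y.size < n + 1) (b : Bool) (hx : NF b x) (hy : NF b y) :
    J false x y = true ↔ x.val < y.val := by
  match x, y, b, hx, hy with
  | x, z, b, hx, hy =>
    rw [J]
    simp [val]
  | z, c w r y, true, hx, hy =>
    rw [J]
    simp only [true_iff]
    rw [val_c]
    exact (theta_pos hy.2.2.1).trans_le le_self_add
  | z, q r y, false, hx, hy =>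
    rw [J]
    simp only [true_iff]
    exact pos_iff_ne_zero.2 hy.2.2
  | z, c w r y, false, hx, hy => exact absurd hy not_NF_false_c
  | z, q r y, true, hx, hy => exact absurd hy not_NF_true_q
  | c v p x, q r y, true, hx, hy => exact absurd hy not_NF_true_q
  | c v p x, q r y, false, hx, hy => exact absurd hx not_NF_false_c
  | q p x, c w r y, true, hx, hy => exact absurd hx not_NF_true_q
  | q p x, c w r y, false, hx, hy => exact absurd hy not_NF_false_c
  | c v p x, c w r y, false, hx, hy => exact absurd hx not_NF_false_c
  | q p x, q r y, true, hx, hy => exact absurd hx not_NF_true_q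
  | c v p x, c w r y, true, hx, hy =>
    rw [c_lt_c_iff hx hy, J]
    simp only [size] at hs
    split_ifs with h1 h2 h3 h4
    · simp only [true_iff]
      exact Or.inl (LA2_theta_lt hy.2.2.1 h1)
    · simp only [false_iff]
      have h3 := LA2_theta_lt (a := r.val) hx.2.2.1 h2
      rintro (h4 | ⟨h4, -⟩)
      · exact absurd (h3.trans h4) (lt_irrefl _)
      · exact absurd h4 h3.ne'
    · have hvw : v = w := by omega
      subst hvw
      have hpr : p = r := codeTm_inj h3
      subst hpr
      rw [(ih x y (by omega)).1 true hx.2.1 hy.2.1]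
      simp
    · have hvw : v = w := by omega
      subst hvw
      have h5 : p.val < r.val := ((ih p r (by omega)).1 false hx.1 hy.1).1 h4
      rw [(ih p (c v r z) (by simp only [size]; omega)).2 false v r rfl hx.1 hy.1 hy.2.2.1]
      rw [← theta_lt_iff hx.2.2.1 hy.2.2.1 h5]
      constructor
      · exact Or.inl
      · rintro (h6 | ⟨h6, -⟩)
        · exact h6
        · exact absurd (theta_inj hx.2.2.1 hy.2.2.1 h6).2 h5.ne
    · have hvw : v = w := by omega
      subst hvw
      have hne : p ≠ r := fun h => h3 (by rw [h])
      have h5 : ¬ p.val < r.val := fun h => h4 (((ih p r (by omega)).1 false hx.1 hy.1).2 h)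
      have h6 : r.val < p.val := by
        refine lt_of_le_of_ne (not_lt.1 h5) ?_
        intro h
        exact hne (val_inj hx.1 hy.1 h.symm)
      rw [Bool.not_eq_true', ← Bool.not_eq_true,
        (ih r (c v p z) (by simp only [size]; omega)).2 false v p rfl hy.1 hx.1 hx.2.2.1,
        ← theta_lt_iff hy.2.2.1 hx.2.2.1 h6]
      have hne' : theta p.val v ≠ theta r.val v := fun h =>
        absurd (theta_inj hx.2.2.1 hy.2.2.1 h).2 h6.ne'
      constructor
      · intro h7
        exact Or.inl (lt_of_le_of_ne (not_lt.1 h7) hne')
      · rintro (h7 | ⟨h7, -⟩)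
        · exact not_lt.2 h7.le
        · exact absurd h7 hne'
  | q p x, q r y, false, hx, hy =>
    rw [q_lt_q_iff hx hy, J]
    simp only [size] at hs
    split_ifs with h3
    · have hpr : p = r := codeTm_inj h3
      subst hpr
      rw [(ih x y (by omega)).1 true hx.2.1 hy.2.1]
      simp
    · have hne : p ≠ r := fun h => h3 (by rw [h])
      rw [(ih p r (by omega)).1 false hx.1 hy.1]
      constructor
      · exact Or.inl
      · rintro (h6 | ⟨h6, -⟩)
        · exact h6
        · exact absurd (val_inj hx.1 hy.1 h6) hne

/-- correctness of `J`, by induction on the size (use lexicographic induction with `false` before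
`true`, as in the termination measure of `J`, if needed) -/
theorem J_correct : ∀ n : ℕ, ∀ x y : Tm, x.size + y.size < n →
    (∀ b, NF b x → NF b y → (J false x y = true ↔ x.val < y.val)) ∧
    ∀ b v r, y = c v r z → NF b x → NF false r → Valid v r.val →
      (J true x y = true ↔ x.val ∈ C r.val (theta r.val v)) := by
  intro n
  induction n with
  | zero => intro x y h; exact absurd h (Nat.not_lt_zero _)
  | succ n ih =>
    intro x y hs
    refine ⟨fun b hx hy => LA2_lt n ih x y hs b hx hy, ?_⟩
    intro b v r hy hx hr hv
    subst hy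
    have hζ : theta r.val v ≤ Lam := theta_lt_Lam.le
    match x, b, hx with
    | z, b, hx =>
      rw [J]
      simp only [true_iff]
      exact C.zero
    | q p x, false, hx =>
      rw [J, Bool.and_eq_true, mem_q_iff hζ hx]
      simp only [size] at hs
      rw [(ih p (c v r z) (by simp only [size]; omega)).2 false v r rfl hx.1 hr hv,
        (ih x (c v r z) (by simp only [size]; omega)).2 true v r rfl hx.2.1 hr hv]
    | c w s x, true, hx =>
      rw [J, Bool.and_eq_true, Bool.or_eq_true, Bool.and_eq_true, mem_c_iff hζ hx]
      simp only [size] at hs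
      rw [(ih x (c v r z) (by simp only [size]; omega)).2 true v r rfl hx.2.1 hr hv,
        (ih s (c v r z) (by simp only [size]; omega)).2 false v r rfl hx.1 hr hv,
        (ih s r (by omega)).1 false hx.1 hr,
        LA2_lt n ih (c w s z) (c v r z) (by simp only [size]; omega) true
          (LA2_NF hx.1 hx.2.2.1) (LA2_NF hr hv)]
      rw [val_c, val_c]
      simp [val]
    | q p x, true, hx => exact absurd hx not_NF_true_q
    | c w s x, false, hx => exact absurd hx not_NF_false_c

theorem J_lt {b : Bool} {x y : Tm} (hx : NF b x) (hy : NF b y) :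
    J false x y = true ↔ x.val < y.val :=
  (J_correct _ x y (Nat.lt_succ_self _)).1 b hx hy

end Kriz.PTO
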