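import Pool.Agent.Work.MP_0f6836_lc.PTO.LA2

/-!
# Block LA3: the recognition of normal forms is correct
-/

namespace Kriz.PTO

open Kriz Tm Ordinal

theorem LA3_theta_lt {v w : ℕ} {a : Ordinal.{0}} (h : Valid w a) :
    theta a w < Om (v + 1) ↔ w ≤ v := by
  constructor
  · intro h1
    by_contra h2
    exact absurd h1 (not_lt_of_ge ((Om_le_Om (by omega : v + 1 ≤ w)).trans (Om_le_theta h)))
  · intro h1
    exact theta_lt_Om.trans_le (Om_le_Om (by omega : w + 1 ≤ v + 1))

theorem memO_iff {b : Bool} {x r : Tm} {v : ℕ} (hx : NF b x) (hr : NF false r) :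
    memO x v r = true ↔ x.val ∈ C r.val (Om (v + 1)) := by
  induction x generalizing b with
  | z => simpa [memO, val] using (C.zero (α := r.val) (ζ := Om (v + 1)))
  | c w s x ihs ihx =>
    cases b with
    | false => exact absurd hx not_NF_false_c
    | true =>
      obtain ⟨h1, h2, h3, -⟩ := NF_c_iff.1 hx
      rw [mem_c_iff (Om_lt_Lam _).le hx, LA3_theta_lt h3, ← ihx h2, ← ihs h1, ← J_lt h1 hr]
      simp [memO]
  | q p x ihp ihx =>
    cases b with
    | true => exact absurd hx not_NF_true_q
    | false =>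
      obtain ⟨h1, h2, -⟩ := NF_q_iff.1 hx
      rw [mem_q_iff (Om_lt_Lam _).le hx, ← ihx h2, ← ihp h1]
      simp [memO]

theorem LA3_leadLe {v : ℕ} {p x : Tm} (hp : NF false p) (hv : Valid v p.val) (hx : NF true x) :
    leadLe x v p = true ↔ lead x ≤ theta p.val v := by
  cases x with
  | z => simp [leadLe, lead]
  | q _ _ => exact absurd hx not_NF_true_q
  | c w r y =>
    obtain ⟨h1, h2, h3, -⟩ := NF_c_iff.1 hx
    have e1 : NF true (c v p z) := ⟨hp, NF_z true, hv, zero_le⟩
    have e2 : NF true (c w r z) := ⟨h1, NF_z true, h3, zero_le⟩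
    have h4 := J_lt e1 e2
    have e3 : (c v p z).val = theta p.val v := by rw [val_c]; exact add_zero _
    have e4 : (c w r z).val = theta r.val w := by rw [val_c]; exact add_zero _
    rw [e3, e4] at h4
    have e5 : leadLe (c w r y) v p = !J false (.c v p .z) (.c w r .z) := rfl
    have e6 : lead (c w r y) = theta r.val w := rfl
    rw [e5, e6, ← not_lt, ← h4]
    simp

theorem LA3_codeTm_zero {x : Tm} : codeTm x = 0 ↔ x = z := by
  cases x <;> simp [codeTm]

theorem LA3_q_ne {p x : Tm} (hp : NF false p) (hx : NF true x) :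
    Lam * p.val + x.val ≠ 0 ↔ ¬ (p = z ∧ x = z) := by
  constructor
  · rintro h ⟨rfl, rfl⟩
    apply h
    simp [val]
  · intro h h0
    apply h
    have h1 : x.val = 0 := by
      have : x.val ≤ Lam * p.val + x.val := le_add_self
      rw [h0] at this
      exact le_antisymm this zero_le
    have h2 : Lam * p.val = 0 := by
      have : Lam * p.val ≤ Lam * p.val + x.val := le_self_add
      rw [h0] at this
      exact le_antisymm this zero_le
    constructor
    · by_contra hne
      rcases mul_eq_zero.1 h2 with h3 | h3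
      · exact absurd h3 Lam_pos.ne'
      · exact val_ne_zero hp hne h3
    · cases x with
      | z => rfl
      | q _ _ => exact absurd hx not_NF_true_q
      | c w r y =>
        exfalso
        have h3 := lead_le_val (c w r y)
        rw [h1] at h3
        exact absurd h3 (not_le_of_gt (theta_pos (NF_c_iff.1 hx).2.2.1))

theorem nfB_iff {b : Bool} {x : Tm} : nfB b x = true ↔ NF b x := by
  induction x generalizing b with
  | z =>
    cases b <;> simp [nfB, NF]
  | c v p x ihp ihx =>
    cases b with
    | false => simp [nfB, NF]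
    | true =>
      have e1 : nfB true (c v p x) = (nfB false p && nfB true x && memO p v p && leadLe x v p) :=
        rfl
      rw [e1, NF_c_iff]
      simp only [Bool.and_eq_true]
      rw [ihp, ihx]
      constructor
      · rintro ⟨⟨⟨h1, h2⟩, h3⟩, h4⟩
        have h5 : Valid v p.val := valid_iff.2 ((memO_iff h1 h1).1 h3)
        exact ⟨h1, h2, h5, (LA3_leadLe h1 h5 h2).1 h4⟩
      · rintro ⟨h1, h2, h5, h4⟩
        exact ⟨⟨⟨h1, h2⟩, (memO_iff h1 h1).2 (valid_iff.1 h5)⟩, (LA3_leadLe h1 h5 h2).2 h4⟩
  | q p x ihp ihx =>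
    cases b with
    | true => simp [nfB, NF]
    | false =>
      have e1 : nfB false (q p x) = (nfB false p && nfB true x &&
        !(decide (codeTm p = 0) && decide (codeTm x = 0))) := rfl
      rw [e1, NF_q_iff]
      simp only [Bool.and_eq_true]
      rw [ihp, ihx]
      constructor
      · rintro ⟨⟨h1, h2⟩, h3⟩
        refine ⟨h1, h2, (LA3_q_ne h1 h2).2 ?_⟩
        rintro ⟨rfl, rfl⟩
        simp [codeTm] at h3
      · rintro ⟨h1, h2, h3⟩
        refine ⟨⟨h1, h2⟩, ?_⟩
        have h4 := (LA3_q_ne h1 h2).1 h3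
        rw [← LA3_codeTm_zero, ← LA3_codeTm_zero] at h4
        rw [not_and_or] at h4
        simpa using h4

theorem lev0_iff {x : Tm} (hx : NF true x) : lev0 x = true ↔ x.val < Om 1 := by
  cases x with
  | z =>
    have : (z : Tm).val < Om 1 := Om_pos 1
    simp [lev0, this]
  | q _ _ => exact absurd hx not_NF_true_q
  | c v p y =>
    obtain ⟨h1, h2, h3, -⟩ := NF_c_iff.1 hx
    have e1 : lev0 (c v p y) = decide (v = 0) := rfl
    rw [e1, decide_eq_true_iff]
    constructor
    · rintro rfl
      exact val_lt hx (Om_principal 1) theta_lt_Om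
    · intro h
      by_contra hv
      have h4 : Om 1 ≤ Om v := Om_le_Om (by omega)
      exact absurd h (not_lt_of_ge ((h4.trans (Om_le_theta h3)).trans (lead_le_val (c v p y))))

end Kriz.PTO
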