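import Pool.Agent.Work.MP_0f6836_lc.PTO.Syn
import Pool.Agent.Work.MP_0f6836_lc.UB.VA

/-!
# Ordinal notations: definitions of the decision procedures
-/

namespace Kriz.PTO

open Kriz Tm

/-- the code of a term -/
def codeTm : Tm → ℕ
  | .z => 0
  | .c v p x => 2 * Nat.pair v (Nat.pair (codeTm p) (codeTm x)) + 1
  | .q p x => 2 * Nat.pair (codeTm p) (codeTm x) + 2

/-- `J false x y` decides `x.val < y.val`; `J true x (c v r z)` decides
`x.val ∈ C (r.val) (theta r.val v)` (for terms in normal form) -/
def J : Bool → Tm → Tm → Bool
  | false, _, .z => false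
  | false, .z, .c _ _ _ => true
  | false, .z, .q _ _ => true
  | false, .c v p x, .c w r y =>
      if v < w then true
      else if w < v then false
      else if codeTm p = codeTm r then J false x y
      else if J false p r then J true p (.c v r .z)
      else !J true r (.c v p .z)
  | false, .q p x, .q r y => if codeTm p = codeTm r then J false x y else J false p r
  | false, .c _ _ _, .q _ _ => false
  | false, .q _ _, .c _ _ _ => false
  | true, .z, _ => true
  | true, .q p x, y => J true p y && J true x y
  | true, .c w s x, .c v r y => J true x (.c v r y) &&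
      (J false (.c w s .z) (.c v r y) || (J false s r && J true s (.c v r y)))
  | true, .c _ _ _, .z => false
  | true, .c _ _ _, .q _ _ => false
termination_by b x y => (x.size + y.size, if b then 1 else 0)
decreasing_by
  all_goals simp only [Tm.size, Prod.lex_def]
  all_goals first
    | (left; omega)
    | (rcases Nat.eq_zero_or_pos x.size with h | h
       · right; simp [h]
       · left; omega)

/-- `memO x v r` decides `x.val ∈ C (r.val) (Om (v + 1))` (for terms in normal form) -/
def memO : Tm → ℕ → Tm → Bool
  | .z, _, _ => true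
  | .q p x, v, r => memO p v r && memO x v r
  | .c w s x, v, r => memO x v r && (decide (w ≤ v) || (J false s r && memO s v r))

/-- `leadLe x v p` decides `lead x ≤ theta p.val v` -/
def leadLe : Tm → ℕ → Tm → Bool
  | .c w r _, v, p => !J false (.c v p .z) (.c w r .z)
  | _, _, _ => true

/-- decides normal forms -/
def nfB : Bool → Tm → Bool
  | _, .z => true
  | true, .c v p x => nfB false p && nfB true x && memO p v p && leadLe x v p
  | false, .q p x => nfB false p && nfB true x && !(codeTm p = 0 && codeTm x = 0)
  | true, .q _ _ => false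
  | false, .c _ _ _ => false

/-- sum terms with values below `Ω_1` -/
def lev0 : Tm → Bool
  | .z => true
  | .c v _ _ => decide (v = 0)
  | .q _ _ => false

/-- codes of the trees of the normal forms with values below `Ω_1` -/
def A0 : Set ℕ := {n | ∃ x : Tm, NF true x ∧ x.val < Om 1 ∧ n = code (tr true x)}

/-- the order of the values on `A0` -/
def R0 : Set ℕ := {n | ∃ x y : Tm, NF true x ∧ NF true y ∧ x.val < Om 1 ∧ y.val < Om 1 ∧
  x.val < y.val ∧ n = pr (code (tr true x)) (code (tr true y))}

theorem codeTm_inj : Function.Injective codeTm := by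
  intro x
  induction x with
  | z =>
    intro y h
    cases y <;> simp only [codeTm] at h
    · rfl
    · omega
    · omega
  | c v p x ihp ihx =>
    intro y h
    cases y <;> simp only [codeTm] at h
    · omega
    · have h1 := Nat.eq_of_mul_eq_mul_left (by norm_num : 0 < 2) (Nat.add_right_cancel h)
      rw [Nat.pair_eq_pair, Nat.pair_eq_pair] at h1
      obtain ⟨rfl, h2, h3⟩ := h1
      rw [ihp h2, ihx h3]
    · omega
  | q p x ihp ihx =>
    intro y h
    cases y <;> simp only [codeTm] at h
    · omega
    · omega
    · have h1 := Nat.eq_of_mul_eq_mul_left (by norm_num : 0 < 2) (Nat.add_right_cancel h)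
      rw [Nat.pair_eq_pair] at h1
      rw [ihp h1.1, ihx h1.2]

theorem codeTm_surj : Function.Surjective codeTm := by
  intro n
  induction n using Nat.strong_induction_on with
  | _ n ih =>
    rcases Nat.eq_zero_or_pos n with rfl | hn
    · exact ⟨.z, rfl⟩
    · rcases Nat.even_or_odd' n with ⟨k, hk | hk⟩
      · obtain ⟨a, b, hab⟩ : ∃ a b, Nat.pair a b = k - 1 := ⟨_, _, Nat.pair_unpair _⟩
        have ha : a ≤ k - 1 := hab ▸ Nat.left_le_pair a b
        have hb : b ≤ k - 1 := hab ▸ Nat.right_le_pair a b
        obtain ⟨p, hp⟩ := ih a (by omega)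
        obtain ⟨x, hx⟩ := ih b (by omega)
        refine ⟨.q p x, ?_⟩
        simp only [codeTm, hp, hx, hab]
        omega
      · obtain ⟨v, c, hvc⟩ : ∃ v c, Nat.pair v c = k := ⟨_, _, Nat.pair_unpair _⟩
        obtain ⟨a, b, hab⟩ : ∃ a b, Nat.pair a b = c := ⟨_, _, Nat.pair_unpair _⟩
        have hc : c ≤ k := hvc ▸ Nat.right_le_pair v c
        have ha : a ≤ c := hab ▸ Nat.left_le_pair a b
        have hb : b ≤ c := hab ▸ Nat.right_le_pair a b
        obtain ⟨p, hp⟩ := ih a (by omega)
        obtain ⟨x, hx⟩ := ih b (by omega)
        refine ⟨.c v p x, ?_⟩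
        simp only [codeTm, hp, hx, hab, hvc]
        omega

end Kriz.PTO
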