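import Pool.Agent.Work.MP_0f6836_lc.PTO.Eng

/-!
# Uniform definability by bounded formulas in all structures
-/

namespace Kriz.PTO

open Kriz

/-- a structure together with an assignment -/
structure Cx : Type 1 where
  M : Type
  [z : Zero M]
  [o : One M]
  [a : Add M]
  [m : Mul M]
  [l : LT M]
  v : ℕ → M

instance (c : Cx) : Zero c.M := c.z
instance (c : Cx) : One c.M := c.o
instance (c : Cx) : Add c.M := c.a
instance (c : Cx) : Mul c.M := c.m
instance (c : Cx) : LT c.M := c.l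

/-- the assignment without its first value -/
abbrev Cx.tl (c : Cx) : Cx :=
  { M := c.M, z := c.z, o := c.o, a := c.a, m := c.m, l := c.l, v := fun i => c.v (i + 1) }

/-- given by a term -/
class UT (f : ∀ c : Cx, c.M) : Prop where
  out : ∃ t : NT, ∀ c, f c = t.val c.v

/-- given by a bounded formula -/
class U0 (R : Cx → Prop) : Prop where
  out : ∃ θ : Fm, θ.Bdd ∧ ∀ (c : Cx) (V : ℕ → Set c.M), R c ↔ θ.Sat V c.v

instance ut_var (i : ℕ) : UT (fun c => c.v i) := ⟨.var i, fun _ => rfl⟩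

instance ut_zero : UT (fun _ => 0) := ⟨.zero, fun _ => rfl⟩

instance ut_one : UT (fun _ => 1) := ⟨.one, fun _ => rfl⟩

instance ut_add (f g : ∀ c : Cx, c.M) [hf : UT f] [hg : UT g] : UT (fun c => f c + g c) := by
  obtain ⟨s, hs⟩ := hf.out
  obtain ⟨t, ht⟩ := hg.out
  exact ⟨.add s t, fun v => by rw [hs, ht]; rfl⟩

instance ut_mul (f g : ∀ c : Cx, c.M) [hf : UT f] [hg : UT g] : UT (fun c => f c * g c) := by
  obtain ⟨s, hs⟩ := hf.out
  obtain ⟨t, ht⟩ := hg.out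
  exact ⟨.mul s t, fun v => by rw [hs, ht]; rfl⟩

instance ut_pr (f g : ∀ c : Cx, c.M) [hf : UT f] [hg : UT g] : UT (fun c => pr (f c) (g c)) := by
  unfold pr
  infer_instance

instance (priority := low) ut_tl (f : ∀ c : Cx, c.M) [hf : UT f] : UT (fun c => f c.tl) := by
  obtain ⟨s, hs⟩ := hf.out
  exact ⟨s.ren (fun i => i + 1), fun c => by rw [hs, NT.val_ren]⟩

theorem U0.congr {P Q : Cx → Prop} (h : ∀ c, P c ↔ Q c) (hP : U0 P) : U0 Q := by
  obtain ⟨θ, h0, h1⟩ := hP.out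
  exact ⟨θ, h0, fun c V => by rw [← h, h1]⟩

instance u0_eq (f g : ∀ c : Cx, c.M) [hf : UT f] [hg : UT g] : U0 (fun c => f c = g c) := by
  obtain ⟨s, hs⟩ := hf.out
  obtain ⟨t, ht⟩ := hg.out
  exact ⟨.eq s t, trivial, fun c V => by rw [hs, ht]; rfl⟩

instance u0_lt (f g : ∀ c : Cx, c.M) [hf : UT f] [hg : UT g] : U0 (fun c => f c < g c) := by
  obtain ⟨s, hs⟩ := hf.out
  obtain ⟨t, ht⟩ := hg.out
  exact ⟨.lt s t, trivial, fun c V => by rw [hs, ht]; rfl⟩

instance u0_not (P : Cx → Prop) [hP : U0 P] : U0 (fun c => ¬ P c) := by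
  obtain ⟨θ, h0, h1⟩ := hP.out
  exact ⟨.neg θ, h0, fun c V => by rw [h1 c V]; rfl⟩

instance u0_and (P Q : Cx → Prop) [hP : U0 P] [hQ : U0 Q] : U0 (fun c => P c ∧ Q c) := by
  obtain ⟨θ, h0, h1⟩ := hP.out
  obtain ⟨η, h0', h1'⟩ := hQ.out
  exact ⟨.and θ η, ⟨h0, h0'⟩, fun c V => by rw [h1 c V, h1' c V]; rfl⟩

instance u0_ball (f : ∀ c : Cx, c.M) [hf : UT f] (R : ∀ c : Cx, c.M → Prop)
    [hR : U0 (fun c => R c.tl (c.v 0))] :
    U0 (fun c => ∀ a : c.M, a < f c → R c a) := by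
  obtain ⟨t, ht⟩ := hf.out
  obtain ⟨θ, h0, h1⟩ := hR.out
  refine ⟨.ball t θ, h0, fun c V => ?_⟩
  constructor
  · intro h m hm
    rw [← ht] at hm
    exact (h1 { M := c.M, v := push m c.v } V).1 (h m hm)
  · intro h m hm
    exact (h1 { M := c.M, v := push m c.v } V).2 (h m (by rw [← ht]; exact hm))

instance u0_bex (f : ∀ c : Cx, c.M) [hf : UT f] (R : ∀ c : Cx, c.M → Prop)
    [hR : U0 (fun c => R c.tl (c.v 0))] :
    U0 (fun c => ∃ a : c.M, a < f c ∧ R c a) := by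
  have h : U0 (fun c => ¬ ∀ a : c.M, a < f c → ¬ R c a) := by infer_instance
  exact h.congr fun v => by push Not; rfl

instance u0_imp (P Q : Cx → Prop) [hP : U0 P] [hQ : U0 Q] : U0 (fun c => P c → Q c) := by
  have h : U0 (fun c => ¬ (P c ∧ ¬ Q c)) := by infer_instance
  exact h.congr fun v => by tauto

instance u0_or (P Q : Cx → Prop) [hP : U0 P] [hQ : U0 Q] : U0 (fun c => P c ∨ Q c) := by
  have h : U0 (fun c => ¬ (¬ P c ∧ ¬ Q c)) := by infer_instance
  exact h.congr fun v => by tauto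

instance u0_W (θ : Fm) [h : IsBdd θ] (f g : ∀ c : Cx, c.M) [hf : UT f] [hg : UT g] :
    U0 (fun c => θ.W (f c) (g c)) := by
  obtain ⟨s, hs⟩ := hf.out
  obtain ⟨t, ht⟩ := hg.out
  exact ⟨θ.ap s t, Fm.bdd_ap h.out _ _, fun c V => by rw [Fm.sat_ap, hs, ht]⟩

instance u0_ne (f g : ∀ c : Cx, c.M) [hf : UT f] [hg : UT g] : U0 (fun c => f c ≠ g c) := by
  have h : U0 (fun c => ¬ (f c = g c)) := by infer_instance
  exact h

end Kriz.PTO
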