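import Pool.Agent.Work.MP_0f6836_lc.PTO.HF
import Pool.Agent.Work.MP_0f6836_lc.PTO.Uni

/-!
# The truncated copy of a notation system: definitions

`θA`, `θR`, `θT`, `θE` are bounded formulas such that `∃ w, θ(w, z)` defines in `ℕ` the field and
the order of a notation system on codes of trees, the set of codes of trees, and Kriz's
quasiordering.
-/

namespace Kriz.PTO

universe u

section

variable {M : Type u} [Zero M] [One M] [Add M] [Mul M] [LT M]

/-- `t` is recognised (as a notation and as a tree) at stage `s` -/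
def Rec (θA θT : Fm) (t s : M) : Prop :=
  t < s ∧ (∃ w, w < s ∧ θA.W w t) ∧ ∃ w, w < s ∧ θT.W w t

/-- `t` and `t'` are compared below `z` -/
def Cmp (θR : Fm) (t t' z : M) : Prop :=
  (∃ v, v < z ∧ θR.W v (pr t t')) ∨ ∃ v, v < z ∧ θR.W v (pr t' t)

/-- all comparisons of `t` with terms recognised at stage `s` are found below `z` -/
def ZP (θA θR θT : Fm) (t s z : M) : Prop :=
  ∀ t', t' < s → t' ≠ t → Rec θA θT t' s → Cmp θR t t' z

/-- the number `x = ((t, s), z)` is a notation: `s` is the least stage at which `t` is recognised,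
`z` is the least bound for the comparisons -/
def Nt (θA θR θT : Fm) (x t s z : M) : Prop :=
  x = pr (pr t s) z ∧ (Rec θA θT t s ∧ ∀ s', s' < s → ¬ Rec θA θT t s') ∧
    (ZP θA θR θT t s z ∧ ∀ z', z' < z → ¬ ZP θA θR θT t s z')

/-- the field of the copy -/
def Al (θA θR θT : Fm) (x : M) : Prop :=
  ∃ t, t < x + 1 ∧ ∃ s, s < x + 1 ∧ ∃ z, z < x + 1 ∧ Nt θA θR θT x t s z

/-- the order of the copy -/
def La (θA θR θT : Fm) (x y : M) : Prop :=
  ∃ t, t < x + 1 ∧ ∃ s, s < x + 1 ∧ ∃ z, z < x + 1 ∧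
    ∃ t', t' < y + 1 ∧ ∃ s', s' < y + 1 ∧ ∃ z', z' < y + 1 ∧
      Nt θA θR θT x t s z ∧ Nt θA θR θT y t' s' z' ∧ ∃ v, v < z + z' ∧ θR.W v (pr t t')

/-- the facts about the copy that are needed in the models, up to `u` -/
def Pi (θA θR θT θE : Fm) (u : M) : Prop :=
  ¬ La θA θR θT u u ∧
  (∀ x, x < u + 1 → ∀ y, y < u + 1 → ∀ w, w < u + 1 →
    La θA θR θT x y → La θA θR θT y w → La θA θR θT x w) ∧
  ∀ x, x < u + 1 → ∀ y, y < u + 1 → ∀ t, t < u + 1 → ∀ s, s < u + 1 → ∀ z, z < u + 1 →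
    ∀ t', t' < u + 1 → ∀ s', s' < u + 1 → ∀ z', z' < u + 1 →
    Nt θA θR θT x t s z → Nt θA θR θT y t' s' z' → La θA θR θT x y →
    ∀ v, v < u + 1 → ¬ θE.W v (pr t' t)

/-- the field of the truncated copy -/
def Tr (θA θR θT θE : Fm) (x : M) : Prop :=
  Al θA θR θT x ∧ ∀ u, u < x + 1 → Pi θA θR θT θE u

/-- the field of the `(n + 1)`-fold product -/
def On (θA θR θT θE : Fm) : ℕ → M → Prop
  | 0 => Tr θA θR θT θE
  | n + 1 => ProdO (Tr θA θR θT θE) (On θA θR θT θE n)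

/-- the order of the `(n + 1)`-fold product -/
def Ln (θA θR θT : Fm) : ℕ → M → M → Prop
  | 0 => La θA θR θT
  | n + 1 => ProdL (La θA θR θT) (Ln θA θR θT n)

end

end Kriz.PTO
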