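import Pool.Agent.Work.MP_0f6836_lc.PTO.LE

/-!
# Block LF: formulas for the products of the truncated copy

Unfold the definitions and use instance search for `U0` (file `Uni`); induction on `n`.
-/

namespace Kriz.PTO

instance (priority := low) LF_tl2 (f : ∀ c : Cx, c.M) [UT f] :
    UT (fun c => f c.tl.tl) :=
  ut_tl (fun c => f c.tl)

instance (priority := low) LF_tl3 (f : ∀ c : Cx, c.M) [UT f] :
    UT (fun c => f c.tl.tl.tl) :=
  ut_tl (fun c => f c.tl.tl)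

instance (priority := low) LF_tl4 (f : ∀ c : Cx, c.M) [UT f] :
    UT (fun c => f c.tl.tl.tl.tl) :=
  ut_tl (fun c => f c.tl.tl.tl)

instance (priority := low) LF_tl5 (f : ∀ c : Cx, c.M) [UT f] :
    UT (fun c => f c.tl.tl.tl.tl.tl) :=
  ut_tl (fun c => f c.tl.tl.tl.tl)

instance (priority := low) LF_tl6 (f : ∀ c : Cx, c.M) [UT f] :
    UT (fun c => f c.tl.tl.tl.tl.tl.tl) :=
  ut_tl (fun c => f c.tl.tl.tl.tl.tl)

instance (priority := low) LF_tl7 (f : ∀ c : Cx, c.M) [UT f] :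
    UT (fun c => f c.tl.tl.tl.tl.tl.tl.tl) :=
  ut_tl (fun c => f c.tl.tl.tl.tl.tl.tl)

instance (priority := low) LF_tl8 (f : ∀ c : Cx, c.M) [UT f] :
    UT (fun c => f c.tl.tl.tl.tl.tl.tl.tl.tl) :=
  ut_tl (fun c => f c.tl.tl.tl.tl.tl.tl.tl)

instance (priority := low) LF_tl9 (f : ∀ c : Cx, c.M) [UT f] :
    UT (fun c => f c.tl.tl.tl.tl.tl.tl.tl.tl.tl) :=
  ut_tl (fun c => f c.tl.tl.tl.tl.tl.tl.tl.tl)

instance (priority := low) LF_tl10 (f : ∀ c : Cx, c.M) [UT f] :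
    UT (fun c => f c.tl.tl.tl.tl.tl.tl.tl.tl.tl.tl) :=
  ut_tl (fun c => f c.tl.tl.tl.tl.tl.tl.tl.tl.tl)

variable (θA θR θT θE : Fm) [IsBdd θA] [IsBdd θR] [IsBdd θT] [IsBdd θE]

instance LF_Rec (f g : ∀ c : Cx, c.M) [UT f] [UT g] :
    U0 (fun c => Rec θA θT (f c) (g c)) := by
  unfold Rec
  infer_instance

instance LF_Cmp (f g h : ∀ c : Cx, c.M) [UT f] [UT g] [UT h] :
    U0 (fun c => Cmp θR (f c) (g c) (h c)) := by
  unfold Cmp
  infer_instance

instance LF_ZP (f g h : ∀ c : Cx, c.M) [UT f] [UT g] [UT h] :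
    U0 (fun c => ZP θA θR θT (f c) (g c) (h c)) := by
  unfold ZP
  infer_instance

instance u0_Nt (f g h k : ∀ c : Cx, c.M) [UT f] [UT g] [UT h] [UT k] :
    U0 (fun c => Nt θA θR θT (f c) (g c) (h c) (k c)) := by
  unfold Nt
  infer_instance

instance LF_Al (f : ∀ c : Cx, c.M) [UT f] : U0 (fun c => Al θA θR θT (f c)) := by
  unfold Al
  infer_instance

instance LF_La (f g : ∀ c : Cx, c.M) [UT f] [UT g] :
    U0 (fun c => La θA θR θT (f c) (g c)) := by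
  unfold La
  infer_instance

instance u0_Pi (f : ∀ c : Cx, c.M) [UT f] : U0 (fun c => Pi θA θR θT θE (f c)) := by
  unfold Pi
  infer_instance

instance LF_Tr (f : ∀ c : Cx, c.M) [UT f] : U0 (fun c => Tr θA θR θT θE (f c)) := by
  unfold Tr
  infer_instance

theorem LF_On (n : ℕ) : ∀ (f : ∀ c : Cx, c.M) [UT f],
    U0 (fun c => On θA θR θT θE n (f c)) := by
  induction n with
  | zero => intro f _; exact LF_Tr θA θR θT θE f
  | succ n ih =>
    intro f _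
    unfold On ProdO
    infer_instance

theorem LF_Ln (n : ℕ) : ∀ (f g : ∀ c : Cx, c.M) [UT f] [UT g],
    U0 (fun c => Ln θA θR θT n (f c) (g c)) := by
  induction n with
  | zero => intro f g _ _; exact LF_La θA θR θT f g
  | succ n ih =>
    intro f g _ _
    unfold Ln ProdL
    infer_instance

theorem u0_On (n : ℕ) : U0 (fun c => On θA θR θT θE n (c.v 0)) :=
  LF_On θA θR θT θE n (fun c => c.v 0)

theorem u0_Ln (n : ℕ) : U0 (fun c => Ln θA θR θT n (c.v 0) (c.v 1)) :=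
  LF_Ln θA θR θT n (fun c => c.v 0) (fun c => c.v 1)

theorem exists_On (n : ℕ) : ∃ φ : Fm, φ.Bdd ∧
    ∀ (M : Type) [Zero M] [One M] [Add M] [Mul M] [LT M],
      φ.set M = {x : M | On θA θR θT θE n x} := by
  obtain ⟨θ, h0, h1⟩ := (u0_On θA θR θT θE n).out
  refine ⟨θ, h0, fun M _ _ _ _ _ => ?_⟩
  ext x
  exact (h1 { M := M, v := fun _ => x } (fun _ => ∅)).symm

theorem exists_Ln (n : ℕ) : ∃ φ : Fm, φ.Bdd ∧
    ∀ (M : Type) [Zero M] [One M] [Add M] [Mul M] [LT M],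
      φ.set M = {z : M | ∃ x, x < z + 1 ∧ ∃ y, y < z + 1 ∧ z = pr x y ∧ Ln θA θR θT n x y} := by
  have ih := LF_Ln θA θR θT n
  have h : U0 (fun c => ∃ x, x < c.v 0 + 1 ∧ ∃ y, y < c.v 0 + 1 ∧ c.v 0 = pr x y ∧
      Ln θA θR θT n x y) := by infer_instance
  obtain ⟨θ, h0, h1⟩ := h.out
  refine ⟨θ, h0, fun M _ _ _ _ _ => ?_⟩
  ext x
  exact (h1 { M := M, v := fun _ => x } (fun _ => ∅)).symm

end Kriz.PTO
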