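import Pool.Agent.Work.MP_0f6836_lc.PTO.LG2

/-!
# Block LG1: the truncated copy in the natural numbers
-/

namespace Kriz.PTO

/-- what the formulas mean in `ℕ` -/
structure IsNot (θA θR θT θE : Fm) (κ : Ordinal.{0}) : Prop where
  ord : OrdType (θA.ex.set ℕ) (θR.ex.set ℕ) κ
  sub : θA.ex.set ℕ ⊆ θT.ex.set ℕ
  refl : ∀ x ∈ θA.ex.set ℕ, ∀ y ∈ θA.ex.set ℕ, pr x y ∈ θR.ex.set ℕ →
    pr y x ∉ θE.ex.set ℕ

variable {θA θR θT θE : Fm} {κ : Ordinal.{0}}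

theorem LG1_left (m n : ℕ) : m ≤ pr m n := by
  unfold pr
  exact Nat.le_add_left _ _

theorem LG1_right (m n : ℕ) : n ≤ pr m n := by
  unfold pr
  have h : m + n ≤ (m + n) * (m + n) := Nat.le_mul_self _
  omega

theorem Nt_mem {x t s z : ℕ} (hx : Nt θA θR θT x t s z) : t ∈ θA.ex.set ℕ := by
  obtain ⟨_, ⟨⟨_, ⟨w, _, hw⟩, _⟩, _⟩, _⟩ := hx
  exact Fm.mem_set_ex.2 ⟨w, hw⟩

theorem LG1_rec_mono {t s s' : ℕ} (h : Rec θA θT t s) (hs : s ≤ s') : Rec θA θT t s' := by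
  obtain ⟨h1, ⟨w, h2, h3⟩, w', h4, h5⟩ := h
  exact ⟨by omega, ⟨w, by omega, h3⟩, w', by omega, h5⟩

theorem LG1_rec_mem {t s : ℕ} (h : Rec θA θT t s) : t ∈ θA.ex.set ℕ := by
  obtain ⟨_, ⟨w, _, hw⟩, _⟩ := h
  exact Fm.mem_set_ex.2 ⟨w, hw⟩

theorem LG1_cmp_mono {t t' z z' : ℕ} (h : Cmp θR t t' z) (hz : z ≤ z') : Cmp θR t t' z' := by
  rcases h with ⟨v, h1, h2⟩ | ⟨v, h1, h2⟩
  · exact Or.inl ⟨v, by omega, h2⟩
  · exact Or.inr ⟨v, by omega, h2⟩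

theorem LG1_bound (P : ℕ → ℕ → Prop) (hP : ∀ t z z', P t z → z ≤ z' → P t z')
    (s : ℕ) (h : ∀ t, t < s → ∃ z, P t z) : ∃ z, ∀ t, t < s → P t z := by
  induction s with
  | zero => exact ⟨0, fun t ht => absurd ht (Nat.not_lt_zero t)⟩
  | succ s ih =>
    obtain ⟨z, hz⟩ := ih (fun t ht => h t (by omega))
    obtain ⟨z', hz'⟩ := h s (by omega)
    refine ⟨max z z', fun t ht => ?_⟩
    rcases Nat.lt_succ_iff_lt_or_eq.1 ht with h1 | h1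
    · exact hP t z _ (hz t h1) (le_max_left _ _)
    · subst h1
      exact hP t z' _ hz' (le_max_right _ _)

theorem LG1_least (P : ℕ → Prop) (h : ∃ n, P n) : ∃ n, P n ∧ ∀ m, m < n → ¬ P m := by
  classical
  exact ⟨Nat.find h, Nat.find_spec h, fun m hm => Nat.find_min h hm⟩

/-- every notation has exactly one copy -/
theorem exists_Nt (h : IsNot θA θR θT θE κ) {t : ℕ} (ht : t ∈ θA.ex.set ℕ) :
    ∃ x s z : ℕ, Nt θA θR θT x t s z := by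
  obtain ⟨w, hw⟩ := Fm.mem_set_ex.1 ht
  obtain ⟨w', hw'⟩ := Fm.mem_set_ex.1 (h.sub ht)
  obtain ⟨s, hs1, hs2⟩ := LG1_least (fun s => Rec θA θT t s)
    ⟨t + w + w' + 1, by omega, ⟨w, by omega, hw⟩, w', by omega, hw'⟩
  obtain ⟨r, hr1, hr2, hr3⟩ := h.ord
  obtain ⟨z, hz1, hz2⟩ := LG1_least (fun z => ZP θA θR θT t s z) (by
    obtain ⟨z, hz⟩ := LG1_bound (fun t' z => t' ≠ t → Rec θA θT t' s → Cmp θR t t' z)
      (fun t' z z' h1 h2 h3 h4 => LG1_cmp_mono (h1 h3 h4) h2) s (by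
        intro t' _
        by_cases hc : t' ≠ t ∧ Rec θA θT t' s
        · have hm := LG1_rec_mem hc.2
          have hne : r t ≠ r t' := fun he => hc.1 (hr1 ht hm he).symm
          rcases lt_or_gt_of_ne hne with h1 | h1
          · obtain ⟨v, hv⟩ := Fm.mem_set_ex.1 ((hr3 t ht t' hm).2 h1)
            exact ⟨v + 1, fun _ _ => Or.inl ⟨v, Nat.lt_succ_self v, hv⟩⟩
          · obtain ⟨v, hv⟩ := Fm.mem_set_ex.1 ((hr3 t' hm t ht).2 h1)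
            exact ⟨v + 1, fun _ _ => Or.inr ⟨v, Nat.lt_succ_self v, hv⟩⟩
        · exact ⟨0, fun h1 h2 => absurd ⟨h1, h2⟩ hc⟩)
    exact ⟨z, fun t' h1 h2 h3 => hz t' h1 h2 h3⟩)
  exact ⟨pr (pr t s) z, s, z, rfl, ⟨hs1, hs2⟩, hz1, hz2⟩

theorem Nt_unique {x t s z x' s' z' : ℕ} (hx : Nt θA θR θT x t s z)
    (hx' : Nt θA θR θT x' t s' z') : x = x' := by
  obtain ⟨e, ⟨h1, h2⟩, h3, h4⟩ := hx
  obtain ⟨e', ⟨h1', h2'⟩, h3', h4'⟩ := hx'
  have hs : s = s' := by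
    rcases lt_trichotomy s s' with h | h | h
    · exact absurd h1 (h2' s h)
    · exact h
    · exact absurd h1' (h2 s' h)
  subst hs
  have hz : z = z' := by
    rcases lt_trichotomy z z' with h | h | h
    · exact absurd h3 (h4' z h)
    · exact h
    · exact absurd h3' (h4 z' h)
  subst hz
  rw [e, e']

theorem LG1_inj {x t s z t' s' z' : ℕ} (hx : Nt θA θR θT x t s z)
    (hx' : Nt θA θR θT x t' s' z') : t = t' ∧ s = s' ∧ z = z' := by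
  obtain ⟨e, _⟩ := hx
  obtain ⟨e', _⟩ := hx'
  rw [e] at e'
  obtain ⟨h1, h2⟩ := pr_inj_nat.1 e'
  obtain ⟨h3, h4⟩ := pr_inj_nat.1 h1
  exact ⟨h3, h4, h2⟩

theorem LG1_bd {x t s z : ℕ} (hx : Nt θA θR θT x t s z) : t < x + 1 ∧ s < x + 1 ∧ z < x + 1 := by
  obtain ⟨e, _⟩ := hx
  have h1 := LG1_left (pr t s) z
  have h2 := LG1_right (pr t s) z
  have h3 := LG1_left t s
  have h4 := LG1_right t s
  omega

/-- `La` unfolded -/
theorem LG1_La {x t s z x' t' s' z' : ℕ} (hx : Nt θA θR θT x t s z)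
    (hx' : Nt θA θR θT x' t' s' z') :
    La θA θR θT x x' ↔ ∃ v, v < z + z' ∧ θR.W v (pr t t') := by
  constructor
  · rintro ⟨t1, _, s1, _, z1, _, t2, _, s2, _, z2, _, h1, h2, v, hv, hw⟩
    obtain ⟨a, b, c⟩ := LG1_inj hx h1
    obtain ⟨a', b', c'⟩ := LG1_inj hx' h2
    subst a b c a' b' c'
    exact ⟨v, hv, hw⟩
  · rintro ⟨v, hv, hw⟩
    obtain ⟨a, b, c⟩ := LG1_bd hx
    obtain ⟨a', b', c'⟩ := LG1_bd hx'
    exact ⟨t, a, s, b, z, c, t', a', s', b', z', c', hx, hx', v, hv, hw⟩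

theorem La_iff (h : IsNot θA θR θT θE κ) {x t s z x' t' s' z' : ℕ} (hx : Nt θA θR θT x t s z)
    (hx' : Nt θA θR θT x' t' s' z') : La θA θR θT x x' ↔ pr t t' ∈ θR.ex.set ℕ := by
  rw [LG1_La hx hx']
  constructor
  · rintro ⟨v, _, hw⟩
    exact Fm.mem_set_ex.2 ⟨v, hw⟩
  · intro hm
    obtain ⟨r, hr1, hr2, hr3⟩ := h.ord
    have ht := Nt_mem hx
    have ht' := Nt_mem hx'
    have hlt := (hr3 t ht t' ht').1 hm
    have hne : t ≠ t' := by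
      rintro rfl
      exact lt_irrefl _ hlt
    have hno : ∀ v, ¬ θR.W v (pr t' t) := by
      intro v hv
      have := (hr3 t' ht' t ht).1 (Fm.mem_set_ex.2 ⟨v, hv⟩)
      exact lt_asymm this hlt
    rcases le_total s s' with hs | hs
    · have hrec : Rec θA θT t s' := LG1_rec_mono hx.2.1.1 hs
      rcases hx'.2.2.1 t hrec.1 hne hrec with ⟨v, _, hv⟩ | ⟨v, h1, hv⟩
      · exact absurd hv (hno v)
      · exact ⟨v, by omega, hv⟩
    · have hrec : Rec θA θT t' s := LG1_rec_mono hx'.2.1.1 hs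
      rcases hx.2.2.1 t' hrec.1 hne.symm hrec with ⟨v, h1, hv⟩ | ⟨v, _, hv⟩
      · exact ⟨v, by omega, hv⟩
      · exact absurd hv (hno v)

theorem LG1_La_nt {x y : ℕ} (h : La θA θR θT x y) :
    ∃ t s z t' s' z', Nt θA θR θT x t s z ∧ Nt θA θR θT y t' s' z' := by
  obtain ⟨t1, _, s1, _, z1, _, t2, _, s2, _, z2, _, h1, h2, _⟩ := h
  exact ⟨t1, s1, z1, t2, s2, z2, h1, h2⟩

theorem Pi_true (h : IsNot θA θR θT θE κ) (u : ℕ) : Pi θA θR θT θE u := by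
  obtain ⟨r, hr1, hr2, hr3⟩ := h.ord
  refine ⟨?_, ?_, ?_⟩
  · intro hu
    obtain ⟨t, s, z, t', s', z', h1, h2⟩ := LG1_La_nt hu
    have h3 := (La_iff h h1 h1).1 hu
    exact lt_irrefl _ ((hr3 t (Nt_mem h1) t (Nt_mem h1)).1 h3)
  · intro x _ y _ w _ hxy hyw
    obtain ⟨t, s, z, t', s', z', h1, h2⟩ := LG1_La_nt hxy
    obtain ⟨_, _, _, t'', s'', z'', _, h3⟩ := LG1_La_nt hyw
    have a := (hr3 t (Nt_mem h1) t' (Nt_mem h2)).1 ((La_iff h h1 h2).1 hxy)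
    have b := (hr3 t' (Nt_mem h2) t'' (Nt_mem h3)).1 ((La_iff h h2 h3).1 hyw)
    exact (La_iff h h1 h3).2 ((hr3 t (Nt_mem h1) t'' (Nt_mem h3)).2 (a.trans b))
  · intro x _ y _ t _ s _ z _ t' _ s' _ z' _ h1 h2 hxy v _ hv
    exact h.refl t (Nt_mem h1) t' (Nt_mem h2) ((La_iff h h1 h2).1 hxy)
      (Fm.mem_set_ex.2 ⟨v, hv⟩)

theorem LG1_Al {x : ℕ} : Al θA θR θT x ↔ ∃ t s z, Nt θA θR θT x t s z := by
  constructor
  · rintro ⟨t, _, s, _, z, _, hn⟩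
    exact ⟨t, s, z, hn⟩
  · rintro ⟨t, s, z, hn⟩
    obtain ⟨a, b, c⟩ := LG1_bd hn
    exact ⟨t, a, s, b, z, c, hn⟩

theorem LG1_Tr (h : IsNot θA θR θT θE κ) {x : ℕ} :
    Tr θA θR θT θE x ↔ ∃ t s z, Nt θA θR θT x t s z := by
  unfold Tr
  rw [LG1_Al]
  exact ⟨fun a => a.1, fun a => ⟨a, fun u _ => Pi_true h u⟩⟩

theorem ordType_Tr (h : IsNot θA θR θT θE κ) :
    OrdType {x | Tr θA θR θT θE x} (LS (La θA θR θT)) κ := by
  classical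
  obtain ⟨r, hr1, hr2, hr3⟩ := h.ord
  have hf : ∀ x : ℕ, ∃ t : ℕ, Tr θA θR θT θE x → ∃ s z, Nt θA θR θT x t s z := by
    intro x
    by_cases hx : Tr θA θR θT θE x
    · obtain ⟨t, s, z, hn⟩ := (LG1_Tr h).1 hx
      exact ⟨t, fun _ => ⟨s, z, hn⟩⟩
    · exact ⟨0, fun h' => absurd h' hx⟩
  choose f hf using hf
  refine ⟨fun x => r (f x), ?_, ?_, ?_⟩
  · intro x hx y hy hxy
    obtain ⟨s, z, h1⟩ := hf x hx
    obtain ⟨s', z', h2⟩ := hf y hy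
    have h3 : f x = f y := hr1 (Nt_mem h1) (Nt_mem h2) hxy
    rw [h3] at h1
    exact Nt_unique h1 h2
  · ext α
    constructor
    · rintro ⟨x, hx, rfl⟩
      obtain ⟨s, z, h1⟩ := hf x hx
      rw [← hr2]
      exact ⟨f x, Nt_mem h1, rfl⟩
    · intro hα
      rw [← hr2] at hα
      obtain ⟨t, ht, rfl⟩ := hα
      obtain ⟨x, s, z, hn⟩ := exists_Nt h ht
      have hx : Tr θA θR θT θE x := (LG1_Tr h).2 ⟨t, s, z, hn⟩
      obtain ⟨s', z', h1⟩ := hf x hx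
      refine ⟨x, hx, ?_⟩
      show r (f x) = r t
      rw [(LG1_inj hn h1).1]
  · intro x hx y hy
    obtain ⟨s, z, h1⟩ := hf x hx
    obtain ⟨s', z', h2⟩ := hf y hy
    rw [pr_mem_LS, La_iff h h1 h2, hr3 _ (Nt_mem h1) _ (Nt_mem h2)]

theorem ordType_On (h : IsNot θA θR θT θE κ) (n : ℕ) :
    OrdType {x | On θA θR θT θE n x} (LS (Ln θA θR θT n)) (κ ^ (n + 1)) := by
  induction n with
  | zero =>
    rw [zero_add, pow_one]
    exact ordType_Tr h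
  | succ n ih =>
    rw [pow_succ κ (n + 1)]
    exact ordType_prod (ordType_Tr h) ih

end Kriz.PTO
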