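import Pool.Agent.Work.MP_0f6836_lc.PTO.LE

/-!
# Block LG2: order types of lexicographic products
-/

namespace Kriz.PTO

/-- the set of codes of the pairs in a relation -/
def LS (L : ℕ → ℕ → Prop) : Set ℕ := {z | ∃ x, x < z + 1 ∧ ∃ y, y < z + 1 ∧ z = pr x y ∧ L x y}

theorem pr_inj_nat {a b c d : ℕ} : pr a b = pr c d ↔ a = c ∧ b = d := by
  constructor
  · intro h
    unfold pr at h
    have h1 : ¬ a + b < c + d := by
      intro h2
      have h3 : (a + b + 1) * (a + b + 1) ≤ (c + d) * (c + d) := Nat.mul_le_mul h2 h2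
      nlinarith
    have h2 : ¬ c + d < a + b := by
      intro h2
      have h3 : (c + d + 1) * (c + d + 1) ≤ (a + b) * (a + b) := Nat.mul_le_mul h2 h2
      nlinarith
    have h3 : a + b = c + d := by omega
    rw [h3] at h
    omega
  · rintro ⟨rfl, rfl⟩
    rfl

theorem LG2_left_le (x y : ℕ) : x ≤ pr x y := by
  unfold pr
  omega

theorem LG2_right_le (x y : ℕ) : y ≤ pr x y := by
  unfold pr
  have : x + y ≤ (x + y) * (x + y) := Nat.le_mul_self _
  omega

theorem pr_mem_LS {L : ℕ → ℕ → Prop} {x y : ℕ} : pr x y ∈ LS L ↔ L x y := by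
  constructor
  · rintro ⟨a, _, b, _, h, hL⟩
    obtain ⟨rfl, rfl⟩ := pr_inj_nat.1 h
    exact hL
  · intro h
    exact ⟨x, Nat.lt_succ_of_le (LG2_left_le x y), y, Nat.lt_succ_of_le (LG2_right_le x y), rfl, h⟩

theorem LG2_prodO {O O' : ℕ → Prop} {a b : ℕ} : ProdO O O' (pr a b) ↔ O a ∧ O' b := by
  constructor
  · rintro ⟨a', _, b', _, h, hO⟩
    obtain ⟨rfl, rfl⟩ := pr_inj_nat.1 h
    exact hO
  · intro h
    exact ⟨a, Nat.lt_succ_of_le (LG2_left_le a b), b, Nat.lt_succ_of_le (LG2_right_le a b), rfl, h⟩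

theorem LG2_prodL {L L' : ℕ → ℕ → Prop} {a b a' b' : ℕ} :
    ProdL L L' (pr a b) (pr a' b') ↔ L a a' ∨ (a = a' ∧ L' b b') := by
  constructor
  · rintro ⟨c, _, d, _, c', _, d', _, h, h', hL⟩
    obtain ⟨rfl, rfl⟩ := pr_inj_nat.1 h
    obtain ⟨rfl, rfl⟩ := pr_inj_nat.1 h'
    exact hL
  · intro h
    exact ⟨a, Nat.lt_succ_of_le (LG2_left_le a b), b, Nat.lt_succ_of_le (LG2_right_le a b),
      a', Nat.lt_succ_of_le (LG2_left_le a' b'), b', Nat.lt_succ_of_le (LG2_right_le a' b'),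
      rfl, rfl, h⟩

theorem LG2_lt_of_lt {β p p' t t' : Ordinal.{0}} (ht : t < β) (h : p < p') :
    β * p + t < β * p' + t' := by
  calc β * p + t < β * p + β := (add_lt_add_iff_left _).2 ht
    _ = β * (p + 1) := by rw [mul_add, mul_one]
    _ ≤ β * p' := mul_le_mul_right (Order.add_one_le_of_lt h) β
    _ ≤ β * p' + t' := le_self_add

theorem LG2_lt_iff {β p p' t t' : Ordinal.{0}} (ht : t < β) (ht' : t' < β) :
    β * p + t < β * p' + t' ↔ p < p' ∨ (p = p' ∧ t < t') := by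
  constructor
  · intro h
    rcases lt_trichotomy p p' with h1 | h1 | h1
    · exact Or.inl h1
    · subst h1
      exact Or.inr ⟨rfl, (add_lt_add_iff_left _).1 h⟩
    · exact absurd (LG2_lt_of_lt (t' := t) ht' h1) (not_lt_of_gt h)
  · rintro (h | ⟨rfl, h⟩)
    · exact LG2_lt_of_lt ht h
    · exact (add_lt_add_iff_left _).2 h

/-- the order type of a lexicographic product -/
theorem ordType_prod {O O' : ℕ → Prop} {L L' : ℕ → ℕ → Prop} {α β : Ordinal.{0}}
    (h : OrdType {x | O x} (LS L) α) (h' : OrdType {x | O' x} (LS L') β) :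
    OrdType {x | ProdO O O' x} (LS (ProdL L L')) (β * α) := by
  classical
  obtain ⟨r, hi, him, hr⟩ := h
  obtain ⟨r', hi', him', hr'⟩ := h'
  have hα : ∀ x, O x → r x < α := fun x hx => by
    have : r x ∈ r '' {x | O x} := ⟨x, hx, rfl⟩
    rwa [him] at this
  have hβ : ∀ x, O' x → r' x < β := fun x hx => by
    have : r' x ∈ r' '' {x | O' x} := ⟨x, hx, rfl⟩
    rwa [him'] at this
  have hex : ∃ R : ℕ → Ordinal.{0}, ∀ a b, R (pr a b) = β * r a + r' b := by
    have h1 : ∀ x : ℕ, ∃ v : Ordinal.{0}, ∀ a b, x = pr a b → v = β * r a + r' b := by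
      intro x
      by_cases h : ∃ a b, x = pr a b
      · obtain ⟨a, b, rfl⟩ := h
        refine ⟨β * r a + r' b, fun a' b' e => ?_⟩
        obtain ⟨rfl, rfl⟩ := pr_inj_nat.1 e
        rfl
      · exact ⟨0, fun a b e => absurd ⟨a, b, e⟩ h⟩
    choose R hR using h1
    exact ⟨R, fun a b => hR _ a b rfl⟩
  obtain ⟨R, hR⟩ := hex
  have hdec : ∀ x, ProdO O O' x → ∃ a b, x = pr a b ∧ O a ∧ O' b := by
    rintro x ⟨a, _, b, _, hx, ha, hb⟩
    exact ⟨a, b, hx, ha, hb⟩
  refine ⟨R, ?_, ?_, ?_⟩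
  · intro x hx y hy hxy
    obtain ⟨a, b, rfl, ha, hb⟩ := hdec x hx
    obtain ⟨a', b', rfl, ha', hb'⟩ := hdec y hy
    rw [hR, hR] at hxy
    have h1 : r a = r a' := by
      rcases lt_trichotomy (r a) (r a') with h1 | h1 | h1
      · exact absurd hxy (LG2_lt_of_lt (hβ b hb) h1).ne
      · exact h1
      · exact absurd hxy (LG2_lt_of_lt (hβ b' hb') h1).ne'
    rw [h1] at hxy
    have h2 : r' b = r' b' := by
      rcases lt_trichotomy (r' b) (r' b') with h2 | h2 | h2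
      · exact absurd hxy ((add_lt_add_iff_left _).2 h2).ne
      · exact h2
      · exact absurd hxy ((add_lt_add_iff_left _).2 h2).ne'
    rw [hi ha ha' h1, hi' hb hb' h2]
  · ext γ
    constructor
    · rintro ⟨x, hx, rfl⟩
      obtain ⟨a, b, rfl, ha, hb⟩ := hdec x hx
      rw [hR]
      have := LG2_lt_of_lt (t' := 0) (hβ b hb) (hα a ha)
      rw [add_zero] at this
      exact this
    · intro hγ
      have hβ0 : β ≠ 0 := by
        rintro rfl
        rw [zero_mul] at hγ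
        exact absurd (Set.mem_Iio.1 hγ) not_lt_zero
      have h1 : γ / β < α := (Ordinal.div_lt hβ0).2 hγ
      have h2 : γ % β < β := Ordinal.mod_lt γ hβ0
      have h3 : γ / β ∈ r '' {x | O x} := by rw [him]; exact h1
      have h4 : γ % β ∈ r' '' {x | O' x} := by rw [him']; exact h2
      obtain ⟨a, ha, ea⟩ := h3
      obtain ⟨b, hb, eb⟩ := h4
      refine ⟨pr a b, LG2_prodO.2 ⟨ha, hb⟩, ?_⟩
      rw [hR, ea, eb]
      exact Ordinal.div_add_mod γ β
  · intro x hx y hy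
    obtain ⟨a, b, rfl, ha, hb⟩ := hdec x hx
    obtain ⟨a', b', rfl, ha', hb'⟩ := hdec y hy
    rw [pr_mem_LS, LG2_prodL, hR, hR, LG2_lt_iff (hβ b hb) (hβ b' hb')]
    have e1 := hr a ha a' ha'
    have e2 := hr' b hb b' hb'
    rw [pr_mem_LS] at e1 e2
    constructor
    · rintro (h1 | ⟨rfl, h1⟩)
      · exact Or.inl (e1.1 h1)
      · exact Or.inr ⟨rfl, e2.1 h1⟩
    · rintro (h1 | ⟨h2, h1⟩)
      · exact Or.inl (e1.2 h1)
      · exact Or.inr ⟨hi ha ha' h2, e2.2 h1⟩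

end Kriz.PTO
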