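import Pool.Agent.Work.MP_0f6836_lc.PTO.LE

/-!
# Block LH: `RCA_0` + Kriz's theorem proves that the truncated copy is a well-ordering
-/

set_option linter.unusedSectionVars false

namespace Kriz.PTO

universe u

variable {M : Type u} [CommSemiring M] [LinearOrder M] [IsStrictOrderedRing M] {S : Set (Set M)}

section inst

variable (θA θR θT : Fm) [IsBdd θA] [IsBdd θR] [IsBdd θT]

instance LH_Rec [Ne S] (f g : (ℕ → M) → M) [Tf f] [Tf g] :
    D0 S (fun v => Rec θA θT (f v) (g v)) := by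
  unfold Rec
  infer_instance

instance LH_Cmp [Ne S] (f g k : (ℕ → M) → M) [Tf f] [Tf g] [Tf k] :
    D0 S (fun v => Cmp θR (f v) (g v) (k v)) := by
  unfold Cmp
  infer_instance

instance LH_ZP [Ne S] (f g k : (ℕ → M) → M) [Tf f] [Tf g] [Tf k] :
    D0 S (fun v => ZP θA θR θT (f v) (g v) (k v)) := by
  unfold ZP
  infer_instance

instance LH_Nt [Ne S] (e f g k : (ℕ → M) → M) [Tf e] [Tf f] [Tf g] [Tf k] :
    D0 S (fun v => Nt θA θR θT (e v) (f v) (g v) (k v)) := by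
  unfold Nt
  infer_instance

instance LH_La [Ne S] (f g : (ℕ → M) → M) [Tf f] [Tf g] :
    D0 S (fun v => La θA θR θT (f v) (g v)) := by
  unfold La
  infer_instance

end inst

theorem LH_max (H : IsRCA0 S) {θA θR θT θE : Fm} {x y w : M} (hx : Tr θA θR θT θE x)
    (hy : Tr θA θR θT θE y) (hw : Tr θA θR θT θE w) :
    ∃ u, Pi θA θR θT θE u ∧ x ≤ u ∧ y ≤ u ∧ w ≤ u := by
  rcases le_total x y with a | a
  · rcases le_total y w with b | b
    · exact ⟨w, hw.2 w (H.lt_self_succ w), a.trans b, b, le_refl _⟩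
    · exact ⟨y, hy.2 y (H.lt_self_succ y), a, le_refl _, b⟩
  · rcases le_total x w with b | b
    · exact ⟨w, hw.2 w (H.lt_self_succ w), b, a.trans b, le_refl _⟩
    · exact ⟨x, hx.2 x (H.lt_self_succ x), le_refl _, a, b⟩

theorem LH_trans (H : IsRCA0 S) {θA θR θT θE : Fm} {x y w : M} (hx : Tr θA θR θT θE x)
    (hy : Tr θA θR θT θE y) (hw : Tr θA θR θT θE w) (h1 : La θA θR θT x y)
    (h2 : La θA θR θT y w) : La θA θR θT x w := by
  obtain ⟨u, hu, h3, h4, h5⟩ := LH_max H hx hy hw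
  exact hu.2.1 x ((H.lt_succ_iff x u).2 h3) y ((H.lt_succ_iff y u).2 h4) w
    ((H.lt_succ_iff w u).2 h5) h1 h2

/-- a descending sequence of members of the copy is descending at any distance -/
theorem LH_desc [Fact (IsRCA0 S)] (θA θR θT θE : Fm) [IsBdd θA] [IsBdd θR] [IsBdd θT]
    (F : ↥S) (hF : IsFun F.1) (hT : ∀ n y, pr n y ∈ F.1 → Tr θA θR θT θE y)
    (hd : ∀ n y z, pr n y ∈ F.1 → pr (n + 1) z ∈ F.1 → La θA θR θT z y)
    {m n a b : M} (hmn : m < n) (ha : pr m a ∈ F.1) (hb : pr n b ∈ F.1) :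
    La θA θR θT b a := by
  have H : IsRCA0 S := Fact.out
  have key : ∀ k : M, ∃ c, pr (m + k + 1) c ∈ F.1 ∧ La θA θR θT c a := by
    have hI : S1 S (fun v => ∃ c, pr (m + v 0 + 1) c ∈ F.1 ∧ La θA θR θT c a) := by
      infer_instance
    refine ind1 S (fun k => ∃ c, pr (m + k + 1) c ∈ F.1 ∧ La θA θR θT c a) ?_ ?_
    · obtain ⟨c, hc, _⟩ := hF (m + 1)
      refine ⟨c, ?_, hd m a c ha hc⟩
      rw [add_zero]
      exact hc
    · rintro k ⟨c, hc, hc'⟩
      obtain ⟨e, he, _⟩ := hF (m + (k + 1) + 1)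
      refine ⟨e, he, ?_⟩
      have h1 : La θA θR θT e c := by
        refine hd (m + k + 1) c e hc ?_
        rw [add_assoc m k 1]
        exact he
      exact LH_trans H (hT _ _ he) (hT _ _ hc) (hT _ _ ha) h1 hc'
  have h1 : m + 1 ≤ n := (H.succ_le_iff m n).2 hmn
  obtain ⟨k, hk⟩ := H.exists_add h1
  obtain ⟨c, hc, hc'⟩ := key k
  have h2 : m + k + 1 = n := by rw [hk, add_right_comm]
  rw [h2] at hc
  have h3 : c = b := (hF n).unique hc hb
  rw [← h3]
  exact hc'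

/-- If `Pi u` holds for all `u`, a descending sequence gives a bad sequence of trees (the trees of
its members); if `Pi u` fails then the field is bounded by `u` and a descending sequence is
injective, contradicting the pigeonhole principle `php`. -/
theorem wo_Tr [Fact (IsRCA0 S)] (θA θR θT θE : Fm) [IsBdd θA] [IsBdd θR] [IsBdd θT] [IsBdd θE]
    (hG : GoodIn S (θT.ex.set M) (θE.ex.set M)) :
    WOp S (Tr θA θR θT θE) (La θA θR θT) := by
  have H : IsRCA0 S := Fact.out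
  rintro ⟨F, hFS, hF, hT, hd⟩
  have desc : ∀ {m n a b : M}, m < n → pr m a ∈ F → pr n b ∈ F → La θA θR θT b a :=
    fun h1 h2 h3 => LH_desc θA θR θT θE ⟨F, hFS⟩ hF hT hd h1 h2 h3
  by_cases hPi : ∀ u : M, Pi θA θR θT θE u
  · have hR : S1 S (fun v => ∃ x, pr (v 0) x ∈ (⟨F, hFS⟩ : ↥S).1 ∧ ∃ s, s < x + 1 ∧
        ∃ z, z < x + 1 ∧ x = pr (pr (v 1) s) z) := by infer_instance
    obtain ⟨G, hG'⟩ := exists_fun (S := S) (fun n t => ∃ x, pr n x ∈ (⟨F, hFS⟩ : ↥S).1 ∧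
      ∃ s, s < x + 1 ∧ ∃ z, z < x + 1 ∧ x = pr (pr t s) z) (by
        intro n
        obtain ⟨x, hx, hx'⟩ := hF n
        obtain ⟨t, _, s, hs, z, hz, hn⟩ := (hT n x hx).1
        refine ⟨t, ⟨x, hx, s, hs, z, hz, hn.1⟩, ?_⟩
        rintro t' ⟨x', hx1, s', _, z', _, h3⟩
        have h4 : x' = x := hx' x' hx1
        rw [h4, hn.1, H.pr_inj, H.pr_inj] at h3
        exact h3.1.1.symm)
    have hval : ∀ n t, pr n t ∈ G.1 → ∃ x s z, pr n x ∈ F ∧ Nt θA θR θT x t s z := by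
      intro n t h
      obtain ⟨x, hx, s, _, z, _, h3⟩ := (hG' n t).1 h
      obtain ⟨t', _, s', _, z', _, hn⟩ := (hT n x hx).1
      have h5 := hn.1
      rw [h3, H.pr_inj, H.pr_inj] at h5
      obtain ⟨⟨h6, _⟩, _⟩ := h5
      subst h6
      exact ⟨x, s', z', hx, hn⟩
    have hGf : IsFun G.1 := by
      intro n
      obtain ⟨x, hx, hx'⟩ := hF n
      obtain ⟨t, _, s, hs, z, hz, hn⟩ := (hT n x hx).1
      refine ⟨t, (hG' n t).2 ⟨x, hx, s, hs, z, hz, hn.1⟩, ?_⟩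
      intro t' ht'
      obtain ⟨x', s', z', h1, h2⟩ := hval n t' ht'
      have h4 : x' = x := hx' x' h1
      have h5 := h2.1
      rw [h4, hn.1, H.pr_inj, H.pr_inj] at h5
      exact h5.1.1.symm
    obtain ⟨m, n, y, z, hmn, hy, hz, hE⟩ := hG G.1 G.2 hGf (by
      intro n t h
      obtain ⟨x, s, z, _, hn⟩ := hval n t h
      obtain ⟨_, _, w, _, hw⟩ := hn.2.1.1
      exact Fm.mem_set_ex.2 ⟨w, hw⟩)
    obtain ⟨xm, s, z1, hxm, hn1⟩ := hval m y hy
    obtain ⟨xn, s', z2, hxn, hn2⟩ := hval n z hz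
    obtain ⟨v, hv⟩ := Fm.mem_set_ex.1 hE
    have hLa := desc hmn hxm hxn
    let u : M := xm + (xn + (y + (z + (s + (s' + (z1 + (z2 + v)))))))
    have b : ∀ c d : M, c ≤ c + d := fun c d => H.le_add_right' c d
    have b' : ∀ c d e : M, c ≤ e → c ≤ d + e := fun c d e h => h.trans (H.le_add_left' e d)
    have l1 : xm ≤ u := b _ _
    have l2 : xn ≤ u := b' _ _ _ (b _ _)
    have l3 : y ≤ u := b' _ _ _ (b' _ _ _ (b _ _))
    have l4 : z ≤ u := b' _ _ _ (b' _ _ _ (b' _ _ _ (b _ _)))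
    have l5 : s ≤ u := b' _ _ _ (b' _ _ _ (b' _ _ _ (b' _ _ _ (b _ _))))
    have l6 : s' ≤ u := b' _ _ _ (b' _ _ _ (b' _ _ _ (b' _ _ _ (b' _ _ _ (b _ _)))))
    have l7 : z1 ≤ u :=
      b' _ _ _ (b' _ _ _ (b' _ _ _ (b' _ _ _ (b' _ _ _ (b' _ _ _ (b _ _))))))
    have l8 : z2 ≤ u :=
      b' _ _ _ (b' _ _ _ (b' _ _ _ (b' _ _ _ (b' _ _ _ (b' _ _ _ (b' _ _ _ (b _ _)))))))
    have l9 : v ≤ u :=
      b' _ _ _ (b' _ _ _ (b' _ _ _ (b' _ _ _ (b' _ _ _ (b' _ _ _ (b' _ _ _ (b' _ _ _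
        (le_refl _))))))))
    have q : ∀ c : M, c ≤ u → c < u + 1 := fun c hc => (H.lt_succ_iff c u).2 hc
    exact (hPi u).2.2 xn (q _ l2) xm (q _ l1) z (q _ l4) s' (q _ l6) z2 (q _ l8) y (q _ l3) s
      (q _ l5) z1 (q _ l7) hn2 hn1 hLa v (q _ l9) hv
  · push Not at hPi
    obtain ⟨u, hu⟩ := hPi
    refine php ⟨F, hFS⟩ hF u ?_ ?_
    · intro n y hy
      by_contra hlt
      rw [not_lt] at hlt
      exact hu ((hT n y hy).2 u ((H.lt_succ_iff u y).2 hlt))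
    · intro m n y hm hn
      have irr : ¬ La θA θR θT y y := ((hT m y hm).2 y (H.lt_self_succ y)).1
      rcases lt_trichotomy m n with h | h | h
      · exact absurd (desc h hm hn) irr
      · exact h
      · exact absurd (desc h hn hm) irr

theorem wo_On [Fact (IsRCA0 S)] (θA θR θT θE : Fm) [IsBdd θA] [IsBdd θR] [IsBdd θT] [IsBdd θE]
    (hG : GoodIn S (θT.ex.set M) (θE.ex.set M)) (n : ℕ) :
    WOp S (On θA θR θT θE n) (Ln θA θR θT n) := by
  induction n with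
  | zero => exact wo_Tr θA θR θT θE hG
  | succ n ih => exact wo_prod _ _ _ _ (wo_Tr θA θR θT θE hG) ih

end Kriz.PTO
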