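import Pool.Agent.Work.MP_0f6836_lc.PTO.LE

/-!
# Block LL: the truncated copy and its products are linear orders in all models of `RCA_0`
-/

set_option linter.unusedSectionVars false

namespace Kriz.PTO

universe u

/-- `L` is a strict linear order on `O` -/
def LinP {M : Type u} (O : M → Prop) (L : M → M → Prop) : Prop :=
  (∀ x, O x → ¬ L x x) ∧ (∀ x y z, O x → O y → O z → L x y → L y z → L x z) ∧
    ∀ x y, O x → O y → x = y ∨ L x y ∨ L y x

variable {M : Type u} [CommSemiring M] [LinearOrder M] [IsStrictOrderedRing M] {S : Set (Set M)}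

theorem lin_prod [hS : Fact (IsRCA0 S)] {O O' : M → Prop} {L L' : M → M → Prop}
    (h : LinP O L) (h' : LinP O' L') : LinP (ProdO O O') (ProdL L L') := by
  have H := hS.out
  have key : ∀ a b a' b' : M, ProdL L L' (pr a b) (pr a' b') ↔ (L a a' ∨ (a = a' ∧ L' b b')) := by
    intro a b a' b'
    constructor
    · rintro ⟨c, -, d, -, c', -, d', -, h1, h2, h3⟩
      obtain ⟨rfl, rfl⟩ := H.pr_inj.1 h1
      obtain ⟨rfl, rfl⟩ := H.pr_inj.1 h2
      exact h3
    · intro h3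
      exact ⟨a, (H.lt_succ_iff _ _).2 (H.le_pr_left _ _), b, (H.lt_succ_iff _ _).2
        (H.le_pr_right _ _), a', (H.lt_succ_iff _ _).2 (H.le_pr_left _ _), b',
        (H.lt_succ_iff _ _).2 (H.le_pr_right _ _), rfl, rfl, h3⟩
  obtain ⟨i1, i2, i3⟩ := h
  obtain ⟨j1, j2, j3⟩ := h'
  refine ⟨?_, ?_, ?_⟩
  · rintro x ⟨a, -, b, -, rfl, ha, hb⟩ hL
    rw [key] at hL
    rcases hL with hL | ⟨-, hL⟩
    · exact i1 a ha hL
    · exact j1 b hb hL
  · rintro x y z ⟨a, -, b, -, rfl, ha, hb⟩ ⟨a', -, b', -, rfl, ha', hb'⟩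
      ⟨a'', -, b'', -, rfl, ha'', hb''⟩ h1 h2
    rw [key] at h1 h2 ⊢
    rcases h1 with h1 | ⟨rfl, h1⟩
    · rcases h2 with h2 | ⟨rfl, h2⟩
      · exact Or.inl (i2 _ _ _ ha ha' ha'' h1 h2)
      · exact Or.inl h1
    · rcases h2 with h2 | ⟨rfl, h2⟩
      · exact Or.inl h2
      · exact Or.inr ⟨rfl, j2 _ _ _ hb hb' hb'' h1 h2⟩
  · rintro x y ⟨a, -, b, -, rfl, ha, hb⟩ ⟨a', -, b', -, rfl, ha', hb'⟩
    rw [key, key]
    rcases i3 a a' ha ha' with rfl | h1 | h1
    · rcases j3 b b' hb hb' with rfl | h2 | h2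
      · exact Or.inl rfl
      · exact Or.inr (Or.inl (Or.inr ⟨rfl, h2⟩))
      · exact Or.inr (Or.inr (Or.inr ⟨rfl, h2⟩))
    · exact Or.inr (Or.inl (Or.inl h1))
    · exact Or.inr (Or.inr (Or.inl h1))

theorem ll_rec_mono {θA θT : Fm} {t s s' : M} (h : Rec θA θT t s) (hs : s ≤ s') :
    Rec θA θT t s' := by
  obtain ⟨h1, ⟨w, h2, h3⟩, w', h4, h5⟩ := h
  exact ⟨h1.trans_le hs, ⟨w, h2.trans_le hs, h3⟩, w', h4.trans_le hs, h5⟩

theorem ll_Nt_lt [hS : Fact (IsRCA0 S)] {θA θR θT : Fm} {x t s z : M}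
    (h : Nt θA θR θT x t s z) : t < x + 1 ∧ s < x + 1 ∧ z < x + 1 := by
  have H := hS.out
  obtain ⟨h1, -, -⟩ := h
  rw [H.lt_succ_iff, H.lt_succ_iff, H.lt_succ_iff, h1]
  exact ⟨(H.le_pr_left _ _).trans (H.le_pr_left _ _),
    (H.le_pr_right _ _).trans (H.le_pr_left _ _), H.le_pr_right _ _⟩

theorem ll_La [hS : Fact (IsRCA0 S)] {θA θR θT : Fm} {x t s z x' t' s' z' v : M}
    (h : Nt θA θR θT x t s z) (h' : Nt θA θR θT x' t' s' z') (hv : v < z + z')
    (hW : θR.W v (pr t t')) : La θA θR θT x x' := by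
  obtain ⟨h1, h2, h3⟩ := ll_Nt_lt (S := S) h
  obtain ⟨h1', h2', h3'⟩ := ll_Nt_lt (S := S) h'
  exact ⟨t, h1, s, h2, z, h3, t', h1', s', h2', z', h3', h, h', v, hv, hW⟩

theorem ll_total [hS : Fact (IsRCA0 S)] {θA θR θT : Fm} {x t s z x' t' s' z' : M}
    (h : Nt θA θR θT x t s z) (h' : Nt θA θR θT x' t' s' z') (hle : s' ≤ s) :
    x = x' ∨ La θA θR θT x x' ∨ La θA θR θT x' x := by
  have H := hS.out
  obtain ⟨e, ⟨h1, h2⟩, h3, h4⟩ := id h
  obtain ⟨e', ⟨h1', h2'⟩, h3', h4'⟩ := id h'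
  by_cases ht : t' = t
  · subst ht
    left
    have hs : s' = s := by
      rcases lt_trichotomy s s' with h5 | h5 | h5
      · exact absurd h1 (h2' s h5)
      · exact h5.symm
      · exact absurd h1' (h2 s' h5)
    subst hs
    have hz : z' = z := by
      rcases lt_trichotomy z z' with h5 | h5 | h5
      · exact absurd h3 (h4' z h5)
      · exact h5.symm
      · exact absurd h3' (h4 z' h5)
    subst hz
    rw [e, e']
  · right
    rcases h3 t' (h1'.1.trans_le hle) ht (ll_rec_mono h1' hle) with ⟨v, hv, hW⟩ | ⟨v, hv, hW⟩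
    · exact Or.inl (ll_La (S := S) h h' (hv.trans_le (H.le_add_right' _ _)) hW)
    · exact Or.inr (ll_La (S := S) h' h (hv.trans_le (H.le_add_left' _ _)) hW)

theorem lin_Tr [hS : Fact (IsRCA0 S)] (θA θR θT θE : Fm) :
    LinP (M := M) (Tr θA θR θT θE) (La θA θR θT) := by
  have H := hS.out
  refine ⟨?_, ?_, ?_⟩
  · intro x hx
    exact (hx.2 x (H.lt_self_succ x)).1
  · intro x y z hx hy hz h1 h2
    have key : ∀ u, x ≤ u → y ≤ u → z ≤ u → Pi θA θR θT θE u → La θA θR θT x z := by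
      intro u h3 h4 h5 h6
      exact h6.2.1 x ((H.lt_succ_iff _ _).2 h3) y ((H.lt_succ_iff _ _).2 h4) z
        ((H.lt_succ_iff _ _).2 h5) h1 h2
    rcases le_total x y with h3 | h3
    · rcases le_total y z with h4 | h4
      · exact key z (h3.trans h4) h4 le_rfl (hz.2 z (H.lt_self_succ z))
      · exact key y h3 le_rfl h4 (hy.2 y (H.lt_self_succ y))
    · rcases le_total x z with h4 | h4
      · exact key z h4 (h3.trans h4) le_rfl (hz.2 z (H.lt_self_succ z))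
      · exact key x le_rfl h3 h4 (hx.2 x (H.lt_self_succ x))
  · rintro x y ⟨⟨t, -, s, -, z, -, h⟩, -⟩ ⟨⟨t', -, s', -, z', -, h'⟩, -⟩
    rcases le_total s' s with hle | hle
    · exact ll_total (S := S) h h' hle
    · rcases ll_total (S := S) h' h hle with h1 | h1 | h1
      · exact Or.inl h1.symm
      · exact Or.inr (Or.inr h1)
      · exact Or.inr (Or.inl h1)

theorem lin_On [hS : Fact (IsRCA0 S)] (θA θR θT θE : Fm) (n : ℕ) :
    LinP (M := M) (On θA θR θT θE n) (Ln θA θR θT n) := by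
  induction n with
  | zero => exact lin_Tr (S := S) θA θR θT θE
  | succ n ih => exact lin_prod (S := S) (lin_Tr (S := S) θA θR θT θE) ih

end Kriz.PTO
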