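import Pool.Agent.Work.MP_0f6836_lc.PTO.LD

/-!
# Block LP1: the comparison of ordinal notations is primitive recursive

Use `Primrec.nat_omega_rec'` (recursion along a measure) on codes of terms.
-/

set_option synthInstance.maxSize 100000

namespace Kriz.PTO

open Kriz Tm

/-! ## Composition of primitive recursive functions by instance search -/

/-- primitive recursive functions -/
class Lp1Pm {α β : Type} [Primcodable α] [Primcodable β] (f : α → β) : Prop where
  out : Primrec f

section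

variable {α β γ : Type} [Primcodable α] [Primcodable β] [Primcodable γ]

instance lp1_const (c : β) : Lp1Pm (fun _ : α => c) := ⟨Primrec.const c⟩

instance lp1_id : Lp1Pm (fun a : α => a) := ⟨Primrec.id⟩

instance lp1_fst (f : α → β × γ) [h : Lp1Pm f] : Lp1Pm (fun a => (f a).1) :=
  ⟨Primrec.fst.comp h.out⟩

instance lp1_snd (f : α → β × γ) [h : Lp1Pm f] : Lp1Pm (fun a => (f a).2) :=
  ⟨Primrec.snd.comp h.out⟩

instance lp1_pair (f : α → β) (g : α → γ) [h : Lp1Pm f] [h' : Lp1Pm g] :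
    Lp1Pm (fun a => (f a, g a)) := ⟨h.out.pair h'.out⟩

instance lp1_add (f g : α → ℕ) [h : Lp1Pm f] [h' : Lp1Pm g] : Lp1Pm (fun a => f a + g a) :=
  ⟨Primrec.nat_add.comp h.out h'.out⟩

instance lp1_mul (f g : α → ℕ) [h : Lp1Pm f] [h' : Lp1Pm g] : Lp1Pm (fun a => f a * g a) :=
  ⟨Primrec.nat_mul.comp h.out h'.out⟩

instance lp1_sub (f g : α → ℕ) [h : Lp1Pm f] [h' : Lp1Pm g] : Lp1Pm (fun a => f a - g a) :=
  ⟨Primrec.nat_sub.comp h.out h'.out⟩

instance lp1_div (f g : α → ℕ) [h : Lp1Pm f] [h' : Lp1Pm g] : Lp1Pm (fun a => f a / g a) :=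
  ⟨Primrec.nat_div.comp h.out h'.out⟩

instance lp1_mod (f g : α → ℕ) [h : Lp1Pm f] [h' : Lp1Pm g] : Lp1Pm (fun a => f a % g a) :=
  ⟨Primrec.nat_mod.comp h.out h'.out⟩

instance lp1_unpair (f : α → ℕ) [h : Lp1Pm f] : Lp1Pm (fun a => (f a).unpair) :=
  ⟨Primrec.unpair.comp h.out⟩

instance lp1_natPair (f g : α → ℕ) [h : Lp1Pm f] [h' : Lp1Pm g] :
    Lp1Pm (fun a => Nat.pair (f a) (g a)) := ⟨Primrec₂.natPair.comp h.out h'.out⟩

instance lp1_and (f g : α → Bool) [h : Lp1Pm f] [h' : Lp1Pm g] : Lp1Pm (fun a => f a && g a) :=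
  ⟨Primrec.and.comp h.out h'.out⟩

instance lp1_or (f g : α → Bool) [h : Lp1Pm f] [h' : Lp1Pm g] : Lp1Pm (fun a => f a || g a) :=
  ⟨Primrec.or.comp h.out h'.out⟩

instance lp1_not (f : α → Bool) [h : Lp1Pm f] : Lp1Pm (fun a => !f a) :=
  ⟨Primrec.not.comp h.out⟩

instance lp1_eq (f g : α → ℕ) [h : Lp1Pm f] [h' : Lp1Pm g] :
    Lp1Pm (fun a => decide (f a = g a)) := ⟨Primrec.eq.decide.comp h.out h'.out⟩

instance lp1_lt (f g : α → ℕ) [h : Lp1Pm f] [h' : Lp1Pm g] :
    Lp1Pm (fun a => decide (f a < g a)) := ⟨Primrec.nat_lt.decide.comp h.out h'.out⟩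

instance lp1_le (f g : α → ℕ) [h : Lp1Pm f] [h' : Lp1Pm g] :
    Lp1Pm (fun a => decide (f a ≤ g a)) := ⟨Primrec.nat_le.decide.comp h.out h'.out⟩

instance lp1_cond (c : α → Bool) (f g : α → β) [hc : Lp1Pm c] [h : Lp1Pm f] [h' : Lp1Pm g] :
    Lp1Pm (fun a => cond (c a) (f a) (g a)) := ⟨Primrec.cond hc.out h.out h'.out⟩

instance lp1_some (f : α → β) [h : Lp1Pm f] : Lp1Pm (fun a => some (f a)) :=
  ⟨Primrec.option_some.comp h.out⟩

instance lp1_cons (f : α → β) (g : α → List β) [h : Lp1Pm f] [h' : Lp1Pm g] :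
    Lp1Pm (fun a => f a :: g a) := ⟨Primrec.list_cons.comp h.out h'.out⟩

instance lp1_getD (d : β) (f : α → List β) (g : α → ℕ) [h : Lp1Pm f] [h' : Lp1Pm g] :
    Lp1Pm (fun a => (f a).getD (g a) d) := ⟨(Primrec.list_getD d).comp h.out h'.out⟩

/-! instances for the same functions in eta reduced form -/

instance lp1_unpair_eta : Lp1Pm Nat.unpair := ⟨Primrec.unpair⟩

instance lp1_mk_eta (c : β) : Lp1Pm (Prod.mk c : γ → β × γ) :=
  ⟨(Primrec.const c).pair Primrec.id⟩

instance lp1_fst_eta : Lp1Pm (Prod.fst : β × γ → β) := ⟨Primrec.fst⟩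

instance lp1_snd_eta : Lp1Pm (Prod.snd : β × γ → γ) := ⟨Primrec.snd⟩

instance lp1_natPair_eta (c : ℕ) : Lp1Pm (Nat.pair c) :=
  ⟨Primrec₂.natPair.comp (Primrec.const c) Primrec.id⟩

end

/-! ## Parts of codes -/

/-- the payload of a code -/
def lp1h (x : ℕ) : ℕ := (x - 1) / 2

/-- level -/
def lp1v (x : ℕ) : ℕ := (lp1h x).unpair.1

/-- argument of the collapse -/
def lp1p (x : ℕ) : ℕ := (lp1h x).unpair.2.unpair.1

/-- rest of a sum term -/
def lp1t (x : ℕ) : ℕ := (lp1h x).unpair.2.unpair.2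

/-- rest of a polynomial term -/
def lp1u (x : ℕ) : ℕ := (lp1h x).unpair.2

/-- code of `c v p x` -/
def lp1c (v p x : ℕ) : ℕ := 2 * Nat.pair v (Nat.pair p x) + 1

/-- sum terms have odd codes -/
def lp1o (x : ℕ) : Bool := decide (x % 2 = 1)

section

variable {α : Type} [Primcodable α]

instance lp1_h (f : α → ℕ) [h : Lp1Pm f] : Lp1Pm (fun a => lp1h (f a)) := by
  unfold lp1h; infer_instance

instance lp1_v (f : α → ℕ) [h : Lp1Pm f] : Lp1Pm (fun a => lp1v (f a)) := by
  unfold lp1v; infer_instance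

instance lp1_p (f : α → ℕ) [h : Lp1Pm f] : Lp1Pm (fun a => lp1p (f a)) := by
  unfold lp1p; infer_instance

instance lp1_t (f : α → ℕ) [h : Lp1Pm f] : Lp1Pm (fun a => lp1t (f a)) := by
  unfold lp1t; infer_instance

instance lp1_u (f : α → ℕ) [h : Lp1Pm f] : Lp1Pm (fun a => lp1u (f a)) := by
  unfold lp1u; infer_instance

instance lp1_h_eta : Lp1Pm lp1h := lp1_h (fun n => n)

instance lp1_v_eta : Lp1Pm lp1v := lp1_v (fun n => n)

instance lp1_p_eta : Lp1Pm lp1p := lp1_p (fun n => n)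

instance lp1_t_eta : Lp1Pm lp1t := lp1_t (fun n => n)

instance lp1_u_eta : Lp1Pm lp1u := lp1_u (fun n => n)

instance lp1_c (f g k : α → ℕ) [h : Lp1Pm f] [h' : Lp1Pm g] [h'' : Lp1Pm k] :
    Lp1Pm (fun a => lp1c (f a) (g a) (k a)) := by
  unfold lp1c; infer_instance

instance lp1_o (f : α → ℕ) [h : Lp1Pm f] : Lp1Pm (fun a => lp1o (f a)) := by
  unfold lp1o; infer_instance

instance lp1_o_eta : Lp1Pm lp1o := lp1_o (fun n => n)

end

theorem lp1h_c (v : ℕ) (p x : Tm) :
    lp1h (codeTm (.c v p x)) = Nat.pair v (Nat.pair (codeTm p) (codeTm x)) := by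
  unfold lp1h
  simp only [codeTm]
  omega

theorem lp1h_q (p x : Tm) : lp1h (codeTm (.q p x)) = Nat.pair (codeTm p) (codeTm x) := by
  unfold lp1h
  simp only [codeTm]
  omega

@[simp] theorem lp1v_c (v : ℕ) (p x : Tm) : lp1v (codeTm (.c v p x)) = v := by
  rw [lp1v, lp1h_c, Nat.unpair_pair]

@[simp] theorem lp1p_c (v : ℕ) (p x : Tm) : lp1p (codeTm (.c v p x)) = codeTm p := by
  rw [lp1p, lp1h_c, Nat.unpair_pair, Nat.unpair_pair]

@[simp] theorem lp1t_c (v : ℕ) (p x : Tm) : lp1t (codeTm (.c v p x)) = codeTm x := by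
  rw [lp1t, lp1h_c, Nat.unpair_pair, Nat.unpair_pair]

@[simp] theorem lp1v_q (p x : Tm) : lp1v (codeTm (.q p x)) = codeTm p := by
  rw [lp1v, lp1h_q, Nat.unpair_pair]

@[simp] theorem lp1u_q (p x : Tm) : lp1u (codeTm (.q p x)) = codeTm x := by
  rw [lp1u, lp1h_q, Nat.unpair_pair]

@[simp] theorem lp1o_c (v : ℕ) (p x : Tm) : lp1o (codeTm (.c v p x)) = true := by
  simp only [lp1o, codeTm, decide_eq_true_eq]
  omega

theorem lp1o_z : lp1o 0 = false := rfl

@[simp] theorem lp1o_q (p x : Tm) : lp1o (codeTm (.q p x)) = false := by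
  simp only [lp1o, codeTm, decide_eq_false_iff_not]
  omega

theorem lp1z_z : decide (codeTm .z = 0) = true := rfl

theorem lp1_code_z : codeTm .z = 0 := rfl

@[simp] theorem lp1z_c (v : ℕ) (p x : Tm) : decide (codeTm (.c v p x) = 0) = false := by
  simp [codeTm]

@[simp] theorem lp1z_q (p x : Tm) : decide (codeTm (.q p x) = 0) = false := by
  simp [codeTm]

@[simp] theorem lp1c_code (v : ℕ) (p x : Tm) :
    lp1c v (codeTm p) (codeTm x) = codeTm (.c v p x) := rfl

@[simp] theorem lp1c_code0 (v : ℕ) (p : Tm) : lp1c v (codeTm p) 0 = codeTm (.c v p .z) := rfl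

theorem lp1_lt_cp (v : ℕ) (p x : Tm) : codeTm p < codeTm (.c v p x) := by
  simp only [codeTm]
  have h1 := Nat.right_le_pair v (Nat.pair (codeTm p) (codeTm x))
  have h2 := Nat.left_le_pair (codeTm p) (codeTm x)
  omega

theorem lp1_lt_cx (v : ℕ) (p x : Tm) : codeTm x < codeTm (.c v p x) := by
  simp only [codeTm]
  have h1 := Nat.right_le_pair v (Nat.pair (codeTm p) (codeTm x))
  have h2 := Nat.right_le_pair (codeTm p) (codeTm x)
  omega

theorem lp1_pair_mono {a b c : ℕ} (h : b ≤ c) : Nat.pair a b ≤ Nat.pair a c := by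
  rcases h.lt_or_eq with h | rfl
  · exact (Nat.pair_lt_pair_right a h).le
  · exact le_rfl

theorem lp1_le_cz (v : ℕ) (p x : Tm) : codeTm (.c v p .z) ≤ codeTm (.c v p x) := by
  simp only [codeTm]
  have h1 : Nat.pair (codeTm p) 0 ≤ Nat.pair (codeTm p) (codeTm x) :=
    lp1_pair_mono (Nat.zero_le _)
  have h2 := lp1_pair_mono (a := v) h1
  omega

theorem lp1_lt_qp (p x : Tm) : codeTm p < codeTm (.q p x) := by
  simp only [codeTm]
  have h2 := Nat.left_le_pair (codeTm p) (codeTm x)
  omega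

theorem lp1_lt_qx (p x : Tm) : codeTm x < codeTm (.q p x) := by
  simp only [codeTm]
  have h2 := Nat.right_le_pair (codeTm p) (codeTm x)
  omega

/-! ## The inverse of `codeTm` -/

/-- the term with a given code -/
noncomputable def lp1dec (n : ℕ) : Tm := (codeTm_surj n).choose

@[simp] theorem lp1dec_code (x : Tm) : lp1dec (codeTm x) = x :=
  codeTm_inj (codeTm_surj (codeTm x)).choose_spec

@[simp] theorem lp1dec_zero : lp1dec 0 = .z := lp1dec_code .z

/-! ## The recursion -/

/-- the measure -/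
def lp1m (s : Bool × ℕ × ℕ) : ℕ := 2 * (s.2.1 + s.2.2) + cond s.1 1 0

/-- recursive calls -/
def lp1l (s : Bool × ℕ × ℕ) : List (Bool × ℕ × ℕ) :=
  cond s.1
    (cond (decide (s.2.1 = 0)) []
      (cond (lp1o s.2.1)
        (cond (lp1o s.2.2)
          [(true, lp1t s.2.1, s.2.2), (false, lp1c (lp1v s.2.1) (lp1p s.2.1) 0, s.2.2),
            (false, lp1p s.2.1, lp1p s.2.2), (true, lp1p s.2.1, s.2.2)] [])
        [(true, lp1v s.2.1, s.2.2), (true, lp1u s.2.1, s.2.2)]))
    (cond (decide (s.2.1 = 0) || decide (s.2.2 = 0)) []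
      (cond (lp1o s.2.1)
        (cond (lp1o s.2.2)
          [(false, lp1t s.2.1, lp1t s.2.2), (false, lp1p s.2.1, lp1p s.2.2),
            (true, lp1p s.2.1, lp1c (lp1v s.2.2) (lp1p s.2.2) 0),
            (true, lp1p s.2.2, lp1c (lp1v s.2.1) (lp1p s.2.1) 0)] [])
        (cond (lp1o s.2.2) []
          [(false, lp1u s.2.1, lp1u s.2.2), (false, lp1v s.2.1, lp1v s.2.2)])))

/-- combination of the results -/
def lp1g (s : Bool × ℕ × ℕ) (L : List Bool) : Option Bool :=
  some (cond s.1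
    (cond (decide (s.2.1 = 0)) true
      (cond (lp1o s.2.1)
        (cond (lp1o s.2.2)
          (L.getD 0 false && (L.getD 1 false || (L.getD 2 false && L.getD 3 false))) false)
        (L.getD 0 false && L.getD 1 false)))
    (cond (decide (s.2.2 = 0)) false (cond (decide (s.2.1 = 0)) true
      (cond (lp1o s.2.1)
        (cond (lp1o s.2.2)
          (cond (decide (lp1v s.2.1 < lp1v s.2.2)) true
            (cond (decide (lp1v s.2.2 < lp1v s.2.1)) false
              (cond (decide (lp1p s.2.1 = lp1p s.2.2)) (L.getD 0 false)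
                (cond (L.getD 1 false) (L.getD 2 false) (!L.getD 3 false))))) false)
        (cond (lp1o s.2.2) false
          (cond (decide (lp1v s.2.1 = lp1v s.2.2)) (L.getD 0 false) (L.getD 1 false)))))))

theorem lp1_primrec_m : Primrec lp1m := by
  have : Lp1Pm lp1m := by unfold lp1m; infer_instance
  exact this.out

theorem lp1_primrec_l : Primrec lp1l := by
  have : Lp1Pm lp1l := by unfold lp1l; infer_instance
  exact this.out

theorem lp1_primrec_g : Primrec₂ lp1g := by
  have : Lp1Pm (fun p : (Bool × ℕ × ℕ) × List Bool => lp1g p.1 p.2) := by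
    unfold lp1g; infer_instance
  exact this.out

theorem lp1_ord : ∀ s, ∀ s' ∈ lp1l s, lp1m s' < lp1m s := by
  rintro ⟨b, x, y⟩ s' hs'
  obtain ⟨X, rfl⟩ := codeTm_surj x
  obtain ⟨Y, rfl⟩ := codeTm_surj y
  cases b
  · cases X with
    | z => simp [lp1l, lp1_code_z, lp1o_z] at hs'
    | c v p x =>
      cases Y with
      | z => simp [lp1l, lp1_code_z, lp1o_z] at hs'
      | c w r y =>
        have h1 := lp1_lt_cp v p x
        have h2 := lp1_lt_cx v p x
        have h3 := lp1_le_cz v p x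
        have h4 := lp1_lt_cp w r y
        have h5 := lp1_lt_cx w r y
        have h6 := lp1_le_cz w r y
        simp only [lp1l, lp1z_c, Bool.or_self, cond_false, lp1o_c, cond_true, lp1t_c, lp1p_c,
          lp1v_c, lp1c_code0, List.mem_cons, List.not_mem_nil, or_false] at hs'
        rcases hs' with rfl | rfl | rfl | rfl <;> simp only [lp1m, cond_true, cond_false] <;>
          omega
      | q r y => simp [lp1l, lp1_code_z, lp1o_z] at hs'
    | q p x =>
      cases Y with
      | z => simp [lp1l, lp1_code_z, lp1o_z] at hs'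
      | c w r y => simp [lp1l, lp1_code_z, lp1o_z] at hs'
      | q r y =>
        have h1 := lp1_lt_qp p x
        have h2 := lp1_lt_qx p x
        have h4 := lp1_lt_qp r y
        have h5 := lp1_lt_qx r y
        simp only [lp1l, lp1z_q, Bool.or_self, cond_false, lp1o_q, lp1u_q,
          lp1v_q, List.mem_cons, List.not_mem_nil, or_false] at hs'
        rcases hs' with rfl | rfl <;> simp only [lp1m, cond_false] <;> omega
  · cases X with
    | z => simp [lp1l, lp1_code_z, lp1o_z] at hs'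
    | c v p x =>
      cases Y with
      | z => simp [lp1l, lp1_code_z, lp1o_z] at hs'
      | c w r y =>
        have h1 := lp1_lt_cp v p x
        have h2 := lp1_lt_cx v p x
        have h3 := lp1_le_cz v p x
        have h4 := lp1_lt_cp w r y
        have h5 := lp1_lt_cx w r y
        have h6 := lp1_le_cz w r y
        simp only [lp1l, lp1z_c, cond_false, lp1o_c, cond_true, lp1t_c, lp1p_c,
          lp1v_c, lp1c_code0, List.mem_cons, List.not_mem_nil, or_false] at hs'
        rcases hs' with rfl | rfl | rfl | rfl <;> simp only [lp1m, cond_true, cond_false] <;>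
          omega
      | q r y => simp [lp1l, lp1_code_z, lp1o_z] at hs'
    | q p x =>
      have h1 := lp1_lt_qp p x
      have h2 := lp1_lt_qx p x
      simp only [lp1l, lp1z_q, cond_false, cond_true, lp1o_q, lp1u_q,
        lp1v_q, List.mem_cons, List.not_mem_nil, or_false] at hs'
      rcases hs' with rfl | rfl <;> simp only [lp1m, cond_true] <;> omega

/-- the decision procedure on codes -/
noncomputable def lp1J (s : Bool × ℕ × ℕ) : Bool := J s.1 (lp1dec s.2.1) (lp1dec s.2.2)

theorem lp1_rec : ∀ s, lp1g s ((lp1l s).map lp1J) = some (lp1J s) := by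
  rintro ⟨b, x, y⟩
  obtain ⟨X, rfl⟩ := codeTm_surj x
  obtain ⟨Y, rfl⟩ := codeTm_surj y
  cases b
  · cases X with
    | z =>
      cases Y with
      | z => simp [lp1l, lp1g, lp1J, J, lp1_code_z]
      | c w r y => simp [lp1l, lp1g, lp1J, J, lp1_code_z]
      | q r y => simp [lp1l, lp1g, lp1J, J, lp1_code_z]
    | c v p x =>
      cases Y with
      | z => simp [lp1l, lp1g, lp1J, J, lp1_code_z]
      | c w r y =>
        rcases lt_trichotomy v w with h | h | h
        · simp [lp1l, lp1g, lp1J, J, h]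
        · subst h
          by_cases hc : codeTm p = codeTm r
          · simp [lp1l, lp1g, lp1J, J, hc]
          · cases hJ : J false p r <;> simp [lp1l, lp1g, lp1J, J, hc, hJ]
        · simp [lp1l, lp1g, lp1J, J, h, h.not_gt]
      | q r y => simp [lp1l, lp1g, lp1J, J]
    | q p x =>
      cases Y with
      | z => simp [lp1l, lp1g, lp1J, J, lp1_code_z]
      | c w r y => simp [lp1l, lp1g, lp1J, J]
      | q r y =>
        by_cases hc : codeTm p = codeTm r
        · simp [lp1l, lp1g, lp1J, J, hc]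
        · simp [lp1l, lp1g, lp1J, J, hc]
  · cases X with
    | z =>
      cases Y with
      | z => simp [lp1l, lp1g, lp1J, J, lp1_code_z]
      | c w r y => simp [lp1l, lp1g, lp1J, J, lp1_code_z]
      | q r y => simp [lp1l, lp1g, lp1J, J, lp1_code_z]
    | c v p x =>
      cases Y with
      | z => simp [lp1l, lp1g, lp1J, J, lp1_code_z, lp1o_z]
      | c w r y => simp [lp1l, lp1g, lp1J, J]
      | q r y => simp [lp1l, lp1g, lp1J, J]
    | q p x => simp [lp1l, lp1g, lp1J, J]

theorem lp1_primrec_J : Primrec lp1J :=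
  Primrec.nat_omega_rec' lp1J lp1_primrec_m lp1_primrec_l lp1_primrec_g lp1_ord lp1_rec

instance lp1_J {α : Type} [Primcodable α] (f : α → Bool × ℕ × ℕ)
    [hf : Lp1Pm f] : Lp1Pm (fun a => lp1J (f a)) :=
  ⟨lp1_primrec_J.comp hf.out⟩

@[simp] theorem lp1J_code (b : Bool) (x y : Tm) : lp1J (b, codeTm x, codeTm y) = J b x y := by
  simp [lp1J]

/-- block LP1 -/
theorem primrec_J (b : Bool) : ∃ K : ℕ → ℕ, Nat.Primrec K ∧
    ∀ x y : Tm, K (Nat.pair (codeTm x) (codeTm y)) = if J b x y then 1 else 0 := by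
  refine ⟨fun n => cond (lp1J (b, n.unpair.1, n.unpair.2)) 1 0, ?_, ?_⟩
  · rw [← Primrec.nat_iff]
    have : Lp1Pm (fun n : ℕ => cond (lp1J (b, n.unpair.1, n.unpair.2)) 1 0) := by infer_instance
    exact this.out
  · intro x y
    simp only [Nat.unpair_pair, lp1J_code]
    cases J b x y <;> rfl

end Kriz.PTO
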