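import Pool.Agent.Work.MP_0f6836_lc.PTO.LP1

/-!
# Block LP2: `nfB` and `lev0` are primitive recursive
-/

set_option synthInstance.maxSize 100000

namespace Kriz.PTO

open Kriz Tm

/-! ## `memO` -/

/-- recursive calls for `memO` -/
def lp2l (s : ℕ × ℕ × ℕ) : List (ℕ × ℕ × ℕ) :=
  cond (decide (s.1 = 0)) []
    (cond (lp1o s.1)
      [(lp1t s.1, s.2.1, s.2.2), (lp1p s.1, s.2.1, s.2.2)]
      [(lp1v s.1, s.2.1, s.2.2), (lp1u s.1, s.2.1, s.2.2)])

/-- combination of the results for `memO` -/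
noncomputable def lp2g (s : ℕ × ℕ × ℕ) (L : List Bool) : Option Bool :=
  some (cond (decide (s.1 = 0)) true
    (cond (lp1o s.1)
      (L.getD 0 false && (decide (lp1v s.1 ≤ s.2.1) ||
        (lp1J (false, lp1p s.1, s.2.2) && L.getD 1 false)))
      (L.getD 0 false && L.getD 1 false)))

/-- `memO` on codes -/
noncomputable def lp2M (s : ℕ × ℕ × ℕ) : Bool := memO (lp1dec s.1) s.2.1 (lp1dec s.2.2)

theorem lp2_primrec_M : Primrec lp2M := by
  have hl : Lp1Pm lp2l := by unfold lp2l; infer_instance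
  have hg : Lp1Pm (fun p : (ℕ × ℕ × ℕ) × List Bool => lp2g p.1 p.2) := by
    unfold lp2g; infer_instance
  refine Primrec.nat_omega_rec' lp2M (m := fun s => s.1) Primrec.fst hl.out hg.out ?_ ?_
  · rintro ⟨x, v, r⟩ s' hs'
    obtain ⟨X, rfl⟩ := codeTm_surj x
    cases X with
    | z => simp [lp2l, lp1_code_z] at hs'
    | c w p x =>
      have h1 := lp1_lt_cp w p x
      have h2 := lp1_lt_cx w p x
      simp only [lp2l, lp1z_c, cond_false, lp1o_c, cond_true, lp1t_c, lp1p_c,
        List.mem_cons, List.not_mem_nil, or_false] at hs'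
      rcases hs' with rfl | rfl
      · exact h2
      · exact h1
    | q p x =>
      have h1 := lp1_lt_qp p x
      have h2 := lp1_lt_qx p x
      simp only [lp2l, lp1z_q, cond_false, lp1o_q, lp1u_q, lp1v_q,
        List.mem_cons, List.not_mem_nil, or_false] at hs'
      rcases hs' with rfl | rfl
      · exact h1
      · exact h2
  · rintro ⟨x, v, r⟩
    obtain ⟨X, rfl⟩ := codeTm_surj x
    obtain ⟨R, rfl⟩ := codeTm_surj r
    cases X with
    | z => simp [lp2l, lp2g, lp2M, memO, lp1_code_z]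
    | c w p x => simp [lp2l, lp2g, lp2M, memO]
    | q p x => simp [lp2l, lp2g, lp2M, memO]

instance lp2_M {α : Type} [Primcodable α] (f : α → ℕ × ℕ × ℕ)
    [hf : Lp1Pm f] : Lp1Pm (fun a => lp2M (f a)) :=
  ⟨lp2_primrec_M.comp hf.out⟩

@[simp] theorem lp2M_code (x : Tm) (v : ℕ) (r : Tm) :
    lp2M (codeTm x, v, codeTm r) = memO x v r := by
  simp [lp2M]

theorem primrec_memO : ∃ K : ℕ → ℕ, Nat.Primrec K ∧ ∀ (x r : Tm) (v : ℕ),
    K (Nat.pair (codeTm x) (Nat.pair v (codeTm r))) = if memO x v r then 1 else 0 := by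
  refine ⟨fun n => cond (lp2M (n.unpair.1, n.unpair.2.unpair.1, n.unpair.2.unpair.2)) 1 0,
    ?_, ?_⟩
  · rw [← Primrec.nat_iff]
    have : Lp1Pm (fun n : ℕ =>
        cond (lp2M (n.unpair.1, n.unpair.2.unpair.1, n.unpair.2.unpair.2)) 1 0) := by
      infer_instance
    exact this.out
  · intro x r v
    simp only [Nat.unpair_pair, lp2M_code]
    cases memO x v r <;> rfl

/-! ## `nfB` -/

/-- `leadLe` on codes -/
noncomputable def lp2e (x v p : ℕ) : Bool :=
  cond (lp1o x) (!lp1J (false, lp1c v p 0, lp1c (lp1v x) (lp1p x) 0)) true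

theorem lp2e_code (x : Tm) (v : ℕ) (p : Tm) :
    lp2e (codeTm x) v (codeTm p) = leadLe x v p := by
  cases x with
  | z => simp [lp2e, leadLe, lp1_code_z, lp1o_z]
  | c w r y => simp [lp2e, leadLe]
  | q r y => simp [lp2e, leadLe]

/-- recursive calls for `nfB` -/
def lp2k (s : Bool × ℕ) : List (Bool × ℕ) :=
  cond (decide (s.2 = 0)) []
    (cond (lp1o s.2)
      [(false, lp1p s.2), (true, lp1t s.2)]
      [(false, lp1v s.2), (true, lp1u s.2)])

/-- combination of the results for `nfB` -/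
noncomputable def lp2h (s : Bool × ℕ) (L : List Bool) : Option Bool :=
  some (cond (decide (s.2 = 0)) true
    (cond (lp1o s.2)
      (s.1 && (L.getD 0 false && L.getD 1 false && lp2M (lp1p s.2, lp1v s.2, lp1p s.2)
        && lp2e (lp1t s.2) (lp1v s.2) (lp1p s.2)))
      (!s.1 && (L.getD 0 false && L.getD 1 false &&
        !(decide (lp1v s.2 = 0) && decide (lp1u s.2 = 0))))))

/-- `nfB` on codes -/
noncomputable def lp2N (s : Bool × ℕ) : Bool := nfB s.1 (lp1dec s.2)

theorem lp2_primrec_N : Primrec lp2N := by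
  have hl : Lp1Pm lp2k := by unfold lp2k; infer_instance
  have hg : Lp1Pm (fun p : (Bool × ℕ) × List Bool => lp2h p.1 p.2) := by
    unfold lp2h lp2e; infer_instance
  refine Primrec.nat_omega_rec' lp2N (m := fun s => s.2) Primrec.snd hl.out hg.out ?_ ?_
  · rintro ⟨b, x⟩ s' hs'
    obtain ⟨X, rfl⟩ := codeTm_surj x
    cases X with
    | z => simp [lp2k, lp1_code_z] at hs'
    | c w p x =>
      have h1 := lp1_lt_cp w p x
      have h2 := lp1_lt_cx w p x
      simp only [lp2k, lp1z_c, cond_false, lp1o_c, cond_true, lp1t_c, lp1p_c,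
        List.mem_cons, List.not_mem_nil, or_false] at hs'
      rcases hs' with rfl | rfl
      · exact h1
      · exact h2
    | q p x =>
      have h1 := lp1_lt_qp p x
      have h2 := lp1_lt_qx p x
      simp only [lp2k, lp1z_q, cond_false, lp1o_q, lp1u_q, lp1v_q,
        List.mem_cons, List.not_mem_nil, or_false] at hs'
      rcases hs' with rfl | rfl
      · exact h1
      · exact h2
  · rintro ⟨b, x⟩
    obtain ⟨X, rfl⟩ := codeTm_surj x
    cases X with
    | z => cases b <;> simp [lp2k, lp2h, lp2N, nfB, lp1_code_z]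
    | c w p x => cases b <;> simp [lp2k, lp2h, lp2N, nfB, lp2e_code]
    | q p x => cases b <;> simp [lp2k, lp2h, lp2N, nfB]

instance lp2_N {α : Type} [Primcodable α] (f : α → Bool × ℕ)
    [hf : Lp1Pm f] : Lp1Pm (fun a => lp2N (f a)) :=
  ⟨lp2_primrec_N.comp hf.out⟩

/-- `lev0` on codes -/
def lp2z (x : ℕ) : Bool :=
  cond (decide (x = 0)) true (cond (lp1o x) (decide (lp1v x = 0)) false)

theorem lp2z_code (x : Tm) : lp2z (codeTm x) = lev0 x := by
  cases x with
  | z => simp [lp2z, lev0, lp1_code_z]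
  | c w r y => simp [lp2z, lev0]
  | q r y => simp [lp2z, lev0]

/-- block LP2 -/
theorem primrec_nf : ∃ K : ℕ → ℕ, Nat.Primrec K ∧
    ∀ x : Tm, K (codeTm x) = if nfB true x && lev0 x then 1 else 0 := by
  refine ⟨fun n => cond (lp2N (true, n) && lp2z n) 1 0, ?_, ?_⟩
  · rw [← Primrec.nat_iff]
    have : Lp1Pm (fun n : ℕ => cond (lp2N (true, n) && lp2z n) 1 0) := by
      unfold lp2z; infer_instance
    exact this.out
  · intro x
    have h1 : lp2N (true, codeTm x) = nfB true x := by simp [lp2N]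
    simp only [h1, lp2z_code]
    cases nfB true x && lev0 x <;> rfl

end Kriz.PTO
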