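import Pool.Agent.Work.MP_0f6836_lc.PTO.LD

/-!
# Block LP3: the tree of a term is a primitive recursive function on codes
-/

namespace Kriz.PTO

open Kriz Tm

/-! ### `app` on codes -/

/-- `app` on codes -/
def lp3App (c : ℕ) : ℕ → ℕ
  | 0 => c
  | m + 1 =>
    have _h2 : m.unpair.2.unpair.2 < m + 1 :=
      Nat.lt_succ_of_le ((Nat.unpair_right_le _).trans (Nat.unpair_right_le _))
    Nat.pair m.unpair.1 (Nat.pair m.unpair.2.unpair.1 (lp3App c m.unpair.2.unpair.2)) + 1

/-- the step of the course-of-values recursion -/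
def lp3AppStep (c : ℕ) (L : List ℕ) : ℕ :=
  if L.length = 0 then c
  else Nat.pair (L.length - 1).unpair.1 (Nat.pair (L.length - 1).unpair.2.unpair.1
    (L.getD (L.length - 1).unpair.2.unpair.2 0)) + 1

theorem lp3_getD {α : Type*} (f : ℕ → α) (d : α) (n i : ℕ) (h : i < n) :
    ((List.range n).map f).getD i d = f i := by
  rw [List.getD_eq_getElem _ _ (by simpa using h)]
  simp

theorem lp3AppStep_eq (c n : ℕ) : lp3AppStep c ((List.range n).map (lp3App c)) = lp3App c n := by
  rcases n with _ | m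
  · simp [lp3AppStep, lp3App]
  · have h2 : m.unpair.2.unpair.2 < m + 1 :=
      Nat.lt_succ_of_le ((Nat.unpair_right_le _).trans (Nat.unpair_right_le _))
    rw [lp3AppStep, lp3App]
    rw [if_neg (by simp)]
    have hl : ((List.range (m + 1)).map (lp3App c)).length - 1 = m := by simp
    rw [hl, lp3_getD _ _ _ _ h2]

theorem lp3AppStep_primrec : Primrec₂ lp3AppStep := by
  have hlen : Primrec (fun x : ℕ × List ℕ => x.2.length) :=
    Primrec.list_length.comp Primrec.snd
  have hpred : Primrec (fun x : ℕ × List ℕ => x.2.length - 1) :=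
    Primrec.nat_sub.comp hlen (Primrec.const 1)
  have hu := Primrec.unpair.comp hpred
  have hu2 := Primrec.unpair.comp (Primrec.snd.comp hu)
  have hb := (Primrec.list_getD (0 : ℕ)).comp (Primrec.snd (α := ℕ)) (Primrec.snd.comp hu2)
  refine Primrec.ite (Primrec.eq.comp hlen (Primrec.const 0)) Primrec.fst ?_
  exact Primrec.succ.comp (Primrec₂.natPair.comp (Primrec.fst.comp hu)
    (Primrec₂.natPair.comp (Primrec.fst.comp hu2) hb))

theorem lp3App_primrec : Primrec₂ lp3App := by
  refine Primrec.nat_strong_rec lp3App (g := fun c L => some (lp3AppStep c L)) ?_ ?_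
  · exact Primrec.option_some.comp₂ lp3AppStep_primrec
  · intro a n
    exact congrArg some (lp3AppStep_eq a n)

theorem lp3App_code (t s : KT) : lp3App (code s) (code t) = code (t.app s) := by
  induction t with
  | nil => simp [code, lp3App, KT.app]
  | cons l u r ihu ihr =>
    simp only [code, KT.app]
    rw [lp3App]
    simp only [Nat.unpair_pair, ihr]

theorem primrec_app : ∃ K : ℕ → ℕ, Nat.Primrec K ∧
    ∀ t s : KT, K (Nat.pair (code t) (code s)) = code (t.app s) := by
  refine ⟨fun n => lp3App n.unpair.2 n.unpair.1, Primrec.nat_iff.1 ?_, ?_⟩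
  · exact lp3App_primrec.comp (Primrec.snd.comp Primrec.unpair) (Primrec.fst.comp Primrec.unpair)
  · intro t s
    simp only [Nat.unpair_pair]
    exact lp3App_code t s

/-! ### the tree of a term on codes -/

/-- the label of a term on codes -/
def lp3Lab (n : ℕ) : ℕ := if n % 2 = 1 then (n / 2).unpair.1 + 2 else 1

theorem lp3Lab_code (x : Tm) : lp3Lab (codeTm x) = lab x := by
  cases x with
  | z => simp [lp3Lab, codeTm, lab]
  | c v p x =>
    simp only [lp3Lab, codeTm, lab]
    rw [if_pos (by omega), show (2 * Nat.pair v (Nat.pair (codeTm p) (codeTm x)) + 1) / 2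
      = Nat.pair v (Nat.pair (codeTm p) (codeTm x)) by omega, Nat.unpair_pair]
  | q p x =>
    simp only [lp3Lab, codeTm, lab]
    rw [if_neg (by omega)]

/-- the codes of the two trees of a term, on codes -/
def lp3Tr : ℕ → ℕ × ℕ
  | 0 => (0, Nat.pair 1 (Nat.pair 0 0) + 1)
  | m + 1 =>
    have _h1 : (m / 2).unpair.2.unpair.1 < m + 1 := Nat.lt_succ_of_le
      (((Nat.unpair_left_le _).trans (Nat.unpair_right_le _)).trans (Nat.div_le_self _ _))
    have _h2 : (m / 2).unpair.2.unpair.2 < m + 1 := Nat.lt_succ_of_le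
      (((Nat.unpair_right_le _).trans (Nat.unpair_right_le _)).trans (Nat.div_le_self _ _))
    have _h3 : (m / 2).unpair.1 < m + 1 := Nat.lt_succ_of_le
      ((Nat.unpair_left_le _).trans (Nat.div_le_self _ _))
    have _h4 : (m / 2).unpair.2 < m + 1 := Nat.lt_succ_of_le
      ((Nat.unpair_right_le _).trans (Nat.div_le_self _ _))
    if m % 2 = 0 then
      (Nat.pair ((m / 2).unpair.1 + 1) (Nat.pair (lp3Tr (m / 2).unpair.2.unpair.1).2
        (Nat.pair (lp3Lab (m / 2).unpair.2.unpair.2)
          (Nat.pair (lp3Tr (m / 2).unpair.2.unpair.2).1 0) + 1)) + 1,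
        Nat.pair 1 (Nat.pair 0 0) + 1)
    else
      (0, Nat.pair (lp3Lab (m / 2).unpair.2) (Nat.pair (lp3Tr (m / 2).unpair.2).1
        (lp3App (lp3Tr (m / 2).unpair.1).2 (lp3Tr (m / 2).unpair.1).2)) + 1)

/-- the step of the course-of-values recursion -/
def lp3TrStep (L : List (ℕ × ℕ)) : ℕ × ℕ :=
  if L.length = 0 then (0, Nat.pair 1 (Nat.pair 0 0) + 1)
  else if (L.length - 1) % 2 = 0 then
      (Nat.pair (((L.length - 1) / 2).unpair.1 + 1)
        (Nat.pair (L.getD ((L.length - 1) / 2).unpair.2.unpair.1 (0, 0)).2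
        (Nat.pair (lp3Lab ((L.length - 1) / 2).unpair.2.unpair.2)
          (Nat.pair (L.getD ((L.length - 1) / 2).unpair.2.unpair.2 (0, 0)).1 0) + 1)) + 1,
        Nat.pair 1 (Nat.pair 0 0) + 1)
    else
      (0, Nat.pair (lp3Lab ((L.length - 1) / 2).unpair.2)
        (Nat.pair (L.getD ((L.length - 1) / 2).unpair.2 (0, 0)).1
        (lp3App (L.getD ((L.length - 1) / 2).unpair.1 (0, 0)).2
          (L.getD ((L.length - 1) / 2).unpair.1 (0, 0)).2)) + 1)

theorem lp3TrStep_eq (n : ℕ) : lp3TrStep ((List.range n).map lp3Tr) = lp3Tr n := by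
  rcases n with _ | m
  · simp [lp3TrStep, lp3Tr]
  · have h1 : (m / 2).unpair.2.unpair.1 < m + 1 := Nat.lt_succ_of_le
      (((Nat.unpair_left_le _).trans (Nat.unpair_right_le _)).trans (Nat.div_le_self _ _))
    have h2 : (m / 2).unpair.2.unpair.2 < m + 1 := Nat.lt_succ_of_le
      (((Nat.unpair_right_le _).trans (Nat.unpair_right_le _)).trans (Nat.div_le_self _ _))
    have h3 : (m / 2).unpair.1 < m + 1 := Nat.lt_succ_of_le
      ((Nat.unpair_left_le _).trans (Nat.div_le_self _ _))
    have h4 : (m / 2).unpair.2 < m + 1 := Nat.lt_succ_of_le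
      ((Nat.unpair_right_le _).trans (Nat.div_le_self _ _))
    rw [lp3TrStep, lp3Tr]
    rw [if_neg (by simp)]
    have hl : ((List.range (m + 1)).map lp3Tr).length - 1 = m := by simp
    rw [hl, lp3_getD _ _ _ _ h1, lp3_getD _ _ _ _ h2, lp3_getD _ _ _ _ h3, lp3_getD _ _ _ _ h4]

theorem lp3Lab_primrec : Primrec lp3Lab := by
  have hd : Primrec (fun n : ℕ => n / 2) := Primrec.nat_div.comp Primrec.id (Primrec.const 2)
  have hm : Primrec (fun n : ℕ => n % 2) := Primrec.nat_mod.comp Primrec.id (Primrec.const 2)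
  refine Primrec.ite (Primrec.eq.comp hm (Primrec.const 1)) ?_ (Primrec.const 1)
  exact Primrec.nat_add.comp (Primrec.fst.comp (Primrec.unpair.comp hd)) (Primrec.const 2)

theorem lp3TrStep_primrec : Primrec lp3TrStep := by
  have hlen : Primrec (fun L : List (ℕ × ℕ) => L.length) := Primrec.list_length
  have hm : Primrec (fun L : List (ℕ × ℕ) => L.length - 1) :=
    Primrec.nat_sub.comp hlen (Primrec.const 1)
  have hd : Primrec (fun L : List (ℕ × ℕ) => (L.length - 1) / 2) :=
    Primrec.nat_div.comp hm (Primrec.const 2)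
  have hr : Primrec (fun L : List (ℕ × ℕ) => (L.length - 1) % 2) :=
    Primrec.nat_mod.comp hm (Primrec.const 2)
  have hu := Primrec.unpair.comp hd
  have hu1 := Primrec.fst.comp hu
  have hu2 := Primrec.snd.comp hu
  have hw := Primrec.unpair.comp hu2
  have hw1 := Primrec.fst.comp hw
  have hw2 := Primrec.snd.comp hw
  have hid : Primrec (fun L : List (ℕ × ℕ) => L) := Primrec.id
  have g1 := (Primrec.list_getD ((0, 0) : ℕ × ℕ)).comp hid hw1
  have g2 := (Primrec.list_getD ((0, 0) : ℕ × ℕ)).comp hid hw2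
  have g3 := (Primrec.list_getD ((0, 0) : ℕ × ℕ)).comp hid hu1
  have g4 := (Primrec.list_getD ((0, 0) : ℕ × ℕ)).comp hid hu2
  refine Primrec.ite (Primrec.eq.comp hlen (Primrec.const 0)) (Primrec.const _) ?_
  refine Primrec.ite (Primrec.eq.comp hr (Primrec.const 0)) ?_ ?_
  · refine Primrec.pair ?_ (Primrec.const _)
    refine Primrec.succ.comp (Primrec₂.natPair.comp (Primrec.succ.comp hu1) ?_)
    refine Primrec₂.natPair.comp (Primrec.snd.comp g1) (Primrec.succ.comp ?_)
    refine Primrec₂.natPair.comp (lp3Lab_primrec.comp hw2) ?_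
    exact Primrec₂.natPair.comp (Primrec.fst.comp g2) (Primrec.const 0)
  · refine Primrec.pair (Primrec.const 0) ?_
    refine Primrec.succ.comp (Primrec₂.natPair.comp (lp3Lab_primrec.comp hu2) ?_)
    refine Primrec₂.natPair.comp (Primrec.fst.comp g4) ?_
    exact lp3App_primrec.comp (Primrec.snd.comp g3) (Primrec.snd.comp g3)

theorem lp3Tr_primrec : Primrec lp3Tr := by
  have h : Primrec₂ (fun (_ : Unit) (n : ℕ) => lp3Tr n) := by
    refine Primrec.nat_strong_rec (fun (_ : Unit) (n : ℕ) => lp3Tr n)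
      (g := fun _ L => some (lp3TrStep L)) ?_ ?_
    · exact Primrec.option_some.comp (lp3TrStep_primrec.comp Primrec.snd)
    · intro a n
      exact congrArg some (lp3TrStep_eq n)
  exact h.comp (Primrec.const ()) Primrec.id

theorem lp3Tr_code (x : Tm) : lp3Tr (codeTm x) = (code (tr true x), code (tr false x)) := by
  induction x with
  | z => simp [codeTm, lp3Tr, tr, code]
  | c v p x ihp ihx =>
    simp only [codeTm, tr, code]
    rw [lp3Tr]
    rw [if_pos (by omega)]
    rw [show 2 * Nat.pair v (Nat.pair (codeTm p) (codeTm x)) / 2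
      = Nat.pair v (Nat.pair (codeTm p) (codeTm x)) by omega]
    simp only [Nat.unpair_pair, ihp, ihx, lp3Lab_code]
  | q p x ihp ihx =>
    simp only [codeTm, tr, code]
    rw [lp3Tr]
    rw [if_neg (by omega)]
    rw [show (2 * Nat.pair (codeTm p) (codeTm x) + 1) / 2
      = Nat.pair (codeTm p) (codeTm x) by omega]
    simp only [Nat.unpair_pair, ihp, ihx, lp3Lab_code, lp3App_code]

/-- block LP3 -/
theorem primrec_tr : ∃ K : ℕ → ℕ, Nat.Primrec K ∧ ∀ x : Tm, K (codeTm x) = code (tr true x) := by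
  refine ⟨fun n => (lp3Tr n).1, Primrec.nat_iff.1 (Primrec.fst.comp lp3Tr_primrec), ?_⟩
  intro x
  exact congrArg Prod.fst (lp3Tr_code x)

end Kriz.PTO
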