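import Pool.Agent.Work.MP_0f6836_lc.PTO.TA2

/-!
# Block TB: `trees` and `krizLe` are recursively enumerable
-/

namespace Kriz.PTO

open Kriz

/-- `trees` is the set of codes of descriptions with positive labels
(`exists_tree`, `LTree.unf_pos`) -/
theorem mem_trees {n : ℕ} : n ∈ trees ↔ ∃ t : KT, t.Pos ∧ n = code t := by
  constructor
  · rintro ⟨T, t, ht, rfl⟩
    exact ⟨t, LTree.unf_pos ht, rfl⟩
  · rintro ⟨t, ht, rfl⟩
    obtain ⟨T, hT⟩ := exists_tree t ht
    exact ⟨T, t, hT, rfl⟩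

/-- `emb_of_le`, `le_of_emb` -/
theorem mem_krizLe {n : ℕ} : n ∈ krizLe ↔ ∃ s t : KT, s.Pos ∧ t.Pos ∧ Emb 1 s t ∧
    n = pr (code s) (code t) := by
  constructor
  · rintro ⟨a, b, S, T, ⟨s, hs, rfl⟩, ⟨t, ht, rfl⟩, h, rfl⟩
    exact ⟨s, t, LTree.unf_pos hs, LTree.unf_pos ht, LTree.emb_of_le h hs ht, rfl⟩
  · rintro ⟨s, t, hs, ht, h, rfl⟩
    obtain ⟨S, hS⟩ := exists_tree s hs
    obtain ⟨T, hT⟩ := exists_tree t ht
    exact ⟨code s, code t, S, T, ⟨s, hS, rfl⟩, ⟨t, hT, rfl⟩, LTree.le_of_emb hS hT h, rfl⟩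

theorem TB_lt {a b c d : ℕ} (h : pr a b = pr c d) : ¬ a + b < c + d := by
  intro h1
  have h2 : (a + b + 1) * (a + b + 1) ≤ (c + d) * (c + d) := Nat.mul_le_mul h1 h1
  have h3 : (a + b) * (a + b) + a = (c + d) * (c + d) + c := h
  nlinarith

theorem pr_nat_inj {a b c d : ℕ} (h : pr a b = pr c d) : a = c ∧ b = d := by
  have h1 := TB_lt h
  have h2 := TB_lt h.symm
  have h3 : a + b = c + d := by omega
  have h4 : (a + b) * (a + b) + a = (c + d) * (c + d) + c := h
  rw [h3] at h4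
  omega

theorem pr_mem_krizLe {s t : KT} (hs : s.Pos) (ht : t.Pos) :
    pr (code s) (code t) ∈ krizLe ↔ Emb 1 s t := by
  rw [mem_krizLe]
  constructor
  · rintro ⟨s', t', -, -, h, h'⟩
    obtain ⟨h1, h2⟩ := pr_nat_inj h'
    rw [code_inj h1, code_inj h2]
    exact h
  · intro h
    exact ⟨s, t, hs, ht, h, rfl⟩

theorem TB_comp {p : ℕ → Prop} (hp : REPred p) {g : ℕ → ℕ} (hg : Computable g) :
    REPred (fun n => p (g n)) :=
  Partrec.comp hp hg

theorem TB_and {p q : ℕ → Prop} (hp : REPred p) (hq : REPred q) :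
    REPred (fun n => p n ∧ q n) := by
  have h : Partrec (fun n : ℕ => (Part.assert (p n) fun _ => Part.some ()).bind
      fun _ => Part.assert (q n) fun _ => Part.some ()) :=
    Partrec.bind hp (Partrec.comp hq Computable.fst)
  refine h.of_eq fun n => Part.ext fun u => ?_
  simp only [Part.mem_bind_iff, Part.mem_assert_iff, Part.mem_some_iff]
  constructor
  · rintro ⟨a, ⟨h1, _⟩, h2, h3⟩
    exact ⟨⟨h1, h2⟩, h3⟩
  · rintro ⟨⟨h1, h2⟩, h3⟩
    exact ⟨(), ⟨h1, trivial⟩, h2, h3⟩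

theorem TB_eq_one {K : ℕ → ℕ} (hK : Primrec K) : REPred (fun n => K n = 1) :=
  ((Primrec.eq.comp hK (Primrec.const 1)).computablePred).to_re

theorem re_trees : REPred (fun n => n ∈ trees) := by
  obtain ⟨K, hK, hK1⟩ := primrec_pos
  refine (TB_eq_one (Primrec.nat_iff.2 hK)).of_eq fun n => ?_
  rw [mem_trees]
  constructor
  · intro h
    obtain ⟨t, rfl⟩ := code_surj n
    exact ⟨t, (hK1 t).1 h, rfl⟩
  · rintro ⟨t, ht, rfl⟩
    exact (hK1 t).2 ht

theorem TB_sqrt (a b : ℕ) : Nat.sqrt (pr a b) = a + b := by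
  have h : pr a b = (a + b) * (a + b) + a := rfl
  rw [h]
  exact Nat.sqrt_add_eq (a + b) (by omega)

theorem re_krizLe : REPred (fun n => n ∈ krizLe) := by
  obtain ⟨K, hK, hK1⟩ := primrec_pos
  have hK' : Primrec K := Primrec.nat_iff.2 hK
  have hs : Primrec (fun n : ℕ => Nat.sqrt n) := Primrec.nat_sqrt
  have ha : Primrec (fun n : ℕ => n - Nat.sqrt n * Nat.sqrt n) :=
    Primrec.nat_sub.comp Primrec.id (Primrec.nat_mul.comp hs hs)
  have hb : Primrec (fun n : ℕ => Nat.sqrt n - (n - Nat.sqrt n * Nat.sqrt n)) :=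
    Primrec.nat_sub.comp hs ha
  have h1 : REPred (fun n : ℕ => n - Nat.sqrt n * Nat.sqrt n ≤ Nat.sqrt n) :=
    ((Primrec.nat_le.comp ha hs).computablePred).to_re
  have h2 := TB_eq_one (hK'.comp ha)
  have h3 := TB_eq_one (hK'.comp hb)
  have h4 := TB_comp re_emb (Primrec₂.natPair.comp ha hb).to_comp
  refine (TB_and h1 (TB_and h2 (TB_and h3 h4))).of_eq fun n => ?_
  rw [mem_krizLe]
  constructor
  · rintro ⟨h1, h2, h3, s, t, h4, h5⟩
    rw [Nat.pair_eq_pair] at h5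
    obtain ⟨h5, h6⟩ := h5
    have h7 : Nat.sqrt n * Nat.sqrt n ≤ n := Nat.sqrt_le n
    rw [h5] at h2
    rw [h6] at h3
    refine ⟨s, t, (hK1 s).1 h2, (hK1 t).1 h3, h4, ?_⟩
    have h8 : pr (code s) (code t) =
      (code s + code t) * (code s + code t) + code s := rfl
    have h9 : code s + code t = Nat.sqrt n := by omega
    rw [h8, h9]
    omega
  · rintro ⟨s, t, h1, h2, h3, rfl⟩
    have h8 : pr (code s) (code t) =
      (code s + code t) * (code s + code t) + code s := rfl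
    have h9 : pr (code s) (code t) - (code s + code t) * (code s + code t) = code s := by
      rw [h8]; omega
    rw [TB_sqrt, h9]
    have h10 : code s + code t - code s = code t := by omega
    rw [h10]
    exact ⟨by omega, (hK1 s).2 h1, (hK1 t).2 h2, s, t, h3, rfl⟩

end Kriz.PTO
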