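import Pool.Agent.Work.MP_0f6836_lc.PTO.LA3
import Pool.Agent.Work.MP_0f6836_lc.PTO.LP2
import Pool.Agent.Work.MP_0f6836_lc.PTO.LP3
import Pool.Agent.Work.MP_0f6836_lc.PTO.TB

/-!
# Block LR: the notation system on codes of trees
-/

namespace Kriz.PTO

open Kriz Tm

/-- projections of computable sets are recursively enumerable -/
theorem LR_re {f : ℕ → ℕ → Bool} (hf : Computable₂ f) : REPred (fun n => ∃ c, f n c = true) := by
  have h1 : Partrec₂ (fun n c => (Part.some (f n c) : Part Bool)) := hf.partrec₂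
  refine (Partrec.rfind h1).dom_re.of_eq fun n => ?_
  refine Nat.rfind_dom.trans ?_
  constructor
  · rintro ⟨c, hc, -⟩
    exact ⟨c, (Part.mem_some_iff.1 hc).symm⟩
  · rintro ⟨c, hc⟩
    exact ⟨c, Part.mem_some_iff.2 hc.symm, fun _ => trivial⟩

theorem LR_pr {f g : ℕ → ℕ} (hf : Primrec f) (hg : Primrec g) :
    Primrec (fun c => pr (f c) (g c)) := by
  have h1 : Primrec (fun c => f c + g c) := Primrec.nat_add.comp hf hg
  exact Primrec.nat_add.comp (Primrec.nat_mul.comp h1 h1) hf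

theorem LR_dec {b : Bool} : (if b then 1 else 0 : ℕ) = 1 ↔ b = true := by
  cases b <;> simp

theorem LR_A0 {K K' : ℕ → ℕ} (h : ∀ x : Tm, K (codeTm x) = if nfB true x && lev0 x then 1 else 0)
    (h' : ∀ x : Tm, K' (codeTm x) = code (tr true x)) (n : ℕ) :
    n ∈ A0 ↔ ∃ c, K c = 1 ∧ K' c = n := by
  have key : ∀ x : Tm, K (codeTm x) = 1 ↔ NF true x ∧ x.val < Om 1 := by
    intro x
    rw [h, LR_dec, Bool.and_eq_true, nfB_iff]
    constructor
    · rintro ⟨h1, h2⟩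
      exact ⟨h1, (lev0_iff h1).1 h2⟩
    · rintro ⟨h1, h2⟩
      exact ⟨h1, (lev0_iff h1).2 h2⟩
  constructor
  · rintro ⟨x, hx, hx1, rfl⟩
    exact ⟨codeTm x, (key x).2 ⟨hx, hx1⟩, h' x⟩
  · rintro ⟨c, hc, rfl⟩
    obtain ⟨x, rfl⟩ := codeTm_surj c
    obtain ⟨h1, h2⟩ := (key x).1 hc
    exact ⟨x, h1, h2, h' x⟩

theorem re_A0 : REPred (fun n => n ∈ A0) := by
  obtain ⟨K, hK, h⟩ := primrec_nf
  obtain ⟨K', hK', h'⟩ := primrec_tr
  have pK : Primrec K := Primrec.nat_iff.2 hK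
  have pK' : Primrec K' := Primrec.nat_iff.2 hK'
  have h1 : Primrec₂ (fun n c : ℕ => (decide (K c = 1) && decide (K' c = n))) :=
    Primrec.and.comp
      (Primrec.eq.decide.comp (pK.comp Primrec.snd) (Primrec.const 1))
      (Primrec.eq.decide.comp (pK'.comp Primrec.snd) Primrec.fst)
  refine (LR_re h1.to_comp).of_eq fun n => ?_
  rw [LR_A0 h h' n]
  simp

theorem re_R0 : REPred (fun n => n ∈ R0) := by
  obtain ⟨K, hK, h⟩ := primrec_nf
  obtain ⟨K', hK', h'⟩ := primrec_tr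
  obtain ⟨Q, hQ, hq⟩ := primrec_J false
  have pK : Primrec K := Primrec.nat_iff.2 hK
  have pK' : Primrec K' := Primrec.nat_iff.2 hK'
  have pQ : Primrec Q := Primrec.nat_iff.2 hQ
  have key : ∀ x : Tm, K (codeTm x) = 1 ↔ NF true x ∧ x.val < Om 1 := by
    intro x
    rw [h, LR_dec, Bool.and_eq_true, nfB_iff]
    constructor
    · rintro ⟨h1, h2⟩
      exact ⟨h1, (lev0_iff h1).1 h2⟩
    · rintro ⟨h1, h2⟩
      exact ⟨h1, (lev0_iff h1).2 h2⟩
  have pa : Primrec (fun c : ℕ => c.unpair.1) := Primrec.fst.comp Primrec.unpair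
  have pb : Primrec (fun c : ℕ => c.unpair.2) := Primrec.snd.comp Primrec.unpair
  have h1 : Primrec₂ (fun n c : ℕ => (decide (K c.unpair.1 = 1) && decide (K c.unpair.2 = 1)) &&
      (decide (Q c = 1) && decide (pr (K' c.unpair.1) (K' c.unpair.2) = n))) :=
    Primrec.and.comp
      (Primrec.and.comp
        (Primrec.eq.decide.comp ((pK.comp pa).comp Primrec.snd) (Primrec.const 1))
        (Primrec.eq.decide.comp ((pK.comp pb).comp Primrec.snd) (Primrec.const 1)))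
      (Primrec.and.comp
        (Primrec.eq.decide.comp (pQ.comp Primrec.snd) (Primrec.const 1))
        (Primrec.eq.decide.comp ((LR_pr (pK'.comp pa) (pK'.comp pb)).comp Primrec.snd)
          Primrec.fst))
  refine (LR_re h1.to_comp).of_eq fun n => ?_
  simp only [Bool.and_eq_true, decide_eq_true_eq]
  constructor
  · rintro ⟨c, ⟨h2, h3⟩, h4, h5⟩
    obtain ⟨x, hx⟩ := codeTm_surj c.unpair.1
    obtain ⟨y, hy⟩ := codeTm_surj c.unpair.2
    rw [← hx] at h2 h5
    rw [← hy] at h3 h5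
    have hc : c = Nat.pair (codeTm x) (codeTm y) := by
      rw [hx, hy, Nat.pair_unpair]
    rw [hc, hq, LR_dec] at h4
    obtain ⟨h6, h7⟩ := (key x).1 h2
    obtain ⟨h8, h9⟩ := (key y).1 h3
    refine ⟨x, y, h6, h8, h7, h9, (J_lt h6 h8).1 h4, ?_⟩
    rw [← h5, h', h']
  · rintro ⟨x, y, h6, h8, h7, h9, h10, rfl⟩
    refine ⟨Nat.pair (codeTm x) (codeTm y), ?_⟩
    rw [Nat.unpair_pair]
    refine ⟨⟨(key x).2 ⟨h6, h7⟩, (key y).2 ⟨h8, h9⟩⟩, ?_, ?_⟩
    · rw [hq, LR_dec]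
      exact (J_lt h6 h8).2 h10
    · rw [h', h']

theorem A0_sub : A0 ⊆ trees := by
  rintro n ⟨x, -, -, rfl⟩
  exact mem_trees.2 ⟨tr true x, pos_tr x true, rfl⟩

/-- `top` (Refl) -/
theorem R0_reflects {x y : ℕ} (hx : x ∈ A0) (hy : y ∈ A0) (h : pr x y ∈ R0) :
    pr y x ∉ krizLe := by
  obtain ⟨a, b, ha, hb, ha1, hb1, hab, he⟩ := h
  obtain ⟨rfl, rfl⟩ := pr_nat_inj he
  rw [pr_mem_krizLe (pos_tr b true) (pos_tr a true)]
  intro hE
  exact absurd hab (not_lt_of_ge (top hb ha hb1 ha1 hE))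

theorem LR_code {x y : Tm} (hx : NF true x) (hy : NF true y) (hx1 : x.val < Om 1)
    (hy1 : y.val < Om 1) (h : code (tr true x) = code (tr true y)) : x.val = y.val := by
  have h1 : tr true x = tr true y := code_inj h
  refine le_antisymm (top hx hy hx1 hy1 ?_) (top hy hx hy1 hx1 ?_)
  · rw [h1]
    exact Emb.refl 1 _
  · rw [h1]
    exact Emb.refl 1 _

/-- the order type is `κ`; the terms are determined by their trees (`top` and `val_inj`) -/
theorem ordType_A0 : OrdType A0 R0 kappa := by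
  classical
  have h0 : ∃ r : ℕ → Ordinal.{0}, ∀ x : Tm, NF true x → x.val < Om 1 →
      r (code (tr true x)) = x.val := by
    refine ⟨fun n => if h : ∃ x : Tm, NF true x ∧ x.val < Om 1 ∧ n = code (tr true x) then
      h.choose.val else 0, fun x hx hx1 => ?_⟩
    have h : ∃ y : Tm, NF true y ∧ y.val < Om 1 ∧ code (tr true x) = code (tr true y) :=
      ⟨x, hx, hx1, rfl⟩
    simp only
    rw [dif_pos h]
    obtain ⟨h1, h2, h3⟩ := h.choose_spec
    exact (LR_code hx h1 hx1 h2 h3).symm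
  obtain ⟨r, hr⟩ := h0
  refine ⟨r, ?_, ?_, ?_⟩
  · rintro m ⟨x, hx, hx1, rfl⟩ n ⟨y, hy, hy1, rfl⟩ h
    rw [hr x hx hx1, hr y hy hy1] at h
    rw [val_inj hx hy h]
  · ext a
    constructor
    · rintro ⟨n, ⟨x, hx, hx1, rfl⟩, rfl⟩
      rw [hr x hx hx1]
      exact val_lt_kappa hx hx1
    · intro ha
      obtain ⟨x, hx, hxa⟩ := exists_code_kappa (show a < kappa from ha)
      have hx1 : x.val < Om 1 := by
        rw [hxa]
        exact (show a < kappa from ha).trans kappa_lt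
      exact ⟨_, ⟨x, hx, hx1, rfl⟩, (hr x hx hx1).trans hxa⟩
  · rintro m ⟨x, hx, hx1, rfl⟩ n ⟨y, hy, hy1, rfl⟩
    rw [hr x hx hx1, hr y hy hy1]
    constructor
    · rintro ⟨a, b, ha, hb, ha1, hb1, hab, he⟩
      obtain ⟨h1, h2⟩ := pr_nat_inj he
      rw [LR_code hx ha hx1 ha1 h1, LR_code hy hb hy1 hb1 h2]
      exact hab
    · intro h
      exact ⟨x, y, hx, hy, hx1, hy1, h, rfl⟩

end Kriz.PTO
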