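import Pool.Agent.Work.MP_0f6836_lc.PTO.LF
import Pool.Agent.Work.MP_0f6836_lc.PTO.LG1
import Pool.Agent.Work.MP_0f6836_lc.PTO.LH
import Pool.Agent.Work.MP_0f6836_lc.PTO.LL
import Pool.Agent.Work.MP_0f6836_lc.PTO.LR
import Pool.Agent.Work.MP_0f6836_lc.PTO.DB

/-!
# Block LZ: lower bound for the proof-theoretic ordinal
-/

namespace Kriz.PTO

open Kriz Ordinal

theorem lz_woIn {M : Type} [CommSemiring M] [LinearOrder M] [IsStrictOrderedRing M]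
    {S : Set (Set M)} (H : IsRCA0 S) (θA θR θT θE : Fm) [IsBdd θA] [IsBdd θR] [IsBdd θT]
    [IsBdd θE] (hG : GoodIn S (θT.ex.set M) (θE.ex.set M)) (n : ℕ) :
    WOIn S {x : M | On θA θR θT θE n x}
      {z : M | ∃ x, x < z + 1 ∧ ∃ y, y < z + 1 ∧ z = pr x y ∧ Ln θA θR θT n x y} := by
  haveI : Fact (IsRCA0 S) := ⟨H⟩
  rintro ⟨F, h1, h2, h3, h4⟩
  refine wo_On θA θR θT θE hG n ⟨F, h1, h2, h3, fun k y z hy hz => ?_⟩
  obtain ⟨x, -, y', -, h5, h6⟩ := h4 k y z hy hz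
  obtain ⟨rfl, rfl⟩ := H.pr_inj.1 h5
  exact h6

theorem lz_linIn {M : Type} [CommSemiring M] [LinearOrder M] [IsStrictOrderedRing M]
    {S : Set (Set M)} (H : IsRCA0 S) (θA θR θT θE : Fm) (n : ℕ) :
    LinIn {x : M | On θA θR θT θE n x}
      {z : M | ∃ x, x < z + 1 ∧ ∃ y, y < z + 1 ∧ z = pr x y ∧ Ln θA θR θT n x y} := by
  haveI : Fact (IsRCA0 S) := ⟨H⟩
  obtain ⟨i1, i2, i3⟩ := lin_On (S := S) θA θR θT θE n
  have key : ∀ x y : M, (∃ x', x' < pr x y + 1 ∧ ∃ y', y' < pr x y + 1 ∧ pr x y = pr x' y' ∧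
      Ln θA θR θT n x' y') ↔ Ln θA θR θT n x y := by
    intro x y
    constructor
    · rintro ⟨x', -, y', -, h1, h2⟩
      obtain ⟨rfl, rfl⟩ := H.pr_inj.1 h1
      exact h2
    · intro h
      exact ⟨x, (H.lt_succ_iff _ _).2 (H.le_pr_left _ _), y, (H.lt_succ_iff _ _).2
        (H.le_pr_right _ _), rfl, h⟩
  refine ⟨fun x hx h => i1 x hx ((key x x).1 h), fun x hx y hy z hz h1 h2 => (key x z).2
    (i2 x y z hx hy hz ((key x y).1 h1) ((key y z).1 h2)), fun x hx y hy => ?_⟩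
  rcases i3 x y hx hy with h | h | h
  · exact Or.inl h
  · exact Or.inr (Or.inl ((key x y).2 h))
  · exact Or.inr (Or.inr ((key y x).2 h))

/-- in a raw model use `csr`, `lo`, `isor` (block HA) -/
theorem lz_raw {M : Type} [Zero M] [One M] [Add M] [Mul M] [LT M] {S : Set (Set M)}
    (H : IsRCA0 S) (θA θR θT θE : Fm) [IsBdd θA] [IsBdd θR] [IsBdd θT] [IsBdd θE]
    (hG : GoodIn S (θT.ex.set M) (θE.ex.set M)) (n : ℕ) :
    LinIn {x : M | On θA θR θT θE n x}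
      {z : M | ∃ x, x < z + 1 ∧ ∃ y, y < z + 1 ∧ z = pr x y ∧ Ln θA θR θT n x y} ∧
    WOIn S {x : M | On θA θR θT θE n x}
      {z : M | ∃ x, x < z + 1 ∧ ∃ y, y < z + 1 ∧ z = pr x y ∧ Ln θA θR θT n x y} :=
  ⟨@lz_linIn M (csr H) (lo H) (isor H) S H θA θR θT θE n,
    @lz_woIn M (csr H) (lo H) (isor H) S H θA θR θT θE _ _ _ _ hG n⟩

theorem proves_power {τ ε : Fm} (hτ : τ.IsSigma) (hε : ε.IsSigma) (hτ' : τ.set ℕ = trees)
    (hε' : ε.set ℕ = krizLe) (n : ℕ) : ∃ o l : Fm, o.Bdd ∧ l.Bdd ∧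
      OrdType (o.set ℕ) (l.set ℕ) (kappa ^ (n + 1)) ∧ Proves τ ε o l := by
  obtain ⟨θT, hT, rfl⟩ := hτ
  obtain ⟨θE, hE, rfl⟩ := hε
  obtain ⟨θA, hA, hA'⟩ := exists_sigma_set re_A0
  obtain ⟨θR, hR, hR'⟩ := exists_sigma_set re_R0
  haveI : IsBdd θT := ⟨hT⟩
  haveI : IsBdd θE := ⟨hE⟩
  haveI : IsBdd θA := ⟨hA⟩
  haveI : IsBdd θR := ⟨hR⟩
  have hN : IsNot θA θR θT θE kappa :=
    { ord := by rw [hA', hR']; exact ordType_A0
      sub := by rw [hA', hτ']; exact A0_sub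
      refl := by
        rw [hA', hR', hε']
        exact fun x hx y hy h => R0_reflects hx hy h }
  obtain ⟨o, ho, ho'⟩ := exists_On θA θR θT θE n
  obtain ⟨l, hl, hl'⟩ := exists_Ln θA θR θT n
  refine ⟨o, l, ho, hl, ?_, ?_⟩
  · rw [ho', hl']
    exact ordType_On hN n
  · intro M _ _ _ _ _ S H hG
    rw [ho', hl']
    exact lz_raw H θA θR θT θE hG n

end Kriz.PTO
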