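import Pool.Agent.Work.MP_0f6836_lc.PTO.UB2

/-!
# Block UC: the step for sequences of trees

`X` is a set of natural numbers and `le` a relation on it (later codes of trees and Kriz's
quasiordering) such that the finite bad sequences have ranks below `K`.
-/

namespace Kriz.PTO

open Ordinal

/-- `σ` is a finite bad sequence in `X` -/
def BadL (X : Set ℕ) (le : ℕ → ℕ → Prop) (σ : List ℕ) : Prop :=
  (∀ x ∈ σ, x ∈ X) ∧ σ.Pairwise (fun x y => ¬ le x y)

/-- ranks of the nonempty finite bad sequences -/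
structure Rk (s : Scale) (X : Set ℕ) (le : ℕ → ℕ → Prop) : Type 1 where
  R : List ℕ → Ordinal.{0}
  lt : ∀ σ, σ ≠ [] → BadL X le σ → R σ < s.K
  desc : ∀ σ t, σ ≠ [] → BadL X le (σ ++ [t]) → R (σ ++ [t]) < R σ
  bound : ∀ σ n, σ ≠ [] → BadL X le σ → (∀ x ∈ σ, x < n) → σ.length ≤ n → s.cd (R σ) ≤ s.p n

/-- `H` is not an infinite bad sequence in `X` with values in any initial segment of the numbers
that contains `a` but not `b` -/
def Refuted (X : Set ℕ) (le : ℕ → ℕ → Prop) (H : ℕ → ℕ) (a b : ℕ) : Prop :=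
  ∃ y ≤ a, H y ∉ X ∨ b ≤ H y ∨ ∃ x < y, le (H x) (H y)

theorem Refuted.mono {X : Set ℕ} {le : ℕ → ℕ → Prop} {H : ℕ → ℕ} {a b a' b' : ℕ}
    (h : Refuted X le H a b) (ha : a ≤ a') (hb : b' ≤ b) : Refuted X le H a' b' := by
  obtain ⟨y, hy, h⟩ := h
  refine ⟨y, hy.trans ha, ?_⟩
  rcases h with h | h | h
  · exact Or.inl h
  · exact Or.inr (Or.inl (hb.trans h))
  · exact Or.inr (Or.inr h)

theorem UC_pow_pos (s : Scale) (m : ℕ) : 0 < s.K ^ m := by
  rw [← Ordinal.opow_natCast]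
  exact Ordinal.opow_pos _ s.K_pos

theorem UC_two_le (s : Scale) (m : ℕ) : s.K ^ m * 1 + s.K ^ m ≤ s.K ^ (m + 1) := by
  have h2 : (1 : Ordinal.{0}) + 1 ≤ s.K := by
    have h3 : (1 : Ordinal.{0}) + 1 < ω := by
      exact_mod_cast Ordinal.natCast_lt_omega0 2
    exact h3.le.trans s.hK
  calc s.K ^ m * 1 + s.K ^ m = s.K ^ m * (1 + 1) := by rw [mul_add, mul_one]
    _ ≤ s.K ^ m * s.K := by gcongr
    _ = s.K ^ (m + 1) := (pow_succ _ _).symm

theorem UC_pow_mono (s : Scale) {m k : ℕ} (h : m ≤ k) : s.K ^ m ≤ s.K ^ k := by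
  rw [← Ordinal.opow_natCast, ← Ordinal.opow_natCast]
  exact Ordinal.opow_le_opow_right s.K_pos (by exact_mod_cast h)

/-- a large interval is long -/
theorem UC_long {s : Scale} {α : Ordinal.{0}} {a b : ℕ} (hα : 0 < α) (h : s.Lg α a b) :
    s.p a ≤ b := (h.step hα (s.Nb_zero a)).le

/-- a `K ^ (m + 1)`-large interval consists of two `K ^ m`-large ones -/
theorem UC_halves {s : Scale} {m a c : ℕ} (h : s.Lg (s.K ^ (m + 1)) a c) (ha : m < a)
    (ha2 : 2 ≤ a) : ∃ d, s.Lg (s.K ^ m) a d ∧ s.Lg (s.K ^ m) d c := by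
  have h1 : s.cd 1 = 2 := by
    have := s.nat 1
    simpa using this
  obtain ⟨d, hd, hd'⟩ := (h.ord (UC_two_le s m)).split (le_refl _)
    (s.Nb_block ha s.one_lt_K (by rw [h1]; exact ha2))
  rw [mul_one] at hd'
  exact ⟨d, hd, hd'⟩

/-- strictly increasing lists of numbers below `a` have length at most `a` -/
theorem UC_length {x : List ℕ} {a : ℕ} (hx : x.SortedLT) (ha : ∀ i ∈ x, i < a) :
    x.length ≤ a := by
  have h1 : x.Nodup := hx.nodup
  have h2 : x.toFinset ⊆ Finset.range a := by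
    intro i hi
    rw [List.mem_toFinset] at hi
    exact Finset.mem_range.2 (ha i hi)
  have h3 := Finset.card_le_card h2
  rwa [List.toFinset_card_of_nodup h1, Finset.card_range] at h3

/-- extending a bad sequence -/
theorem UC_ext {X : Set ℕ} {le : ℕ → ℕ → Prop} {H : ℕ → ℕ} {σ : List ℕ} {a d : ℕ}
    (hσ : BadL X le σ) (hx : ∃ x : List ℕ, x.SortedLT ∧ (∀ i ∈ x, i < a) ∧ σ = x.map H)
    (hr : ¬ Refuted X le H a d) (hd : a < d) :
    BadL X le (σ ++ [H a]) ∧ (∀ x ∈ σ ++ [H a], x < d) ∧ (σ ++ [H a]).length ≤ d ∧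
      ∀ c, a < c → ∃ x : List ℕ, x.SortedLT ∧ (∀ i ∈ x, i < c) ∧ σ ++ [H a] = x.map H := by
  obtain ⟨x, hxs, hxa, hxσ⟩ := hx
  unfold Refuted at hr
  push Not at hr
  have h1 : ∀ y ≤ a, H y ∈ X ∧ H y < d ∧ ∀ x < y, ¬ le (H x) (H y) := by
    intro y hy
    obtain ⟨h1, h2, h3⟩ := hr y hy
    exact ⟨h1, h2, h3⟩
  refine ⟨⟨?_, ?_⟩, ?_, ?_, ?_⟩
  · intro y hy
    rw [List.mem_append, List.mem_singleton] at hy
    rcases hy with hy | rfl
    · exact hσ.1 y hy
    · exact (h1 a le_rfl).1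
  · rw [List.pairwise_append]
    refine ⟨hσ.2, List.pairwise_singleton _ _, ?_⟩
    intro u hu v hv
    rw [List.mem_singleton] at hv
    subst hv
    rw [hxσ, List.mem_map] at hu
    obtain ⟨i, hi, rfl⟩ := hu
    exact (h1 a le_rfl).2.2 i (hxa i hi)
  · intro y hy
    rw [List.mem_append, List.mem_singleton] at hy
    rcases hy with hy | rfl
    · rw [hxσ, List.mem_map] at hy
      obtain ⟨i, hi, rfl⟩ := hy
      exact (h1 i (hxa i hi).le).2.1
    · exact (h1 a le_rfl).2.1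
  · rw [List.length_append, List.length_singleton, hxσ, List.length_map]
    have := UC_length hxs hxa
    omega
  · intro c hc
    refine ⟨x ++ [a], ?_, ?_, ?_⟩
    · rw [List.sortedLT_iff_pairwise] at hxs ⊢
      rw [List.pairwise_append]
      refine ⟨hxs, List.pairwise_singleton _ _, ?_⟩
      intro u hu v hv
      rw [List.mem_singleton] at hv
      subst hv
      exact hxa u hu
    · intro i hi
      rw [List.mem_append, List.mem_singleton] at hi
      rcases hi with hi | rfl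
      · exact (hxa i hi).trans hc
      · exact hc
    · rw [List.map_append, hxσ]
      rfl

/-- The invariant of the construction: the claim is proved by induction on `β = R σ`. `σ` lists
values of `H` at increasing arguments below `a`. One step: split `[a, b]` into a `K ^ (m + 1)`-large
interval `[a, c]` and a `K ^ (m + 1) * β`-large interval `[c, b]`, split `[a, c]` into two
`K ^ m`-large intervals `[a, d]`, `[d, c]`; if `Refuted X le H a d` fails then `σ ++ [H a]` is bad,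
has entries `< d`, so `cd (R (σ ++ [H a])) ≤ p d ≤ c`. -/
theorem kriz_aux {s : Scale} {X : Set ℕ} {le : ℕ → ℕ → Prop} (hR : Rk s X le) (H : ℕ → ℕ)
    (m : ℕ) : ∀ (β : Ordinal.{0}) (σ : List ℕ) (a b : ℕ), σ ≠ [] → BadL X le σ → hR.R σ = β →
    (∃ x : List ℕ, x.SortedLT ∧ (∀ i ∈ x, i < a) ∧ σ = x.map H) →
    s.Lg (s.K ^ (m + 1) * β + s.K ^ (m + 1)) a b → s.Nb a (s.K ^ (m + 1) * β) → m + 2 ≤ a →
    ∃ a' b', a ≤ a' ∧ b' ≤ b ∧ s.Lg (s.K ^ m) a' b' ∧ Refuted X le H a' b' := by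
  intro β
  induction β using WellFoundedLT.induction with
  | ind β ih =>
  intro σ a b hσ0 hσ hβ hx hL hN ha
  obtain ⟨c, hc, hcb⟩ := hL.split (le_refl _) hN
  obtain ⟨d, hd, hdc⟩ := UC_halves hc (by omega) (by omega)
  by_cases hr : Refuted X le H a d
  · exact ⟨a, d, le_rfl, hdc.le.trans hcb.le, hd, hr⟩
  · have hpa : s.p a ≤ d := UC_long (UC_pow_pos s m) hd
    have hpd : s.p d ≤ c := UC_long (UC_pow_pos s m) hdc
    have ga := s.gt a
    have gd := s.gt d
    obtain ⟨hb, hlt, hlen, hxx⟩ := UC_ext hσ hx hr (by omega)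
    have hne : σ ++ [H a] ≠ [] := by simp
    have hdesc : hR.R (σ ++ [H a]) < β := by
      rw [← hβ]
      exact hR.desc σ (H a) hσ0 hb
    have hcd : s.cd (hR.R (σ ++ [H a])) ≤ c := (hR.bound _ d hne hb hlt hlen).trans hpd
    have hle : s.K ^ (m + 1) * hR.R (σ ++ [H a]) + s.K ^ (m + 1) ≤ s.K ^ (m + 1) * β := by
      have h1 : hR.R (σ ++ [H a]) + 1 ≤ β := Order.add_one_le_of_lt hdesc
      calc s.K ^ (m + 1) * hR.R (σ ++ [H a]) + s.K ^ (m + 1)
          = s.K ^ (m + 1) * (hR.R (σ ++ [H a]) + 1) := by rw [mul_add, mul_one]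
        _ ≤ _ := by gcongr
    obtain ⟨a', b', h1, h2, h3, h4⟩ := ih _ hdesc (σ ++ [H a]) c b hne hb rfl
      (hxx c (by omega)) (hcb.ord hle)
      (s.Nb_block (by omega) (hR.lt _ hne hb) hcd) (by omega)
    exact ⟨a', b', by omega, h2, h3, h4⟩

theorem kriz_step {s : Scale} {X : Set ℕ} {le : ℕ → ℕ → Prop} (hR : Rk s X le) (H : ℕ → ℕ)
    {m a b : ℕ} (h : s.Lg (s.K ^ (m + 3)) a b) (ha : m + 3 ≤ a) :
    ∃ a' b', a ≤ a' ∧ b' ≤ b ∧ s.Lg (s.K ^ m) a' b' ∧ Refuted X le H a' b' := by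
  obtain ⟨c, hc, hcb⟩ := UC_halves (m := m + 2) h (by omega) (by omega)
  obtain ⟨d, hd, hdc⟩ := UC_halves (hc.ord (UC_pow_mono s (by omega : m + 1 ≤ m + 2)))
    (by omega) (by omega)
  by_cases hr : Refuted X le H a d
  · exact ⟨a, d, le_rfl, hdc.le.trans hcb.le, hd, hr⟩
  · have hpa : s.p a ≤ d := UC_long (UC_pow_pos s m) hd
    have hpd : s.p d ≤ c := UC_long (UC_pow_pos s m) hdc
    have ga := s.gt a
    have gd := s.gt d
    have h0 : BadL X le [] := ⟨by simp, List.Pairwise.nil⟩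
    obtain ⟨hb, hlt, hlen, hxx⟩ := UC_ext h0 ⟨[], by simp [List.sortedLT_iff_pairwise], by simp, rfl⟩
      hr (by omega)
    rw [List.nil_append] at hb hlt hlen hxx
    have hne : [H a] ≠ [] := by simp
    have hK := hR.lt _ hne hb
    have hcd : s.cd (hR.R [H a]) ≤ c := (hR.bound _ d hne hb hlt hlen).trans hpd
    have hle : s.K ^ (m + 1) * hR.R [H a] + s.K ^ (m + 1) ≤ s.K ^ (m + 2) := by
      have h1 : hR.R [H a] + 1 ≤ s.K := Order.add_one_le_of_lt hK
      calc s.K ^ (m + 1) * hR.R [H a] + s.K ^ (m + 1)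
          = s.K ^ (m + 1) * (hR.R [H a] + 1) := by rw [mul_add, mul_one]
        _ ≤ s.K ^ (m + 1) * s.K := by gcongr
        _ = s.K ^ (m + 2) := (pow_succ _ _).symm
    obtain ⟨a', b', h1, h2, h3, h4⟩ := kriz_aux hR H m _ [H a] c b hne hb rfl
      (hxx c (by omega)) (hcb.ord hle)
      (s.Nb_block (by omega) hK hcd) (by omega)
    exact ⟨a', b', by omega, h2, h3, h4⟩

end Kriz.PTO
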