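import Pool.Agent.Work.MP_0f6836_lc.PTO.TB
import Pool.Agent.Work.MP_0f6836_lc.PTO.UC

/-!
# Block RK1: ranks below `κ` for the finite bad sequences of trees

From `top_first`, `top_next`, `Top.lt_kappa` (UB/Ref5): by recursion on the list choose
descriptions `D` with `Top D` such that all trees `s` not above any entry satisfy
`Mem (st D) (1, s)`; the rank is `T D`.
-/

namespace Kriz.PTO

open Kriz Ordinal

/-- Kriz's quasiordering on codes, as a relation -/
def kle (x y : ℕ) : Prop := pr x y ∈ krizLe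

/-- the tree with a given code -/
noncomputable def rk1_dec (x : ℕ) : KT := Function.surjInv code_surj x

theorem rk1_code_dec (x : ℕ) : code (rk1_dec x) = x := Function.surjInv_eq code_surj x

theorem rk1_dec_pos {x : ℕ} (h : x ∈ trees) : (rk1_dec x).Pos := by
  obtain ⟨t, ht, hx⟩ := mem_trees.1 h
  have h1 : rk1_dec x = t := code_inj (by rw [rk1_code_dec, hx])
  rw [h1]
  exact ht

theorem rk1_kle {x y : ℕ} (hx : x ∈ trees) (hy : y ∈ trees) :
    kle x y ↔ Emb 1 (rk1_dec x) (rk1_dec y) := by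
  rw [← pr_mem_krizLe (rk1_dec_pos hx) (rk1_dec_pos hy), rk1_code_dec, rk1_code_dec]
  rfl

open Classical in
/-- the first description -/
noncomputable def rk1_first (t : KT) : List En :=
  if h : t.Pos then (top_first t h).choose else []

open Classical in
/-- the next description -/
noncomputable def rk1_next (D : List En) (t : KT) : List En :=
  if h : Top D ∧ t.Pos ∧ Mem (st D) (1, t) then (top_next h.1 t h.2.1 h.2.2).choose else []

/-- the descriptions, by recursion on the reversed list -/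
noncomputable def rk1_D : List ℕ → List En
  | [] => []
  | [t] => rk1_first (rk1_dec t)
  | t :: u :: ρ => rk1_next (rk1_D (u :: ρ)) (rk1_dec t)

theorem rk1_first_spec {t : KT} (h : t.Pos) : Top (rk1_first t) ∧
    ∀ s : KT, ¬ Emb 1 t s → Mem (st (rk1_first t)) (1, s) := by
  unfold rk1_first
  rw [dif_pos h]
  exact (top_first t h).choose_spec

theorem rk1_next_spec {D : List En} {t : KT} (h1 : Top D) (h2 : t.Pos) (h3 : Mem (st D) (1, t)) :
    Top (rk1_next D t) ∧ T (rk1_next D t) < T D ∧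
      ∀ s : KT, Mem (st D) (1, s) → ¬ Emb 1 t s → Mem (st (rk1_next D t)) (1, s) := by
  unfold rk1_next
  rw [dif_pos ⟨h1, h2, h3⟩]
  exact (top_next h1 t h2 h3).choose_spec

/-- reversed bad sequences -/
def rk1_Bad (ρ : List ℕ) : Prop :=
  (∀ x ∈ ρ, x ∈ trees) ∧ ρ.Pairwise (fun x y => ¬ kle y x)

theorem rk1_bad_iff {σ : List ℕ} (h : BadL trees kle σ) : rk1_Bad σ.reverse := by
  refine ⟨fun x hx => h.1 x (List.mem_reverse.1 hx), ?_⟩
  rw [List.pairwise_reverse]
  exact h.2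

theorem rk1_step {t : ℕ} {ρ : List ℕ} (h : rk1_Bad (t :: ρ))
    (hρ : Top (rk1_D ρ) ∧ ∀ s : KT, (∀ x ∈ ρ, ¬ Emb 1 (rk1_dec x) s) →
      Mem (st (rk1_D ρ)) (1, s)) :
    (rk1_dec t).Pos ∧ Mem (st (rk1_D ρ)) (1, rk1_dec t) := by
  have ht : t ∈ trees := h.1 t (by simp)
  refine ⟨rk1_dec_pos ht, hρ.2 _ fun x hx hE => ?_⟩
  have hx' : x ∈ trees := h.1 x (by simp [hx])
  exact (List.pairwise_cons.1 h.2).1 x hx ((rk1_kle hx' ht).2 hE)

theorem rk1_inv : ∀ ρ : List ℕ, ρ ≠ [] → rk1_Bad ρ → Top (rk1_D ρ) ∧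
    ∀ s : KT, (∀ x ∈ ρ, ¬ Emb 1 (rk1_dec x) s) → Mem (st (rk1_D ρ)) (1, s)
  | [], h, _ => absurd rfl h
  | [t], _, h => by
    have ht : t ∈ trees := h.1 t (by simp)
    obtain ⟨h1, h2⟩ := rk1_first_spec (rk1_dec_pos ht)
    exact ⟨h1, fun s hs => h2 s (hs t (by simp))⟩
  | t :: u :: ρ, _, h => by
    have hb : rk1_Bad (u :: ρ) :=
      ⟨fun x hx => h.1 x (List.mem_cons_of_mem _ hx), (List.pairwise_cons.1 h.2).2⟩
    have ih := rk1_inv (u :: ρ) (by simp) hb
    obtain ⟨h1, h2⟩ := rk1_step h ih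
    obtain ⟨g1, -, g3⟩ := rk1_next_spec ih.1 h1 h2
    exact ⟨g1, fun s hs => g3 s (ih.2 s fun x hx => hs x (List.mem_cons_of_mem _ hx))
      (hs t (by simp))⟩

theorem rk1_desc : ∀ (t : ℕ) (ρ : List ℕ), ρ ≠ [] → rk1_Bad (t :: ρ) →
    T (rk1_D (t :: ρ)) < T (rk1_D ρ)
  | _, [], h, _ => absurd rfl h
  | t, u :: ρ, _, h => by
    have hb : rk1_Bad (u :: ρ) :=
      ⟨fun x hx => h.1 x (List.mem_cons_of_mem _ hx), (List.pairwise_cons.1 h.2).2⟩
    have ih := rk1_inv (u :: ρ) (by simp) hb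
    obtain ⟨h1, h2⟩ := rk1_step h ih
    exact (rk1_next_spec ih.1 h1 h2).2.1

theorem exists_rank : ∃ R : List ℕ → Ordinal.{0},
    (∀ σ, σ ≠ [] → BadL trees kle σ → R σ < kappa) ∧
    ∀ σ t, σ ≠ [] → BadL trees kle (σ ++ [t]) → R (σ ++ [t]) < R σ := by
  refine ⟨fun σ => T (rk1_D σ.reverse), ?_, ?_⟩
  · intro σ hσ h
    exact (rk1_inv σ.reverse (by simpa using hσ) (rk1_bad_iff h)).1.lt_kappa
  · intro σ t hσ h
    have h1 := rk1_bad_iff h
    have e : (σ ++ [t]).reverse = t :: σ.reverse := by simp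
    rw [e] at h1
    dsimp only
    rw [e]
    exact rk1_desc t σ.reverse (by simpa using hσ) h1

end Kriz.PTO
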