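import Pool.Agent.Work.MP_0f6836_lc.UB.Max

/-!
# Block RK2: codings and bounds
-/

namespace Kriz.PTO

open Kriz Ordinal

theorem rk2_Om1 : Om 1 = ω_ (1 : Ordinal.{0}) := by
  simp [Om]

theorem rk2_one_lt : (1 : Ordinal.{0}) < kappa := by
  refine Kriz.lt_kappa (one_mem_C (Lam_pos.trans Lam_lt_opow)) ?_
  rw [rk2_Om1]
  exact one_lt_omega0.trans_le (omega0_le_omega 1)

/-- `κ` is countable (`kappa_lt : kappa < Om 1 = ω_1`) and infinite -/
theorem omega_le_kappa : ω ≤ kappa := by
  rw [Ordinal.omega0_le]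
  intro n
  have h : ∀ n : ℕ, (n : Ordinal.{0}) < kappa := by
    intro n
    induction n with
    | zero => rw [Nat.cast_zero]; exact sg_pos
    | succ n ih => rw [Nat.cast_succ]; exact sg_principal ih rk2_one_lt
  exact (h n).le

theorem rk2_countable : (Set.Iio kappa).Countable := by
  rw [← Cardinal.le_aleph0_iff_set_countable, Cardinal.mk_Iio_ordinal,
    ← Cardinal.lift_aleph0.{1, 0}, Cardinal.lift_le]
  have h := kappa_lt
  rw [rk2_Om1] at h
  have h2 : kappa.card < Cardinal.aleph 1 := by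
    rw [← Cardinal.lt_ord, Cardinal.ord_aleph]
    exact h
  rw [← Cardinal.succ_aleph0] at h2
  exact Order.lt_succ_iff.1 h2

theorem exists_cd : ∃ cd : Ordinal.{0} → ℕ,
    (∀ a < kappa, ∀ b < kappa, cd a = cd b → a = b) ∧ ∀ n : ℕ, cd n = 2 * n := by
  classical
  obtain ⟨f, hf⟩ := Set.countable_iff_exists_injOn.1 rk2_countable
  refine ⟨fun a => if h : a < ω then 2 * (lt_omega0.1 h).choose else 2 * f a + 1, ?_, ?_⟩
  · intro a ha b hb hab
    dsimp only at hab
    by_cases h1 : a < ω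
    · by_cases h2 : b < ω
      · rw [dif_pos h1, dif_pos h2] at hab
        have e1 := (lt_omega0.1 h1).choose_spec
        have e2 := (lt_omega0.1 h2).choose_spec
        have e3 : (lt_omega0.1 h1).choose = (lt_omega0.1 h2).choose := by omega
        rw [e1, e2, e3]
      · rw [dif_pos h1, dif_neg h2] at hab
        omega
    · by_cases h2 : b < ω
      · rw [dif_neg h1, dif_pos h2] at hab
        omega
      · rw [dif_neg h1, dif_neg h2] at hab
        exact hf ha hb (by omega)
  · intro n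
    dsimp only
    have h : (n : Ordinal.{0}) < ω := natCast_lt_omega0 n
    rw [dif_pos h]
    have e1 := (lt_omega0.1 h).choose_spec
    have e2 : n = (lt_omega0.1 h).choose := by exact_mod_cast e1
    omega

/-- there are only finitely many lists of length at most `n` with entries below `n` -/
theorem exists_bound (g : List ℕ → ℕ) : ∃ q : ℕ → ℕ, ∀ (σ : List ℕ) (n : ℕ),
    (∀ x ∈ σ, x < n) → σ.length ≤ n → g σ ≤ q n := by
  have h1 : ∀ n : ℕ, {σ : List ℕ | (∀ x ∈ σ, x < n) ∧ σ.length ≤ n}.Finite := by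
    intro n
    refine ((List.finite_length_le (Fin n) n).image (List.map Fin.val)).subset ?_
    rintro σ ⟨h1, h2⟩
    refine ⟨σ.pmap (fun x hx => (⟨x, hx⟩ : Fin n)) h1, ?_, ?_⟩
    · simpa using h2
    · rw [List.map_pmap]
      simp
  have h2 : ∀ n : ℕ, ∃ b : ℕ, ∀ σ : List ℕ, (∀ x ∈ σ, x < n) → σ.length ≤ n → g σ ≤ b := by
    intro n
    obtain ⟨b, hb⟩ := ((h1 n).image g).bddAbove
    exact ⟨b, fun σ h3 h4 => hb ⟨σ, ⟨h3, h4⟩, rfl⟩⟩
  choose q hq using h2
  exact ⟨q, fun σ n => hq n σ⟩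

theorem exists_majorant (q : ℕ → ℕ) : ∃ p : ℕ → ℕ, Monotone p ∧ (∀ n, 2 * n + 4 ≤ p n) ∧
    ∀ n, q n ≤ p n := by
  refine ⟨fun n => (∑ i ∈ Finset.range (n + 1), q i) + (2 * n + 4), ?_, ?_, ?_⟩
  · intro m n hmn
    have h : ∑ i ∈ Finset.range (m + 1), q i ≤ ∑ i ∈ Finset.range (n + 1), q i :=
      Finset.sum_le_sum_of_subset (Finset.range_subset_range.2 (by omega))
    dsimp only
    omega
  · intro n
    dsimp only
    omega
  · intro n
    have h : q n ≤ ∑ i ∈ Finset.range (n + 1), q i :=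
      Finset.single_le_sum (f := q) (fun i _ => Nat.zero_le _) (Finset.self_mem_range_succ n)
    dsimp only
    omega

end Kriz.PTO
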