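import Pool.Agent.Work.MP_0f6836_lc.PTO.VB

/-!
# Block VE: elementary cuts
-/

namespace Kriz.PTO

open Kriz

/-- `p` bounds the witnesses for the unbounded quantifiers in `φ` (without set variables) -/
def Fm.Dom (p : ℕ → ℕ) : Fm → Prop
  | eq _ _ => True
  | lt _ _ => True
  | mem _ _ => True
  | neg φ => Dom p φ
  | and φ ψ => Dom p φ ∧ Dom p ψ
  | ball _ φ => Dom p φ
  | all φ => Dom p φ ∧ ∃ k : ℕ, ∀ (v : ℕ → ℕ) (a : ℕ), (∀ i < k, v i ≤ a) →
      (∃ m, ¬ φ.Sat (fun _ => ∅) (push m v)) → ∃ m ≤ p a, ¬ φ.Sat (fun _ => ∅) (push m v)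

theorem ve_nt (a : NT) : ∃ k : ℕ, ∀ v v' : ℕ → ℕ, (∀ i < k, v i = v' i) → a.val v = a.val v' := by
  induction a with
  | var i => exact ⟨i + 1, fun v v' h => h i (Nat.lt_succ_self i)⟩
  | zero => exact ⟨0, fun _ _ _ => rfl⟩
  | one => exact ⟨0, fun _ _ _ => rfl⟩
  | add a b iha ihb =>
    obtain ⟨k, hk⟩ := iha
    obtain ⟨l, hl⟩ := ihb
    refine ⟨max k l, fun v v' h => ?_⟩
    show a.val v + b.val v = a.val v' + b.val v'
    rw [hk v v' fun i hi => h i (lt_of_lt_of_le hi (le_max_left _ _)),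
      hl v v' fun i hi => h i (lt_of_lt_of_le hi (le_max_right _ _))]
  | mul a b iha ihb =>
    obtain ⟨k, hk⟩ := iha
    obtain ⟨l, hl⟩ := ihb
    refine ⟨max k l, fun v v' h => ?_⟩
    show a.val v * b.val v = a.val v' * b.val v'
    rw [hk v v' fun i hi => h i (lt_of_lt_of_le hi (le_max_left _ _)),
      hl v v' fun i hi => h i (lt_of_lt_of_le hi (le_max_right _ _))]

theorem ve_push {k : ℕ} {v v' : ℕ → ℕ} (h : ∀ i < k, v i = v' i) (m : ℕ) :
    ∀ i < k, push m v i = push m v' i := by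
  intro i hi
  cases i with
  | zero => rfl
  | succ i => exact h i (by omega)

/-- a formula depends on finitely many variables -/
theorem ve_fm (φ : Fm) : ∃ k : ℕ, ∀ (V : ℕ → Set ℕ) (v v' : ℕ → ℕ), (∀ i < k, v i = v' i) →
    (φ.Sat V v ↔ φ.Sat V v') := by
  induction φ with
  | eq a b =>
    obtain ⟨k, hk⟩ := ve_nt a
    obtain ⟨l, hl⟩ := ve_nt b
    refine ⟨max k l, fun V v v' h => ?_⟩
    show a.val v = b.val v ↔ a.val v' = b.val v'
    rw [hk v v' fun i hi => h i (lt_of_lt_of_le hi (le_max_left _ _)),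
      hl v v' fun i hi => h i (lt_of_lt_of_le hi (le_max_right _ _))]
  | lt a b =>
    obtain ⟨k, hk⟩ := ve_nt a
    obtain ⟨l, hl⟩ := ve_nt b
    refine ⟨max k l, fun V v v' h => ?_⟩
    show a.val v < b.val v ↔ a.val v' < b.val v'
    rw [hk v v' fun i hi => h i (lt_of_lt_of_le hi (le_max_left _ _)),
      hl v v' fun i hi => h i (lt_of_lt_of_le hi (le_max_right _ _))]
  | mem a X =>
    obtain ⟨k, hk⟩ := ve_nt a
    refine ⟨k, fun V v v' h => ?_⟩
    show a.val v ∈ V X ↔ a.val v' ∈ V X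
    rw [hk v v' h]
  | neg φ ih =>
    obtain ⟨k, hk⟩ := ih
    exact ⟨k, fun V v v' h => not_congr (hk V v v' h)⟩
  | and φ ψ ih1 ih2 =>
    obtain ⟨k, hk⟩ := ih1
    obtain ⟨l, hl⟩ := ih2
    exact ⟨max k l, fun V v v' h => and_congr
      (hk V v v' fun i hi => h i (lt_of_lt_of_le hi (le_max_left _ _)))
      (hl V v v' fun i hi => h i (lt_of_lt_of_le hi (le_max_right _ _)))⟩
  | ball s φ ih =>
    obtain ⟨k, hk⟩ := ve_nt s
    obtain ⟨l, hl⟩ := ih
    refine ⟨max k l, fun V v v' h => ?_⟩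
    show (∀ m, m < s.val v → φ.Sat V (push m v)) ↔ (∀ m, m < s.val v' → φ.Sat V (push m v'))
    rw [hk v v' fun i hi => h i (lt_of_lt_of_le hi (le_max_left _ _))]
    refine forall_congr' fun m => imp_congr_right fun _ => hl V _ _ ?_
    exact ve_push (fun i hi => h i (lt_of_lt_of_le hi (le_max_right _ _))) m
  | all φ ih =>
    obtain ⟨l, hl⟩ := ih
    refine ⟨l, fun V v v' h => ?_⟩
    show (∀ m, φ.Sat V (push m v)) ↔ (∀ m, φ.Sat V (push m v'))
    exact forall_congr' fun m => hl V _ _ (ve_push h m)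

/-- a bound for the witnesses -/
theorem ve_bound (R : ℕ → (ℕ → ℕ) → Prop) (k : ℕ)
    (hR : ∀ m v v', (∀ i < k, v i = v' i) → (R m v ↔ R m v')) (a : ℕ) :
    ∃ b : ℕ, ∀ v : ℕ → ℕ, (∀ i < k, v i ≤ a) → (∃ m, R m v) → ∃ m ≤ b, R m v := by
  classical
  obtain ⟨w, hw⟩ : ∃ w : (Fin k → Fin (a + 1)) → ℕ, ∀ u : Fin k → Fin (a + 1),
      (∃ m, R m (fun i => if h : i < k then (u ⟨i, h⟩ : ℕ) else 0)) →
        R (w u) (fun i => if h : i < k then (u ⟨i, h⟩ : ℕ) else 0) := by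
    have h1 : ∀ u : Fin k → Fin (a + 1), ∃ m0,
        (∃ m, R m (fun i => if h : i < k then (u ⟨i, h⟩ : ℕ) else 0)) →
          R m0 (fun i => if h : i < k then (u ⟨i, h⟩ : ℕ) else 0) := by
      intro u
      by_cases h : ∃ m, R m (fun i => if h : i < k then (u ⟨i, h⟩ : ℕ) else 0)
      · obtain ⟨m, hm⟩ := h
        exact ⟨m, fun _ => hm⟩
      · exact ⟨0, fun h' => absurd h' h⟩
    choose w hw using h1
    exact ⟨w, hw⟩
  refine ⟨Finset.univ.sup w, fun v hv hm => ?_⟩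
  obtain ⟨u, hu⟩ : ∃ u : Fin k → Fin (a + 1), u = fun i => ⟨v i, Nat.lt_succ_of_le (hv i i.2)⟩ :=
    ⟨_, rfl⟩
  have hag : ∀ i < k, v i = (fun i => if h : i < k then (u ⟨i, h⟩ : ℕ) else 0) i := by
    intro i hi
    simp only [hi, dif_pos, hu]
  refine ⟨w u, Finset.le_sup (Finset.mem_univ u), ?_⟩
  rw [hR _ v _ hag]
  apply hw
  obtain ⟨m, hm⟩ := hm
  exact ⟨m, (hR _ v _ hag).1 hm⟩

/-- for each `a` there are only finitely many assignments to the variables in `φ` with values at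
most `a` -/
theorem exists_dom (φ : Fm) : ∃ q : ℕ → ℕ, ∀ p : ℕ → ℕ, (∀ n, q n ≤ p n) → φ.Dom p := by
  induction φ with
  | eq a b => exact ⟨fun _ => 0, fun _ _ => trivial⟩
  | lt a b => exact ⟨fun _ => 0, fun _ _ => trivial⟩
  | mem a X => exact ⟨fun _ => 0, fun _ _ => trivial⟩
  | neg φ ih => exact ih
  | and φ ψ ih1 ih2 =>
    obtain ⟨q1, h1⟩ := ih1
    obtain ⟨q2, h2⟩ := ih2
    exact ⟨fun n => max (q1 n) (q2 n), fun p hp =>
      ⟨h1 p fun n => (le_max_left _ _).trans (hp n), h2 p fun n => (le_max_right _ _).trans (hp n)⟩⟩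
  | ball s φ ih => exact ih
  | all φ ih =>
    obtain ⟨q1, h1⟩ := ih
    obtain ⟨k, hk⟩ := ve_fm φ
    have h2 := ve_bound (fun m v => ¬ φ.Sat (fun _ => ∅) (push m v)) k
      (fun m v v' h => not_congr (hk _ _ _ (ve_push h m)))
    choose q2 hq2 using h2
    refine ⟨fun n => max (q1 n) (q2 n), fun p hp =>
      ⟨h1 p fun n => (le_max_left _ _).trans (hp n), k, fun v a hv hm => ?_⟩⟩
    obtain ⟨m, h3, h4⟩ := hq2 a v hv hm
    exact ⟨m, h3.trans ((le_max_right _ _).trans (hp a)), h4⟩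

variable {F D : Set (ℕ → ℕ)}

theorem ve_empty : (fun _ : ℕ => {_x : ℕ | (1 : ℕ) = 0}) = fun _ => (∅ : Set ℕ) := by
  funext k
  ext x
  simp

/-- sums of values -/
theorem ve_sum [hD : DomOp D] (t : ℕ → ↥D) (k : ℕ) :
    ∃ f ∈ D, ∀ n, ∀ i < k, (t i).1 n ≤ f n := by
  induction k with
  | zero => exact ⟨_, hD.zero, fun n i hi => absurd hi (Nat.not_lt_zero i)⟩
  | succ k ih =>
    obtain ⟨f, hf, h⟩ := ih
    refine ⟨_, hD.add _ hf _ (t k).2, fun n i hi => ?_⟩
    rcases Nat.lt_succ_iff_lt_or_eq.1 hi with h1 | h1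
    · have := h n i h1
      omega
    · subst h1
      omega

/-- the theorem of Łoś for formulas with dominated quantifiers -/
theorem sat_dom [DomOp D] (hI : IsInit F D) {p : ℕ → ℕ} (hp : ∀ f ∈ D, (fun n => p (f n)) ∈ D)
    (φ : Fm) (hφ : φ.Dom p) : ∀ t : ℕ → ↥D,
    (φ.Sat (fun _ => ∅) (fun i => cl (t i)) ↔
      Ev (fun n => φ.Sat (fun _ => ∅) (fun i => (t i).1 n))) := by
  induction φ with
  | eq a b =>
    intro t
    show a.val (fun i => cl (t i)) = b.val (fun i => cl (t i)) ↔ _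
    rw [val_cl a t (val_mem a t), val_cl b t (val_mem b t), cl_eq]
    rfl
  | lt a b =>
    intro t
    show a.val (fun i => cl (t i)) < b.val (fun i => cl (t i)) ↔ _
    rw [val_cl a t (val_mem a t), val_cl b t (val_mem b t), cl_lt]
    rfl
  | mem a X =>
    intro t
    constructor
    · intro h
      exact absurd h (Set.notMem_empty _)
    · intro h
      exact (Ev.false (h.mono fun n hn => absurd hn (Set.notMem_empty _))).elim
  | neg φ ih =>
    intro t
    show ¬ _ ↔ Ev (fun n => ¬ _)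
    rw [Ev_not]
    exact not_congr (ih hφ t)
  | and φ ψ ih1 ih2 =>
    intro t
    show _ ∧ _ ↔ Ev (fun n => _ ∧ _)
    rw [Ev_and]
    exact and_congr (ih1 hφ.1 t) (ih2 hφ.2 t)
  | ball s φ ih =>
    intro t
    have h := vb_ball hI s φ (fun _ => ∅) (fun _ _ => 1) (fun _ => hI.clone.const 1)
      (fun t => by rw [ve_empty]; exact ih hφ t) t
    rw [ve_empty] at h
    exact h
  | all φ ih =>
    intro t
    have ht : ∀ i, (t i).1 ∈ F := fun i => hI.sub (t i).2
    obtain ⟨hφ1, k, hk⟩ := hφ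
    constructor
    · intro h1
      by_contra hcon
      rw [← Ev_not] at hcon
      obtain ⟨a, ha, hta⟩ := ve_sum t k
      have hpa := hp a ha
      have hsat := hI.clone.va2push φ (hI.clone.sat φ) (fun i => (t i).1) (fun _ _ => 1) ht
        (fun _ => hI.clone.const 1)
      rw [ve_empty] at hsat
      obtain ⟨f, hf, hf1⟩ := hI.clone.choice (P := fun m n => m ≤ p (a n) ∧
        ¬ φ.Sat (fun _ => ∅) (push m (fun i => (t i).1 n)))
        (hI.clone.iAnd (hI.clone.iLe hI.clone.fst (hI.clone.comp _ (hI.sub hpa) _ hI.clone.snd))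
          (hI.clone.iNot hsat))
      have hE : Ev (fun n => f n ≤ p (a n) ∧
          ¬ φ.Sat (fun _ => ∅) (push (f n) (fun i => (t i).1 n))) := by
        refine hcon.mono fun n hn => hf1 n ?_
        apply hk _ (a n) (hta n)
        by_contra h2
        push Not at h2
        exact hn h2
      rw [Ev_and] at hE
      have hfD : f ∈ D := hI.init f hf _ hpa hE.1
      have h2 := h1 (cl ⟨f, hfD⟩)
      rw [← vbPush_cl, ih hφ1] at h2
      refine Ev.false ((h2.and hE.2).mono fun n hn => ?_)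
      rw [vbPush_val] at hn
      exact hn.2 hn.1
    · intro h1 m
      obtain ⟨f, rfl⟩ := cl_surj m
      rw [← vbPush_cl, ih hφ1]
      refine h1.mono fun n hn => ?_
      rw [vbPush_val]
      exact hn _

theorem cl_mem_set [DomOp D] (hI : IsInit F D) {p : ℕ → ℕ}
    (hp : ∀ f ∈ D, (fun n => p (f n)) ∈ D) {φ : Fm} (hφ : φ.Dom p) (f : ↥D) :
    cl f ∈ φ.set (Md D) ↔ Ev (fun n => f.1 n ∈ φ.set ℕ) :=
  sat_dom hI hp φ hφ (fun _ => f)

end Kriz.PTO
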