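import Pool.Agent.Work.MP_0f6836_lc.PTO.VX2
import Pool.Agent.Work.MP_0f6836_lc.PTO.VE
import Pool.Agent.Work.MP_0f6836_lc.PTO.RK1
import Pool.Agent.Work.MP_0f6836_lc.PTO.RK2

/-!
# Block VZ: upper bound for the proof-theoretic ordinal
-/

namespace Kriz.PTO

open Kriz Ordinal

theorem vz_pow_lt (n : ℕ) {β : Ordinal.{0}} (h : β < kappa ^ n) :
    β < kappa ^ (ω : Ordinal.{0}) := by
  have hk : (0 : Ordinal.{0}) < kappa := omega0_pos.trans_le omega_le_kappa
  refine h.trans_le ?_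
  rw [← opow_natCast kappa n]
  exact opow_le_opow_right hk (natCast_lt_omega0 n).le

/-- the data for the construction: choose `cd`, the ranks, an embedding `e` of `κ ^ ω` into the
given well-ordering, then `p` (above all bounds that are needed), the scale `s` and a countable
family `F` that contains all functions that are needed, in particular
`g n k = e (β n k)` for the sequences `β n` of `descend` with `m = n`, `a = n`, `b = B n - 1`, where
`B n` is least with `s.Lg (s.K ^ n) n (B n)`. -/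
theorem not_proves {τ ε o l : Fm} (hτ : τ.set ℕ = trees) (hε : ε.set ℕ = krizLe)
    {α : Ordinal.{0}} (hα : kappa ^ (ω : Ordinal.{0}) ≤ α)
    (hol : OrdType (o.set ℕ) (l.set ℕ) α) : ¬ Proves τ ε o l := by
  classical
  obtain ⟨r, r1, r2, r3⟩ := hol
  have hex : ∀ β : Ordinal.{0}, ∃ x : ℕ, β < α → x ∈ o.set ℕ ∧ r x = β := by
    intro β
    by_cases h : β < α
    · have : β ∈ r '' o.set ℕ := by rw [r2]; exact h
      obtain ⟨x, hx, hr⟩ := this
      exact ⟨x, fun _ => ⟨hx, hr⟩⟩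
    · exact ⟨0, fun h' => absurd h' h⟩
  choose e he using hex
  have he1 : ∀ β γ : Ordinal.{0}, β < γ → γ < α → pr (e β) (e γ) ∈ l.set ℕ := by
    intro β γ h1 h2
    obtain ⟨a1, a2⟩ := he β (h1.trans h2)
    obtain ⟨b1, b2⟩ := he γ h2
    rw [r3 _ a1 _ b1, a2, b2]
    exact h1
  obtain ⟨R, R1, R2⟩ := exists_rank
  obtain ⟨cd, cd1, cd2⟩ := exists_cd
  obtain ⟨qR, hqR⟩ := exists_bound (fun σ => cd (R σ))
  obtain ⟨q1, hq1⟩ := exists_dom τ
  obtain ⟨q2, hq2⟩ := exists_dom ε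
  obtain ⟨q3, hq3⟩ := exists_dom o
  obtain ⟨q4, hq4⟩ := exists_dom l
  let s₀ : Scale := ⟨kappa, cd, fun n => 2 * n + 4, omega_le_kappa, cd1, cd2,
    fun a b h => by show 2 * a + 4 ≤ 2 * b + 4; omega, fun n => le_rfl⟩
  have hqe : ∀ n, ∃ q : ℕ, ∀ β, (∃ k : ℕ, β < kappa ^ k) → s₀.Nb n β → e β ≤ q := by
    intro n
    obtain ⟨q, hq⟩ := ((s₀.Nb_finite n).image e).bddAbove
    exact ⟨q, fun β h1 h2 => hq ⟨β, ⟨h1, h2⟩, rfl⟩⟩
  choose qe hqe using hqe
  obtain ⟨p, p1, p2, p3⟩ := exists_majorant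
    (fun n => qR n + q1 n + q2 n + q3 n + q4 n + qe n + n * n)
  let s : Scale := ⟨kappa, cd, p, omega_le_kappa, cd1, cd2, p1, p2⟩
  have hNb : ∀ n β, s.Nb n β → s₀.Nb n β := fun n β h => h
  have hR : Rk s trees kle :=
    { R := R, lt := R1, desc := R2
      bound := fun σ n _ _ h1 h2 => (hqR σ n h1 h2).trans (by
        have := p3 n
        show qR n ≤ p n
        omega) }
  have hB : ∀ n, ∃ b, s.Lg (s.K ^ n) n b := fun n => Scale.exists_Lg (k := n) le_rfl n
  have hBn : ∀ n, n < Nat.find (hB n) := by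
    intro n
    have h1 := Nat.find_spec (hB n)
    have h2 : (0 : Ordinal.{0}) < s.K ^ n := pow_pos s.K_pos n
    have h3 := (Scale.Lg.step h1 h2 (s.Nb_zero n)).le
    have h4 : 2 * n + 4 ≤ s.p n := p2 n
    omega
  have hd : ∀ n, ∃ β : ℕ → Ordinal.{0}, ∀ k, s.p^[k] n ≤ Nat.find (hB n) - 1 →
      β k < s.K ^ n ∧ s.Nb (s.p^[k] n) (β k) ∧
      (s.p^[k + 1] n ≤ Nat.find (hB n) - 1 → β (k + 1) < β k) := by
    intro n
    have := hBn n
    refine Scale.descend (by omega) (Nat.find_min (hB n) (by omega))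
  choose β hβ using hd
  let g : ℕ → ℕ → ℕ := fun n k => e (β n k)
  let Bs : Set (ℕ → ℕ) := {p, fun n => p^[n.unpair.1] n.unpair.2,
    fun n => if n ∈ trees then 0 else 1, fun n => if kle n.unpair.1 n.unpair.2 then 0 else 1,
    fun n => if s.Lg (s.K ^ n.unpair.1) n.unpair.2.unpair.1 n.unpair.2.unpair.2 then 0 else 1,
    fun n => Nat.find (hB n), fun n => g n.unpair.1 n.unpair.2}
  have hBs : Bs.Countable := by
    refine Set.Finite.countable ?_
    exact Set.toFinite _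
  obtain ⟨F, F1, F2, F3⟩ := exists_clone Bs hBs
  have hC : CutData s F trees kle :=
    { clone := F3
      count := F1
      rk := hR
      hX := F2 (by simp [Bs])
      hle := F2 (by simp [Bs])
      hp := F2 (by simp [Bs, s])
      hp2 := F2 (by simp [Bs, s])
      hLg := F2 (by simp [Bs])
      hsq := fun n => by
        have := p3 n
        show n * n ≤ p n
        omega }
  obtain ⟨D, D1, D2, D3, D4, D5, D6, D7⟩ := exists_cut hC (c := fun n => n)
    (b := fun n => Nat.find (hB n)) F3.id (F2 (by simp [Bs])) (fun n => Nat.find_spec (hB n))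
    (fun n => le_rfl)
  intro hP
  have hmem : ∀ {φ : Fm}, φ.Dom p → ∀ f : ↥D, cl f ∈ φ.set (Md D) ↔
      Ev (fun n => f.1 n ∈ φ.set ℕ) := fun hφ f => cl_mem_set D2 D5 hφ f
  have hdom : ∀ q : ℕ → ℕ, (∀ n, q n ≤ qR n + q1 n + q2 n + q3 n + q4 n + qe n + n * n) →
      ∀ n, q n ≤ p n := fun q hq n => (hq n).trans (p3 n)
  have d1 : τ.Dom p := hq1 p (hdom q1 fun n => by omega)
  have d2 : ε.Dom p := hq2 p (hdom q2 fun n => by omega)
  have d3 : o.Dom p := hq3 p (hdom q3 fun n => by omega)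
  have d4 : l.Dom p := hq4 p (hdom q4 fun n => by omega)
  have hgood : GoodIn (St F D) (τ.set (Md D)) (ε.set (Md D)) := by
    refine goodIn_cut D2 hC.hX hC.hle D4 _ _ (fun f => ?_) (fun f f' h => ?_)
    · rw [hmem d1, hτ]
    · rw [cl_pr, hmem d2, hε]
      exact h
  have hwo := (hP (Md D) (St F D) (isRCA0_cut D2 D3) hgood).2
  refine not_woIn_cut D2 p (fun n => n) (fun n => Nat.find (hB n) - 1) D5 (fun f hf => ?_) D7 g
    (F2 (by simp [Bs])) (o.set ℕ) (l.set ℕ) (fun n k hk => ?_) _ _ (fun f h => ?_)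
    (fun f f' h => ?_) hwo
  · exact (D6 f hf).mono fun n hn => by
      show f n ≤ Nat.find (hB n) - 1
      omega
  · obtain ⟨h1, h2, h3⟩ := hβ n k hk
    have h4 : β n k < α := (vz_pow_lt n h1).trans_le hα
    refine ⟨(he _ h4).1, ?_, fun h5 => he1 _ _ (h3 h5) h4⟩
    have h6 := hqe (s.p^[k] n) (β n k) ⟨n, h1⟩ (hNb _ _ h2)
    exact h6.trans (hdom qe (fun n => by omega) _)
  · rw [hmem d3]
    exact h
  · rw [cl_pr, hmem d4]
    exact h

end Kriz.PTO
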