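import Pool.Agent.Work.MP_0f6836_lc.PTO.LZ
import Pool.Agent.Work.MP_0f6836_lc.PTO.VZ

/-!
# The proof-theoretic ordinal of `RCA_0` + Kriz's theorem
-/

namespace Kriz.PTO

open Kriz Ordinal

theorem exists_formulas : ∃ τ ε : Fm, τ.IsSigma ∧ ε.IsSigma ∧ τ.set ℕ = trees ∧
    ε.set ℕ = krizLe := by
  obtain ⟨θ, h1, h2⟩ := exists_sigma_set re_trees
  obtain ⟨η, h3, h4⟩ := exists_sigma_set re_krizLe
  exact ⟨θ.ex, η.ex, ⟨θ, h1, rfl⟩, ⟨η, h3, rfl⟩, h2, h4⟩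

/-- **Main theorem**: the proof-theoretic ordinal of `RCA_0` + Kriz's theorem is `κ ^ ω`. -/
theorem main_pto {τ ε : Fm} (hτ : τ.IsSigma) (hε : ε.IsSigma) (hτ' : τ.set ℕ = trees)
    (hε' : ε.set ℕ = krizLe) (K : Fm → Prop) (hK : ∀ φ : Fm, φ.Bdd → K φ) :
    IsLUB {α : Ordinal.{0} | ∃ o l : Fm, K o ∧ K l ∧ OrdType (o.set ℕ) (l.set ℕ) α ∧
      Proves τ ε o l} (kappa ^ (ω : Ordinal.{0})) := by
  constructor
  · rintro α ⟨o, l, -, -, h1, h2⟩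
    by_contra hα
    exact not_proves hτ' hε' (not_le.1 hα).le h1 h2
  · intro β hβ
    by_contra hlt
    have hlt : β < kappa ^ (ω : Ordinal.{0}) := not_le.1 hlt
    have hk : (1 : Ordinal.{0}) < kappa := one_lt_omega0.trans_le omega_le_kappa
    obtain ⟨γ, hγ, hβγ⟩ := (lt_opow_of_isSuccLimit (zero_lt_one.trans hk).ne'
      isSuccLimit_omega0).1 hlt
    obtain ⟨n, rfl⟩ := lt_omega0.1 hγ
    obtain ⟨o, l, h1, h2, h3, h4⟩ := proves_power hτ hε hτ' hε' n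
    have h5 : kappa ^ (n + 1) ≤ β := hβ ⟨o, l, hK _ h1, hK _ h2, h3, h4⟩
    have h6 : kappa ^ (n : Ordinal.{0}) ≤ kappa ^ (n + 1) := by
      rw [← opow_natCast kappa (n + 1)]
      exact opow_le_opow_right (zero_lt_one.trans hk) (by exact_mod_cast Nat.le_succ n)
    exact absurd (hβγ.trans_le h6) (not_lt_of_ge h5)

end Kriz.PTO
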