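import Pool.Agent.Work.MP_0f6836_lc.Off

/-!
# Formulas of second-order arithmetic, models of `RCA_0`, proof-theoretic ordinals
-/

namespace Kriz.PTO

open Kriz

/-! ## Formulas -/

/-- number terms; `var i` is the `i`-th number variable (de Bruijn indices) -/
inductive NT : Type
  | var (i : ℕ)
  | zero
  | one
  | add (a b : NT)
  | mul (a b : NT)

/-- formulas of second-order arithmetic without set quantifiers; `mem a X` says that the number
`a` lies in the set variable number `X`; `ball t φ` is `∀ x < t, φ` and `all φ` is `∀ x, φ`, where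
the bound variable `x` is `var 0` in `φ` and the other variables of `φ` are shifted by one -/
inductive Fm : Type
  | eq (a b : NT)
  | lt (a b : NT)
  | mem (a : NT) (X : ℕ)
  | neg (φ : Fm)
  | and (φ ψ : Fm)
  | ball (t : NT) (φ : Fm)
  | all (φ : Fm)

/-- put `a` in front of the sequence `v` -/
def push {α : Type*} (a : α) (v : ℕ → α) : ℕ → α
  | 0 => a
  | i + 1 => v i

universe u

variable {M : Type u} [Zero M] [One M] [Add M] [Mul M] [LT M]

/-- the value of a term -/
def NT.val : NT → (ℕ → M) → M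
  | var i, v => v i
  | zero, _ => 0
  | one, _ => 1
  | add a b, v => a.val v + b.val v
  | mul a b, v => a.val v * b.val v

/-- satisfaction, for values `V` of the set variables and `v` of the number variables -/
def Fm.Sat (V : ℕ → Set M) : Fm → (ℕ → M) → Prop
  | eq a b, v => a.val v = b.val v
  | lt a b, v => a.val v < b.val v
  | mem a X, v => a.val v ∈ V X
  | neg φ, v => ¬ Sat V φ v
  | and φ ψ, v => Sat V φ v ∧ Sat V ψ v
  | ball t φ, v => ∀ m, m < t.val v → Sat V φ (push m v)
  | all φ, v => ∀ m, Sat V φ (push m v)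

/-- bounded formulas -/
def Fm.Bdd : Fm → Prop
  | eq _ _ => True
  | lt _ _ => True
  | mem _ _ => True
  | neg φ => Bdd φ
  | and φ ψ => Bdd φ ∧ Bdd ψ
  | ball _ φ => Bdd φ
  | all _ => False

/-- `∃ x, φ` -/
def Fm.ex (φ : Fm) : Fm := .neg (.all (.neg φ))

/-- `Σ₁` formulas: `∃ x, θ` with `θ` bounded -/
def Fm.IsSigma (φ : Fm) : Prop := ∃ θ : Fm, θ.Bdd ∧ φ = θ.ex

/-- the set of all `m` with `φ(m)` (all number variables get the value `m`, all set variables the
empty set) -/
def Fm.set (M : Type u) [Zero M] [One M] [Add M] [Mul M] [LT M] (φ : Fm) : Set M :=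
  {m | φ.Sat (fun _ => ∅) (fun _ => m)}

/-! ## Models of `RCA_0` -/

/-- The structure `(M, S, 0, 1, +, ·, <)`, in which the set quantifiers range over the family `S`
of subsets of `M`, is a model of `RCA_0`: basic axioms, induction for `Σ⁰₁` formulas and
comprehension for `Δ⁰₁` formulas (with number and set parameters). -/
structure IsRCA0 (S : Set (Set M)) : Prop where
  nonempty : S.Nonempty
  succ_ne_zero : ∀ m : M, m + 1 ≠ 0
  succ_inj : ∀ m n : M, m + 1 = n + 1 → m = n
  add_zero : ∀ m : M, m + 0 = m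
  add_succ : ∀ m n : M, m + (n + 1) = (m + n) + 1
  mul_zero : ∀ m : M, m * 0 = 0
  mul_succ : ∀ m n : M, m * (n + 1) = m * n + m
  not_lt_zero : ∀ m : M, ¬ m < 0
  lt_succ : ∀ m n : M, m < n + 1 ↔ m < n ∨ m = n
  ind : ∀ θ : Fm, θ.Bdd → ∀ (V : ℕ → Set M) (v : ℕ → M), (∀ k, V k ∈ S) →
    θ.ex.Sat V (push 0 v) →
    (∀ m, θ.ex.Sat V (push m v) → θ.ex.Sat V (push (m + 1) v)) →
    ∀ m, θ.ex.Sat V (push m v)
  comp : ∀ θ θ' : Fm, θ.Bdd → θ'.Bdd → ∀ (V : ℕ → Set M) (v : ℕ → M), (∀ k, V k ∈ S) →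
    (∀ m, θ.ex.Sat V (push m v) ↔ ¬ θ'.ex.Sat V (push m v)) →
    {m | θ.ex.Sat V (push m v)} ∈ S

/-- the pair `(m + n)² + m` -/
def pr (m n : M) : M := (m + n) * (m + n) + m

/-- `F` codes a function from `M` to `M` -/
def IsFun (F : Set M) : Prop := ∀ n, ∃! y, pr n y ∈ F

/-- every sequence in `S` of elements of `T` is good for the relation coded by `E` -/
def GoodIn (S : Set (Set M)) (T E : Set M) : Prop :=
  ∀ F ∈ S, IsFun F → (∀ n y, pr n y ∈ F → y ∈ T) →
    ∃ m n y z, m < n ∧ pr m y ∈ F ∧ pr n z ∈ F ∧ pr y z ∈ E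

/-- the relation coded by `L` is a strict linear ordering of `O` -/
def LinIn (O L : Set M) : Prop :=
  (∀ x ∈ O, pr x x ∉ L) ∧
  (∀ x ∈ O, ∀ y ∈ O, ∀ z ∈ O, pr x y ∈ L → pr y z ∈ L → pr x z ∈ L) ∧
  ∀ x ∈ O, ∀ y ∈ O, x = y ∨ pr x y ∈ L ∨ pr y x ∈ L

/-- no sequence in `S` of elements of `O` is strictly descending in the relation coded by `L` -/
def WOIn (S : Set (Set M)) (O L : Set M) : Prop :=
  ¬ ∃ F ∈ S, IsFun F ∧ (∀ n y, pr n y ∈ F → y ∈ O) ∧
    ∀ n y z, pr n y ∈ F → pr (n + 1) z ∈ F → pr z y ∈ L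

/-! ## Kriz's quasiordering on natural numbers -/

/-- the code of a description of a tree -/
def code : KT → ℕ
  | .nil => 0
  | .cons l s r => Nat.pair l (Nat.pair (code s) (code r)) + 1

/-- `n` is the code of (a description of) the finite rooted tree `T` with labelled edges -/
def Codes (n : ℕ) (T : LTree) : Prop := ∃ t, T.Unf T.root t ∧ n = code t

/-- codes of finite rooted trees with positive integer edge labels -/
def trees : Set ℕ := {n | ∃ T, Codes n T}

/-- Kriz's quasiordering on codes -/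
def krizLe : Set ℕ := {n | ∃ a b S T, Codes a S ∧ Codes b T ∧ S.Le T ∧ n = pr a b}

/-! ## Proof-theoretic ordinals -/

/-- `(O, L)` is a well-ordering of the natural numbers in `O`, of order type `α` -/
def OrdType (O L : Set ℕ) (α : Ordinal.{0}) : Prop :=
  ∃ r : ℕ → Ordinal.{0}, Set.InjOn r O ∧ r '' O = Set.Iio α ∧
    ∀ x ∈ O, ∀ y ∈ O, pr x y ∈ L ↔ r x < r y

/-- The theory `RCA_0` + `every sequence of elements of τ is good for ε` proves that `(o, l)` is a
well-ordering, i.e. a linear ordering without descending sequences: this holds in all models. -/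
def Proves (τ ε o l : Fm) : Prop :=
  ∀ (M : Type) [Zero M] [One M] [Add M] [Mul M] [LT M] (S : Set (Set M)), IsRCA0 S →
    GoodIn S (τ.set M) (ε.set M) →
      LinIn (o.set M) (l.set M) ∧ WOIn S (o.set M) (l.set M)

end Kriz.PTO
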