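import Pool.Agent.Work.MP_0f6836_lc.PTO.Syn
import Pool.Agent.Work.MP_0f6836_lc.UB.Max

/-!
# Block TA1: codes of trees
-/

namespace Kriz.PTO

open Kriz

theorem code_surj : Function.Surjective code := by
  intro n
  induction n using Nat.strong_induction_on with
  | _ n ih =>
    rcases n with _ | m
    · exact ⟨.nil, rfl⟩
    · obtain ⟨l, c, hlc⟩ : ∃ l c, Nat.pair l c = m := ⟨_, _, Nat.pair_unpair _⟩
      obtain ⟨a, b, hab⟩ : ∃ a b, Nat.pair a b = c := ⟨_, _, Nat.pair_unpair _⟩
      have hc : c ≤ m := hlc ▸ Nat.right_le_pair l c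
      have ha : a ≤ c := hab ▸ Nat.left_le_pair a b
      have hb : b ≤ c := hab ▸ Nat.right_le_pair a b
      obtain ⟨s, hs⟩ := ih a (by omega)
      obtain ⟨r, hr⟩ := ih b (by omega)
      exact ⟨.cons l s r, by simp only [code, hs, hr, hab, hlc]⟩

theorem code_inj : Function.Injective code := by
  intro x
  induction x with
  | nil =>
    intro y h
    cases y <;> simp only [code] at h
    · rfl
    · omega
  | cons l s r ihs ihr =>
    intro y h
    cases y <;> simp only [code] at h
    · omega
    · have h1 := Nat.add_right_cancel h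
      rw [Nat.pair_eq_pair, Nat.pair_eq_pair] at h1
      obtain ⟨rfl, h2, h3⟩ := h1
      rw [ihs h2, ihr h3]

/-- the decision procedure for positivity on codes -/
def ta1Pos : ℕ → ℕ
  | 0 => 1
  | m + 1 =>
    have h1 : m.unpair.2.unpair.1 < m + 1 :=
      Nat.lt_succ_of_le ((Nat.unpair_left_le _).trans (Nat.unpair_right_le _))
    have h2 : m.unpair.2.unpair.2 < m + 1 :=
      Nat.lt_succ_of_le ((Nat.unpair_right_le _).trans (Nat.unpair_right_le _))
    if 0 < m.unpair.1 ∧ ta1Pos m.unpair.2.unpair.1 = 1 ∧ ta1Pos m.unpair.2.unpair.2 = 1 then 1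
    else 0

/-- the step of the course-of-values recursion -/
def ta1Step (L : List ℕ) : ℕ :=
  if L.length = 0 then 1
  else if 0 < (L.length - 1).unpair.1 ∧ L.getD (L.length - 1).unpair.2.unpair.1 0 = 1 ∧
      L.getD (L.length - 1).unpair.2.unpair.2 0 = 1 then 1 else 0

theorem ta1_getD (f : ℕ → ℕ) (n i : ℕ) (h : i < n) :
    ((List.range n).map f).getD i 0 = f i := by
  rw [List.getD_eq_getElem _ _ (by simpa using h)]
  simp

theorem ta1Step_eq (n : ℕ) : ta1Step ((List.range n).map ta1Pos) = ta1Pos n := by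
  rcases n with _ | m
  · simp [ta1Step, ta1Pos]
  · have h1 : m.unpair.2.unpair.1 < m + 1 :=
      Nat.lt_succ_of_le ((Nat.unpair_left_le _).trans (Nat.unpair_right_le _))
    have h2 : m.unpair.2.unpair.2 < m + 1 :=
      Nat.lt_succ_of_le ((Nat.unpair_right_le _).trans (Nat.unpair_right_le _))
    rw [ta1Step, ta1Pos]
    rw [if_neg (by simp)]
    have hl : ((List.range (m + 1)).map ta1Pos).length - 1 = m := by simp
    rw [hl, ta1_getD _ _ _ h1, ta1_getD _ _ _ h2]

theorem ta1Step_primrec : Primrec ta1Step := by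
  have hlen : Primrec (fun L : List ℕ => L.length) := Primrec.list_length
  have hpred : Primrec (fun L : List ℕ => L.length - 1) :=
    Primrec.nat_sub.comp hlen (Primrec.const 1)
  have hu := Primrec.unpair.comp hpred
  have hu2 := Primrec.unpair.comp (Primrec.snd.comp hu)
  have ha := (Primrec.list_getD (0 : ℕ)).comp (Primrec.id) (Primrec.fst.comp hu2)
  have hb := (Primrec.list_getD (0 : ℕ)).comp (Primrec.id) (Primrec.snd.comp hu2)
  refine Primrec.ite (Primrec.eq.comp hlen (Primrec.const 0)) (Primrec.const 1) ?_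
  refine Primrec.ite ?_ (Primrec.const 1) (Primrec.const 0)
  refine PrimrecPred.and (Primrec.nat_lt.comp (Primrec.const 0) (Primrec.fst.comp hu)) ?_
  exact PrimrecPred.and (Primrec.eq.comp ha (Primrec.const 1)) (Primrec.eq.comp hb (Primrec.const 1))

theorem ta1Pos_primrec : Primrec ta1Pos := by
  have h : Primrec₂ (fun (_ : Unit) (n : ℕ) => ta1Pos n) := by
    refine Primrec.nat_strong_rec (fun (_ : Unit) (n : ℕ) => ta1Pos n)
      (g := fun _ L => some (ta1Step L)) ?_ ?_
    · exact Primrec.option_some.comp (ta1Step_primrec.comp Primrec.snd)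
    · intro a n
      exact congrArg some (ta1Step_eq n)
  exact h.comp (Primrec.const ()) Primrec.id

theorem ta1Pos_code (t : KT) : ta1Pos (code t) = 1 ↔ t.Pos := by
  induction t with
  | nil => simp [code, ta1Pos, KT.Pos]
  | cons l s r ihs ihr =>
    simp only [code, KT.Pos]
    rw [ta1Pos]
    simp only [Nat.unpair_pair]
    rw [← ihs, ← ihr]
    by_cases h : 0 < l ∧ ta1Pos (code s) = 1 ∧ ta1Pos (code r) = 1
    · simp [h]
    · rw [if_neg h]
      simp only [Nat.zero_ne_one, false_iff]
      exact h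

/-- positivity of the labels is primitive recursive -/
theorem primrec_pos : ∃ K : ℕ → ℕ, Nat.Primrec K ∧ ∀ t : KT, K (code t) = 1 ↔ t.Pos :=
  ⟨ta1Pos, Primrec.nat_iff.1 ta1Pos_primrec, ta1Pos_code⟩

end Kriz.PTO
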