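import Pool.Agent.Work.MP_0f6836_lc.PTO.TA1

/-!
# Block TA2: Kriz's embeddability relation on codes is recursively enumerable

`Emb 1 s t` is in fact primitive recursive. Here it is enumerated by derivations: `TA2f n` is the
statement proved by the derivation with number `n`, in a calculus for the statements
`T.ch ~ S.ch` (permutation), `At T S` and `Emb l T S`.
-/

namespace Kriz.PTO

open Kriz

/-- statements `(kind, label, code, code)` -/
abbrev TA2S : Type := ℕ × ℕ × ℕ × ℕ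

/-- code of `cons` -/
def TA2cn (m c r : ℕ) : ℕ := Nat.pair m (Nat.pair c r) + 1

/-- the rules -/
def TA2F (a : ℕ × TA2S × TA2S × ℕ) : TA2S :=
  if a.1 = 0 then (0, 0, a.2.2.2, a.2.2.2)
  else if a.1 = 1 then
    (if a.2.1.1 = 0 then
      (0, 0, TA2cn a.2.2.2.unpair.1 a.2.2.2.unpair.2 a.2.1.2.2.1,
        TA2cn a.2.2.2.unpair.1 a.2.2.2.unpair.2 a.2.1.2.2.2)
      else (0, 0, 0, 0))
  else if a.1 = 2 then
    (0, 0, TA2cn a.2.2.2.unpair.1.unpair.1 a.2.2.2.unpair.1.unpair.2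
        (TA2cn a.2.2.2.unpair.2.unpair.1.unpair.1 a.2.2.2.unpair.2.unpair.1.unpair.2
          a.2.2.2.unpair.2.unpair.2),
      TA2cn a.2.2.2.unpair.2.unpair.1.unpair.1 a.2.2.2.unpair.2.unpair.1.unpair.2
        (TA2cn a.2.2.2.unpair.1.unpair.1 a.2.2.2.unpair.1.unpair.2
          a.2.2.2.unpair.2.unpair.2))
  else if a.1 = 3 then
    (if a.2.1.1 = 0 ∧ a.2.2.1.1 = 0 ∧ a.2.1.2.2.2 = a.2.2.1.2.2.1 then
      (0, 0, a.2.1.2.2.1, a.2.2.1.2.2.2) else (0, 0, 0, 0))
  else if a.1 = 4 then (1, 0, 0, a.2.2.2)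
  else if a.1 = 5 then
    (if a.2.1.1 = 1 ∧ a.2.2.1.1 = 2 ∧ a.2.2.1.2.1 ≤ a.2.2.2 then
      (1, 0, TA2cn a.2.2.1.2.1 a.2.2.1.2.2.1 a.2.1.2.2.1,
        TA2cn a.2.2.2 a.2.2.1.2.2.2 a.2.1.2.2.2) else (0, 0, 0, 0))
  else if a.1 = 6 then
    (if a.2.1.1 = 1 ∧ a.2.2.1.1 = 0 ∧ a.2.1.2.2.2 = a.2.2.1.2.2.1 then
      (1, 0, a.2.1.2.2.1, a.2.2.1.2.2.2) else (0, 0, 0, 0))
  else if a.1 = 7 then
    (if a.2.1.1 = 1 then (2, a.2.2.2, a.2.1.2.2.1, a.2.1.2.2.2) else (0, 0, 0, 0))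
  else if a.1 = 8 then
    (if a.2.1.1 = 2 ∧ a.2.1.2.1 ≤ a.2.2.2.unpair.1 then
      (2, a.2.1.2.1, a.2.1.2.2.1, TA2cn a.2.2.2.unpair.1 a.2.1.2.2.2 a.2.2.2.unpair.2)
      else (0, 0, 0, 0))
  else
    (if a.2.1.1 = 2 ∧ a.2.2.1.1 = 0 ∧ a.2.1.2.2.2 = a.2.2.1.2.2.1 then
      (2, a.2.1.2.1, a.2.1.2.2.1, a.2.2.1.2.2.2) else (0, 0, 0, 0))

section prim

variable {α : Type*} [Primcodable α]

theorem TA2cn_primrec {f g h : α → ℕ} (hf : Primrec f) (hg : Primrec g) (hh : Primrec h) :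
    Primrec fun a => TA2cn (f a) (g a) (h a) :=
  Primrec.succ.comp (Primrec₂.natPair.comp hf (Primrec₂.natPair.comp hg hh))

theorem TA2_u1 {f : α → ℕ} (hf : Primrec f) : Primrec fun a => (f a).unpair.1 :=
  Primrec.fst.comp (Primrec.unpair.comp hf)

theorem TA2_u2 {f : α → ℕ} (hf : Primrec f) : Primrec fun a => (f a).unpair.2 :=
  Primrec.snd.comp (Primrec.unpair.comp hf)

theorem TA2_q {f1 f2 f3 f4 : α → ℕ} (h1 : Primrec f1) (h2 : Primrec f2) (h3 : Primrec f3)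
    (h4 : Primrec f4) : Primrec fun a => ((f1 a, f2 a, f3 a, f4 a) : TA2S) :=
  h1.pair (h2.pair (h3.pair h4))

theorem TA2_eq {f g : α → ℕ} (hf : Primrec f) (hg : Primrec g) :
    PrimrecPred fun a => f a = g a := Primrec.eq.comp hf hg

theorem TA2_le {f g : α → ℕ} (hf : Primrec f) (hg : Primrec g) :
    PrimrecPred fun a => f a ≤ g a := Primrec.nat_le.comp hf hg

end prim

theorem TA2F_primrec : Primrec TA2F := by
  have c : ∀ n : ℕ, Primrec fun _ : ℕ × TA2S × TA2S × ℕ => n := fun n => Primrec.const n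
  have k : Primrec fun a : ℕ × TA2S × TA2S × ℕ => a.1 := Primrec.fst
  have t : Primrec fun a : ℕ × TA2S × TA2S × ℕ => a.2 := Primrec.snd
  have x : Primrec fun a : ℕ × TA2S × TA2S × ℕ => a.2.1 := Primrec.fst.comp t
  have t2 : Primrec fun a : ℕ × TA2S × TA2S × ℕ => a.2.2 := Primrec.snd.comp t
  have y : Primrec fun a : ℕ × TA2S × TA2S × ℕ => a.2.2.1 := Primrec.fst.comp t2
  have e : Primrec fun a : ℕ × TA2S × TA2S × ℕ => a.2.2.2 := Primrec.snd.comp t2
  have x1 : Primrec fun a : ℕ × TA2S × TA2S × ℕ => a.2.1.1 := Primrec.fst.comp x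
  have x' : Primrec fun a : ℕ × TA2S × TA2S × ℕ => a.2.1.2 := Primrec.snd.comp x
  have x2 : Primrec fun a : ℕ × TA2S × TA2S × ℕ => a.2.1.2.1 := Primrec.fst.comp x'
  have x'' : Primrec fun a : ℕ × TA2S × TA2S × ℕ => a.2.1.2.2 := Primrec.snd.comp x'
  have x3 : Primrec fun a : ℕ × TA2S × TA2S × ℕ => a.2.1.2.2.1 := Primrec.fst.comp x''
  have x4 : Primrec fun a : ℕ × TA2S × TA2S × ℕ => a.2.1.2.2.2 := Primrec.snd.comp x''
  have y1 : Primrec fun a : ℕ × TA2S × TA2S × ℕ => a.2.2.1.1 := Primrec.fst.comp y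
  have y' : Primrec fun a : ℕ × TA2S × TA2S × ℕ => a.2.2.1.2 := Primrec.snd.comp y
  have y2 : Primrec fun a : ℕ × TA2S × TA2S × ℕ => a.2.2.1.2.1 := Primrec.fst.comp y'
  have y'' : Primrec fun a : ℕ × TA2S × TA2S × ℕ => a.2.2.1.2.2 := Primrec.snd.comp y'
  have y3 : Primrec fun a : ℕ × TA2S × TA2S × ℕ => a.2.2.1.2.2.1 := Primrec.fst.comp y''
  have y4 : Primrec fun a : ℕ × TA2S × TA2S × ℕ => a.2.2.1.2.2.2 := Primrec.snd.comp y''
  have tr := TA2_q (c 0) (c 0) (c 0) (c 0)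
  have e1 := TA2_u1 e
  have e2 := TA2_u2 e
  unfold TA2F
  refine Primrec.ite (TA2_eq k (c 0)) (TA2_q (c 0) (c 0) e e) ?_
  refine Primrec.ite (TA2_eq k (c 1)) (Primrec.ite (TA2_eq x1 (c 0))
    (TA2_q (c 0) (c 0) (TA2cn_primrec e1 e2 x3) (TA2cn_primrec e1 e2 x4)) tr) ?_
  refine Primrec.ite (TA2_eq k (c 2)) (TA2_q (c 0) (c 0)
    (TA2cn_primrec (TA2_u1 e1) (TA2_u2 e1)
      (TA2cn_primrec (TA2_u1 (TA2_u1 e2)) (TA2_u2 (TA2_u1 e2)) (TA2_u2 e2)))
    (TA2cn_primrec (TA2_u1 (TA2_u1 e2)) (TA2_u2 (TA2_u1 e2))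
      (TA2cn_primrec (TA2_u1 e1) (TA2_u2 e1) (TA2_u2 e2)))) ?_
  refine Primrec.ite (TA2_eq k (c 3)) (Primrec.ite
    ((TA2_eq x1 (c 0)).and ((TA2_eq y1 (c 0)).and (TA2_eq x4 y3)))
    (TA2_q (c 0) (c 0) x3 y4) tr) ?_
  refine Primrec.ite (TA2_eq k (c 4)) (TA2_q (c 1) (c 0) (c 0) e) ?_
  refine Primrec.ite (TA2_eq k (c 5)) (Primrec.ite
    ((TA2_eq x1 (c 1)).and ((TA2_eq y1 (c 2)).and (TA2_le y2 e)))
    (TA2_q (c 1) (c 0) (TA2cn_primrec y2 y3 x3) (TA2cn_primrec e y4 x4)) tr) ?_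
  refine Primrec.ite (TA2_eq k (c 6)) (Primrec.ite
    ((TA2_eq x1 (c 1)).and ((TA2_eq y1 (c 0)).and (TA2_eq x4 y3)))
    (TA2_q (c 1) (c 0) x3 y4) tr) ?_
  refine Primrec.ite (TA2_eq k (c 7)) (Primrec.ite (TA2_eq x1 (c 1))
    (TA2_q (c 2) e x3 x4) tr) ?_
  refine Primrec.ite (TA2_eq k (c 8)) (Primrec.ite
    ((TA2_eq x1 (c 2)).and (TA2_le x2 e1))
    (TA2_q (c 2) x2 x3 (TA2cn_primrec e1 x4 e2)) tr) ?_
  exact Primrec.ite ((TA2_eq x1 (c 2)).and ((TA2_eq y1 (c 0)).and (TA2_eq x4 y3)))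
    (TA2_q (c 2) x2 x3 y4) tr

/-- the statement of a derivation from the statements of the smaller derivations -/
def TA2G (L : List TA2S) : TA2S :=
  TA2F ((L.length - 1).unpair.1, L.getD (L.length - 1).unpair.2.unpair.1 (0, 0, 0, 0),
    L.getD (L.length - 1).unpair.2.unpair.2.unpair.1 (0, 0, 0, 0),
    (L.length - 1).unpair.2.unpair.2.unpair.2)

theorem TA2G_primrec : Primrec TA2G := by
  have h1 : Primrec fun L : List TA2S => L.length - 1 :=
    Primrec.nat_sub.comp Primrec.list_length (Primrec.const 1)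
  have h2 := TA2_u1 h1
  have h3 := TA2_u2 h1
  exact TA2F_primrec.comp (h2.pair (((Primrec.list_getD (0, 0, 0, 0)).comp Primrec.id
    (TA2_u1 h3)).pair (((Primrec.list_getD (0, 0, 0, 0)).comp Primrec.id
      (TA2_u1 (TA2_u2 h3))).pair (TA2_u2 (TA2_u2 h3)))))

/-- the statements of the first derivations -/
def TA2l : ℕ → List TA2S
  | 0 => []
  | n + 1 => TA2l n ++ [TA2G (TA2l n)]

/-- the statement of the derivation number `n` -/
def TA2f (n : ℕ) : TA2S := TA2G (TA2l n)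

theorem TA2l_eq (n : ℕ) : TA2l n = (List.range n).map TA2f := by
  induction n with
  | zero => rfl
  | succ n ih =>
    rw [TA2l, List.range_succ, List.map_append, ← ih]
    rfl

theorem TA2f_primrec : Primrec TA2f := by
  have h : Primrec₂ fun (_ : Unit) (n : ℕ) => TA2f n := by
    refine Primrec.nat_strong_rec (fun (_ : Unit) (n : ℕ) => TA2f n)
      (g := fun _ L => some (TA2G L))
      (Primrec.option_some.comp (TA2G_primrec.comp Primrec.snd)) ?_
    intro a n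
    rw [← TA2l_eq]
    rfl
  exact (h.comp (Primrec.const ()) Primrec.id).of_eq fun n => rfl

theorem TA2f_pair (k a b e : ℕ) : TA2f (Nat.pair k (Nat.pair a (Nat.pair b e)) + 1) =
    TA2F (k, TA2f a, TA2f b, e) := by
  have h1 : a < Nat.pair k (Nat.pair a (Nat.pair b e)) + 1 :=
    Nat.lt_succ_of_le ((Nat.left_le_pair a _).trans (Nat.right_le_pair k _))
  have h2 : b < Nat.pair k (Nat.pair a (Nat.pair b e)) + 1 :=
    Nat.lt_succ_of_le (((Nat.left_le_pair b e).trans (Nat.right_le_pair a _)).trans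
      (Nat.right_le_pair k _))
  unfold TA2f
  rw [TA2l_eq]
  unfold TA2G
  simp only [List.length_map, List.length_range, Nat.add_sub_cancel, Nat.unpair_pair]
  have e1 : ((List.range (Nat.pair k (Nat.pair a (Nat.pair b e)) + 1)).map TA2f).getD a
      (0, 0, 0, 0) = TA2f a := by
    rw [List.getD_eq_getElem?_getD, List.getElem?_map, List.getElem?_range h1]
    rfl
  have e2 : ((List.range (Nat.pair k (Nat.pair a (Nat.pair b e)) + 1)).map TA2f).getD b
      (0, 0, 0, 0) = TA2f b := by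
    rw [List.getD_eq_getElem?_getD, List.getElem?_map, List.getElem?_range h2]
    rfl
  rw [e1, e2]
  rfl

/-! ## Soundness -/

theorem TA2_perm_inj {α : Type*} {L L' : List α} (h : L.Perm L') :
    ∃ τ : Fin L.length → Fin L'.length, Function.Injective τ ∧ ∀ i, L.get i = L'.get (τ i) := by
  induction h with
  | nil => exact ⟨id, Function.injective_id, fun i => rfl⟩
  | cons x h ih =>
    obtain ⟨τ, h1, h2⟩ := ih
    refine ⟨Fin.cases 0 (fun i => (τ i).succ), ?_, ?_⟩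
    · intro i j
      refine Fin.cases ?_ (fun i => ?_) i <;> refine Fin.cases ?_ (fun j => ?_) j
      · intro _; rfl
      · intro h; exact absurd h (Fin.succ_ne_zero _).symm
      · intro h; exact absurd h (Fin.succ_ne_zero _)
      · intro h
        exact congrArg Fin.succ (h1 (Fin.succ_injective _ h))
    · intro i
      refine Fin.cases ?_ (fun i => ?_) i
      · rfl
      · exact h2 i
  | @swap x y l =>
    refine ⟨Fin.cases (Fin.succ 0) (Fin.cases 0 (fun i => i.succ.succ)), ?_, ?_⟩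
    · refine Function.LeftInverse.injective
        (g := Fin.cases (Fin.succ 0) (Fin.cases 0 (fun i => i.succ.succ))) ?_
      intro i
      refine Fin.cases ?_ (fun i => Fin.cases ?_ (fun i => ?_) i) i
      · rfl
      · rfl
      · rfl
    · intro i
      refine Fin.cases ?_ (fun i => Fin.cases ?_ (fun i => ?_) i) i
      · rfl
      · rfl
      · rfl
  | trans _ _ ih1 ih2 =>
    obtain ⟨τ, h1, h2⟩ := ih1
    obtain ⟨τ', h1', h2'⟩ := ih2
    exact ⟨τ' ∘ τ, h1'.comp h1, fun i => (h2 i).trans (h2' _)⟩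

theorem TA2_at_perm {T S S' : KT} (h : At T S) (hp : S.ch.Perm S'.ch) : At T S' := by
  obtain ⟨σ, h1, h2, h3⟩ := h
  obtain ⟨τ, h4, h5⟩ := TA2_perm_inj hp
  refine ⟨τ ∘ σ, h4.comp h1, fun i => ?_, fun i => ?_⟩
  · have := h2 i
    rw [h5] at this
    exact this
  · have := h3 i
    rw [h5] at this
    exact this

theorem TA2_emb_perm {l : ℕ} {T S S' : KT} (h : Emb l T S) (hp : S.ch.Perm S'.ch) :
    Emb l T S' := by
  rcases emb_iff.1 h with h1 | ⟨m, c, h1, h2, h3⟩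
  · exact Emb.of_at (TA2_at_perm h1 hp)
  · exact Emb.of_child (hp.mem_iff.1 h1) h2 h3

theorem TA2_at_nil (S : KT) : At .nil S :=
  ⟨fun i => Fin.elim0 i, fun i => Fin.elim0 i, fun i => Fin.elim0 i, fun i => Fin.elim0 i⟩

theorem TA2_at_cons {T S U C : KT} {l m : ℕ} (h : At T S) (hl : l ≤ m) (he : Emb l U C) :
    At (.cons l U T) (.cons m C S) := by
  obtain ⟨σ, h1, h2, h3⟩ := h
  have key : AtL ((l, U) :: T.ch) ((m, C) :: S.ch) := by
    refine ⟨Fin.cases 0 (fun i => (σ i).succ), ?_, ?_, ?_⟩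
    · intro i j
      refine Fin.cases ?_ (fun i => ?_) i <;> refine Fin.cases ?_ (fun j => ?_) j
      · intro _; rfl
      · intro h; exact absurd h (Fin.succ_ne_zero _).symm
      · intro h; exact absurd h (Fin.succ_ne_zero _)
      · intro h
        exact congrArg Fin.succ (h1 (Fin.succ_injective _ h))
    · intro i
      refine Fin.cases ?_ (fun i => ?_) i
      · exact hl
      · exact h2 i
    · intro i
      refine Fin.cases ?_ (fun i => ?_) i
      · exact he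
      · exact h3 i
  exact key

/-- truth of statements -/
def TA2T (x : TA2S) : Prop :=
  (x.1 = 0 ∧ ∃ T S : KT, x.2.2.1 = code T ∧ x.2.2.2 = code S ∧ T.ch.Perm S.ch) ∨
  (x.1 = 1 ∧ ∃ T S : KT, x.2.2.1 = code T ∧ x.2.2.2 = code S ∧ At T S) ∨
  (x.1 = 2 ∧ ∃ T S : KT, x.2.2.1 = code T ∧ x.2.2.2 = code S ∧ Emb x.2.1 T S)

theorem TA2T_triv : TA2T (0, 0, 0, 0) :=
  Or.inl ⟨rfl, .nil, .nil, rfl, rfl, List.Perm.refl _⟩

theorem TA2T0 {x : TA2S} (h : TA2T x) (h0 : x.1 = 0) :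
    ∃ T S : KT, x.2.2.1 = code T ∧ x.2.2.2 = code S ∧ T.ch.Perm S.ch := by
  rcases h with h | h | h
  · exact h.2
  · omega
  · omega

theorem TA2T1 {x : TA2S} (h : TA2T x) (h0 : x.1 = 1) :
    ∃ T S : KT, x.2.2.1 = code T ∧ x.2.2.2 = code S ∧ At T S := by
  rcases h with h | h | h
  · omega
  · exact h.2
  · omega

theorem TA2T2 {x : TA2S} (h : TA2T x) (h0 : x.1 = 2) :
    ∃ T S : KT, x.2.2.1 = code T ∧ x.2.2.2 = code S ∧ Emb x.2.1 T S := by
  rcases h with h | h | h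
  · omega
  · omega
  · exact h.2

theorem TA2cn_code (m : ℕ) (C R : KT) : TA2cn m (code C) (code R) = code (.cons m C R) := rfl

theorem TA2F_sound {k : ℕ} {x y : TA2S} {e : ℕ} (hx : TA2T x) (hy : TA2T y) :
    TA2T (TA2F (k, x, y, e)) := by
  unfold TA2F
  simp only
  split_ifs with k0 k1 c1 k2 k3 c3 k4 k5 c5 k6 c6 k7 c7 k8 c8 c9
  · obtain ⟨T, hT⟩ := code_surj e
    exact Or.inl ⟨rfl, T, T, hT.symm, hT.symm, List.Perm.refl _⟩
  · obtain ⟨T, S, h1, h2, h3⟩ := TA2T0 hx c1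
    obtain ⟨C, hC⟩ := code_surj e.unpair.2
    refine Or.inl ⟨rfl, .cons e.unpair.1 C T, .cons e.unpair.1 C S, ?_, ?_, ?_⟩
    · simp only [h1, ← hC, TA2cn_code]
    · simp only [h2, ← hC, TA2cn_code]
    · exact h3.cons _
  · exact TA2T_triv
  · obtain ⟨C, hC⟩ := code_surj e.unpair.1.unpair.2
    obtain ⟨C', hC'⟩ := code_surj e.unpair.2.unpair.1.unpair.2
    obtain ⟨R, hR⟩ := code_surj e.unpair.2.unpair.2
    refine Or.inl ⟨rfl, .cons e.unpair.1.unpair.1 C (.cons e.unpair.2.unpair.1.unpair.1 C' R),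
      .cons e.unpair.2.unpair.1.unpair.1 C' (.cons e.unpair.1.unpair.1 C R), ?_, ?_, ?_⟩
    · simp only [← hC, ← hC', ← hR, TA2cn_code]
    · simp only [← hC, ← hC', ← hR, TA2cn_code]
    · exact List.Perm.swap _ _ _
  · obtain ⟨T, S, h1, h2, h3⟩ := TA2T0 hx c3.1
    obtain ⟨T', S', h1', h2', h3'⟩ := TA2T0 hy c3.2.1
    have h4 : S = T' := code_inj (by rw [← h2, ← h1']; exact c3.2.2)
    subst h4
    exact Or.inl ⟨rfl, T, S', h1, h2', h3.trans h3'⟩
  · exact TA2T_triv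
  · obtain ⟨S, hS⟩ := code_surj e
    exact Or.inr (Or.inl ⟨rfl, .nil, S, rfl, hS.symm, TA2_at_nil S⟩)
  · obtain ⟨T, S, h1, h2, h3⟩ := TA2T1 hx c5.1
    obtain ⟨U, C, h1', h2', h3'⟩ := TA2T2 hy c5.2.1
    refine Or.inr (Or.inl ⟨rfl, .cons y.2.1 U T, .cons e C S, ?_, ?_,
      TA2_at_cons h3 c5.2.2 h3'⟩)
    · simp only [h1, h1', TA2cn_code]
    · simp only [h2, h2', TA2cn_code]
  · exact TA2T_triv
  · obtain ⟨T, S, h1, h2, h3⟩ := TA2T1 hx c6.1
    obtain ⟨T', S', h1', h2', h3'⟩ := TA2T0 hy c6.2.1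
    have h4 : S = T' := code_inj (by rw [← h2, ← h1']; exact c6.2.2)
    subst h4
    exact Or.inr (Or.inl ⟨rfl, T, S', h1, h2', TA2_at_perm h3 h3'⟩)
  · exact TA2T_triv
  · obtain ⟨T, S, h1, h2, h3⟩ := TA2T1 hx c7
    exact Or.inr (Or.inr ⟨rfl, T, S, h1, h2, Emb.of_at h3⟩)
  · exact TA2T_triv
  · obtain ⟨T, C, h1, h2, h3⟩ := TA2T2 hx c8.1
    obtain ⟨R, hR⟩ := code_surj e.unpair.2
    refine Or.inr (Or.inr ⟨rfl, T, .cons e.unpair.1 C R, h1, ?_,
      Emb.of_child (m := e.unpair.1) (c := C) (by simp [KT.ch]) c8.2 h3⟩)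
    simp only [h2, ← hR, TA2cn_code]
  · exact TA2T_triv
  · obtain ⟨T, S, h1, h2, h3⟩ := TA2T2 hx c9.1
    obtain ⟨T', S', h1', h2', h3'⟩ := TA2T0 hy c9.2.1
    have h4 : S = T' := code_inj (by rw [← h2, ← h1']; exact c9.2.2)
    subst h4
    exact Or.inr (Or.inr ⟨rfl, T, S', h1, h2', TA2_emb_perm h3 h3'⟩)
  · exact TA2T_triv

theorem TA2_getD {n : ℕ} (ih : ∀ m < n, TA2T (TA2f m)) (a : ℕ) :
    TA2T ((TA2l n).getD a (0, 0, 0, 0)) := by
  rw [TA2l_eq, List.getD_eq_getElem?_getD, List.getElem?_map]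
  by_cases h : a < n
  · rw [List.getElem?_range h]
    exact ih a h
  · rw [List.getElem?_eq_none (by rw [List.length_range]; omega)]
    exact TA2T_triv

theorem TA2f_sound (n : ℕ) : TA2T (TA2f n) := by
  induction n using Nat.strong_induction_on with
  | _ n ih =>
    unfold TA2f TA2G
    exact TA2F_sound (TA2_getD ih _) (TA2_getD ih _)

/-! ## Completeness -/

/-- derivable statements -/
def TA2D (x : TA2S) : Prop := ∃ n, TA2f n = x

theorem TA2D_rule {x y : TA2S} (hx : TA2D x) (hy : TA2D y) (k e : ℕ) :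
    TA2D (TA2F (k, x, y, e)) := by
  obtain ⟨a, rfl⟩ := hx
  obtain ⟨b, rfl⟩ := hy
  exact ⟨_, TA2f_pair k a b e⟩

theorem TA2D_triv : TA2D (0, 0, 0, 0) := ⟨0, rfl⟩

theorem TA2D_refl (T : KT) : TA2D (0, 0, code T, code T) :=
  TA2D_rule TA2D_triv TA2D_triv 0 (code T)

theorem TA2D_cons {T S : KT} (h : TA2D (0, 0, code T, code S)) (m : ℕ) (C : KT) :
    TA2D (0, 0, code (.cons m C T), code (.cons m C S)) := by
  have h1 := TA2D_rule h TA2D_triv 1 (Nat.pair m (code C))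
  have h2 : TA2F (1, (0, 0, code T, code S), (0, 0, 0, 0), Nat.pair m (code C)) =
      (0, 0, code (.cons m C T), code (.cons m C S)) := by
    simp [TA2F, TA2cn_code]
  rwa [h2] at h1

theorem TA2D_swap (m m' : ℕ) (C C' R : KT) :
    TA2D (0, 0, code (.cons m C (.cons m' C' R)), code (.cons m' C' (.cons m C R))) := by
  have h1 := TA2D_rule TA2D_triv TA2D_triv 2
    (Nat.pair (Nat.pair m (code C)) (Nat.pair (Nat.pair m' (code C')) (code R)))
  have h2 : TA2F (2, (0, 0, 0, 0), (0, 0, 0, 0),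
      (Nat.pair (Nat.pair m (code C)) (Nat.pair (Nat.pair m' (code C')) (code R)))) =
      (0, 0, code (.cons m C (.cons m' C' R)), code (.cons m' C' (.cons m C R))) := by
    simp [TA2F, TA2cn_code]
  rwa [h2] at h1

theorem TA2D_trans {T S U : KT} (h : TA2D (0, 0, code T, code S))
    (h' : TA2D (0, 0, code S, code U)) : TA2D (0, 0, code T, code U) := by
  have h1 := TA2D_rule h h' 3 0
  have h2 : TA2F (3, (0, 0, code T, code S), (0, 0, code S, code U), 0) =
      (0, 0, code T, code U) := by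
    simp [TA2F]
  rwa [h2] at h1

theorem TA2D_anil (S : KT) : TA2D (1, 0, code .nil, code S) := by
  have h1 := TA2D_rule TA2D_triv TA2D_triv 4 (code S)
  have h2 : TA2F (4, (0, 0, 0, 0), (0, 0, 0, 0), code S) = (1, 0, code .nil, code S) := by
    simp [TA2F, code]
  rwa [h2] at h1

theorem TA2D_acons {T S U C : KT} {l m : ℕ} (h : TA2D (1, 0, code T, code S)) (hl : l ≤ m)
    (he : TA2D (2, l, code U, code C)) :
    TA2D (1, 0, code (.cons l U T), code (.cons m C S)) := by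
  have h1 := TA2D_rule h he 5 m
  have h2 : TA2F (5, (1, 0, code T, code S), (2, l, code U, code C), m) =
      (1, 0, code (.cons l U T), code (.cons m C S)) := by
    simp [TA2F, hl, TA2cn_code]
  rwa [h2] at h1

theorem TA2D_aperm {T S U : KT} (h : TA2D (1, 0, code T, code S))
    (h' : TA2D (0, 0, code S, code U)) : TA2D (1, 0, code T, code U) := by
  have h1 := TA2D_rule h h' 6 0
  have h2 : TA2F (6, (1, 0, code T, code S), (0, 0, code S, code U), 0) =
      (1, 0, code T, code U) := by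
    simp [TA2F]
  rwa [h2] at h1

theorem TA2D_here {T S : KT} (l : ℕ) (h : TA2D (1, 0, code T, code S)) :
    TA2D (2, l, code T, code S) := by
  have h1 := TA2D_rule h TA2D_triv 7 l
  have h2 : TA2F (7, (1, 0, code T, code S), (0, 0, 0, 0), l) =
      (2, l, code T, code S) := by
    simp [TA2F]
  rwa [h2] at h1

theorem TA2D_down {T C : KT} {l m : ℕ} (h : TA2D (2, l, code T, code C)) (hl : l ≤ m) (R : KT) :
    TA2D (2, l, code T, code (.cons m C R)) := by
  have h1 := TA2D_rule h TA2D_triv 8 (Nat.pair m (code R))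
  have h2 : TA2F (8, (2, l, code T, code C), (0, 0, 0, 0), Nat.pair m (code R)) =
      (2, l, code T, code (.cons m C R)) := by
    simp [TA2F, hl, TA2cn_code]
  rwa [h2] at h1

theorem TA2D_eperm {T S U : KT} {l : ℕ} (h : TA2D (2, l, code T, code S))
    (h' : TA2D (0, 0, code S, code U)) : TA2D (2, l, code T, code U) := by
  have h1 := TA2D_rule h h' 9 0
  have h2 : TA2F (9, (2, l, code T, code S), (0, 0, code S, code U), 0) =
      (2, l, code T, code U) := by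
    simp [TA2F]
  rwa [h2] at h1

/-- the tree with given children -/
def TA2o : List (ℕ × KT) → KT
  | [] => .nil
  | x :: L => .cons x.1 x.2 (TA2o L)

theorem TA2o_ch : ∀ T : KT, TA2o T.ch = T
  | .nil => rfl
  | .cons l s r => by
    rw [KT.ch, TA2o, TA2o_ch r]

theorem TA2D_perm {L L' : List (ℕ × KT)} (h : L.Perm L') :
    TA2D (0, 0, code (TA2o L), code (TA2o L')) := by
  induction h with
  | nil => exact TA2D_refl _
  | cons x h ih => exact TA2D_cons ih _ _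
  | swap x y l => exact TA2D_swap _ _ _ _ _
  | trans _ _ ih1 ih2 => exact TA2D_trans ih1 ih2

theorem TA2D_forall {L M : List (ℕ × KT)}
    (h : List.Forall₂ (fun x y => x.1 ≤ y.1 ∧ TA2D (2, x.1, code x.2, code y.2)) L M)
    (R : List (ℕ × KT)) : TA2D (1, 0, code (TA2o L), code (TA2o (M ++ R))) := by
  induction h with
  | nil => exact TA2D_anil _
  | cons h _ ih => exact TA2D_acons ih h.1 h.2

theorem TA2_exists_rest {α : Type*} {n : ℕ} (M : List α) (σ : Fin n → Fin M.length)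
    (hσ : Function.Injective σ) : ∃ R, (List.ofFn (fun i => M.get (σ i)) ++ R).Perm M := by
  have h1 : ((List.finRange n).map σ).Subperm (List.finRange M.length) :=
    List.subperm_of_subset ((List.nodup_finRange n).map hσ) (fun x _ => List.mem_finRange x)
  obtain ⟨l, hl', hs'⟩ := h1
  have hl := hl'.map M.get
  obtain ⟨R, hR⟩ := (hs'.map M.get).exists_perm_append
  refine ⟨R, ?_⟩
  have e1 : (List.finRange M.length).map M.get = M := List.map_get_finRange M
  rw [e1] at hR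
  have e2 : List.map M.get ((List.finRange n).map σ) = List.ofFn (fun i => M.get (σ i)) := by
    rw [List.map_map, List.ofFn_eq_map]
    rfl
  rw [e2] at hl
  exact (hl.symm.append_right R).trans hR.symm

theorem TA2D_emb {l : ℕ} {T S : KT} (h : Emb l T S) : TA2D (2, l, code T, code S) := by
  induction h with
  | @here l T S σ hσ h1 h2 ih =>
    apply TA2D_here
    obtain ⟨R, hR⟩ := TA2_exists_rest S.ch σ hσ
    have h3 : List.Forall₂ (fun x y => x.1 ≤ y.1 ∧ TA2D (2, x.1, code x.2, code y.2)) T.ch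
        (List.ofFn (fun i => S.ch.get (σ i))) := by
      rw [List.forall₂_iff_get]
      refine ⟨by rw [List.length_ofFn], ?_⟩
      intro i hi hi'
      have e1 : (List.ofFn (fun i => S.ch.get (σ i))).get ⟨i, hi'⟩ =
          S.ch.get (σ ⟨i, hi⟩) := by
        rw [List.get_ofFn]
        rfl
      rw [e1]
      exact ⟨h1 _, ih _⟩
    have h4 := TA2D_aperm (TA2D_forall h3 R) (TA2D_perm hR)
    rwa [TA2o_ch, TA2o_ch] at h4
  | @down l T S j hl h' ih =>
    have h1 : (S.ch.get j) ∈ S.ch := List.get_mem _ _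
    obtain ⟨L1, L2, hL⟩ := List.append_of_mem h1
    have h2 : ((S.ch.get j) :: (L1 ++ L2)).Perm S.ch := by
      conv_rhs => rw [hL]
      exact List.perm_middle.symm
    have h3 := TA2D_eperm (TA2D_down ih hl (TA2o (L1 ++ L2))) (TA2D_perm h2)
    rwa [TA2o_ch] at h3

theorem re_emb : REPred (fun n : ℕ => ∃ s t : KT, Emb 1 s t ∧ n = Nat.pair (code s) (code t)) := by
  have h1 : Primrec fun a : ℕ × ℕ =>
      decide (TA2f a.2 = ((2, 1, a.1.unpair.1, a.1.unpair.2) : TA2S)) := by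
    have h2 : PrimrecPred fun a : ℕ × ℕ =>
        TA2f a.2 = ((2, 1, a.1.unpair.1, a.1.unpair.2) : TA2S) :=
      Primrec.eq.comp (TA2f_primrec.comp Primrec.snd)
        (TA2_q (Primrec.const 2) (Primrec.const 1) (TA2_u1 Primrec.fst) (TA2_u2 Primrec.fst))
    exact h2.decide
  have h2 : Partrec₂ fun (n m : ℕ) =>
      (Part.some (decide (TA2f m = ((2, 1, n.unpair.1, n.unpair.2) : TA2S))) : Part Bool) :=
    h1.to_comp
  refine (Partrec.rfind h2).dom_re.of_eq fun n => ?_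
  refine Iff.trans (@Nat.rfind_dom (fun m =>
    Part.some (decide (TA2f m = ((2, 1, n.unpair.1, n.unpair.2) : TA2S))))) ?_
  constructor
  · rintro ⟨m, hm, -⟩
    rw [Part.mem_some_iff] at hm
    have h3 : TA2f m = (2, 1, n.unpair.1, n.unpair.2) := by simpa using hm.symm
    have h4 := TA2f_sound m
    rw [h3] at h4
    obtain ⟨T, S, e1, e2, e3⟩ := TA2T2 h4 rfl
    refine ⟨T, S, e3, ?_⟩
    have e1' : n.unpair.1 = code T := e1
    have e2' : n.unpair.2 = code S := e2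
    rw [← e1', ← e2', Nat.pair_unpair]
  · rintro ⟨s, t, h3, rfl⟩
    obtain ⟨m, hm⟩ := TA2D_emb h3
    refine ⟨m, ?_, fun _ => trivial⟩
    rw [Part.mem_some_iff]
    simp [hm]

end Kriz.PTO
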