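import Mathlib

/-!
# Block UA: digits of ordinals below `K ^ ω` and a norm

`K` is an infinite countable ordinal (later `κ`), `cd` an injective coding of the ordinals below
`K` by natural numbers, `p` a fast growing function.
-/

namespace Kriz.PTO

open Ordinal

structure Scale where
  K : Ordinal.{0}
  cd : Ordinal.{0} → ℕ
  p : ℕ → ℕ
  hK : ω ≤ K
  inj : ∀ a < K, ∀ b < K, cd a = cd b → a = b
  nat : ∀ n : ℕ, cd n = 2 * n
  mono : Monotone p
  gt : ∀ n, 2 * n + 4 ≤ p n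

namespace Scale

variable (s : Scale)

/-- the `i`-th digit of `β` in base `K` -/
noncomputable def dig (i : ℕ) (β : Ordinal.{0}) : Ordinal.{0} := (β / s.K ^ i) % s.K

/-- the norm of `β` is at most `n` -/
def Nb (n : ℕ) (β : Ordinal.{0}) : Prop :=
  ∀ i : ℕ, (n ≤ i → s.dig i β = 0) ∧ s.cd (s.dig i β) ≤ n

theorem K_pos : 0 < s.K := omega0_pos.trans_le s.hK

theorem one_lt_K : 1 < s.K := one_lt_omega0.trans_le s.hK

theorem Nb.mono {s : Scale} {n m : ℕ} {β : Ordinal.{0}} (h : s.Nb n β) (hm : n ≤ m) :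
    s.Nb m β := fun i => ⟨fun hi => (h i).1 (hm.trans hi), (h i).2.trans hm⟩

theorem ua_pow_ne (i : ℕ) : s.K ^ i ≠ 0 := by
  have h : s.K ≠ 0 := s.K_pos.ne'
  induction i with
  | zero => simp
  | succ n ih => rw [pow_succ]; exact mul_ne_zero ih h

theorem ua_pow_le {i j : ℕ} (h : i ≤ j) : s.K ^ i ≤ s.K ^ j := by
  obtain ⟨k, rfl⟩ := Nat.exists_eq_add_of_le h
  rw [pow_add]
  exact le_mul_left _ (pos_iff_ne_zero.2 (s.ua_pow_ne k))

theorem ua_cd_zero : s.cd 0 = 0 := by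
  have h := s.nat 0
  simpa using h

theorem ua_dig_zero (i : ℕ) : s.dig i 0 = 0 := by
  unfold dig
  rw [Ordinal.zero_div, Ordinal.zero_mod]

theorem ua_dig_lt (i : ℕ) (β : Ordinal.{0}) : s.dig i β < s.K := Ordinal.mod_lt _ s.K_pos.ne'

theorem ua_dig_of_lt {i : ℕ} {β : Ordinal.{0}} (h : β < s.K ^ i) : s.dig i β = 0 := by
  unfold dig
  rw [Ordinal.div_eq_zero_of_lt h, Ordinal.zero_mod]

theorem Nb_zero (n : ℕ) : s.Nb n 0 := by
  intro i
  rw [s.ua_dig_zero, s.ua_cd_zero]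
  exact ⟨fun _ => rfl, Nat.zero_le _⟩

/-- digits of a multiple of `K ^ m` plus a smaller number -/
theorem dig_add_low {m : ℕ} {δ γ : Ordinal.{0}} (hγ : γ < s.K ^ m) {i : ℕ} (hi : i < m) :
    s.dig i (s.K ^ m * δ + γ) = s.dig i γ := by
  have _ := hγ
  obtain ⟨k, rfl⟩ := Nat.exists_eq_add_of_lt hi
  unfold dig
  rw [show s.K ^ (i + k + 1) * δ = s.K ^ i * (s.K * (s.K ^ k * δ)) by
    rw [← mul_assoc, ← mul_assoc, ← pow_succ, ← pow_add]; congr 2; omega,
    Ordinal.mul_add_div _ (s.ua_pow_ne i), Ordinal.mul_add_mod_self]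

theorem dig_add_high {m : ℕ} {δ γ : Ordinal.{0}} (hγ : γ < s.K ^ m) {i : ℕ} (hi : m ≤ i) :
    s.dig i (s.K ^ m * δ + γ) = s.dig i (s.K ^ m * δ) := by
  obtain ⟨k, rfl⟩ := Nat.exists_eq_add_of_le hi
  unfold dig
  rw [pow_add, Ordinal.mul_add_div_mul hγ, Ordinal.mul_div_mul_cancel (s.ua_pow_ne m)]

theorem Nb_add {n m : ℕ} {δ γ : Ordinal.{0}} (h : s.Nb n (s.K ^ m * δ)) (hγ : γ < s.K ^ m)
    (hn : s.Nb n γ) : s.Nb n (s.K ^ m * δ + γ) := by
  intro i
  rcases lt_or_ge i m with hi | hi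
  · rw [s.dig_add_low hγ hi]
    exact hn i
  · rw [s.dig_add_high hγ hi]
    exact h i

theorem Nb_block {n m : ℕ} {δ : Ordinal.{0}} (hm : m < n) (hδ : δ < s.K) (hc : s.cd δ ≤ n) :
    s.Nb n (s.K ^ m * δ) := by
  intro i
  rcases lt_trichotomy i m with hi | hi | hi
  · have h := s.dig_add_low (m := m) (δ := δ) (γ := 0) (pos_iff_ne_zero.2 (s.ua_pow_ne m)) hi
    rw [add_zero] at h
    rw [h, s.ua_dig_zero, s.ua_cd_zero]
    exact ⟨fun _ => rfl, Nat.zero_le _⟩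
  · subst hi
    have h : s.dig i (s.K ^ i * δ) = δ := by
      unfold dig
      rw [Ordinal.mul_div_cancel _ (s.ua_pow_ne i), Ordinal.mod_eq_of_lt hδ]
    rw [h]
    exact ⟨fun hn => absurd hn (by omega), hc⟩
  · have h : s.K ^ m * δ < s.K ^ i := by
      refine lt_of_lt_of_le ?_ (s.ua_pow_le (Nat.succ_le_of_lt hi))
      rw [Nat.succ_eq_add_one, pow_succ]
      exact mul_lt_mul_of_pos_left hδ (pos_iff_ne_zero.2 (s.ua_pow_ne m))
    rw [s.ua_dig_of_lt h, s.ua_cd_zero]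
    exact ⟨fun _ => rfl, Nat.zero_le _⟩

theorem ua_ext : ∀ (k : ℕ) {β β' : Ordinal.{0}}, β < s.K ^ k → β' < s.K ^ k →
    (∀ i, s.dig i β = s.dig i β') → β = β' := by
  intro k
  induction k with
  | zero =>
    intro β β' h h' _
    rw [pow_zero, Order.lt_one_iff] at h h'
    rw [h, h']
  | succ k ih =>
    intro β β' h h' hd
    have hk := s.ua_pow_ne k
    have top : ∀ {γ : Ordinal.{0}}, γ < s.K ^ (k + 1) → s.dig k γ = γ / s.K ^ k := by
      intro γ hγ
      unfold dig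
      apply Ordinal.mod_eq_of_lt
      rw [← Ordinal.lt_mul_iff_div_lt hk, ← pow_succ]
      exact hγ
    have e1 : β / s.K ^ k = β' / s.K ^ k := by
      rw [← top h, ← top h', hd k]
    have low : ∀ (γ : Ordinal.{0}) (i : ℕ), s.dig i (γ % s.K ^ k) =
        if i < k then s.dig i γ else 0 := by
      intro γ i
      split_ifs with hi
      · have := s.dig_add_low (δ := γ / s.K ^ k) (Ordinal.mod_lt γ hk) hi
        rw [Ordinal.div_add_mod] at this
        exact this.symm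
      · exact s.ua_dig_of_lt ((Ordinal.mod_lt γ hk).trans_le (s.ua_pow_le (not_lt.1 hi)))
    have e2 : β % s.K ^ k = β' % s.K ^ k := by
      apply ih (Ordinal.mod_lt _ hk) (Ordinal.mod_lt _ hk)
      intro i
      rw [low, low, hd i]
    rw [← Ordinal.div_add_mod β (s.K ^ k), ← Ordinal.div_add_mod β' (s.K ^ k), e1, e2]

/-- there are only finitely many ordinals below `K ^ ω` of norm at most `n` -/
theorem Nb_finite (n : ℕ) : {β | (∃ k : ℕ, β < s.K ^ k) ∧ s.Nb n β}.Finite := by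
  let F : Ordinal.{0} → (Fin n → Fin (n + 1)) := fun β i =>
    ⟨min (s.cd (s.dig i β)) n, Nat.lt_succ_of_le (min_le_right _ _)⟩
  apply Set.Finite.of_finite_image (f := F) (Set.toFinite _)
  rintro β ⟨⟨k, hk⟩, hβ⟩ β' ⟨⟨k', hk'⟩, hβ'⟩ hF
  refine s.ua_ext (max k k') (hk.trans_le (s.ua_pow_le (le_max_left _ _)))
    (hk'.trans_le (s.ua_pow_le (le_max_right _ _))) ?_
  intro i
  rcases lt_or_ge i n with hi | hi
  · have h := congrArg Fin.val (congrFun hF ⟨i, hi⟩)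
    simp only [F] at h
    rw [min_eq_left (hβ i).2, min_eq_left (hβ' i).2] at h
    exact s.inj _ (s.ua_dig_lt i β) _ (s.ua_dig_lt i β') h
  · rw [(hβ i).1 hi, (hβ' i).1 hi]

end Scale

end Kriz.PTO
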