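import Pool.Agent.Work.MP_0f6836_lc.PTO.UA

/-!
# Block UB1: `α`-large intervals
-/

namespace Kriz.PTO

open Ordinal

namespace Scale

variable (s : Scale)

/-- the interval `[a, b]` is `α`-large -/
def Lg (α : Ordinal.{0}) (a b : ℕ) : Prop :=
  a ≤ b ∧ ∀ β, (_ : β < α) → s.Nb a β → Lg β (s.p a) b
termination_by α
decreasing_by assumption

variable {s}

theorem Lg_iff {α : Ordinal.{0}} {a b : ℕ} :
    s.Lg α a b ↔ a ≤ b ∧ ∀ β < α, s.Nb a β → s.Lg β (s.p a) b := by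
  rw [Lg]

theorem Lg.le {α : Ordinal.{0}} {a b : ℕ} (h : s.Lg α a b) : a ≤ b := (Lg_iff.1 h).1

theorem Lg.step {α β : Ordinal.{0}} {a b : ℕ} (h : s.Lg α a b) (hβ : β < α) (hn : s.Nb a β) :
    s.Lg β (s.p a) b := (Lg_iff.1 h).2 β hβ hn

theorem Lg.ord {α β : Ordinal.{0}} {a b : ℕ} (h : s.Lg α a b) (hβ : β ≤ α) : s.Lg β a b :=
  Lg_iff.2 ⟨h.le, fun _ hγ hn => h.step (hγ.trans_le hβ) hn⟩

theorem Lg.right {α : Ordinal.{0}} {a b c : ℕ} (h : s.Lg α a b) (hc : b ≤ c) : s.Lg α a c := by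
  induction α using WellFoundedLT.induction generalizing a with
  | ind α ih =>
    exact Lg_iff.2 ⟨h.le.trans hc, fun β hβ hn => ih β hβ (h.step hβ hn)⟩

theorem Lg.left {α : Ordinal.{0}} {a b c : ℕ} (h : s.Lg α a b) (hc : c ≤ a) : s.Lg α c b := by
  induction α using WellFoundedLT.induction generalizing a c with
  | ind α ih =>
    exact Lg_iff.2 ⟨hc.trans h.le, fun β hβ hn =>
      ih β hβ (h.step hβ (hn.mono hc)) (s.mono hc)⟩

/-- by induction on `α` for all `a`, using `Nb_finite` -/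
theorem exists_Lg {k : ℕ} {α : Ordinal.{0}} (hα : α ≤ s.K ^ k) (a : ℕ) : ∃ b, s.Lg α a b := by
  classical
  induction α using WellFoundedLT.induction generalizing a with
  | ind α ih =>
    have hfin : {β | β < α ∧ s.Nb a β}.Finite :=
      (s.Nb_finite a).subset fun β hβ => ⟨⟨k, hβ.1.trans_le hα⟩, hβ.2⟩
    have h1 : ∀ β : Ordinal.{0}, ∃ b, β < α → s.Lg β (s.p a) b := by
      intro β
      by_cases hβ : β < α
      · obtain ⟨b, hb⟩ := ih β hβ (hβ.le.trans hα) (s.p a)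
        exact ⟨b, fun _ => hb⟩
      · exact ⟨0, fun h => absurd h hβ⟩
    choose f hf using h1
    refine ⟨max a (hfin.toFinset.sup f), Lg_iff.2 ⟨le_max_left _ _, fun β hβ hn => ?_⟩⟩
    refine (hf β hβ).right ((Finset.le_sup (f := f) ?_).trans (le_max_right _ _))
    rw [Set.Finite.mem_toFinset]
    exact ⟨hβ, hn⟩

end Scale

end Kriz.PTO
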