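import Pool.Agent.Work.MP_0f6836_lc.PTO.UB1

/-!
# Block UB2: splitting large intervals, descending sequences
-/

namespace Kriz.PTO

open Ordinal

namespace Scale

variable {s : Scale}

theorem ub2_le_p (x : ℕ) : x ≤ s.p x := by
  have := s.gt x
  omega

/-- splitting, by induction on `β` for all `a` (choose the largest end point obtained from the
induction hypothesis) -/
theorem Lg.split {m : ℕ} {δ β : Ordinal.{0}} {a b : ℕ} (h : s.Lg (s.K ^ m * δ + β) a b)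
    (hβ : β ≤ s.K ^ m) (hn : s.Nb a (s.K ^ m * δ)) :
    ∃ c, s.Lg β a c ∧ s.Lg (s.K ^ m * δ) c b := by
  induction β using WellFoundedLT.induction generalizing a with
  | ind β ih =>
    rcases eq_or_ne β 0 with h0 | h0
    · subst h0
      refine ⟨a, ?_, by simpa using h⟩
      rw [Lg_iff]
      exact ⟨le_rfl, fun γ hγ => absurd hγ not_lt_zero⟩
    · have hfin : {γ | γ < β ∧ s.Nb a γ}.Finite :=
        (s.Nb_finite a).subset fun γ hγ => ⟨⟨m, hγ.1.trans_le hβ⟩, hγ.2⟩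
      have key : ∀ γ ∈ {γ | γ < β ∧ s.Nb a γ}, ∃ c, s.Lg γ (s.p a) c ∧
          s.Lg (s.K ^ m * δ) c b := by
        rintro γ ⟨hγ, hnγ⟩
        have hγ' : γ < s.K ^ m := hγ.trans_le hβ
        exact ih γ hγ (h.step (add_lt_add_right hγ _) (s.Nb_add hn hγ' hnγ)) hγ'.le
          (hn.mono (ub2_le_p a))
      choose! f hf using key
      have h0m : (0 : Ordinal.{0}) ∈ {γ | γ < β ∧ s.Nb a γ} :=
        ⟨pos_iff_ne_zero.2 h0, s.Nb_zero a⟩
      obtain ⟨γ₀, hγ₀, hmax⟩ := Set.exists_max_image _ f hfin ⟨0, h0m⟩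
      refine ⟨f γ₀, ?_, (hf γ₀ hγ₀).2⟩
      rw [Lg_iff]
      refine ⟨(ub2_le_p a).trans (hf γ₀ hγ₀).1.le, fun γ hγ hnγ => ?_⟩
      exact (hf γ ⟨hγ, hnγ⟩).1.right (hmax γ ⟨hγ, hnγ⟩)

open Classical in
/-- the sequence of `descend`, started with `K ^ m` -/
noncomputable def ub2G (s : Scale) (m a b : ℕ) : ℕ → Ordinal.{0}
  | 0 => s.K ^ m
  | k + 1 => if h : ∃ β < ub2G s m a b k, s.Nb (s.p^[k] a) β ∧ ¬ s.Lg β (s.p^[k + 1] a) b then
      h.choose else 0

theorem ub2_iter_le (a : ℕ) {j k : ℕ} (h : j ≤ k) : s.p^[j] a ≤ s.p^[k] a := by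
  induction k, h using Nat.le_induction with
  | base => exact le_rfl
  | succ k _ ih =>
    rw [Function.iterate_succ_apply']
    exact ih.trans (ub2_le_p _)

theorem ub2_exists {m a b : ℕ} (k : ℕ) (hk : s.p^[k] a ≤ b)
    (h : ¬ s.Lg (ub2G s m a b k) (s.p^[k] a) b) :
    ∃ β < ub2G s m a b k, s.Nb (s.p^[k] a) β ∧ ¬ s.Lg β (s.p^[k + 1] a) b := by
  by_contra hc
  apply h
  rw [Lg_iff]
  refine ⟨hk, fun β hβ hn => ?_⟩
  by_contra hl
  apply hc
  refine ⟨β, hβ, hn, ?_⟩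
  rw [Function.iterate_succ_apply']
  exact hl

theorem ub2_spec {m a b : ℕ} (k : ℕ)
    (h : ∃ β < ub2G s m a b k, s.Nb (s.p^[k] a) β ∧ ¬ s.Lg β (s.p^[k + 1] a) b) :
    ub2G s m a b (k + 1) < ub2G s m a b k ∧ s.Nb (s.p^[k] a) (ub2G s m a b (k + 1)) ∧
      ¬ s.Lg (ub2G s m a b (k + 1)) (s.p^[k + 1] a) b := by
  have e : ub2G s m a b (k + 1) = h.choose := by rw [ub2G, dif_pos h]
  rw [e]
  exact ⟨h.choose_spec.1, h.choose_spec.2.1, h.choose_spec.2.2⟩

theorem ub2_inv {m a b : ℕ} (h : ¬ s.Lg (s.K ^ m) a b) (k : ℕ) (hk : s.p^[k] a ≤ b) :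
    ¬ s.Lg (ub2G s m a b k) (s.p^[k] a) b := by
  induction k with
  | zero => simpa [ub2G] using h
  | succ k ih =>
    have hk' : s.p^[k] a ≤ b := (ub2_iter_le a (Nat.le_succ k)).trans hk
    exact (ub2_spec k (ub2_exists k hk' (ih hk'))).2.2

/-- a descending sequence of ordinals of small norm from a non-large interval -/
theorem descend {m a b : ℕ} (hab : a ≤ b) (h : ¬ s.Lg (s.K ^ m) a b) :
    ∃ β : ℕ → Ordinal.{0}, ∀ k, s.p^[k] a ≤ b → β k < s.K ^ m ∧ s.Nb (s.p^[k] a) (β k) ∧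
      (s.p^[k + 1] a ≤ b → β (k + 1) < β k) := by
  have _ := hab
  have step : ∀ k, s.p^[k] a ≤ b → ub2G s m a b (k + 1) < ub2G s m a b k ∧
      s.Nb (s.p^[k] a) (ub2G s m a b (k + 1)) := by
    intro k hk
    have := ub2_spec k (ub2_exists k hk (ub2_inv h k hk))
    exact ⟨this.1, this.2.1⟩
  refine ⟨fun k => ub2G s m a b (k + 1), fun k hk => ⟨?_, (step k hk).2, fun hk' => ?_⟩⟩
  · refine (step k hk).1.trans_le ?_
    induction k with
    | zero => exact le_rfl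
    | succ k ih =>
      have hk' : s.p^[k] a ≤ b := (ub2_iter_le a (Nat.le_succ k)).trans hk
      exact (step k hk').1.le.trans (ih hk')
  · exact (step (k + 1) hk').1

end Scale

end Kriz.PTO
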