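import Pool.Agent.Work.MP_0f6836_lc.PTO.UB2

/-!
# Block UD: the steps for semiregularity and for iterates of `p`
-/

namespace Kriz.PTO

open Ordinal

variable {s : Scale}

theorem UD_pow_pos (s : Scale) (m : ℕ) : 0 < s.K ^ m := by
  rw [← Ordinal.opow_natCast]
  exact Ordinal.opow_pos _ s.K_pos

theorem UD_pow_mono (s : Scale) {m k : ℕ} (h : m ≤ k) : s.K ^ m ≤ s.K ^ k := by
  rw [← Ordinal.opow_natCast, ← Ordinal.opow_natCast]
  exact Ordinal.opow_le_opow_right s.K_pos (by exact_mod_cast h)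

theorem UD_cd (s : Scale) (j : ℕ) : s.cd ((j : Ordinal.{0}) + 1) = 2 * (j + 1) := by
  have := s.nat (j + 1)
  rw [← this]
  congr 1

theorem UD_lt_K (s : Scale) (j : ℕ) : (j : Ordinal.{0}) + 1 < s.K := by
  have h1 : (j : Ordinal.{0}) + 1 < ω := by
    exact_mod_cast Ordinal.natCast_lt_omega0 (j + 1)
  exact h1.trans_le s.hK

/-- pigeonhole principle: one of `j + 1` consecutive `K ^ m`-large intervals has none of `j` given
points in its interior -/
theorem free_interval (m : ℕ) : ∀ (j : ℕ) (P : Finset ℕ) (a b : ℕ), P.card ≤ j →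
    s.Lg (s.K ^ m * ((j : Ordinal.{0}) + 1)) a b → m + 1 ≤ a → 2 * j ≤ a →
    ∃ a' b', a ≤ a' ∧ b' ≤ b ∧ s.Lg (s.K ^ m) a' b' ∧ ∀ x ∈ P, x ≤ a' ∨ b' ≤ x := by
  intro j
  induction j with
  | zero =>
    intro P a b hP hL _ _
    refine ⟨a, b, le_rfl, le_rfl, ?_, ?_⟩
    · simpa using hL
    · have : P = ∅ := by
        rw [← Finset.card_eq_zero]; omega
      rw [this]
      simp
  | succ j ih =>
    intro P a b hP hL ha hj
    have h1 : s.K ^ m * (((j + 1 : ℕ) : Ordinal.{0}) + 1) =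
        s.K ^ m * ((j : Ordinal.{0}) + 1) + s.K ^ m := by
      rw [Nat.cast_add_one, mul_add, mul_one]
    rw [h1] at hL
    obtain ⟨c, hc, hcb⟩ := hL.split (le_refl _) (s.Nb_block (by omega) (UD_lt_K s j)
      (by rw [UD_cd]; omega))
    by_cases hx : ∀ x ∈ P, x ≤ a ∨ c ≤ x
    · exact ⟨a, c, le_rfl, hcb.le, hc, hx⟩
    · push Not at hx
      obtain ⟨x0, hx0, hx0a, hx0c⟩ := hx
      have hac := hc.le
      obtain ⟨a', b', h2, h3, h4, h5⟩ := ih (P.erase x0) c b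
        (by rw [Finset.card_erase_of_mem hx0]; omega) hcb (by omega) (by omega)
      refine ⟨a', b', by omega, h3, h4, fun x hx => ?_⟩
      by_cases hxx : x = x0
      · left; omega
      · exact h5 x (Finset.mem_erase.2 ⟨hxx, hx⟩)

theorem UD_first {m a b : ℕ} (h : s.Lg (s.K ^ (m + 3)) a b) (ha : m + 3 ≤ a) :
    s.Lg (s.K ^ m * ((a : Ordinal.{0}) + 1)) (s.p a) b ∧
    s.Lg (s.K ^ m * (((a + 1 : ℕ) : Ordinal.{0}) + 1)) (s.p a) b := by
  have h1 : s.cd 1 = 2 := by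
    have := s.nat 1
    simpa using this
  have h2 : s.K ^ (m + 2) * 1 < s.K ^ (m + 3) := by
    rw [mul_one]
    rw [← Ordinal.opow_natCast, ← Ordinal.opow_natCast]
    exact (Ordinal.opow_lt_opow_iff_right s.one_lt_K).2 (by exact_mod_cast (by omega : m + 2 < m + 3))
  have h3 := h.step h2 (s.Nb_block (by omega) s.one_lt_K (by rw [h1]; omega))
  rw [mul_one] at h3
  have h4 : ∀ j : ℕ, s.K ^ m * ((j : Ordinal.{0}) + 1) ≤ s.K ^ (m + 2) := by
    intro j
    have h5 := (UD_lt_K s j).le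
    calc s.K ^ m * ((j : Ordinal.{0}) + 1) ≤ s.K ^ m * s.K := by gcongr
      _ = s.K ^ (m + 1) := (pow_succ _ _).symm
      _ ≤ s.K ^ (m + 2) := UD_pow_mono s (by omega)
  exact ⟨h3.ord (h4 a), h3.ord (h4 (a + 1))⟩

theorem semi_step (r : ℕ → ℕ) {m a b : ℕ} (h : s.Lg (s.K ^ (m + 3)) a b) (ha : m + 3 ≤ a) :
    ∃ a' b', a ≤ a' ∧ b' ≤ b ∧ s.Lg (s.K ^ m) a' b' ∧ ∀ x ≤ a, r x ≤ a' ∨ b' ≤ r x := by
  obtain ⟨_, h1⟩ := UD_first h ha
  have hp := s.gt a
  obtain ⟨a', b', h2, h3, h4, h5⟩ := free_interval m (a + 1) ((Finset.range (a + 1)).image r)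
    (s.p a) b (Finset.card_image_le.trans (by rw [Finset.card_range])) h1 (by omega) (by omega)
  refine ⟨a', b', by omega, h3, h4, fun x hx => ?_⟩
  exact h5 (r x) (Finset.mem_image_of_mem r (Finset.mem_range.2 (by omega)))

theorem UD_iter (m : ℕ) : ∀ (j a b : ℕ), s.Lg (s.K ^ m * ((j : Ordinal.{0}) + 1)) a b →
    m + 1 ≤ a → 2 * (j + 1) ≤ a → s.Lg (s.K ^ m) (s.p^[j] a) b := by
  intro j
  induction j with
  | zero =>
    intro a b h _ _
    simpa using h
  | succ j ih =>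
    intro a b h ha hj
    have hp := s.gt a
    have h1 : s.K ^ m * ((j : Ordinal.{0}) + 1) <
        s.K ^ m * (((j + 1 : ℕ) : Ordinal.{0}) + 1) := by
      rw [Nat.cast_add_one, mul_add _ _ (1 : Ordinal.{0}), mul_one, mul_add _ (_ + _) (1 : Ordinal.{0}),
        mul_one, mul_add, mul_one]
      exact lt_add_of_pos_right _ (UD_pow_pos s m)
    have h2 := h.step h1 (s.Nb_block (by omega) (UD_lt_K s j) (by rw [UD_cd]; omega))
    have h3 := ih (s.p a) b h2 (by omega) (by omega)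
    rwa [← Function.iterate_succ_apply] at h3

/-- the iterate `p^[a] a` -/
theorem iter_step {m a b : ℕ} (h : s.Lg (s.K ^ (m + 3)) a b) (ha : m + 3 ≤ a) :
    s.Lg (s.K ^ m) (s.p^[a] a) b := by
  obtain ⟨h1, _⟩ := UD_first h ha
  have hp := s.gt a
  have h2 := UD_iter m a (s.p a) b h1 (by omega) (by omega)
  rw [← Function.iterate_succ_apply, Function.iterate_succ_apply'] at h2
  refine h2.left ?_
  have := s.gt (s.p^[a] a)
  omega

end Kriz.PTO
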