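import Pool.Agent.Work.MP_0f6836_lc.PTO.Eng

/-!
# Block VA1: countable families of functions closed under definability
-/

namespace Kriz.PTO

open Kriz

/-- a family of functions `ℕ → ℕ` closed under composition, pairing and unbounded search -/
structure IsClone (F : Set (ℕ → ℕ)) : Prop where
  id : (fun n => n) ∈ F
  const : ∀ c : ℕ, (fun _ => c) ∈ F
  fst : (fun n => n.unpair.1) ∈ F
  snd : (fun n => n.unpair.2) ∈ F
  add : (fun n => n.unpair.1 + n.unpair.2) ∈ F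
  mul : (fun n => n.unpair.1 * n.unpair.2) ∈ F
  lt : (fun n => if n.unpair.1 < n.unpair.2 then 0 else 1) ∈ F
  comp : ∀ f ∈ F, ∀ g ∈ F, (fun n => f (g n)) ∈ F
  pair : ∀ f ∈ F, ∀ g ∈ F, (fun n => Nat.pair (f n) (g n)) ∈ F
  mu : ∀ f ∈ F, (fun n => sInf {m | f (Nat.pair m n) = 0}) ∈ F

/-- one step of the closure -/
def va1Step (F : Set (ℕ → ℕ)) : Set (ℕ → ℕ) :=
  F ∪ Set.image2 (fun f g n => f (g n)) F F ∪
    Set.image2 (fun f g n => Nat.pair (f n) (g n)) F F ∪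
    (fun f n => sInf {m | f (Nat.pair m n) = 0}) '' F

/-- the base functions -/
def va1Base (B : Set (ℕ → ℕ)) : Set (ℕ → ℕ) :=
  B ∪ {(fun n => n), (fun n => n.unpair.1), (fun n => n.unpair.2),
    (fun n => n.unpair.1 + n.unpair.2), (fun n => n.unpair.1 * n.unpair.2),
    (fun n => if n.unpair.1 < n.unpair.2 then 0 else 1)} ∪ Set.range (fun (c : ℕ) (_ : ℕ) => c)

/-- iterated closure -/
def va1It (B : Set (ℕ → ℕ)) : ℕ → Set (ℕ → ℕ)
  | 0 => va1Base B
  | n + 1 => va1Step (va1It B n)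

theorem va1It_succ (B : Set (ℕ → ℕ)) (n : ℕ) : va1It B n ⊆ va1It B (n + 1) := by
  intro f hf
  exact Or.inl (Or.inl (Or.inl hf))

theorem va1It_mono (B : Set (ℕ → ℕ)) : Monotone (va1It B) :=
  monotone_nat_of_le_succ (va1It_succ B)

theorem va1It_countable {B : Set (ℕ → ℕ)} (hB : B.Countable) (n : ℕ) :
    (va1It B n).Countable := by
  induction n with
  | zero =>
    refine (hB.union ?_).union (Set.countable_range _)
    exact Set.Finite.countable (Set.toFinite _)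
  | succ n ih =>
    exact ((ih.union (ih.image2 ih _)).union (ih.image2 ih _)).union (ih.image _)

/-- the closure of a countable set is countable -/
theorem exists_clone (B : Set (ℕ → ℕ)) (hB : B.Countable) :
    ∃ F : Set (ℕ → ℕ), F.Countable ∧ B ⊆ F ∧ IsClone F := by
  have h0 : ∀ f, f ∈ va1Base B → f ∈ ⋃ n, va1It B n := fun f hf => Set.mem_iUnion.2 ⟨0, hf⟩
  have h2 : ∀ f g, f ∈ ⋃ n, va1It B n → g ∈ ⋃ n, va1It B n →
      ∃ n, f ∈ va1It B n ∧ g ∈ va1It B n := by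
    intro f g hf hg
    obtain ⟨n, hn⟩ := Set.mem_iUnion.1 hf
    obtain ⟨m, hm⟩ := Set.mem_iUnion.1 hg
    exact ⟨max n m, va1It_mono B (le_max_left _ _) hn, va1It_mono B (le_max_right _ _) hm⟩
  refine ⟨⋃ n, va1It B n, Set.countable_iUnion fun n => va1It_countable hB n,
    fun f hf => h0 f (Or.inl (Or.inl hf)), ?_⟩
  refine ⟨h0 _ (Or.inl (Or.inr (by simp))), fun c => h0 _ (Or.inr ⟨c, rfl⟩),
    h0 _ (Or.inl (Or.inr (by simp))), h0 _ (Or.inl (Or.inr (by simp))),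
    h0 _ (Or.inl (Or.inr (by simp))), h0 _ (Or.inl (Or.inr (by simp))),
    h0 _ (Or.inl (Or.inr (by simp))), ?_, ?_, ?_⟩
  · intro f hf g hg
    obtain ⟨n, h3, h4⟩ := h2 f g hf hg
    exact Set.mem_iUnion.2 ⟨n + 1, Or.inl (Or.inl (Or.inr ⟨f, h3, g, h4, rfl⟩))⟩
  · intro f hf g hg
    obtain ⟨n, h3, h4⟩ := h2 f g hf hg
    exact Set.mem_iUnion.2 ⟨n + 1, Or.inl (Or.inr ⟨f, h3, g, h4, rfl⟩)⟩
  · intro f hf
    obtain ⟨n, hn⟩ := Set.mem_iUnion.1 hf
    exact Set.mem_iUnion.2 ⟨n + 1, Or.inr ⟨f, hn, rfl⟩⟩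

open Classical in
/-- the predicate `P` belongs to the family -/
def InF (F : Set (ℕ → ℕ)) (P : ℕ → Prop) : Prop := (fun n => if P n then 0 else 1) ∈ F

variable {F : Set (ℕ → ℕ)}

theorem IsClone.comp' (hF : IsClone F) {f g : ℕ → ℕ} (hf : f ∈ F) (hg : g ∈ F) :
    (fun n => f (g n)) ∈ F := hF.comp f hf g hg

theorem IsClone.va1op (hF : IsClone F) {u : ℕ → ℕ} (hu : u ∈ F) {f g : ℕ → ℕ} (hf : f ∈ F)
    (hg : g ∈ F) : (fun n => u (Nat.pair (f n) (g n))) ∈ F :=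
  hF.comp u hu _ (hF.pair f hf g hg)

theorem IsClone.add' (hF : IsClone F) {f g : ℕ → ℕ} (hf : f ∈ F) (hg : g ∈ F) :
    (fun n => f n + g n) ∈ F := by
  have h := hF.va1op hF.add hf hg
  simpa only [Nat.unpair_pair] using h

theorem IsClone.mul' (hF : IsClone F) {f g : ℕ → ℕ} (hf : f ∈ F) (hg : g ∈ F) :
    (fun n => f n * g n) ∈ F := by
  have h := hF.va1op hF.mul hf hg
  simpa only [Nat.unpair_pair] using h

theorem IsClone.lt' (hF : IsClone F) {f g : ℕ → ℕ} (hf : f ∈ F) (hg : g ∈ F) :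
    (fun n => if f n < g n then 0 else 1) ∈ F := by
  have h := hF.va1op hF.lt hf hg
  simpa only [Nat.unpair_pair] using h

/-- a predicate which is given by the zeros of a function in the family -/
theorem IsClone.ofZero (hF : IsClone F) {h : ℕ → ℕ} (hh : h ∈ F) {P : ℕ → Prop}
    (hP : ∀ n, P n ↔ h n = 0) : InF F P := by
  classical
  unfold InF
  have h1 := hF.lt' hh (hF.const 1)
  have e : (fun n => if P n then 0 else 1) = fun n => if h n < 1 then 0 else 1 := by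
    funext n
    by_cases hn : P n
    · rw [if_pos hn, if_pos]
      rw [(hP n).1 hn]
      exact Nat.one_pos
    · rw [if_neg hn, if_neg]
      intro h2
      exact hn ((hP n).2 (by omega))
  rw [e]
  exact h1

/-- the characteristic function of a predicate -/
theorem InF.chi {P : ℕ → Prop} (hP : InF F P) : ∃ h ∈ F, ∀ n, (P n → h n = 0) ∧
    (¬ P n → h n = 1) :=
  ⟨_, hP, fun _ => ⟨fun h => if_pos h, fun h => if_neg h⟩⟩

theorem InF.congr {P Q : ℕ → Prop} (hP : InF F P) (h : ∀ n, P n ↔ Q n) : InF F Q := by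
  have e : P = Q := funext fun n => propext (h n)
  rw [← e]
  exact hP

theorem IsClone.iLt (hF : IsClone F) {f g : ℕ → ℕ} (hf : f ∈ F) (hg : g ∈ F) :
    InF F (fun n => f n < g n) := by
  refine hF.ofZero (hF.lt' hf hg) fun n => ?_
  split_ifs with h
  · simp [h]
  · simp [h]

theorem IsClone.iNot (hF : IsClone F) {P : ℕ → Prop} (hP : InF F P) :
    InF F (fun n => ¬ P n) := by
  obtain ⟨h, hh, h1⟩ := hP.chi
  refine hF.ofZero (hF.lt' (hF.const 0) hh) fun n => ?_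
  by_cases hn : P n
  · simp [hn, (h1 n).1 hn]
  · simp [hn, (h1 n).2 hn]

theorem IsClone.iLe (hF : IsClone F) {f g : ℕ → ℕ} (hf : f ∈ F) (hg : g ∈ F) :
    InF F (fun n => f n ≤ g n) :=
  (hF.iNot (hF.iLt hg hf)).congr fun _ => not_lt

theorem IsClone.iAnd (hF : IsClone F) {P Q : ℕ → Prop} (hP : InF F P) (hQ : InF F Q) :
    InF F (fun n => P n ∧ Q n) := by
  obtain ⟨h, hh, h1⟩ := hP.chi
  obtain ⟨k, hk, h2⟩ := hQ.chi
  refine hF.ofZero (hF.add' hh hk) fun n => ?_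
  by_cases hn : P n <;> by_cases hm : Q n
  · simp [hn, hm, (h1 n).1 hn, (h2 n).1 hm]
  · simp [hn, hm, (h1 n).1 hn, (h2 n).2 hm]
  · simp [hn, hm, (h1 n).2 hn, (h2 n).1 hm]
  · simp [hn, hm, (h1 n).2 hn, (h2 n).2 hm]

theorem IsClone.iEq (hF : IsClone F) {f g : ℕ → ℕ} (hf : f ∈ F) (hg : g ∈ F) :
    InF F (fun n => f n = g n) :=
  (hF.iAnd (hF.iLe hf hg) (hF.iLe hg hf)).congr fun n => by
    constructor
    · rintro ⟨h1, h2⟩
      omega
    · intro h
      omega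

theorem IsClone.iOr (hF : IsClone F) {P Q : ℕ → Prop} (hP : InF F P) (hQ : InF F Q) :
    InF F (fun n => P n ∨ Q n) :=
  (hF.iNot (hF.iAnd (hF.iNot hP) (hF.iNot hQ))).congr fun n => by tauto

theorem IsClone.iImp (hF : IsClone F) {P Q : ℕ → Prop} (hP : InF F P) (hQ : InF F Q) :
    InF F (fun n => P n → Q n) :=
  (hF.iOr (hF.iNot hP) hQ).congr fun n => by tauto

/-- substitution -/
theorem IsClone.iComp (hF : IsClone F) {P : ℕ → Prop} (hP : InF F P) {f : ℕ → ℕ} (hf : f ∈ F) :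
    InF F (fun n => P (f n)) := by
  obtain ⟨h, hh, h1⟩ := hP.chi
  refine hF.ofZero (hF.comp h hh f hf) fun n => ?_
  by_cases hn : P (f n)
  · simp [hn, (h1 _).1 hn]
  · simp [hn, (h1 _).2 hn]

/-- choice functions (least witnesses) -/
theorem IsClone.choice (hF : IsClone F) {P : ℕ → ℕ → Prop}
    (hP : InF F (fun n => P n.unpair.1 n.unpair.2)) :
    ∃ f ∈ F, ∀ n, (∃ m, P m n) → P (f n) n := by
  obtain ⟨h, hh, h1⟩ := hP.chi
  refine ⟨_, hF.mu h hh, fun n hn => ?_⟩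
  obtain ⟨m, hm⟩ := hn
  have h2 : ∀ m, h (Nat.pair m n) = 0 ↔ P m n := by
    intro m
    have h3 := h1 (Nat.pair m n)
    rw [Nat.unpair_pair] at h3
    constructor
    · intro h4
      by_contra h5
      have := h3.2 h5
      omega
    · exact h3.1
  have h3 : sInf {m | h (Nat.pair m n) = 0} ∈ {m | h (Nat.pair m n) = 0} :=
    Nat.sInf_mem ⟨m, (h2 m).2 hm⟩
  exact (h2 _).1 h3

/-- quantifiers; `P m n` is given as a predicate of the pair `(m, n)` -/
theorem IsClone.iEx (hF : IsClone F) {P : ℕ → ℕ → Prop}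
    (hP : InF F (fun n => P n.unpair.1 n.unpair.2)) : InF F (fun n => ∃ m, P m n) := by
  obtain ⟨f, hf, h1⟩ := hF.choice hP
  have h2 := hF.iComp hP (hF.pair f hf _ hF.id)
  refine h2.congr fun n => ?_
  rw [Nat.unpair_pair]
  exact ⟨fun h => ⟨_, h⟩, h1 n⟩

theorem IsClone.iAll (hF : IsClone F) {P : ℕ → ℕ → Prop}
    (hP : InF F (fun n => P n.unpair.1 n.unpair.2)) : InF F (fun n => ∀ m, P m n) :=
  (hF.iNot (hF.iEx (P := fun m n => ¬ P m n) (hF.iNot hP))).congr fun n => by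
    push Not
    rfl

/-- definition by cases -/
theorem IsClone.ite (hF : IsClone F) {P : ℕ → Prop} (hP : InF F P) {f g : ℕ → ℕ} (hf : f ∈ F)
    (hg : g ∈ F) : ∃ h ∈ F, ∀ n, (P n → h n = f n) ∧ (¬ P n → h n = g n) := by
  obtain ⟨h, hh, h1⟩ := hP.chi
  obtain ⟨k, hk, h2⟩ := (hF.iNot hP).chi
  refine ⟨_, hF.add' (hF.mul' hk hf) (hF.mul' hh hg), fun n => ⟨fun hn => ?_, fun hn => ?_⟩⟩
  · rw [(h1 n).1 hn, (h2 n).2 (not_not.2 hn)]
    ring
  · rw [(h1 n).2 hn, (h2 n).1 hn]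
    ring

end Kriz.PTO
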