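import Pool.Agent.Work.MP_0f6836_lc.PTO.VA1

/-!
# Block VA2: satisfaction of formulas belongs to the family
-/

namespace Kriz.PTO

open Kriz

variable {F : Set (ℕ → ℕ)}

/-- values of terms -/
theorem IsClone.val (hF : IsClone F) (a : NT) (t : ℕ → ℕ → ℕ) (ht : ∀ i, t i ∈ F) :
    (fun n => a.val (fun i => t i n)) ∈ F := by
  induction a with
  | var i => exact ht i
  | zero => exact hF.const 0
  | one => exact hF.const 1
  | add a b iha ihb => exact hF.add' iha ihb
  | mul a b iha ihb => exact hF.mul' iha ihb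

/-- satisfaction for the assignments with one more value in front -/
theorem IsClone.va2push (hF : IsClone F) (φ : Fm)
    (ih : ∀ (t h : ℕ → ℕ → ℕ), (∀ i, t i ∈ F) → (∀ k, h k ∈ F) →
      InF F (fun n => φ.Sat (fun k => {x : ℕ | h k (Nat.pair x n) = 0}) (fun i => t i n)))
    (t h : ℕ → ℕ → ℕ) (ht : ∀ i, t i ∈ F) (hh : ∀ k, h k ∈ F) :
    InF F (fun q => φ.Sat (fun k => {x : ℕ | h k (Nat.pair x q.unpair.2) = 0})
      (push q.unpair.1 (fun i => t i q.unpair.2))) := by
  have h1 := ih (fun i q => push q.unpair.1 (fun i => t i q.unpair.2) i)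
    (fun k z => h k (Nat.pair z.unpair.1 z.unpair.2.unpair.2)) ?_ ?_
  · refine h1.congr fun q => ?_
    simp only [Nat.unpair_pair]
  · intro i
    cases i with
    | zero => exact hF.fst
    | succ i => exact hF.comp _ (ht i) _ hF.snd
  · intro k
    exact hF.comp _ (hh k) _ (hF.pair _ hF.fst _ (hF.comp _ hF.snd _ hF.snd))

/-- satisfaction of a formula at the `n`-th assignment `i ↦ t i n` and the `n`-th sets
`{x | h k (x, n) = 0}`; by induction on the formula, for all `t`, `h` -/
theorem IsClone.sat (hF : IsClone F) (φ : Fm) : ∀ (t h : ℕ → ℕ → ℕ), (∀ i, t i ∈ F) →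
    (∀ k, h k ∈ F) → InF F (fun n => φ.Sat (fun k => {x : ℕ | h k (Nat.pair x n) = 0})
      (fun i => t i n)) := by
  induction φ with
  | eq a b =>
    intro t h ht _
    exact hF.iEq (hF.val a t ht) (hF.val b t ht)
  | lt a b =>
    intro t h ht _
    exact hF.iLt (hF.val a t ht) (hF.val b t ht)
  | mem a X =>
    intro t h ht hh
    exact hF.ofZero (hF.comp _ (hh X) _ (hF.pair _ (hF.val a t ht) _ hF.id)) fun n => Iff.rfl
  | neg φ ih =>
    intro t h ht hh
    exact hF.iNot (ih t h ht hh)
  | and φ ψ ih1 ih2 =>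
    intro t h ht hh
    exact hF.iAnd (ih1 t h ht hh) (ih2 t h ht hh)
  | ball s φ ih =>
    intro t h ht hh
    refine hF.iAll (P := fun m n => m < s.val (fun i => t i n) →
      φ.Sat (fun k => {x : ℕ | h k (Nat.pair x n) = 0}) (push m (fun i => t i n))) ?_
    exact hF.iImp (hF.iLt hF.fst (hF.comp _ (hF.val s t ht) _ hF.snd))
      (hF.va2push φ ih t h ht hh)
  | all φ ih =>
    intro t h ht hh
    exact hF.iAll (P := fun m n =>
      φ.Sat (fun k => {x : ℕ | h k (Nat.pair x n) = 0}) (push m (fun i => t i n)))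
      (hF.va2push φ ih t h ht hh)

end Kriz.PTO
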