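import Pool.Agent.Work.MP_0f6836_lc.PTO.VA2

/-!
# Block VB: cuts in a Skolem ultrapower of the natural numbers

`D` is a set of functions `ℕ → ℕ`; `Md D` is the structure of the functions in `D` modulo a
nonprincipal ultrafilter.
-/

namespace Kriz.PTO

open Kriz

/-- eventually, for a fixed nonprincipal ultrafilter on `ℕ` -/
def Ev (P : ℕ → Prop) : Prop := ∀ᶠ n in (Filter.hyperfilter ℕ : Filter ℕ), P n

theorem Ev.of_all {P : ℕ → Prop} (h : ∀ n, P n) : Ev P := Filter.Eventually.of_forall h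

theorem Ev.mono {P Q : ℕ → Prop} (h : Ev P) (h' : ∀ n, P n → Q n) : Ev Q :=
  Filter.Eventually.mono h h'

theorem Ev.and {P Q : ℕ → Prop} (h : Ev P) (h' : Ev Q) : Ev (fun n => P n ∧ Q n) :=
  Filter.Eventually.and h h'

theorem Ev_not {P : ℕ → Prop} : Ev (fun n => ¬ P n) ↔ ¬ Ev P :=
  Ultrafilter.eventually_not

theorem Ev_and {P Q : ℕ → Prop} : Ev (fun n => P n ∧ Q n) ↔ Ev P ∧ Ev Q :=
  Filter.eventually_and

theorem Ev_or {P Q : ℕ → Prop} : Ev (fun n => P n ∨ Q n) ↔ Ev P ∨ Ev Q :=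
  Ultrafilter.eventually_or

theorem Ev.false (h : Ev (fun _ => False)) : False := by
  have h1 : Ev (fun _ => ¬ False) := Ev.of_all fun _ => not_false
  exact (Ev_not.1 h1) h

theorem Ev_lt (c : ℕ) : Ev (fun n => c < n) := by
  have h : ∀ᶠ n in (Filter.cofinite : Filter ℕ), c < n := by
    rw [Nat.cofinite_eq_atTop]
    exact Filter.eventually_gt_atTop c
  exact Filter.hyperfilter_le_cofinite h

/-- closed under the operations -/
class DomOp (D : Set (ℕ → ℕ)) : Prop where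
  zero : (fun _ => 0) ∈ D
  one : (fun _ => 1) ∈ D
  add : ∀ f ∈ D, ∀ g ∈ D, (fun n => f n + g n) ∈ D
  mul : ∀ f ∈ D, ∀ g ∈ D, (fun n => f n * g n) ∈ D

/-- equality along the ultrafilter -/
def relD (D : Set (ℕ → ℕ)) : Setoid ↥D where
  r f g := Ev (fun n => f.1 n = g.1 n)
  iseqv := ⟨fun _ => Ev.of_all fun _ => rfl, fun h => h.mono fun _ e => e.symm,
    fun h h' => (h.and h').mono fun _ e => e.1.trans e.2⟩

/-- the structure of the functions in `D` modulo the ultrafilter -/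
def Md (D : Set (ℕ → ℕ)) : Type := Quotient (relD D)

variable {D : Set (ℕ → ℕ)}

/-- the class of a function -/
def cl (f : ↥D) : Md D := Quotient.mk (relD D) f

theorem cl_eq {f g : ↥D} : cl f = cl g ↔ Ev (fun n => f.1 n = g.1 n) :=
  ⟨fun h => Quotient.exact h, fun h => Quotient.sound h⟩

theorem cl_surj (x : Md D) : ∃ f : ↥D, x = cl f := by
  obtain ⟨f, hf⟩ := Quotient.exists_rep x
  exact ⟨f, hf.symm⟩

section

variable [hD : DomOp D]

instance : Zero (Md D) := ⟨cl ⟨_, hD.zero⟩⟩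

instance : One (Md D) := ⟨cl ⟨_, hD.one⟩⟩

instance : Add (Md D) := ⟨Quotient.map₂ (fun f g => ⟨fun n => f.1 n + g.1 n, hD.add _ f.2 _ g.2⟩)
  (by
    intro f f' h g g' h'
    exact (Ev.and h h').mono fun n e => by show f.1 n + g.1 n = f'.1 n + g'.1 n; rw [e.1, e.2])⟩

instance : Mul (Md D) := ⟨Quotient.map₂ (fun f g => ⟨fun n => f.1 n * g.1 n, hD.mul _ f.2 _ g.2⟩)
  (by
    intro f f' h g g' h'
    exact (Ev.and h h').mono fun n e => by show f.1 n * g.1 n = f'.1 n * g'.1 n; rw [e.1, e.2])⟩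

omit hD in
instance : LT (Md D) := ⟨Quotient.lift₂ (fun f g => Ev (fun n => f.1 n < g.1 n)) (by
    intro f g f' g' h h'
    apply propext
    constructor
    · intro e
      exact (Ev.and e (Ev.and h h')).mono fun n e => by rw [← e.2.1, ← e.2.2]; exact e.1
    · intro e
      exact (Ev.and e (Ev.and h h')).mono fun n e => by rw [e.2.1, e.2.2]; exact e.1)⟩

theorem cl_zero : (0 : Md D) = cl ⟨_, hD.zero⟩ := rfl

theorem cl_one : (1 : Md D) = cl ⟨_, hD.one⟩ := rfl

theorem cl_add (f g : ↥D) : cl f + cl g = cl ⟨fun n => f.1 n + g.1 n, hD.add _ f.2 _ g.2⟩ := rfl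

theorem cl_mul (f g : ↥D) : cl f * cl g = cl ⟨fun n => f.1 n * g.1 n, hD.mul _ f.2 _ g.2⟩ := rfl

omit hD in
theorem cl_lt (f g : ↥D) : cl f < cl g ↔ Ev (fun n => f.1 n < g.1 n) := Iff.rfl

theorem mem_pr {f g : ℕ → ℕ} (hf : f ∈ D) (hg : g ∈ D) : (fun n => pr (f n) (g n)) ∈ D :=
  hD.add _ (hD.mul _ (hD.add _ hf _ hg) _ (hD.add _ hf _ hg)) _ hf

theorem cl_pr (f g : ↥D) : pr (cl f) (cl g) = cl ⟨fun n => pr (f.1 n) (g.1 n), mem_pr f.2 g.2⟩ :=
  rfl

end

/-- the set with characteristic function `h` -/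
def MS (D : Set (ℕ → ℕ)) (h : ℕ → ℕ) : Set (Md D) :=
  {x | ∃ f : ↥D, x = cl f ∧ Ev (fun n => h (Nat.pair (f.1 n) n) = 0)}

theorem cl_mem_MS {h : ℕ → ℕ} {f : ↥D} :
    cl f ∈ MS D h ↔ Ev (fun n => h (Nat.pair (f.1 n) n) = 0) := by
  constructor
  · rintro ⟨g, h1, h2⟩
    rw [cl_eq] at h1
    exact (h1.and h2).mono fun n e => by rw [e.1]; exact e.2
  · intro h1
    exact ⟨f, rfl, h1⟩

/-- the second-order part of the structure -/
def St (F D : Set (ℕ → ℕ)) : Set (Set (Md D)) := {X | ∃ h ∈ F, X = MS D h}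

/-- the functions in `D` are an initial segment of `F`, and some function in `F` is above -/
structure IsInit (F D : Set (ℕ → ℕ)) : Prop where
  clone : IsClone F
  sub : D ⊆ F
  init : ∀ f ∈ F, ∀ g ∈ D, Ev (fun n => f n ≤ g n) → f ∈ D
  top : ∃ b ∈ F, ∀ f ∈ D, Ev (fun n => f n < b n)

theorem val_mem [hD : DomOp D] (a : NT) (t : ℕ → ↥D) :
    (fun n => a.val (fun i => (t i).1 n)) ∈ D := by
  induction a with
  | var i => exact (t i).2
  | zero => exact hD.zero
  | one => exact hD.one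
  | add a b iha ihb => exact hD.add _ iha _ ihb
  | mul a b iha ihb => exact hD.mul _ iha _ ihb

/-- terms -/
theorem val_cl [DomOp D] (a : NT) (t : ℕ → ↥D) (h : (fun n => a.val (fun i => (t i).1 n)) ∈ D) :
    a.val (fun i => cl (t i)) = cl ⟨_, h⟩ := by
  induction a with
  | var i => rfl
  | zero => rfl
  | one => rfl
  | add a b iha ihb =>
    show a.val (fun i => cl (t i)) + b.val (fun i => cl (t i)) = _
    rw [iha (val_mem a t), ihb (val_mem b t)]
    rfl
  | mul a b iha ihb =>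
    show a.val (fun i => cl (t i)) * b.val (fun i => cl (t i)) = _
    rw [iha (val_mem a t), ihb (val_mem b t)]
    rfl

/-- assignments with one more value -/
def vbPush (f : ↥D) (t : ℕ → ↥D) : ℕ → ↥D
  | 0 => f
  | i + 1 => t i

theorem vbPush_cl (f : ↥D) (t : ℕ → ↥D) :
    (fun i => cl (vbPush f t i)) = push (cl f) (fun i => cl (t i)) := by
  funext i
  cases i <;> rfl

theorem vbPush_val (f : ↥D) (t : ℕ → ↥D) (n : ℕ) :
    (fun i => (vbPush f t i).1 n) = push (f.1 n) (fun i => (t i).1 n) := by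
  funext i
  cases i <;> rfl

/-- the bounded quantifier -/
theorem vb_ball {F : Set (ℕ → ℕ)} [DomOp D] (hI : IsInit F D) (s : NT) (φ : Fm)
    (V : ℕ → Set (Md D)) (h : ℕ → ℕ → ℕ) (hh : ∀ k, h k ∈ F)
    (ih : ∀ t : ℕ → ↥D, (φ.Sat V (fun i => cl (t i)) ↔
      Ev (fun n => φ.Sat (fun k => {x : ℕ | h k (Nat.pair x n) = 0}) (fun i => (t i).1 n))))
    (t : ℕ → ↥D) :
    (Fm.ball s φ).Sat V (fun i => cl (t i)) ↔
      Ev (fun n => (Fm.ball s φ).Sat (fun k => {x : ℕ | h k (Nat.pair x n) = 0})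
        (fun i => (t i).1 n)) := by
  have ht : ∀ i, (t i).1 ∈ F := fun i => hI.sub (t i).2
  have hs := val_mem s t
  constructor
  · intro h1
    by_contra hcon
    rw [← Ev_not] at hcon
    obtain ⟨f, hf, hf1⟩ := hI.clone.choice (P := fun m n => m < s.val (fun i => (t i).1 n) ∧
      ¬ φ.Sat (fun k => {x : ℕ | h k (Nat.pair x n) = 0}) (push m (fun i => (t i).1 n)))
      (hI.clone.iAnd (hI.clone.iLt hI.clone.fst (hI.clone.comp _ (hI.sub hs) _ hI.clone.snd))
        (hI.clone.iNot (hI.clone.va2push φ (hI.clone.sat φ) (fun i => (t i).1) h ht hh)))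
    have hE : Ev (fun n => f n < s.val (fun i => (t i).1 n) ∧
        ¬ φ.Sat (fun k => {x : ℕ | h k (Nat.pair x n) = 0}) (push (f n) (fun i => (t i).1 n))) := by
      refine hcon.mono fun n hn => hf1 n ?_
      by_contra h2
      push Not at h2
      exact hn fun m hm => h2 m hm
    rw [Ev_and] at hE
    have hfD : f ∈ D := hI.init f hf _ hs (hE.1.mono fun n hn => hn.le)
    have h2 := h1 (cl ⟨f, hfD⟩) (by
      rw [val_cl s t hs, cl_lt]
      exact hE.1)
    rw [← vbPush_cl, ih] at h2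
    refine Ev.false ((h2.and hE.2).mono fun n hn => ?_)
    rw [vbPush_val] at hn
    exact hn.2 hn.1
  · intro h1 m hm
    obtain ⟨f, rfl⟩ := cl_surj m
    rw [val_cl s t hs, cl_lt] at hm
    rw [← vbPush_cl, ih]
    refine (h1.and hm).mono fun n hn => ?_
    rw [vbPush_val]
    exact hn.1 _ hn.2

/-- the theorem of Łoś for bounded formulas, by induction on the formula (use `IsClone.sat` and
`IsClone.choice` for the witnesses) -/
theorem sat_bdd {F : Set (ℕ → ℕ)} [DomOp D] (hI : IsInit F D) (φ : Fm) (hφ : φ.Bdd) :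
    ∀ (t : ℕ → ↥D) (h : ℕ → ℕ → ℕ), (∀ k, h k ∈ F) →
    (φ.Sat (fun k => MS D (h k)) (fun i => cl (t i)) ↔
      Ev (fun n => φ.Sat (fun k => {x : ℕ | h k (Nat.pair x n) = 0}) (fun i => (t i).1 n))) := by
  induction φ with
  | eq a b =>
    intro t h _
    show a.val (fun i => cl (t i)) = b.val (fun i => cl (t i)) ↔ _
    rw [val_cl a t (val_mem a t), val_cl b t (val_mem b t), cl_eq]
    rfl
  | lt a b =>
    intro t h _
    show a.val (fun i => cl (t i)) < b.val (fun i => cl (t i)) ↔ _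
    rw [val_cl a t (val_mem a t), val_cl b t (val_mem b t), cl_lt]
    rfl
  | mem a X =>
    intro t h _
    show a.val (fun i => cl (t i)) ∈ MS D (h X) ↔ _
    rw [val_cl a t (val_mem a t), cl_mem_MS]
    rfl
  | neg φ ih =>
    intro t h hh
    show ¬ _ ↔ Ev (fun n => ¬ _)
    rw [Ev_not]
    exact not_congr (ih hφ t h hh)
  | and φ ψ ih1 ih2 =>
    intro t h hh
    show _ ∧ _ ↔ Ev (fun n => _ ∧ _)
    rw [Ev_and]
    exact and_congr (ih1 hφ.1 t h hh) (ih2 hφ.2 t h hh)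
  | ball s φ ih =>
    intro t h hh
    exact vb_ball hI s φ _ h hh (fun t => ih hφ t h hh) t
  | all φ _ => exact hφ.elim

end Kriz.PTO
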