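import Pool.Agent.Work.MP_0f6836_lc.PTO.VB

/-!
# Block VC: semiregular cuts give models of `RCA_0`
-/

namespace Kriz.PTO

open Kriz

/-- semiregularity -/
def Semi (F D : Set (ℕ → ℕ)) : Prop := ∀ r ∈ F, ∀ a ∈ D, ∃ d ∈ D, ∃ e ∈ F,
  (∀ f ∈ D, Ev (fun n => f n < e n)) ∧
  Ev (fun n => ∀ x ≤ a n, r (Nat.pair x n) ≤ d n ∨ e n ≤ r (Nat.pair x n))

variable {F D : Set (ℕ → ℕ)}

/-- `θ(y, x)` in the `n`-th copy -/
def VC_A (θ : Fm) (t h : ℕ → ℕ → ℕ) (n x y : ℕ) : Prop :=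
  θ.Sat (fun k => {z : ℕ | h k (Nat.pair z n) = 0}) (push y (push x (fun i => t i n)))

theorem VC_A_inF (hF : IsClone F) (θ : Fm) {t h : ℕ → ℕ → ℕ} (ht : ∀ i, t i ∈ F)
    (hh : ∀ k, h k ∈ F) {a b c : ℕ → ℕ} (ha : a ∈ F) (hb : b ∈ F) (hc : c ∈ F) :
    InF F (fun w => VC_A θ t h (a w) (b w) (c w)) := by
  have h1 := hF.sat θ (push c (push b (fun i w => t i (a w))))
    (fun k u => h k (Nat.pair u.unpair.1 (a u.unpair.2))) (by
      intro i
      rcases i with _ | _ | i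
      · exact hc
      · exact hb
      · show (fun w => t i (a w)) ∈ F
        exact hF.comp' (ht i) ha) (by
      intro k
      exact hF.comp' (hh k) (hF.pair _ hF.fst _ (hF.comp' ha hF.snd)))
  have e : (fun w => θ.Sat (fun k => {x : ℕ | (fun k u => h k (Nat.pair u.unpair.1
      (a u.unpair.2))) k (Nat.pair x w) = 0}) (fun i => push c (push b (fun i w => t i (a w))) i w))
      = fun w => VC_A θ t h (a w) (b w) (c w) := by
    funext w
    unfold VC_A
    have e1 : (fun i => push c (push b (fun i w => t i (a w))) i w) =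
        push (c w) (push (b w) (fun i => t i (a w))) := by
      funext i
      rcases i with _ | _ | i <;> rfl
    rw [e1]
    simp only [Nat.unpair_pair]
  rw [e] at h1
  exact h1

theorem Fm.sat_ex' {M : Type*} [Zero M] [One M] [Add M] [Mul M] [LT M] (θ : Fm) (V : ℕ → Set M)
    (v : ℕ → M) : θ.ex.Sat V v ↔ ∃ y, θ.Sat V (push y v) := by
  show ¬ (∀ w, ¬ θ.Sat V (push w v)) ↔ _
  push Not
  rfl

theorem VC_ex [DomOp D] (hI : IsInit F D) {θ : Fm} (hθ : θ.Bdd) (t : ℕ → ↥D) {h : ℕ → ℕ → ℕ}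
    (hh : ∀ k, h k ∈ F) (f : ↥D) :
    θ.ex.Sat (fun k => MS D (h k)) (push (cl f) (fun i => cl (t i))) ↔
      ∃ y ∈ D, Ev (fun n => VC_A θ (fun i => (t i).1) h n (f.1 n) (y n)) := by
  rw [Fm.sat_ex']
  have key : ∀ g : ↥D, θ.Sat (fun k => MS D (h k)) (push (cl g) (push (cl f)
      (fun i => cl (t i)))) ↔ Ev (fun n => VC_A θ (fun i => (t i).1) h n (f.1 n) (g.1 n)) := by
    intro g
    have e1 : push (cl g) (push (cl f) (fun i => cl (t i))) =
        fun i => cl (push g (push f t) i) := by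
      funext i
      rcases i with _ | _ | i <;> rfl
    rw [e1, sat_bdd hI θ hθ (push g (push f t)) h hh]
    have e2 : ∀ n, (fun i => (push g (push f t) i).1 n) =
        push (g.1 n) (push (f.1 n) (fun i => (t i).1 n)) := by
      intro n
      funext i
      rcases i with _ | _ | i <;> rfl
    simp only [e2]
    rfl
  constructor
  · rintro ⟨y, hy⟩
    obtain ⟨g, rfl⟩ := cl_surj y
    exact ⟨g.1, g.2, (key g).1 hy⟩
  · rintro ⟨y, hy, h1⟩
    exact ⟨cl ⟨y, hy⟩, (key ⟨y, hy⟩).2 h1⟩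

theorem VC_params {V : ℕ → Set (Md D)} {v : ℕ → Md D} (hV : ∀ k, V k ∈ St F D) :
    ∃ (t : ℕ → ↥D) (h : ℕ → ℕ → ℕ), (∀ k, h k ∈ F) ∧ V = (fun k => MS D (h k)) ∧
      v = fun i => cl (t i) := by
  choose h h1 h2 using hV
  choose t ht using fun i => cl_surj (v i)
  exact ⟨t, h, h1, funext h2, funext ht⟩

/-- `Σ₁` induction: if `∃ y, θ(y, x)` fails for `x = cl f`, let `r(x, n)` be the least `y` with
`θ_n(y, x)` (a number above the cut if there is none), let `d`, `e` be as in `Semi` and look at the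
least `x ≤ f n` with `r(x, n) > d n`. -/
theorem ind_cut [DomOp D] (hI : IsInit F D) (hS : Semi F D) (θ : Fm) (hθ : θ.Bdd)
    (V : ℕ → Set (Md D)) (v : ℕ → Md D) (hV : ∀ k, V k ∈ St F D)
    (h0 : θ.ex.Sat V (push 0 v))
    (hs : ∀ m, θ.ex.Sat V (push m v) → θ.ex.Sat V (push (m + 1) v)) (m : Md D) :
    θ.ex.Sat V (push m v) := by
  obtain ⟨t, h, hh, rfl, rfl⟩ := VC_params (v := v) hV
  have hF := hI.clone
  obtain ⟨f, rfl⟩ := cl_surj m
  by_contra hf
  obtain ⟨b, hb, hbD⟩ := hI.top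
  have ht : ∀ i, (t i).1 ∈ F := fun i => hI.sub (t i).2
  have hsnd2 : (fun n : ℕ => n.unpair.2.unpair.2) ∈ F := hF.comp' hF.snd hF.snd
  have hfst2 : (fun n : ℕ => n.unpair.2.unpair.1) ∈ F := hF.comp' hF.fst hF.snd
  -- the least witness
  obtain ⟨r, hr, hr'⟩ := hF.choice (P := fun y w =>
      (VC_A θ (fun i => (t i).1) h w.unpair.2 w.unpair.1 y ∨
        (y = b w.unpair.2 ∧ ∀ y', ¬ VC_A θ (fun i => (t i).1) h w.unpair.2 w.unpair.1 y')) ∧
      ∀ y', y' < y → ¬ VC_A θ (fun i => (t i).1) h w.unpair.2 w.unpair.1 y') (by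
    refine hF.iAnd (hF.iOr (VC_A_inF hF θ ht hh hsnd2 hfst2 hF.fst)
      (hF.iAnd (hF.iEq hF.fst (hF.comp' hb hsnd2)) ?_)) ?_
    · exact hF.iAll (P := fun y' n => ¬ VC_A θ (fun i => (t i).1) h n.unpair.2.unpair.2
        n.unpair.2.unpair.1 y') (hF.iNot (VC_A_inF hF θ ht hh (hF.comp' hsnd2 hF.snd)
          (hF.comp' hfst2 hF.snd) hF.fst))
    · exact hF.iAll (P := fun y' n => y' < n.unpair.1 → ¬ VC_A θ (fun i => (t i).1) h
        n.unpair.2.unpair.2 n.unpair.2.unpair.1 y') (hF.iImp (hF.iLt hF.fst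
          (hF.comp' hF.fst hF.snd)) (hF.iNot (VC_A_inF hF θ ht hh (hF.comp' hsnd2 hF.snd)
          (hF.comp' hfst2 hF.snd) hF.fst))))
  have hrw : ∀ x n, (VC_A θ (fun i => (t i).1) h n x (r (Nat.pair x n)) ∨
      r (Nat.pair x n) = b n) ∧ ∀ y, VC_A θ (fun i => (t i).1) h n x y →
        r (Nat.pair x n) ≤ y := by
    intro x n
    have h1 := hr' (Nat.pair x n) (by
      simp only [Nat.unpair_pair]
      by_cases h2 : ∃ y, VC_A θ (fun i => (t i).1) h n x y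
      · classical
        exact ⟨Nat.find h2, Or.inl (Nat.find_spec h2), fun y' hy' => Nat.find_min h2 hy'⟩
      · rw [not_exists] at h2
        exact ⟨b n, Or.inr ⟨rfl, h2⟩, fun y' _ => h2 y'⟩)
    simp only [Nat.unpair_pair] at h1
    refine ⟨h1.1.imp id fun h => h.1, fun y hy => ?_⟩
    by_contra hlt
    exact h1.2 y (not_le.1 hlt) hy
  -- satisfaction and `r`
  have hsat : ∀ g : ↥D, θ.ex.Sat (fun k => MS D (h k)) (push (cl g) (fun i => cl (t i))) ↔
      ∃ d ∈ D, Ev (fun n => r (Nat.pair (g.1 n) n) ≤ d n) := by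
    intro g
    rw [VC_ex hI hθ t hh g]
    constructor
    · rintro ⟨y, hy, h1⟩
      exact ⟨y, hy, h1.mono fun n h2 => (hrw _ n).2 _ h2⟩
    · rintro ⟨d, hd, h1⟩
      have hrg : (fun n => r (Nat.pair (g.1 n) n)) ∈ F :=
        hF.comp' hr (hF.pair _ (hI.sub g.2) _ hF.id)
      refine ⟨fun n => r (Nat.pair (g.1 n) n), hI.init _ hrg _ hd h1, ?_⟩
      refine (h1.and (hbD d hd)).mono fun n h2 => ?_
      rcases (hrw (g.1 n) n).1 with h3 | h3
      · exact h3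
      · have := h2.1
        have := h2.2
        omega
  obtain ⟨d, hd, e, he, heD, hde⟩ := hS r hr f.1 f.2
  -- `r` is large at `f`
  have hbig : ∀ g : ↥D, ¬ θ.ex.Sat (fun k => MS D (h k)) (push (cl g) (fun i => cl (t i))) →
      Ev (fun n => d n < r (Nat.pair (g.1 n) n)) := by
    intro g hg
    have h1 : ¬ Ev (fun n => r (Nat.pair (g.1 n) n) ≤ d n) := fun h1 => hg ((hsat g).2 ⟨d, hd, h1⟩)
    exact (Ev_not.2 h1).mono fun n h2 => not_le.1 h2
  have hsmall : ∀ g : ↥D, Ev (fun n => g.1 n ≤ f.1 n) →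
      θ.ex.Sat (fun k => MS D (h k)) (push (cl g) (fun i => cl (t i))) →
      Ev (fun n => r (Nat.pair (g.1 n) n) ≤ d n) := by
    intro g hgf hg
    obtain ⟨y, hy, h1⟩ := (hsat g).1 hg
    refine ((h1.and (heD y hy)).and (hde.and hgf)).mono fun n h2 => ?_
    rcases h2.2.1 (g.1 n) h2.2.2 with h3 | h3
    · exact h3
    · have := h2.1.1
      have := h2.1.2
      omega
  have hf' := hbig f hf
  have h00 : Ev (fun n => r (Nat.pair 0 n) ≤ d n) :=
    hsmall ⟨_, DomOp.zero⟩ (Ev.of_all fun n => Nat.zero_le _) h0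
  obtain ⟨g, hg, hg'⟩ := hF.choice (P := fun x n => x < f.1 n ∧ r (Nat.pair x n) ≤ d n ∧
      d n < r (Nat.pair (x + 1) n)) (by
    refine hF.iAnd (hF.iLt hF.fst (hF.comp' (hI.sub f.2) hF.snd)) (hF.iAnd ?_ ?_)
    · exact hF.iLe (hF.comp' hr (hF.pair _ hF.fst _ hF.snd)) (hF.comp' (hI.sub hd) hF.snd)
    · exact hF.iLt (hF.comp' (hI.sub hd) hF.snd) (hF.comp' hr (hF.pair _
        (hF.add' hF.fst (hF.const 1)) _ hF.snd)))
  have hgn : Ev (fun n => g n < f.1 n ∧ r (Nat.pair (g n) n) ≤ d n ∧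
      d n < r (Nat.pair (g n + 1) n)) := by
    refine (hf'.and h00).mono fun n h1 => hg' n ?_
    by_contra h2
    push Not at h2
    have h3 : ∀ x, x ≤ f.1 n → r (Nat.pair x n) ≤ d n := by
      intro x
      induction x with
      | zero => intro _; exact h1.2
      | succ x ih =>
        intro hx
        exact h2 x (by omega) (ih (by omega))
    have := h3 (f.1 n) le_rfl
    have := h1.1
    omega
  have hgD : g ∈ D := hI.init g hg f.1 f.2 (hgn.mono fun n h1 => h1.1.le)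
  have h1 : θ.ex.Sat (fun k => MS D (h k)) (push (cl ⟨g, hgD⟩) (fun i => cl (t i))) :=
    (hsat ⟨g, hgD⟩).2 ⟨d, hd, hgn.mono fun n h1 => h1.2.1⟩
  have h2 := hs _ h1
  rw [cl_one, cl_add] at h2
  have h3 := hsmall _ (hgn.mono fun n h1 => by
    show g n + 1 ≤ f.1 n
    exact h1.1) h2
  exact ((h3.and hgn).mono fun n h4 => by
    have h5 : r (Nat.pair (g n + 1) n) ≤ d n := h4.1
    have := h4.2.2.2
    omega : Ev (fun _ => False)).false

/-- `Δ₁` comprehension, with the set of all `x` such that for some `y`, `θ_n(y, x)` and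
`¬ θ'_n(y', x)` for all `y' < y` -/
theorem comp_cut [DomOp D] (hI : IsInit F D) (θ θ' : Fm) (hθ : θ.Bdd) (hθ' : θ'.Bdd)
    (V : ℕ → Set (Md D)) (v : ℕ → Md D) (hV : ∀ k, V k ∈ St F D)
    (h : ∀ m, θ.ex.Sat V (push m v) ↔ ¬ θ'.ex.Sat V (push m v)) :
    {m | θ.ex.Sat V (push m v)} ∈ St F D := by
  obtain ⟨t, k, hk, rfl, rfl⟩ := VC_params (v := v) hV
  have hF := hI.clone
  have ht : ∀ i, (t i).1 ∈ F := fun i => hI.sub (t i).2
  have hsnd2 : (fun n : ℕ => n.unpair.2.unpair.2) ∈ F := hF.comp' hF.snd hF.snd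
  have hfst2 : (fun n : ℕ => n.unpair.2.unpair.1) ∈ F := hF.comp' hF.fst hF.snd
  -- the predicate `C` of `(y, (x, n))`
  have hC : InF F (fun w => VC_A θ (fun i => (t i).1) k w.unpair.2.unpair.2 w.unpair.2.unpair.1
      w.unpair.1 ∧ ∀ y', y' < w.unpair.1 → ¬ VC_A θ' (fun i => (t i).1) k w.unpair.2.unpair.2
        w.unpair.2.unpair.1 y') := by
    refine hF.iAnd (VC_A_inF hF θ ht hk hsnd2 hfst2 hF.fst) ?_
    exact hF.iAll (P := fun y' n => y' < n.unpair.1 → ¬ VC_A θ' (fun i => (t i).1) k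
        n.unpair.2.unpair.2 n.unpair.2.unpair.1 y') (hF.iImp (hF.iLt hF.fst
          (hF.comp' hF.fst hF.snd)) (hF.iNot (VC_A_inF hF θ' ht hk (hF.comp' hsnd2 hF.snd)
          (hF.comp' hfst2 hF.snd) hF.fst)))
  have hEx : InF F (fun w => ∃ y, VC_A θ (fun i => (t i).1) k w.unpair.2 w.unpair.1 y ∧
      ∀ y', y' < y → ¬ VC_A θ' (fun i => (t i).1) k w.unpair.2 w.unpair.1 y') :=
    hF.iEx (P := fun y w => VC_A θ (fun i => (t i).1) k w.unpair.2 w.unpair.1 y ∧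
      ∀ y', y' < y → ¬ VC_A θ' (fun i => (t i).1) k w.unpair.2 w.unpair.1 y') hC
  refine ⟨_, hEx, ?_⟩
  ext m
  obtain ⟨g, rfl⟩ := cl_surj m
  rw [cl_mem_MS]
  have hgF := hI.sub g.2
  classical
  have e0 : ∀ P : Prop, (if P then 0 else 1 : ℕ) = 0 ↔ P := by
    intro P
    by_cases h1 : P
    · simp [h1]
    · simp [h1]
  have e : ∀ n, ((if ∃ y, VC_A θ (fun i => (t i).1) k (Nat.pair (g.1 n) n).unpair.2
      (Nat.pair (g.1 n) n).unpair.1 y ∧ ∀ y', y' < y → ¬ VC_A θ' (fun i => (t i).1) k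
        (Nat.pair (g.1 n) n).unpair.2 (Nat.pair (g.1 n) n).unpair.1 y' then 0 else 1 : ℕ) = 0) ↔
      ∃ y, VC_A θ (fun i => (t i).1) k n (g.1 n) y ∧ ∀ y', y' < y →
        ¬ VC_A θ' (fun i => (t i).1) k n (g.1 n) y' := by
    intro n
    rw [e0]
    simp only [Nat.unpair_pair]
  constructor
  · intro hm
    have hm : θ.ex.Sat (fun j => MS D (k j)) (push (cl g) (fun i => cl (t i))) := hm
    obtain ⟨y, hy, h1⟩ := (VC_ex hI hθ t hk g).1 hm
    by_contra h2
    rw [← Ev_not] at h2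
    obtain ⟨z, hz, hz'⟩ := hF.choice (P := fun z n => z < y n ∧
        VC_A θ' (fun i => (t i).1) k n (g.1 n) z) (by
      refine hF.iAnd (hF.iLt hF.fst (hF.comp' (hI.sub hy) hF.snd))
        (VC_A_inF hF θ' ht hk hF.snd (hF.comp' hgF hF.snd) hF.fst))
    have h3 : Ev (fun n => z n < y n ∧ VC_A θ' (fun i => (t i).1) k n (g.1 n) (z n)) := by
      refine (h1.and h2).mono fun n h4 => hz' n ?_
      by_contra h5
      refine h4.2 ((e n).2 ⟨y n, h4.1, fun y' hy' h6 => h5 ⟨y', hy', h6⟩⟩)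
    have hzD : z ∈ D := hI.init z hz y hy (h3.mono fun n h4 => h4.1.le)
    exact (h (cl g)).1 hm ((VC_ex hI hθ' t hk g).2 ⟨z, hzD, h3.mono fun n h4 => h4.2⟩)
  · intro hm
    by_contra h1
    have h1 : ¬ θ.ex.Sat (fun j => MS D (k j)) (push (cl g) (fun i => cl (t i))) := h1
    have h2 : θ'.ex.Sat (fun j => MS D (k j)) (push (cl g) (fun i => cl (t i))) := by
      by_contra h2
      exact h1 ((h (cl g)).2 h2)
    obtain ⟨z, hz, h3⟩ := (VC_ex hI hθ' t hk g).1 h2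
    obtain ⟨y, hy, hy'⟩ := hF.choice (P := fun y n => VC_A θ (fun i => (t i).1) k n (g.1 n) y ∧
        ∀ y', y' < y → ¬ VC_A θ' (fun i => (t i).1) k n (g.1 n) y') (by
      refine hF.iAnd (VC_A_inF hF θ ht hk hF.snd (hF.comp' hgF hF.snd) hF.fst) ?_
      exact hF.iAll (P := fun y' n => y' < n.unpair.1 → ¬ VC_A θ' (fun i => (t i).1) k
        n.unpair.2 (g.1 n.unpair.2) y') (hF.iImp (hF.iLt hF.fst
          (hF.comp' hF.fst hF.snd)) (hF.iNot (VC_A_inF hF θ' ht hk (hF.comp' hF.snd hF.snd)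
          (hF.comp' hgF (hF.comp' hF.snd hF.snd)) hF.fst))))
    have h4 : Ev (fun n => VC_A θ (fun i => (t i).1) k n (g.1 n) (y n) ∧
        ∀ y', y' < y n → ¬ VC_A θ' (fun i => (t i).1) k n (g.1 n) y') :=
      hm.mono fun n h5 => hy' n ((e n).1 h5)
    have hyD : y ∈ D := by
      refine hI.init y hy z hz ((h3.and h4).mono fun n h5 => ?_)
      by_contra h6
      exact h5.2.2 (z n) (not_le.1 h6) h5.1
    exact h1 ((VC_ex hI hθ t hk g).2 ⟨y, hyD, h4.mono fun n h5 => h5.1⟩)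

theorem isRCA0_cut [hD : DomOp D] (hI : IsInit F D) (hS : Semi F D) : IsRCA0 (St F D) where
  nonempty := ⟨_, _, hI.clone.const 0, rfl⟩
  succ_ne_zero m := by
    obtain ⟨f, rfl⟩ := cl_surj m
    rw [cl_one, cl_add, cl_zero]
    intro h
    exact ((cl_eq.1 h).mono fun n h => Nat.succ_ne_zero _ h : Ev (fun _ => False)).false
  succ_inj m m' := by
    obtain ⟨f, rfl⟩ := cl_surj m
    obtain ⟨g, rfl⟩ := cl_surj m'
    rw [cl_one, cl_add, cl_add]
    intro h
    exact cl_eq.2 ((cl_eq.1 h).mono fun n h => Nat.succ_injective h)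
  add_zero m := by
    obtain ⟨f, rfl⟩ := cl_surj m
    rw [cl_zero, cl_add]
    exact cl_eq.2 (Ev.of_all fun n => rfl)
  add_succ m m' := by
    obtain ⟨f, rfl⟩ := cl_surj m
    obtain ⟨g, rfl⟩ := cl_surj m'
    rw [cl_one, cl_add, cl_add, cl_add, cl_add]
    exact cl_eq.2 (Ev.of_all fun n => rfl)
  mul_zero m := by
    obtain ⟨f, rfl⟩ := cl_surj m
    rw [cl_zero, cl_mul]
    exact cl_eq.2 (Ev.of_all fun n => rfl)
  mul_succ m m' := by
    obtain ⟨f, rfl⟩ := cl_surj m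
    obtain ⟨g, rfl⟩ := cl_surj m'
    rw [cl_one, cl_add, cl_mul, cl_mul, cl_add]
    exact cl_eq.2 (Ev.of_all fun n => rfl)
  not_lt_zero m := by
    obtain ⟨f, rfl⟩ := cl_surj m
    rw [cl_zero, cl_lt]
    intro h
    exact (h.mono fun n h => Nat.not_lt_zero _ h : Ev (fun _ => False)).false
  lt_succ m m' := by
    obtain ⟨f, rfl⟩ := cl_surj m
    obtain ⟨g, rfl⟩ := cl_surj m'
    rw [cl_one, cl_add, cl_lt, cl_lt, cl_eq, ← Ev_or]
    have : (fun n => f.1 n < g.1 n ∨ f.1 n = g.1 n) = fun n => f.1 n < g.1 n + 1 := by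
      funext n
      apply propext
      omega
    rw [this]
  ind θ hθ V v hV h0 hs m := ind_cut hI hS θ hθ V v hV h0 hs m
  comp θ θ' hθ hθ' V v hV h := comp_cut hI θ θ' hθ hθ' V v hV h

end Kriz.PTO
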