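import Pool.Agent.Work.MP_0f6836_lc.PTO.VB
import Pool.Agent.Work.MP_0f6836_lc.PTO.UC

/-!
# Block VD: Kriz's theorem holds in the structure of a suitable cut
-/

namespace Kriz.PTO

open Kriz

variable {F D : Set (ℕ → ℕ)}

/-- all functions in `F` are refuted as bad sequences -/
def KCut (F D : Set (ℕ → ℕ)) (X : Set ℕ) (le : ℕ → ℕ → Prop) : Prop := ∀ r ∈ F,
  ∃ d ∈ D, ∃ e ∈ F, (∀ f ∈ D, Ev (fun n => f n < e n)) ∧
    Ev (fun n => Refuted X le (fun x => r (Nat.pair x n)) (d n) (e n))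

theorem VD_pr_inj {a b c d : ℕ} (h : pr a b = pr c d) : a = c ∧ b = d := by
  unfold pr at h
  have h1 : a + b = c + d := by
    rcases lt_trichotomy (a + b) (c + d) with h1 | h1 | h1
    · exfalso
      have h2 : (a + b + 1) * (a + b + 1) ≤ (c + d) * (c + d) := Nat.mul_le_mul h1 h1
      have h3 : (a + b + 1) * (a + b + 1) = (a + b) * (a + b) + 2 * (a + b) + 1 := by ring
      omega
    · exact h1
    · exfalso
      have h2 : (c + d + 1) * (c + d + 1) ≤ (a + b) * (a + b) := Nat.mul_le_mul h1 h1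
      have h3 : (c + d + 1) * (c + d + 1) = (c + d) * (c + d) + 2 * (c + d) + 1 := by ring
      omega
  rw [h1] at h
  omega

theorem VD_pr_mem (hF : IsClone F) {f g : ℕ → ℕ} (hf : f ∈ F) (hg : g ∈ F) :
    (fun n => pr (f n) (g n)) ∈ F :=
  hF.add' (hF.mul' (hF.add' hf hg) (hF.add' hf hg)) hf

theorem VD_le (hF : IsClone F) {le : ℕ → ℕ → Prop}
    (hle : InF F (fun n => le n.unpair.1 n.unpair.2)) {f g : ℕ → ℕ} (hf : f ∈ F) (hg : g ∈ F) :
    InF F (fun n => le (f n) (g n)) := by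
  have h := hF.iComp hle (hF.pair _ hf _ hg)
  simp only [Nat.unpair_pair] at h
  exact h

theorem goodIn_cut [DomOp D] (hI : IsInit F D) {X : Set ℕ} {le : ℕ → ℕ → Prop}
    (hX : InF F (fun n => n ∈ X)) (hle : InF F (fun n => le n.unpair.1 n.unpair.2))
    (hK : KCut F D X le) (T E : Set (Md D))
    (hT : ∀ f : ↥D, cl f ∈ T ↔ Ev (fun n => f.1 n ∈ X))
    (hE : ∀ f g : ↥D, Ev (fun n => le (f.1 n) (g.1 n)) → pr (cl f) (cl g) ∈ E) :
    GoodIn (St F D) T E := by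
  rintro F' ⟨h, hh, rfl⟩ hfun hFT
  have hF := hI.clone
  obtain ⟨b, hb, hbD⟩ := hI.top
  have hsnd2 : (fun n : ℕ => n.unpair.2.unpair.2) ∈ F := hF.comp' hF.snd hF.snd
  have hfst2 : (fun n : ℕ => n.unpair.2.unpair.1) ∈ F := hF.comp' hF.fst hF.snd
  have hA : ∀ {u v w : ℕ → ℕ}, u ∈ F → v ∈ F → w ∈ F →
      InF F (fun n => h (Nat.pair (pr (u n) (v n)) (w n)) = 0) := by
    intro u v w hu hv hw
    exact hF.iEq (hF.comp' hh (hF.pair _ (VD_pr_mem hF hu hv) _ hw)) (hF.const 0)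
  obtain ⟨r, hr, hr'⟩ := hF.choice (P := fun y w =>
      (h (Nat.pair (pr w.unpair.1 y) w.unpair.2) = 0 ∨
        (y = b w.unpair.2 ∧ ∀ y', ¬ h (Nat.pair (pr w.unpair.1 y') w.unpair.2) = 0)) ∧
      ∀ y', y' < y → ¬ h (Nat.pair (pr w.unpair.1 y') w.unpair.2) = 0) (by
    refine hF.iAnd (hF.iOr (hA hfst2 hF.fst hsnd2)
      (hF.iAnd (hF.iEq hF.fst (hF.comp' hb hsnd2)) ?_)) ?_
    · exact hF.iAll (P := fun y' n => ¬ h (Nat.pair (pr n.unpair.2.unpair.1 y')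
        n.unpair.2.unpair.2) = 0) (hF.iNot (hA (hF.comp' hfst2 hF.snd) hF.fst
          (hF.comp' hsnd2 hF.snd)))
    · exact hF.iAll (P := fun y' n => y' < n.unpair.1 → ¬ h (Nat.pair (pr n.unpair.2.unpair.1 y')
        n.unpair.2.unpair.2) = 0) (hF.iImp (hF.iLt hF.fst
          (hF.comp' hF.fst hF.snd)) (hF.iNot (hA (hF.comp' hfst2 hF.snd) hF.fst
          (hF.comp' hsnd2 hF.snd)))))
  have hrw : ∀ x n, (h (Nat.pair (pr x (r (Nat.pair x n))) n) = 0 ∨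
      r (Nat.pair x n) = b n) ∧ ∀ y, h (Nat.pair (pr x y) n) = 0 → r (Nat.pair x n) ≤ y := by
    intro x n
    have h1 := hr' (Nat.pair x n) (by
      simp only [Nat.unpair_pair]
      by_cases h2 : ∃ y, h (Nat.pair (pr x y) n) = 0
      · classical
        exact ⟨Nat.find h2, Or.inl (Nat.find_spec h2), fun y' hy' => Nat.find_min h2 hy'⟩
      · rw [not_exists] at h2
        exact ⟨b n, Or.inr ⟨rfl, h2⟩, fun y' _ => h2 y'⟩)
    simp only [Nat.unpair_pair] at h1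
    refine ⟨h1.1.imp id fun h => h.1, fun y hy => ?_⟩
    by_contra hlt
    exact h1.2 y (not_le.1 hlt) hy
  -- the values of the function
  have hval : ∀ x : ↥D, ∃ rx : ↥D, (∀ n, rx.1 n = r (Nat.pair (x.1 n) n)) ∧
      pr (cl x) (cl rx) ∈ MS D h := by
    intro x
    obtain ⟨z, hz, -⟩ := hfun (cl x)
    obtain ⟨g, rfl⟩ := cl_surj z
    have hz1 : pr (cl x) (cl g) ∈ MS D h := hz
    rw [cl_pr, cl_mem_MS] at hz1
    have hrx : (fun n => r (Nat.pair (x.1 n) n)) ∈ F :=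
      hF.comp' hr (hF.pair _ (hI.sub x.2) _ hF.id)
    have hle1 : Ev (fun n => r (Nat.pair (x.1 n) n) ≤ g.1 n) :=
      hz1.mono fun n h1 => (hrw (x.1 n) n).2 _ h1
    refine ⟨⟨_, hI.init _ hrx _ g.2 hle1⟩, fun n => rfl, ?_⟩
    rw [cl_pr, cl_mem_MS]
    refine (hle1.and (hbD g.1 g.2)).mono fun n h1 => ?_
    rcases (hrw (x.1 n) n).1 with h2 | h2
    · exact h2
    · have := h1.1
      have := h1.2
      omega
  obtain ⟨d, hd, e, he, heD, hRef⟩ := hK r hr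
  have hInX : ∀ {u : ℕ → ℕ}, u ∈ F → InF F (fun n => u n ∈ X) := fun hu => hF.iComp hX hu
  have hrr : ∀ {u v : ℕ → ℕ}, u ∈ F → v ∈ F → (fun n => r (Nat.pair (u n) (v n))) ∈ F :=
    fun hu hv => hF.comp' hr (hF.pair _ hu _ hv)
  obtain ⟨y, hy, hy'⟩ := hF.choice (P := fun y n => y ≤ d n ∧ (r (Nat.pair y n) ∉ X ∨
      e n ≤ r (Nat.pair y n) ∨ ∃ x, x < y ∧ le (r (Nat.pair x n)) (r (Nat.pair y n)))) (by
    refine hF.iAnd (hF.iLe hF.fst (hF.comp' (hI.sub hd) hF.snd)) (hF.iOr (hF.iNot (hInX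
      (hrr hF.fst hF.snd))) (hF.iOr (hF.iLe (hF.comp' he hF.snd) (hrr hF.fst hF.snd)) ?_))
    exact hF.iEx (P := fun x n => x < n.unpair.1 ∧ le (r (Nat.pair x n.unpair.2))
      (r (Nat.pair n.unpair.1 n.unpair.2))) (hF.iAnd (hF.iLt hF.fst hfst2)
        (VD_le hF hle (hrr hF.fst hsnd2) (hrr hfst2 hsnd2))))
  have hyE : Ev (fun n => y n ≤ d n ∧ (r (Nat.pair (y n) n) ∉ X ∨
      e n ≤ r (Nat.pair (y n) n) ∨
        ∃ x, x < y n ∧ le (r (Nat.pair x n)) (r (Nat.pair (y n) n)))) :=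
    hRef.mono fun n h1 => hy' n (by
      obtain ⟨y, h2, h3⟩ := h1
      exact ⟨y, h2, h3⟩)
  have hyD : y ∈ D := hI.init y hy d hd (hyE.mono fun n h1 => h1.1)
  obtain ⟨ry, hry, hry'⟩ := hval ⟨y, hyD⟩
  have hry1 : ∀ n, ry.1 n = r (Nat.pair (y n) n) := hry
  have hyE2 : Ev (fun n => r (Nat.pair (y n) n) ∉ X) ∨ Ev (fun n => e n ≤ r (Nat.pair (y n) n)) ∨
      Ev (fun n => ∃ x, x < y n ∧ le (r (Nat.pair x n)) (r (Nat.pair (y n) n))) := by
    rw [← Ev_or, ← Ev_or]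
    exact hyE.mono fun n h1 => h1.2
  rcases hyE2 with h1 | h1 | h1
  · exfalso
    have h2 := (hT ry).1 (hFT _ _ hry')
    exact ((h1.and h2).mono fun n h3 => h3.1 (by rw [← hry1 n]; exact h3.2) :
      Ev (fun _ => False)).false
  · exfalso
    have h2 := heD ry.1 ry.2
    exact ((h1.and h2).mono fun n h3 => by
      have h4 := h3.1
      have h5 := h3.2
      rw [hry1 n] at h5
      omega : Ev (fun _ => False)).false
  · obtain ⟨x, hx, hx'⟩ := hF.choice (P := fun x n => x < y n ∧ le (r (Nat.pair x n))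
        (r (Nat.pair (y n) n))) (hF.iAnd (hF.iLt hF.fst (hF.comp' hy hF.snd))
        (VD_le hF hle (hrr hF.fst hF.snd) (hrr (hF.comp' hy hF.snd) hF.snd)))
    have hxE := h1.mono fun n h2 => hx' n h2
    have hxD : x ∈ D := hI.init x hx y hyD (hxE.mono fun n h2 => h2.1.le)
    obtain ⟨rx, hrx, hrx'⟩ := hval ⟨x, hxD⟩
    refine ⟨cl ⟨x, hxD⟩, cl ⟨y, hyD⟩, cl rx, cl ry, ?_, hrx', hry', ?_⟩
    · rw [cl_lt]
      exact hxE.mono fun n h2 => h2.1
    · apply hE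
      refine hxE.mono fun n h2 => ?_
      rw [hrx n, hry1 n]
      exact h2.2

/-- a descending sequence. `g n k` is the `k`-th member of the `n`-th standard sequence, which is
defined as long as `p^[k] (c n) ≤ b n`. -/
theorem not_woIn_cut [DomOp D] (hI : IsInit F D) (p c b : ℕ → ℕ) (hpD : ∀ f ∈ D,
      (fun n => p (f n)) ∈ D)
    (hb : ∀ f ∈ D, Ev (fun n => f n ≤ b n)) (hit : ∀ f ∈ D, (fun n => p^[f n] (c n)) ∈ D)
    (g : ℕ → ℕ → ℕ) (hg : (fun n => g n.unpair.1 n.unpair.2) ∈ F) (O L : Set ℕ)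
    (hgO : ∀ n k, p^[k] (c n) ≤ b n → g n k ∈ O ∧ g n k ≤ p (p^[k] (c n)) ∧
      (p^[k + 1] (c n) ≤ b n → pr (g n (k + 1)) (g n k) ∈ L))
    (O' L' : Set (Md D)) (hO : ∀ f : ↥D, Ev (fun n => f.1 n ∈ O) → cl f ∈ O')
    (hL : ∀ f g : ↥D, Ev (fun n => pr (f.1 n) (g.1 n) ∈ L) → pr (cl f) (cl g) ∈ L') :
    ¬ WOIn (St F D) O' L' := by
  unfold WOIn
  rw [not_not]
  have hF := hI.clone
  have hsnd2 : (fun n : ℕ => n.unpair.2.unpair.2) ∈ F := hF.comp' hF.snd hF.snd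
  have hfst2 : (fun n : ℕ => n.unpair.2.unpair.1) ∈ F := hF.comp' hF.fst hF.snd
  have hgg : ∀ {u v : ℕ → ℕ}, u ∈ F → v ∈ F → (fun n => g (u n) (v n)) ∈ F := by
    intro u v hu hv
    have h1 := hF.comp' hg (hF.pair _ hu _ hv)
    simp only [Nat.unpair_pair] at h1
    exact h1
  have hEx : InF F (fun w => ∃ k, w.unpair.1 = pr k (g w.unpair.2 k)) :=
    hF.iEx (P := fun k w => w.unpair.1 = pr k (g w.unpair.2 k))
      (hF.iEq hfst2 (VD_pr_mem hF hF.fst (hgg hsnd2 hF.fst)))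
  classical
  have e0 : ∀ P : Prop, (if P then 0 else 1 : ℕ) = 0 ↔ P := by
    intro P
    by_cases h1 : P
    · simp [h1]
    · simp [h1]
  have hmem : ∀ x y : ↥D, pr (cl x) (cl y) ∈ MS D (fun w => if ∃ k, w.unpair.1 =
      pr k (g w.unpair.2 k) then 0 else 1) ↔ Ev (fun n => y.1 n = g n (x.1 n)) := by
    intro x y
    rw [cl_pr, cl_mem_MS]
    have : (fun n => (if ∃ k, (Nat.pair (pr (x.1 n) (y.1 n)) n).unpair.1 =
      pr k (g (Nat.pair (pr (x.1 n) (y.1 n)) n).unpair.2 k) then 0 else 1 : ℕ) = 0) =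
        fun n => y.1 n = g n (x.1 n) := by
      funext n
      rw [e0]
      simp only [Nat.unpair_pair]
      apply propext
      constructor
      · rintro ⟨k, hk⟩
        obtain ⟨rfl, h2⟩ := VD_pr_inj hk
        exact h2
      · intro h1
        exact ⟨x.1 n, by rw [h1]⟩
    rw [← this]
  have hk : ∀ x : ↥D, Ev (fun n => p^[x.1 n] (c n) ≤ b n) := fun x => hb _ (hit _ x.2)
  have hgD : ∀ x : ↥D, (fun n => g n (x.1 n)) ∈ D := by
    intro x
    refine hI.init _ (hgg hF.id (hI.sub x.2)) _ (hpD _ (hit _ x.2)) ?_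
    exact (hk x).mono fun n h1 => (hgO n _ h1).2.1
  refine ⟨_, ⟨_, hEx, rfl⟩, ?_, ?_, ?_⟩
  · intro m
    obtain ⟨x, rfl⟩ := cl_surj m
    refine ⟨cl ⟨_, hgD x⟩, (hmem x ⟨_, hgD x⟩).2 (Ev.of_all fun n => rfl), ?_⟩
    intro z hz
    obtain ⟨y, rfl⟩ := cl_surj z
    exact cl_eq.2 ((hmem x y).1 hz)
  · intro m z hz
    obtain ⟨x, rfl⟩ := cl_surj m
    obtain ⟨y, rfl⟩ := cl_surj z
    apply hO
    refine (((hmem x y).1 hz).and (hk x)).mono fun n h1 => ?_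
    rw [h1.1]
    exact (hgO n _ h1.2).1
  · intro m z w hz hw
    obtain ⟨x, rfl⟩ := cl_surj m
    obtain ⟨y, rfl⟩ := cl_surj z
    obtain ⟨y', rfl⟩ := cl_surj w
    apply hL
    rw [cl_one, cl_add] at hw
    have h2 := (hmem _ y').1 hw
    have h3 := hk ⟨fun n => x.1 n + 1, DomOp.add _ x.2 _ DomOp.one⟩
    refine ((((hmem x y).1 hz).and h2).and ((hk x).and h3)).mono fun n h1 => ?_
    have h4 : y.1 n = g n (x.1 n) := h1.1.1
    have h5 : y'.1 n = g n (x.1 n + 1) := h1.1.2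
    rw [h4, h5]
    exact (hgO n _ h1.2.1).2.2 h1.2.2

end Kriz.PTO
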