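import Pool.Agent.Work.MP_0f6836_lc.PTO.VC
import Pool.Agent.Work.MP_0f6836_lc.PTO.VD
import Pool.Agent.Work.MP_0f6836_lc.PTO.UD

/-!
# Block VX1: one step of the construction of the cut
-/

namespace Kriz.PTO

open Kriz

/-- the data for the construction of the cut -/
structure CutData (s : Scale) (F : Set (ℕ → ℕ)) (X : Set ℕ) (le : ℕ → ℕ → Prop) : Type 1 where
  clone : IsClone F
  count : F.Countable
  rk : Rk s X le
  hX : InF F (fun n => n ∈ X)
  hle : InF F (fun n => le n.unpair.1 n.unpair.2)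
  hp : s.p ∈ F
  hp2 : (fun n => s.p^[n.unpair.1] n.unpair.2) ∈ F
  hLg : InF F (fun n => s.Lg (s.K ^ n.unpair.1) n.unpair.2.unpair.1 n.unpair.2.unpair.2)
  hsq : ∀ n, n * n ≤ s.p n

/-- a state of the construction -/
structure State (s : Scale) (F : Set (ℕ → ℕ)) (lo hi m : ℕ → ℕ) : Prop where
  lo_mem : lo ∈ F
  hi_mem : hi ∈ F
  m_mem : m ∈ F
  lg : Ev (fun n => s.Lg (s.K ^ m n) (lo n) (hi n))
  ge : Ev (fun n => m n ≤ lo n)
  inf : ∀ k : ℕ, Ev (fun n => k < m n)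

theorem vx1_iter_mono (s : Scale) {a b i j : ℕ} (hab : a ≤ b) (hij : i ≤ j) :
    s.p^[i] a ≤ s.p^[j] b := by
  have h1 : s.p^[i] a ≤ s.p^[j] a :=
    Monotone.monotone_iterate_of_le_map s.mono (by have := s.gt a; omega) hij
  exact h1.trans (s.mono.iterate j hab)

theorem vx1_iter_le (s : Scale) (a i : ℕ) : a ≤ s.p^[i] a :=
  vx1_iter_mono s (le_refl a) (Nat.zero_le i)

section

variable {s : Scale} {F : Set (ℕ → ℕ)} {X : Set ℕ} {le : ℕ → ℕ → Prop}

theorem vx1_iLg (hC : CutData s F X le) {f g h : ℕ → ℕ} (hf : f ∈ F) (hg : g ∈ F) (hh : h ∈ F) :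
    InF F (fun n => s.Lg (s.K ^ f n) (g n) (h n)) := by
  have h1 := hC.clone.iComp hC.hLg (hC.clone.pair f hf _ (hC.clone.pair g hg h hh))
  simpa only [Nat.unpair_pair] using h1

theorem vx1_iter (hC : CutData s F X le) {f g : ℕ → ℕ} (hf : f ∈ F) (hg : g ∈ F) :
    (fun n => s.p^[f n] (g n)) ∈ F := by
  have h1 := hC.clone.comp' hC.hp2 (hC.clone.pair f hf g hg)
  simpa only [Nat.unpair_pair] using h1

theorem vx1_iX (hC : CutData s F X le) {f : ℕ → ℕ} (hf : f ∈ F) : InF F (fun n => f n ∈ X) :=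
  hC.clone.iComp hC.hX hf

theorem vx1_ile (hC : CutData s F X le) {f g : ℕ → ℕ} (hf : f ∈ F) (hg : g ∈ F) :
    InF F (fun n => le (f n) (g n)) := by
  have h1 := hC.clone.iComp hC.hle (hC.clone.pair f hf g hg)
  simpa only [Nat.unpair_pair] using h1

/-- refutation, with the number of the coordinate `u n` -/
theorem vx1_iRef (hC : CutData s F X le) {r a b u : ℕ → ℕ} (hr : r ∈ F) (ha : a ∈ F) (hb : b ∈ F)
    (hu : u ∈ F) :
    InF F (fun n => Refuted X le (fun x => r (Nat.pair x (u n))) (a n) (b n)) := by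
  have hF := hC.clone
  have e1 : (fun q : ℕ => q.unpair.1) ∈ F := hF.fst
  have e2 : (fun q : ℕ => q.unpair.2) ∈ F := hF.snd
  have e22 : (fun q : ℕ => q.unpair.2.unpair.2) ∈ F := hF.comp' hF.snd hF.snd
  have e21 : (fun q : ℕ => q.unpair.2.unpair.1) ∈ F := hF.comp' hF.fst hF.snd
  unfold Refuted
  refine hF.iEx (P := fun y n => y ≤ a n ∧ (r (Nat.pair y (u n)) ∉ X ∨ b n ≤ r (Nat.pair y (u n))
    ∨ ∃ x < y, le (r (Nat.pair x (u n))) (r (Nat.pair y (u n))))) ?_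
  have hry : (fun q : ℕ => r (Nat.pair q.unpair.1 (u q.unpair.2))) ∈ F :=
    hF.comp' hr (hF.pair _ e1 _ (hF.comp' hu e2))
  refine hF.iAnd (hF.iLe e1 (hF.comp' ha e2)) (hF.iOr (hF.iNot (vx1_iX hC hry))
    (hF.iOr (hF.iLe (hF.comp' hb e2) hry) ?_))
  refine hF.iEx (P := fun x q => x < q.unpair.1 ∧
    le (r (Nat.pair x (u q.unpair.2))) (r (Nat.pair q.unpair.1 (u q.unpair.2)))) ?_
  have hrx : (fun q : ℕ => r (Nat.pair q.unpair.1 (u q.unpair.2.unpair.2))) ∈ F :=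
    hF.comp' hr (hF.pair _ e1 _ (hF.comp' hu e22))
  have hry2 : (fun q : ℕ => r (Nat.pair q.unpair.2.unpair.1 (u q.unpair.2.unpair.2))) ∈ F :=
    hF.comp' hr (hF.pair _ e21 _ (hF.comp' hu e22))
  exact hF.iAnd (hF.iLt e1 e21) (vx1_ile hC hrx hry2)

/-- the step for one `n` -/
theorem vx1_point (hC : CutData s F X le) (H : ℕ → ℕ) {lo hi m : ℕ}
    (h : s.Lg (s.K ^ m) lo hi) (hm : m ≤ lo) (h9 : 9 ≤ m) :
    ∃ lo' hi', s.Lg (s.K ^ (m - 9)) lo' hi' ∧ hi' ≤ hi ∧ s.p^[lo] lo ≤ lo' ∧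
      Refuted X le H lo' hi' ∧ ∀ x ≤ lo, H x ≤ lo' ∨ hi' ≤ H x := by
  have e3 : m - 3 + 3 = m := by omega
  have e6 : m - 6 + 3 = m - 3 := by omega
  have e9 : m - 9 + 3 = m - 6 := by omega
  obtain ⟨a1, b1, h1, h2, h3, h4⟩ := kriz_step hC.rk H (m := m - 3) (a := lo) (b := hi)
    (by rw [e3]; exact h) (by omega)
  obtain ⟨a2, b2, k1, k2, k3, k4⟩ := semi_step H (m := m - 6) (a := a1) (b := b1)
    (by rw [e6]; exact h3) (by omega)
  have k5 := iter_step (m := m - 9) (a := a2) (b := b2) (by rw [e9]; exact k3) (by omega)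
  refine ⟨s.p^[a2] a2, b2, k5, k2.trans h2, ?_, ?_, ?_⟩
  · exact vx1_iter_mono s (h1.trans k1) (h1.trans k1)
  · exact h4.mono (k1.trans (vx1_iter_le s a2 a2)) k2
  · intro x hx
    rcases k4 x (hx.trans h1) with h5 | h5
    · exact Or.inl (h5.trans (vx1_iter_le s a2 a2))
    · exact Or.inr h5

end

/-- One step: the state is refined so that `r` is refuted as a bad sequence, semiregularity holds
for `r` and the old left end, and the iterate `p^[lo] lo` is below the new left end. Apply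
`kriz_step`, `semi_step` and `iter_step` for each `n`, with least witnesses
(`IsClone.choice`). -/
theorem state_step {s : Scale} {F : Set (ℕ → ℕ)} {X : Set ℕ} {le : ℕ → ℕ → Prop}
    (hC : CutData s F X le) {lo hi m : ℕ → ℕ} (hS : State s F lo hi m) (r : ℕ → ℕ) (hr : r ∈ F) :
    ∃ lo' hi' m', State s F lo' hi' m' ∧ Ev (fun n => hi' n ≤ hi n) ∧
      Ev (fun n => s.p^[lo n] (lo n) ≤ lo' n) ∧
      Ev (fun n => Refuted X le (fun x => r (Nat.pair x n)) (lo' n) (hi' n)) ∧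
      Ev (fun n => ∀ x ≤ lo n, r (Nat.pair x n) ≤ lo' n ∨ hi' n ≤ r (Nat.pair x n)) := by
  have hF := hC.clone
  have e1 : (fun q : ℕ => q.unpair.1) ∈ F := hF.fst
  have e2 : (fun q : ℕ => q.unpair.2) ∈ F := hF.snd
  have e22 : (fun q : ℕ => q.unpair.2.unpair.2) ∈ F := hF.comp' hF.snd hF.snd
  have e21 : (fun q : ℕ => q.unpair.2.unpair.1) ∈ F := hF.comp' hF.fst hF.snd
  have e11 : (fun q : ℕ => q.unpair.1.unpair.1) ∈ F := hF.comp' hF.fst hF.fst
  have e12 : (fun q : ℕ => q.unpair.1.unpair.2) ∈ F := hF.comp' hF.snd hF.fst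
  have e121 : (fun q : ℕ => q.unpair.1.unpair.2.unpair.1) ∈ F := hF.comp' hF.fst e12
  have e122 : (fun q : ℕ => q.unpair.1.unpair.2.unpair.2) ∈ F := hF.comp' hF.snd e12
  -- the new data `w = (lo', (hi', m'))`
  obtain ⟨f, hf, hfP⟩ := hF.choice (P := fun w n => w.unpair.2.unpair.2 + 9 = m n ∧
    s.Lg (s.K ^ w.unpair.2.unpair.2) w.unpair.1 w.unpair.2.unpair.1 ∧
    w.unpair.2.unpair.1 ≤ hi n ∧ s.p^[lo n] (lo n) ≤ w.unpair.1 ∧
    Refuted X le (fun x => r (Nat.pair x n)) w.unpair.1 w.unpair.2.unpair.1 ∧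
    ∀ x, x ≤ lo n → (r (Nat.pair x n) ≤ w.unpair.1 ∨ w.unpair.2.unpair.1 ≤ r (Nat.pair x n))) (by
      refine hF.iAnd (hF.iEq (hF.add' e122 (hF.const 9)) (hF.comp' hS.m_mem e2)) ?_
      refine hF.iAnd (vx1_iLg hC e122 e11 e121) ?_
      refine hF.iAnd (hF.iLe e121 (hF.comp' hS.hi_mem e2)) ?_
      refine hF.iAnd (hF.iLe (vx1_iter hC (hF.comp' hS.lo_mem e2) (hF.comp' hS.lo_mem e2)) e11) ?_
      refine hF.iAnd (vx1_iRef hC hr e11 e121 e2) ?_
      refine hF.iAll (P := fun x q => x ≤ lo q.unpair.2 → (r (Nat.pair x q.unpair.2) ≤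
        q.unpair.1.unpair.1 ∨ q.unpair.1.unpair.2.unpair.1 ≤ r (Nat.pair x q.unpair.2))) ?_
      have hrx : (fun q : ℕ => r (Nat.pair q.unpair.1 q.unpair.2.unpair.2)) ∈ F :=
        hF.comp' hr (hF.pair _ e1 _ e22)
      refine hF.iImp (hF.iLe e1 (hF.comp' hS.lo_mem e22)) (hF.iOr (hF.iLe hrx ?_)
        (hF.iLe ?_ hrx))
      · exact hF.comp' hF.fst e21
      · exact hF.comp' hF.fst (hF.comp' hF.snd e21))
  -- the conditions hold eventually
  have hev : Ev (fun n => (f n).unpair.2.unpair.2 + 9 = m n ∧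
    s.Lg (s.K ^ (f n).unpair.2.unpair.2) (f n).unpair.1 (f n).unpair.2.unpair.1 ∧
    (f n).unpair.2.unpair.1 ≤ hi n ∧ s.p^[lo n] (lo n) ≤ (f n).unpair.1 ∧
    Refuted X le (fun x => r (Nat.pair x n)) (f n).unpair.1 (f n).unpair.2.unpair.1 ∧
    ∀ x, x ≤ lo n → (r (Nat.pair x n) ≤ (f n).unpair.1 ∨
      (f n).unpair.2.unpair.1 ≤ r (Nat.pair x n))) := by
    refine ((hS.lg.and hS.ge).and (hS.inf 8)).mono ?_
    rintro n ⟨⟨h1, h2⟩, h3⟩
    apply hfP n
    obtain ⟨lo', hi', k1, k2, k3, k4, k5⟩ := vx1_point hC (fun x => r (Nat.pair x n)) h1 h2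
      (by omega)
    refine ⟨Nat.pair lo' (Nat.pair hi' (m n - 9)), ?_⟩
    simp only [Nat.unpair_pair]
    exact ⟨by omega, k1, k2, k3, k4, k5⟩
  refine ⟨fun n => (f n).unpair.1, fun n => (f n).unpair.2.unpair.1,
    fun n => (f n).unpair.2.unpair.2, ⟨hF.comp' hF.fst hf, hF.comp' e21 hf, hF.comp' e22 hf,
    hev.mono fun n h => h.2.1, ?_, ?_⟩, hev.mono fun n h => h.2.2.1, hev.mono fun n h => h.2.2.2.1,
    hev.mono fun n h => h.2.2.2.2.1, hev.mono fun n h => h.2.2.2.2.2⟩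
  · refine (hev.and hS.ge).mono ?_
    rintro n ⟨h1, h2⟩
    have h3 := h1.2.2.2.1
    have h4 := vx1_iter_le s (lo n) (lo n)
    have h5 := h1.1
    show (f n).unpair.2.unpair.2 ≤ (f n).unpair.1
    omega
  · intro k
    refine (hev.and (hS.inf (k + 9))).mono ?_
    rintro n ⟨h1, h2⟩
    have h5 := h1.1
    show k < (f n).unpair.2.unpair.2
    omega

end Kriz.PTO
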