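import Pool.Agent.Work.MP_0f6836_lc.PTO.VX1

/-!
# Block VX2: existence of the cut
-/

namespace Kriz.PTO

open Kriz

section

variable {s : Scale} {F : Set (ℕ → ℕ)} {X : Set ℕ} {le : ℕ → ℕ → Prop}

/-- the states of the construction, as a type -/
def VX2State (s : Scale) (F : Set (ℕ → ℕ)) : Type :=
  {t : (ℕ → ℕ) × (ℕ → ℕ) × (ℕ → ℕ) // State s F t.1 t.2.1 t.2.2}

/-- the sequence of states -/
theorem vx2_seq (hC : CutData s F X le) {c b : ℕ → ℕ} (h0 : State s F c b (fun n => n))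
    (e : ℕ → ℕ → ℕ) (he : ∀ k, e k ∈ F) :
    ∃ lo hi m : ℕ → ℕ → ℕ, lo 0 = c ∧ hi 0 = b ∧ ∀ k, State s F (lo k) (hi k) (m k) ∧
      Ev (fun n => hi (k + 1) n ≤ hi k n) ∧
      Ev (fun n => s.p^[lo k n] (lo k n) ≤ lo (k + 1) n) ∧
      Ev (fun n => Refuted X le (fun x => e k (Nat.pair x n)) (lo (k + 1) n) (hi (k + 1) n)) ∧
      Ev (fun n => ∀ x ≤ lo k n, e k (Nat.pair x n) ≤ lo (k + 1) n ∨
        hi (k + 1) n ≤ e k (Nat.pair x n)) := by
  have hstep : ∀ (k : ℕ) (t : VX2State s F), ∃ t' : VX2State s F,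
      Ev (fun n => t'.1.2.1 n ≤ t.1.2.1 n) ∧
      Ev (fun n => s.p^[t.1.1 n] (t.1.1 n) ≤ t'.1.1 n) ∧
      Ev (fun n => Refuted X le (fun x => e k (Nat.pair x n)) (t'.1.1 n) (t'.1.2.1 n)) ∧
      Ev (fun n => ∀ x ≤ t.1.1 n, e k (Nat.pair x n) ≤ t'.1.1 n ∨
        t'.1.2.1 n ≤ e k (Nat.pair x n)) := by
    intro k t
    obtain ⟨lo', hi', m', h1, h2, h3, h4, h5⟩ := state_step hC t.2 (e k) (he k)
    exact ⟨⟨(lo', hi', m'), h1⟩, h2, h3, h4, h5⟩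
  choose nx hnx using hstep
  let σ : ℕ → VX2State s F := fun k => Nat.rec ⟨(c, b, fun n => n), h0⟩ (fun k t => nx k t) k
  have hσ0 : σ 0 = ⟨(c, b, fun n => n), h0⟩ := rfl
  have hσ : ∀ k, σ (k + 1) = nx k (σ k) := fun k => rfl
  refine ⟨fun k => (σ k).1.1, fun k => (σ k).1.2.1, fun k => (σ k).1.2.2, ?_, ?_, ?_⟩
  · show (σ 0).1.1 = c
    rw [hσ0]
  · show (σ 0).1.2.1 = b
    rw [hσ0]
  · intro k
    have h1 := hnx k (σ k)
    rw [← hσ k] at h1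
    exact ⟨(σ k).2, h1.1, h1.2.1, h1.2.2.1, h1.2.2.2⟩

end

/-- Enumerate `F` so that every `r ∈ F` occurs infinitely often and iterate `state_step`, starting
from `lo = c`, `hi = b`, `m n = n`; `D` is the set of all functions in `F` that are eventually
below one of the left ends. -/
theorem exists_cut {s : Scale} {F : Set (ℕ → ℕ)} {X : Set ℕ} {le : ℕ → ℕ → Prop}
    (hC : CutData s F X le) {c b : ℕ → ℕ} (hc : c ∈ F) (hb : b ∈ F)
    (hL : ∀ n, s.Lg (s.K ^ n) (c n) (b n)) (hcn : ∀ n, n ≤ c n) :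
    ∃ D : Set (ℕ → ℕ), DomOp D ∧ IsInit F D ∧ Semi F D ∧ KCut F D X le ∧
      (∀ f ∈ D, (fun n => s.p (f n)) ∈ D) ∧ (∀ f ∈ D, Ev (fun n => f n < b n)) ∧
      ∀ f ∈ D, (fun n => s.p^[f n] (c n)) ∈ D := by
  have hF := hC.clone
  have h0 : State s F c b (fun n => n) := ⟨hc, hb, hF.id, Ev.of_all hL, Ev.of_all hcn, Ev_lt⟩
  -- enumeration
  obtain ⟨e0, he0⟩ := hC.count.exists_eq_range ⟨_, hF.id⟩
  obtain ⟨lo, hi, m, hlo0, hhi0, hst⟩ := vx2_seq hC h0 (fun k => e0 k.unpair.1)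
    (fun k => by rw [he0]; exact ⟨_, rfl⟩)
  have hinf : ∀ r ∈ F, ∀ j : ℕ, ∃ k, j ≤ k ∧ e0 k.unpair.1 = r := by
    intro r hr j
    rw [he0] at hr
    obtain ⟨i, hi⟩ := hr
    refine ⟨Nat.pair i j, Nat.right_le_pair i j, ?_⟩
    rw [Nat.unpair_pair]
    exact hi
  -- monotonicity
  have hlo1 : ∀ k, Ev (fun n => lo k n ≤ lo (k + 1) n) := fun k =>
    (hst k).2.2.1.mono fun n h => (vx1_iter_le s _ _).trans h
  have hpos : ∀ k, Ev (fun n => 0 < lo k n) := fun k =>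
    (((hst k).1.inf 0).and (hst k).1.ge).mono fun n h => lt_of_lt_of_le h.1 h.2
  have hp1 : ∀ k, Ev (fun n => s.p (lo k n) ≤ lo (k + 1) n) := fun k =>
    ((hpos k).and (hst k).2.2.1).mono fun n h =>
      (vx1_iter_mono s (le_refl (lo k n)) (i := 1) (j := lo k n) h.1).trans h.2
  have hlo : ∀ j k, j ≤ k → Ev (fun n => lo j n ≤ lo k n) := by
    intro j k hjk
    induction k, hjk using Nat.le_induction with
    | base => exact Ev.of_all fun n => le_rfl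
    | succ k _ ih => exact (ih.and (hlo1 k)).mono fun n h => h.1.trans h.2
  have hhi : ∀ j k, j ≤ k → Ev (fun n => hi k n ≤ hi j n) := by
    intro j k hjk
    induction k, hjk using Nat.le_induction with
    | base => exact Ev.of_all fun n => le_rfl
    | succ k _ ih => exact (ih.and (hst k).2.1).mono fun n h => h.2.trans h.1
  have hlt : ∀ j k, Ev (fun n => lo j n < hi k n) := by
    intro j k
    have h1 := hlo j (max j k) (le_max_left j k)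
    have h2 := hp1 (max j k)
    have h3 := (hst (max j k + 1)).1.lg
    have h4 := hhi k (max j k + 1) ((le_max_right j k).trans (Nat.le_succ _))
    refine ((h1.and h2).and (h3.and h4)).mono ?_
    rintro n ⟨⟨k1, k2⟩, k3, k4⟩
    have k5 := k3.le
    have k6 := s.gt (lo (max j k) n)
    omega
  -- the cut
  obtain ⟨D, hD⟩ : ∃ D : Set (ℕ → ℕ), ∀ f, f ∈ D ↔ f ∈ F ∧ ∃ k, Ev (fun n => f n ≤ lo k n) :=
    ⟨{f | f ∈ F ∧ ∃ k, Ev (fun n => f n ≤ lo k n)}, fun f => Iff.rfl⟩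
  have hDlo : ∀ k, lo k ∈ D := fun k => (hD _).2 ⟨(hst k).1.lo_mem, k, Ev.of_all fun n => le_rfl⟩
  have hDhi : ∀ k, ∀ f ∈ D, Ev (fun n => f n < hi k n) := by
    intro k f hf
    obtain ⟨_, j, hj⟩ := (hD f).1 hf
    exact (hj.and (hlt j k)).mono fun n h => lt_of_le_of_lt h.1 h.2
  have hDle : ∀ f ∈ F, ∀ k, Ev (fun n => f n ≤ s.p^[lo k n] (lo k n)) → f ∈ D := by
    intro f hf k h
    exact (hD f).2 ⟨hf, k + 1, (h.and (hst k).2.2.1).mono fun n h => h.1.trans h.2⟩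
  have hDp : ∀ f ∈ F, ∀ k, Ev (fun n => f n ≤ s.p (lo k n)) → f ∈ D := by
    intro f hf k h
    exact (hD f).2 ⟨hf, k + 1, (h.and (hp1 k)).mono fun n h => h.1.trans h.2⟩
  have htwo : ∀ f ∈ D, ∀ g ∈ D, ∃ k, Ev (fun n => f n ≤ lo k n ∧ g n ≤ lo k n) := by
    intro f hf g hg
    obtain ⟨_, i, hi⟩ := (hD f).1 hf
    obtain ⟨_, j, hj⟩ := (hD g).1 hg
    refine ⟨max i j, ?_⟩
    exact ((hi.and hj).and ((hlo i _ (le_max_left i j)).and (hlo j _ (le_max_right i j)))).mono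
      fun n h => ⟨h.1.1.trans h.2.1, h.1.2.trans h.2.2⟩
  refine ⟨D, ⟨?_, ?_, ?_, ?_⟩, ⟨hF, fun f hf => ((hD f).1 hf).1, ?_, ⟨b, hb, ?_⟩⟩, ?_, ?_, ?_, ?_,
    ?_⟩
  · exact (hD _).2 ⟨hF.const 0, 0, Ev.of_all fun n => Nat.zero_le _⟩
  · exact (hD _).2 ⟨hF.const 1, 0, hpos 0⟩
  · intro f hf g hg
    obtain ⟨k, hk⟩ := htwo f hf g hg
    refine hDp _ (hF.add' ((hD f).1 hf).1 ((hD g).1 hg).1) k (hk.mono fun n h => ?_)
    have := s.gt (lo k n)
    omega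
  · intro f hf g hg
    obtain ⟨k, hk⟩ := htwo f hf g hg
    refine hDp _ (hF.mul' ((hD f).1 hf).1 ((hD g).1 hg).1) k (hk.mono fun n h => ?_)
    exact (Nat.mul_le_mul h.1 h.2).trans (hC.hsq _)
  · intro f hf g hg hfg
    obtain ⟨_, k, hk⟩ := (hD g).1 hg
    exact (hD f).2 ⟨hf, k, (hfg.and hk).mono fun n h => h.1.trans h.2⟩
  · intro f hf
    rw [← hhi0]
    exact hDhi 0 f hf
  · -- semiregularity
    intro r hr a ha
    obtain ⟨_, j, hj⟩ := (hD a).1 ha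
    obtain ⟨k, hjk, hk⟩ := hinf r hr j
    refine ⟨lo (k + 1), hDlo _, hi (k + 1), (hst (k + 1)).1.hi_mem, hDhi _, ?_⟩
    refine ((hst k).2.2.2.2.and (hj.and (hlo j k hjk))).mono ?_
    rintro n ⟨h1, h2, h3⟩ x hx
    have h4 := h1 x (hx.trans (h2.trans h3))
    simp only [hk] at h4
    exact h4
  · -- no bad sequences
    intro r hr
    obtain ⟨k, _, hk⟩ := hinf r hr 0
    refine ⟨lo (k + 1), hDlo _, hi (k + 1), (hst (k + 1)).1.hi_mem, hDhi _, ?_⟩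
    have h1 := (hst k).2.2.2.1
    simp only [hk] at h1
    exact h1
  · intro f hf
    obtain ⟨hfF, k, hk⟩ := (hD f).1 hf
    exact hDp _ (hF.comp' hC.hp hfF) k (hk.mono fun n h => s.mono h)
  · intro f hf
    rw [← hhi0]
    exact hDhi 0 f hf
  · intro f hf
    obtain ⟨hfF, k, hk⟩ := (hD f).1 hf
    refine hDle _ (vx1_iter hC hfF hc) k ?_
    refine (hk.and (hlo 0 k (Nat.zero_le k))).mono ?_
    rintro n ⟨h1, h2⟩
    rw [hlo0] at h2
    exact vx1_iter_mono s h2 h1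

end Kriz.PTO
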